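import Pool.Agent.MP_36f78e_lc.H46.Spec

/-! Basic facts on quadratic forms, local operators and Pauli operators. -/

set_option linter.unusedSectionVars false

namespace Pool.Agent.MP_36f78e_lc.H46

open Matrix Finset
open scoped ComplexOrder

section QF

variable {Y Y' : Type} [Fintype Y] [Fintype Y']

theorem nsq_nonneg (v : Y → ℂ) : 0 ≤ nsq v := sum_nonneg fun _ _ => sq_nonneg _

theorem nsq_eq_zero {v : Y → ℂ} : nsq v = 0 ↔ v = 0 := by
  rw [nsq, sum_eq_zero_iff_of_nonneg fun _ _ => sq_nonneg _]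
  simp [funext_iff]

theorem nsq_pos {v : Y → ℂ} (h : v ≠ 0) : 0 < nsq v :=
  lt_of_le_of_ne (nsq_nonneg v) fun h' => h (nsq_eq_zero.1 h'.symm)

theorem nsq_eq (v : Y → ℂ) : star v ⬝ᵥ v = (nsq v : ℂ) := by
  simp only [nsq, dotProduct, Pi.star_apply, Complex.ofReal_sum, Complex.ofReal_pow]
  refine sum_congr rfl fun y _ => ?_
  rw [Complex.star_def, Complex.conj_mul']

theorem qf_one [DecidableEq Y] (v : Y → ℂ) : qf 1 v = nsq v := by
  rw [qf, one_mulVec, nsq_eq, Complex.ofReal_re]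

theorem qf_zero (v : Y → ℂ) : qf 0 v = 0 := by simp [qf]

theorem qf_zero_vec (A : Matrix Y Y ℂ) : qf A 0 = 0 := by simp [qf]

theorem qf_add (A B : Matrix Y Y ℂ) (v : Y → ℂ) : qf (A + B) v = qf A v + qf B v := by
  simp [qf, add_mulVec]

theorem qf_sub (A B : Matrix Y Y ℂ) (v : Y → ℂ) : qf (A - B) v = qf A v - qf B v := by
  simp [qf, sub_mulVec]

theorem qf_sum {I : Type*} (s : Finset I) (A : I → Matrix Y Y ℂ) (v : Y → ℂ) :
    qf (∑ i ∈ s, A i) v = ∑ i ∈ s, qf (A i) v := by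
  classical
  induction s using Finset.induction_on with
  | empty => simp [qf_zero]
  | insert a s ha ih => rw [sum_insert ha, sum_insert ha, qf_add, ih]

theorem qf_smul (r : ℝ) (A : Matrix Y Y ℂ) (v : Y → ℂ) : qf ((r : ℂ) • A) v = r * qf A v := by
  simp [qf, smul_mulVec]

theorem qf_conj (U : Matrix Y Y' ℂ) (A : Matrix Y Y ℂ) (v : Y' → ℂ) :
    qf (Uᴴ * A * U) v = qf A (U *ᵥ v) := by
  rw [qf, qf, star_mulVec, ← mulVec_mulVec, ← mulVec_mulVec, dotProduct_mulVec]

theorem qf_nonneg {A : Matrix Y Y ℂ} (h : A.PosSemidef) (v : Y → ℂ) : 0 ≤ qf A v :=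
  (Complex.nonneg_iff.1 (h.dotProduct_mulVec_nonneg v)).1

theorem qf_le_nsq [DecidableEq Y] {A : Matrix Y Y ℂ} (h : (1 - A).PosSemidef) (v : Y → ℂ) :
    qf A v ≤ nsq v := by
  have := qf_nonneg h v
  rw [qf_sub, qf_one] at this
  linarith

theorem qf_par (A : Matrix Y Y ℂ) (u v : Y → ℂ) :
    qf A (u + v) + qf A (u - v) = 2 * qf A u + 2 * qf A v := by
  simp only [qf, star_add, star_sub, mulVec_add, mulVec_sub, add_dotProduct, sub_dotProduct,
    dotProduct_add, dotProduct_sub, Complex.add_re, Complex.sub_re]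
  ring

theorem nsq_par (u v : Y → ℂ) : nsq (u + v) + nsq (u - v) = 2 * nsq u + 2 * nsq v := by
  classical
  simpa only [qf_one] using qf_par (1 : Matrix Y Y ℂ) u v

theorem qf_add_le {A : Matrix Y Y ℂ} (h : A.PosSemidef) (u v : Y → ℂ) :
    qf A (u + v) ≤ 2 * qf A u + 2 * qf A v := by
  have := qf_par A u v
  have := qf_nonneg h (u - v)
  linarith

theorem nsq_add_le (u v : Y → ℂ) : nsq (u + v) ≤ 2 * nsq u + 2 * nsq v := by
  have := nsq_par u v
  have := nsq_nonneg (u - v)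
  linarith

theorem qf_smul_vec (A : Matrix Y Y ℂ) (c : ℂ) (v : Y → ℂ) :
    qf A (c • v) = ‖c‖ ^ 2 * qf A v := by
  rw [qf, qf, star_smul, mulVec_smul, smul_dotProduct, dotProduct_smul, smul_smul,
    Complex.star_def, Complex.conj_mul', smul_eq_mul, ← Complex.ofReal_pow, Complex.re_ofReal_mul]

theorem nsq_smul (c : ℂ) (v : Y → ℂ) : nsq (c • v) = ‖c‖ ^ 2 * nsq v := by
  classical
  simpa only [qf_one] using qf_smul_vec (1 : Matrix Y Y ℂ) c v

theorem nsq_mulVec (U : Matrix Y Y' ℂ) (v : Y' → ℂ) : nsq (U *ᵥ v) = qf (Uᴴ * U) v := by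
  classical
  rw [← qf_one, ← qf_conj, Matrix.mul_one]

theorem nsq_unitary [DecidableEq Y] {U : Matrix Y Y ℂ} (h : U ∈ unitaryGroup Y ℂ) (v : Y → ℂ) :
    nsq (U *ᵥ v) = nsq v := by
  rw [nsq_mulVec, ← star_eq_conjTranspose, (mem_unitaryGroup_iff').1 h, qf_one]

theorem Proj.posSemidef {A : Matrix Y Y ℂ} (h : Proj A) : A.PosSemidef := by
  have := posSemidef_conjTranspose_mul_self A
  rwa [h.1, h.2] at this

theorem Proj.one_sub [DecidableEq Y] {A : Matrix Y Y ℂ} (h : Proj A) : Proj (1 - A) :=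
  ⟨by simp [h.1], by simp [Matrix.mul_sub, Matrix.sub_mul, h.2]⟩

theorem Proj.qf_eq {A : Matrix Y Y ℂ} (h : Proj A) (v : Y → ℂ) : qf A v = nsq (A *ᵥ v) := by
  rw [nsq_mulVec, h.1, h.2]

theorem Proj.nsq_split {A : Matrix Y Y ℂ} (h : Proj A) (v : Y → ℂ) :
    nsq (A *ᵥ v) + nsq (v - A *ᵥ v) = nsq v := by
  classical
  have h1 := h.one_sub.qf_eq v
  rw [sub_mulVec, one_mulVec, qf_sub, qf_one, h.qf_eq] at h1
  linarith

theorem Proj.conj [DecidableEq Y] {A : Matrix Y Y ℂ} (h : Proj A) {U : Matrix Y' Y ℂ}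
    (hU : Uᴴ * U = 1) : Proj (U * A * Uᴴ) := by
  refine ⟨by simp [h.1, Matrix.mul_assoc], ?_⟩
  rw [Matrix.mul_assoc (U * A), ← Matrix.mul_assoc Uᴴ, ← Matrix.mul_assoc Uᴴ, hU, Matrix.one_mul,
    ← Matrix.mul_assoc, Matrix.mul_assoc U, h.2]

end QF

section Loc

variable {ι : Type} [Fintype ι] [DecidableEq ι]

omit [Fintype ι] [DecidableEq ι] in
theorem Loc.mono {S T : Finset ι} {A : Op ι} (h : Loc S A) (hST : S ⊆ T) : Loc T A :=
  ⟨fun x y hxy i hi => h.1 x y hxy i fun h' => hi (hST h'),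
    fun u hu => h.2 u fun i hi => hu i (hST hi)⟩

theorem Loc.one (S : Finset ι) : Loc S (1 : Op ι) :=
  ⟨fun x y hxy i _ => by
    by_contra h
    exact hxy (one_apply_ne fun h' => h (congrFun h' i)),
    fun u _ x y => by simp [one_apply]⟩

omit [Fintype ι] [DecidableEq ι] in
theorem Loc.zero (S : Finset ι) : Loc S (0 : Op ι) :=
  ⟨fun _ _ hxy => (hxy rfl).elim, fun _ _ _ _ => rfl⟩

omit [Fintype ι] [DecidableEq ι] in
theorem Loc.add {S : Finset ι} {A B : Op ι} (hA : Loc S A) (hB : Loc S B) : Loc S (A + B) :=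
  ⟨fun x y hxy i hi => by
    by_cases h : A x y = 0
    · exact hB.1 x y (fun h' => hxy (by simp [h, h'])) i hi
    · exact hA.1 x y h i hi,
    fun u hu x y => by simp only [Matrix.add_apply, hA.2 u hu, hB.2 u hu]⟩

omit [Fintype ι] [DecidableEq ι] in
theorem Loc.smul {S : Finset ι} {A : Op ι} (hA : Loc S A) (c : ℂ) : Loc S (c • A) :=
  ⟨fun x y hxy i hi => hA.1 x y (fun h' => hxy (by simp [h'])) i hi,
    fun u hu x y => by simp only [Matrix.smul_apply, hA.2 u hu]⟩

omit [Fintype ι] [DecidableEq ι] in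
theorem Loc.sub {S : Finset ι} {A B : Op ι} (hA : Loc S A) (hB : Loc S B) : Loc S (A - B) := by
  simpa [sub_eq_add_neg] using hA.add (hB.smul (-1))

omit [Fintype ι] [DecidableEq ι] in
theorem Loc.sum {I : Type*} {S : Finset ι} (s : Finset I) {A : I → Op ι}
    (h : ∀ i ∈ s, Loc S (A i)) : Loc S (∑ i ∈ s, A i) :=
  Finset.sum_induction _ (Loc S) (fun _ _ => Loc.add) (Loc.zero S) h

omit [Fintype ι] [DecidableEq ι] in
theorem Loc.conjTranspose {S : Finset ι} {A : Op ι} (hA : Loc S A) : Loc S Aᴴ :=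
  ⟨fun x y hxy i hi => (hA.1 y x (fun h' => hxy (by simp [h'])) i hi).symm,
    fun u hu x y => by simp only [conjTranspose_apply, hA.2 u hu]⟩

theorem Loc.mul {S : Finset ι} {A B : Op ι} (hA : Loc S A) (hB : Loc S B) : Loc S (A * B) := by
  refine ⟨fun x y hxy i hi => ?_, fun u hu x y => ?_⟩
  · rw [Matrix.mul_apply] at hxy
    obtain ⟨z, -, hz⟩ := exists_ne_zero_of_sum_ne_zero hxy
    exact (hA.1 x z (left_ne_zero_of_mul hz) i hi).trans (hB.1 z y (right_ne_zero_of_mul hz) i hi)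
  · rw [Matrix.mul_apply, Matrix.mul_apply, ← Equiv.sum_comp (Equiv.addRight u)]
    simp only [Equiv.coe_addRight, hA.2 u hu, hB.2 u hu]

omit [Fintype ι] [DecidableEq ι] in
theorem Loc.swap {S T : Finset ι} {A B : Op ι} (hA : Loc S A) (hB : Loc T B) (hd : Disjoint S T)
    (x y z : ι → ZMod 2) (h : A x z * B z y ≠ 0) :
    A x z * B z y = B x (x + y - z) * A (x + y - z) y := by
  have h1 := hA.2 (y - z) (fun i hi => by
    rw [Pi.sub_apply, hB.1 z y (right_ne_zero_of_mul h) i (disjoint_left.1 hd hi), sub_self]) x z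
  have h2 := hB.2 (x - z) (fun i hi => by
    rw [Pi.sub_apply, hA.1 x z (left_ne_zero_of_mul h) i (disjoint_right.1 hd hi), sub_self]) z y
  rw [← h1, ← h2, mul_comm]
  congr 2 <;> abel

theorem Loc.comm {S T : Finset ι} {A B : Op ι} (hA : Loc S A) (hB : Loc T B) (hd : Disjoint S T) :
    A * B = B * A := by
  ext x y
  rw [Matrix.mul_apply, Matrix.mul_apply, ← Equiv.sum_comp (Equiv.subLeft (x + y))
    (fun z => B x z * A z y)]
  refine sum_congr rfl fun z _ => ?_
  rw [Equiv.subLeft_apply]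
  by_cases h : A x z * B z y = 0
  · by_contra h'
    have h2 := hB.swap hA hd.symm x y (x + y - z) (fun h'' => h' (h.trans h''.symm))
    rw [sub_sub_cancel] at h2
    exact h' h2.symm
  · exact hA.swap hB hd x y z h

omit [Fintype ι] [DecidableEq ι] in
/-- The entries of a local operator depend only on the restrictions. -/
theorem Loc.congr {S : Finset ι} {A : Op ι} (hA : Loc S A) {x y x' y' : ι → ZMod 2}
    (hx : ∀ i ∈ S, x i = x' i) (hy : ∀ i ∈ S, y i = y' i) (h : ∀ i, i ∉ S → x i = y i)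
    (h' : ∀ i, i ∉ S → x' i = y' i) : A x y = A x' y' := by
  rw [← hA.2 (x' - x) (fun i hi => by simp [hx i hi]) x y]
  congr 1
  · abel
  · funext i
    by_cases hi : i ∈ S
    · simp [hx i hi, hy i hi]
    · simp [h i hi, h' i hi]

theorem ActsOn.loc {S : Finset ι} {A : Op ι} (h : ActsOn S A) : Loc S A := by
  obtain ⟨B, hB⟩ := h
  refine ⟨fun x y hxy => ?_, fun u hu x y => ?_⟩
  · by_contra h
    exact hxy (by rw [hB, if_neg h])
  · rw [hB, hB]
    have h1 : ∀ z : ι → ZMod 2, (fun i : S => (z + u) i) = fun i : S => z i := fun z =>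
      funext fun i => by simp [hu i i.2]
    rw [h1, h1]
    simp only [Pi.add_apply, add_left_inj]

theorem Loc.actsOn {S : Finset ι} {A : Op ι} (h : Loc S A) : ActsOn S A := by
  refine ⟨Matrix.of fun s s' => A (fun i => if hi : i ∈ S then s ⟨i, hi⟩ else 0)
    (fun i => if hi : i ∈ S then s' ⟨i, hi⟩ else 0), fun x y => ?_⟩
  split_ifs with hxy
  · exact h.congr (fun i hi => by simp [hi]) (fun i hi => by simp [hi]) hxy
      (fun i hi => by simp [hi])
  · by_contra h'
    exact hxy (h.1 x y h')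

end Loc

section Pauli

/-- The sign of a bit. -/
def sg (a : ZMod 2) : ℂ := (-1) ^ a.val

@[simp] theorem sg_zero : sg 0 = 1 := by simp [sg]

@[simp] theorem sg_one : sg 1 = -1 := by
  have : (1 : ZMod 2).val = 1 := rfl
  simp [sg, this]

theorem z2_cases (a : ZMod 2) : a = 0 ∨ a = 1 := by revert a; decide

theorem z2_add_self (a : ZMod 2) : a + a = 0 := by revert a; decide

theorem sg_add (a b : ZMod 2) : sg (a + b) = sg a * sg b := by
  rcases z2_cases a with rfl | rfl <;> rcases z2_cases b with rfl | rfl <;> simp [z2_add_self]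

theorem sg_mul_self (a : ZMod 2) : sg a * sg a = 1 := by rw [← sg_add, z2_add_self, sg_zero]

theorem star_sg (a : ZMod 2) : star (sg a) = sg a := by simp [sg]

theorem norm_sg (a : ZMod 2) : ‖sg a‖ = 1 := by simp [sg]

variable {ι : Type} [Fintype ι] [DecidableEq ι]

omit [Fintype ι] [DecidableEq ι] in
theorem vec_add_self (a : ι → ZMod 2) : a + a = 0 := funext fun i => z2_add_self (a i)

omit [Fintype ι] [DecidableEq ι] in
theorem pl_add_self (v : PL ι) : v + v = 0 := Prod.ext (vec_add_self _) (vec_add_self _)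

theorem W_apply (v : PL ι) (x y : ι → ZMod 2) :
    W v x y = if x = y + v.1 then sg (v.2 ⬝ᵥ y) else 0 := rfl

theorem W_mulVec (v : PL ι) (ψ : St ι) (x : ι → ZMod 2) :
    (W v *ᵥ ψ) x = sg (v.2 ⬝ᵥ (x + v.1)) * ψ (x + v.1) := by
  rw [mulVec, dotProduct, sum_eq_single (x + v.1)]
  · rw [W_apply, if_pos (by rw [add_assoc, vec_add_self, add_zero])]
  · intro y _ hy
    rw [W_apply, if_neg, zero_mul]
    rintro rfl
    exact hy (by rw [add_assoc, vec_add_self, add_zero])
  · simp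

theorem W_zero : W (0 : PL ι) = 1 := by
  ext x y
  simp [W_apply, one_apply]

theorem W_mul (v v' : PL ι) : W v * W v' = sg (v.2 ⬝ᵥ v'.1) • W (v + v') := by
  ext x y
  rw [Matrix.mul_apply, sum_eq_single (y + v'.1)]
  · simp only [W_apply, Matrix.smul_apply, Prod.fst_add, Prod.snd_add, if_true, smul_eq_mul,
      dotProduct_add, add_dotProduct, sg_add, add_assoc, add_comm v'.1 v.1]
    split_ifs <;> ring
  · intro z _ hz
    rw [W_apply v', if_neg hz, mul_zero]
  · simp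

omit [DecidableEq ι] in
theorem sp_comm (v v' : PL ι) : sp v v' = sp v' v := by
  rw [sp, sp, add_comm, dotProduct_comm v.2, dotProduct_comm v.1]

omit [DecidableEq ι] in
theorem sp_add_left (u v w : PL ι) : sp (u + v) w = sp u w + sp v w := by
  simp only [sp, Prod.fst_add, Prod.snd_add, add_dotProduct]
  ring

omit [DecidableEq ι] in
theorem sp_add_right (u v w : PL ι) : sp u (v + w) = sp u v + sp u w := by
  simp only [sp, Prod.fst_add, Prod.snd_add, dotProduct_add]
  ring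

omit [DecidableEq ι] in
theorem sp_self (v : PL ι) : sp v v = 0 := by
  rw [sp, dotProduct_comm v.2, z2_add_self]

theorem W_comm (v v' : PL ι) : W v * W v' = sg (sp v v') • (W v' * W v) := by
  rw [W_mul, W_mul, smul_smul, add_comm v', ← sg_add, sp, dotProduct_comm v'.2, add_right_comm,
    z2_add_self, zero_add]

theorem W_mul_self (v : PL ι) : W v * W v = sg (v.2 ⬝ᵥ v.1) • (1 : Op ι) := by
  rw [W_mul, pl_add_self, W_zero]

theorem W_conjTranspose (v : PL ι) : (W v)ᴴ = sg (v.2 ⬝ᵥ v.1) • W v := by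
  ext x y
  simp only [conjTranspose_apply, W_apply, Matrix.smul_apply, smul_eq_mul]
  by_cases h : x = y + v.1
  · rw [if_pos h, if_pos (by rw [h, add_assoc, vec_add_self, add_zero]), star_sg, h,
      dotProduct_add, sg_add, mul_comm]
  · rw [if_neg h, if_neg, star_zero, mul_zero]
    rintro rfl
    exact h (by rw [add_assoc, vec_add_self, add_zero])

theorem W_star_mul (v : PL ι) : (W v)ᴴ * W v = 1 := by
  rw [W_conjTranspose, Matrix.smul_mul, W_mul_self, smul_smul, sg_mul_self, one_smul]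

theorem W_unitary (v : PL ι) : W v ∈ unitaryGroup (ι → ZMod 2) ℂ :=
  mem_unitaryGroup_iff'.2 (W_star_mul v)

theorem W_conj (y z : PL ι) : (W y)ᴴ * W z * W y = sg (sp z y) • W z := by
  rw [Matrix.mul_assoc, W_comm z y, Matrix.mul_smul, ← Matrix.mul_assoc, W_star_mul,
    Matrix.one_mul]

theorem sum_sg (b : ι → ZMod 2) :
    ∑ y : ι → ZMod 2, sg (b ⬝ᵥ y) = if b = 0 then (2 : ℂ) ^ Fintype.card ι else 0 := by
  split_ifs with h
  · simp [h]
  · obtain ⟨i, hi⟩ := Function.ne_iff.1 h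
    have h1 : b i = 1 := (z2_cases _).resolve_left hi
    have h2 := Equiv.sum_comp (Equiv.addRight (Pi.single i 1 : ι → ZMod 2)) fun y => sg (b ⬝ᵥ y)
    simp only [Equiv.coe_addRight, dotProduct_add, dotProduct_single, h1, mul_one, sg_add, sg_one,
      mul_neg, sum_neg_distrib] at h2
    linear_combination (-1 / 2 : ℂ) * h2

theorem trace_W (v : PL ι) : (W v).trace = if v = 0 then (2 : ℂ) ^ Fintype.card ι else 0 := by
  by_cases h : v.1 = 0
  · have : (v = 0) ↔ v.2 = 0 := by simp [Prod.ext_iff, h]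
    simp only [trace, diag_apply, W_apply, h, add_zero, if_true, sum_sg, this]
  · rw [if_neg fun h' => h (by simp [h'])]
    refine sum_eq_zero fun x _ => ?_
    rw [diag_apply, W_apply, if_neg (by simpa using h)]

theorem InS.loc {S : Finset ι} {v : PL ι} (h : InS S v) : Loc S (W v) := by
  refine ⟨fun x y hxy i hi => ?_, fun u hu x y => ?_⟩
  · rw [W_apply] at hxy
    have h1 : x = y + v.1 := by
      by_contra h'
      exact hxy (if_neg h')
    rw [h1, Pi.add_apply, (h i hi).1, add_zero]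
  · have h1 : v.2 ⬝ᵥ u = 0 := sum_eq_zero fun i _ => by
      by_cases hi : i ∈ S
      · rw [hu i hi, mul_zero]
      · rw [(h i hi).2, zero_mul]
    simp only [W_apply, dotProduct_add, h1, add_zero, add_right_comm y u, add_left_inj]

omit [Fintype ι] [DecidableEq ι] in
theorem InS.add {S : Finset ι} {u v : PL ι} (hu : InS S u) (hv : InS S v) : InS S (u + v) :=
  fun i hi => by simp [(hu i hi).1, (hu i hi).2, (hv i hi).1, (hv i hi).2]

omit [Fintype ι] [DecidableEq ι] in
theorem InS.zero (S : Finset ι) : InS S (0 : PL ι) := fun _ _ => ⟨rfl, rfl⟩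

/-- The Pauli expansion of a local operator. -/
theorem Loc.expand {S : Finset ι} {A : Op ι} (h : Loc S A) :
    ∃ c : PL ι → ℂ, A = ∑ v, c v • W v ∧ ∀ v, c v ≠ 0 → InS S v := by
  refine ⟨fun v => ((2 : ℂ) ^ Fintype.card ι)⁻¹ * ∑ y, sg (v.2 ⬝ᵥ y) * A (y + v.1) y, ?_, ?_⟩
  · ext x y
    rw [Matrix.sum_apply, Fintype.sum_prod_type, sum_eq_single (x + y)]
    · have hx : x = y + (x + y) := by rw [add_comm x, ← add_assoc, vec_add_self, zero_add]
      simp only [Matrix.smul_apply, W_apply, ← hx, if_true, smul_eq_mul, mul_assoc, ← mul_sum, sum_mul]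
      rw [sum_comm]
      have h1 : ∀ z : ι → ZMod 2, ∑ b : ι → ZMod 2, sg (b ⬝ᵥ z) * (A (z + (x + y)) z * sg (b ⬝ᵥ y)) =
          A (z + (x + y)) z * if z + y = 0 then (2 : ℂ) ^ Fintype.card ι else 0 := fun z => by
        rw [← sum_sg, mul_sum]
        refine sum_congr rfl fun b _ => ?_
        rw [dotProduct_comm (z + y), dotProduct_add, sg_add]
        ring
      rw [sum_congr rfl fun z _ => h1 z, sum_eq_single y]
      · rw [if_pos (vec_add_self y), ← hx]
        field_simp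
      · intro z _ hz
        rw [if_neg, mul_zero]
        intro h'
        exact hz (by rw [← add_zero z, ← vec_add_self y, ← add_assoc, h', zero_add])
      · simp
    · intro a _ ha
      refine sum_eq_zero fun b _ => ?_
      rw [Matrix.smul_apply, W_apply, if_neg, smul_zero]
      rintro rfl
      exact ha (by rw [add_right_comm, vec_add_self, zero_add])
    · simp
  · intro v hv i hi
    have hv' := right_ne_zero_of_mul hv
    constructor
    · obtain ⟨y, -, hy⟩ := exists_ne_zero_of_sum_ne_zero hv'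
      simpa using h.1 _ _ (right_ne_zero_of_mul hy) i hi
    · refine (z2_cases _).resolve_right fun h1 => hv' ?_
      have h2 := Equiv.sum_comp (Equiv.addRight (Pi.single i 1 : ι → ZMod 2))
        fun y => sg (v.2 ⬝ᵥ y) * A (y + v.1) y
      have h3 := h.2 (Pi.single i 1) fun j hj =>
        Pi.single_eq_of_ne (fun e : j = i => hi (e ▸ hj)) _
      simp only [Equiv.coe_addRight, dotProduct_add, dotProduct_single, h1, mul_one, sg_add, sg_one,
        mul_neg, neg_mul, sum_neg_distrib, add_right_comm _ (Pi.single i 1 : ι → ZMod 2), h3] at h2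
      linear_combination (-1 / 2 : ℂ) * h2

theorem mem_Lam {ψ : St ι} {v : PL ι} : v ∈ Lam ψ ↔ ∃ c : ℂ, W v *ᵥ ψ = c • ψ := by
  simp [Lam]

theorem zero_mem_Lam (ψ : St ι) : (0 : PL ι) ∈ Lam ψ :=
  mem_Lam.2 ⟨1, by rw [W_zero, one_mulVec, one_smul]⟩

theorem add_mem_Lam {ψ : St ι} {u v : PL ι} (hu : u ∈ Lam ψ) (hv : v ∈ Lam ψ) :
    u + v ∈ Lam ψ := by
  obtain ⟨c, hc⟩ := mem_Lam.1 hu
  obtain ⟨c', hc'⟩ := mem_Lam.1 hv
  refine mem_Lam.2 ⟨sg (u.2 ⬝ᵥ v.1) * (c' * c), ?_⟩
  have h1 : W (u + v) = sg (u.2 ⬝ᵥ v.1) • (W u * W v) := by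
    rw [W_mul, smul_smul, sg_mul_self, one_smul]
  rw [h1, smul_mulVec, ← mulVec_mulVec, hc', mulVec_smul, hc, smul_smul, smul_smul, mul_assoc]

theorem norm_eigen {ψ : St ι} {v : PL ι} {c : ℂ} (hψ : ψ ≠ 0) (h : W v *ᵥ ψ = c • ψ) :
    ‖c‖ = 1 := by
  have h1 := nsq_unitary (W_unitary v) ψ
  rw [h, nsq_smul] at h1
  have h2 : ‖c‖ ^ 2 = 1 := mul_right_cancel₀ (nsq_pos hψ).ne' (by rw [h1, one_mul])
  exact (pow_eq_one_iff_of_nonneg (norm_nonneg c) two_ne_zero).1 h2

/-- A Pauli operator that anticommutes with a stabiliser has expectation zero. -/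
theorem expect_zero {ψ : St ι} {u z : PL ι} (hu : u ∈ Lam ψ) (h : sp z u = 1) :
    star ψ ⬝ᵥ (W z *ᵥ ψ) = 0 := by
  by_cases hψ : ψ = 0
  · simp [hψ]
  obtain ⟨c, hc⟩ := mem_Lam.1 hu
  have h1 : star ψ ⬝ᵥ (((W u)ᴴ * W z * W u) *ᵥ ψ) = star ψ ⬝ᵥ (W z *ᵥ ψ) := by
    rw [← mulVec_mulVec, ← mulVec_mulVec, dotProduct_mulVec, ← star_mulVec, hc, star_smul,
      mulVec_smul, smul_dotProduct, dotProduct_smul, smul_smul, Complex.star_def, Complex.conj_mul',
      norm_eigen hψ hc]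
    simp
  rw [W_conj, h, sg_one, smul_mulVec, dotProduct_smul, smul_eq_mul] at h1
  linear_combination (-1 / 2 : ℂ) * h1

theorem sp_Lam {ψ : St ι} (hψ : ψ ≠ 0) {u v : PL ι} (hu : u ∈ Lam ψ) (hv : v ∈ Lam ψ) :
    sp u v = 0 := by
  refine (z2_cases _).resolve_right fun h => ?_
  have h1 := expect_zero hv h
  obtain ⟨c, hc⟩ := mem_Lam.1 hu
  rw [hc, dotProduct_smul, nsq_eq, smul_eq_mul, mul_eq_zero] at h1
  rcases h1 with h1 | h1
  · simpa [h1] using norm_eigen hψ hc
  · exact (nsq_pos hψ).ne' (by exact_mod_cast h1)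

end Pauli

end Pool.Agent.MP_36f78e_lc.H46
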