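import Pool.Agent.MP_36f78e_lc.H46.Four

/-! A decoded Heisenberg pair on a locally defined subspace of low energy. -/

namespace Pool.Agent.MP_36f78e_lc.H46

open Matrix Finset
open scoped ComplexOrder Kronecker

namespace Big

section QF

variable {Y : Type} [Fintype Y]

theorem nsq_nonneg (v : Y → ℂ) : 0 ≤ nsq v := sum_nonneg fun _ _ => sq_nonneg _

theorem qf_conj (W A : Matrix Y Y ℂ) (v : Y → ℂ) : qf (Wᴴ * A * W) v = qf A (W *ᵥ v) := by
  rw [qf, qf, star_mulVec, ← dotProduct_mulVec, mulVec_mulVec, mulVec_mulVec]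

theorem nsq_add (v w : Y → ℂ) : nsq (v + w) ≤ 2 * nsq v + 2 * nsq w := by
  rw [nsq, nsq, nsq, mul_sum, mul_sum, ← sum_add_distrib]
  refine sum_le_sum fun y _ => ?_
  have := pow_le_pow_left₀ (norm_nonneg _) (norm_add_le (v y) (w y)) 2
  rw [Pi.add_apply]
  nlinarith [sq_nonneg (‖v y‖ - ‖w y‖)]

variable [DecidableEq Y]

theorem qf_diag (d v : Y → ℂ) : qf (diagonal d) v = ∑ y, (d y).re * ‖v y‖ ^ 2 := by
  rw [qf, dotProduct, Complex.re_sum]
  refine sum_congr rfl fun y _ => ?_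
  rw [mulVec_diagonal, Pi.star_apply, mul_left_comm, Complex.star_def, Complex.conj_mul',
    ← Complex.ofReal_pow, Complex.re_mul_ofReal]

theorem qf_one (v : Y → ℂ) : qf 1 v = nsq v := by
  rw [← diagonal_one, qf_diag]
  simp [nsq]

theorem nsq_mul (W : Matrix Y Y ℂ) (v : Y → ℂ) : nsq (W *ᵥ v) = qf (Wᴴ * W) v := by
  rw [← qf_one, ← qf_conj, mul_one]

theorem nsq_uni {W : Matrix Y Y ℂ} (h : W ∈ unitaryGroup Y ℂ) (v : Y → ℂ) :
    nsq (W *ᵥ v) = nsq v := by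
  rw [nsq_mul, ← star_eq_conjTranspose, mem_unitaryGroup_iff'.1 h, qf_one]

theorem nsq_proj {P : Matrix Y Y ℂ} (h : Proj P) (v : Y → ℂ) :
    nsq (P *ᵥ v) + nsq (v - P *ᵥ v) = nsq v := by
  have e : v - P *ᵥ v = (1 - P) *ᵥ v := by rw [sub_mulVec, one_mulVec]
  rw [e, nsq_mul, nsq_mul, conjTranspose_sub, conjTranspose_one, h.1, h.2, sub_mul, one_mul,
    mul_sub, h.2, mul_one, sub_self, sub_zero, ← qf_one, qf, qf, qf, sub_mulVec, dotProduct_sub,
    Complex.sub_re]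
  ring

theorem conj_pow {U : Matrix Y Y ℂ} (h : U ∈ unitaryGroup Y ℂ) (D : Matrix Y Y ℂ) (s : ℕ) :
    (Uᴴ * D * U) ^ s = Uᴴ * D ^ s * U := by
  induction s with
  | zero => rw [pow_zero, pow_zero, mul_one]; exact (mem_unitaryGroup_iff'.1 h).symm
  | succ s ih =>
    have e : U * Uᴴ = 1 := mem_unitaryGroup_iff.1 h
    calc _ = Uᴴ * D ^ s * (U * Uᴴ) * D * U := by rw [pow_succ, ih]; simp only [mul_assoc]
      _ = _ := by rw [e, mul_one, pow_succ]; simp only [mul_assoc]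

theorem diag_kron {X Ω : Type} [DecidableEq X] [DecidableEq Ω] (g : X → ℂ) :
    diagonal g ⊗ₖ (1 : Matrix Ω Ω ℂ) = diagonal fun y : X × Ω => g y.1 := by
  rw [← diagonal_one, diagonal_kronecker_diagonal]
  simp

end QF

open Classical in
theorem wt_le {V β : Type} [Fintype V] [Zero β] {x : V → β} {S : Finset V}
    (h : ∀ v, v ∉ S → x v = 0) : wt x ≤ S.card :=
  card_le_card fun v hv => by_contra fun e => (mem_filter.1 hv).2 (h v e)

open Classical in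
theorem wt_tri {V β : Type} [Fintype V] [AddGroup β] (x y z : V → β) :
    wt (x - z) ≤ wt (x - y) + wt (y - z) :=
  (wt_le fun v hv => by
    simp only [mem_union, mem_filter, mem_univ, true_and, not_or, not_not] at hv
    rw [← sub_add_sub_cancel x y z, Pi.add_apply, hv.1, hv.2, add_zero]).trans (card_union_le _ _)

variable {p : ℕ} [Fact p.Prime] {V J Ω : Type} [Fintype V] [DecidableEq V] [Fintype J] [Fintype Ω]
  [DecidableEq Ω]

/-- banded matrices -/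
def Bd (p : ℕ) (V Ω : Type) [Fintype V] (n : ℕ) :
    Submodule ℂ (Matrix ((V → ZMod p) × Ω) ((V → ZMod p) × Ω) ℂ) where
  carrier := {A | ∀ y y', A y y' ≠ 0 → wt (y.1 - y'.1) ≤ n}
  add_mem' := fun {A B} hA hB y y' h => by
    by_cases e : A y y' = 0
    · exact hB y y' fun e' => h (by rw [Matrix.add_apply, e, e', add_zero])
    · exact hA y y' e
  zero_mem' := fun _ _ h => absurd rfl h
  smul_mem' := fun c A hA y y' h => hA y y' fun e => h (by rw [Matrix.smul_apply, e, smul_zero])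

omit [DecidableEq Ω] in
theorem bd_mul {m n : ℕ} {A B : Matrix ((V → ZMod p) × Ω) ((V → ZMod p) × Ω) ℂ}
    (hA : A ∈ Bd p V Ω m) (hB : B ∈ Bd p V Ω n) : A * B ∈ Bd p V Ω (m + n) := fun y y' h => by
  obtain ⟨z, -, e⟩ := exists_ne_zero_of_sum_ne_zero h
  exact (wt_tri _ z.1 _).trans
    (add_le_add (hA y z (left_ne_zero_of_mul e)) (hB z y' (right_ne_zero_of_mul e)))

/-- the diagonal unitary of the labels -/
noncomputable def dg (Ω : Type) [DecidableEq Ω] (C : Code p V J) (s : Bool) :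
    Matrix ((V → ZMod p) × Ω) ((V → ZMod p) × Ω) ℂ :=
  diagonal fun y => ZMod.stdAddChar (C.l s y.1)

omit [Fintype J] in
theorem dg_uni (C : Code p V J) (s : Bool) : dg Ω C s ∈ unitaryGroup _ ℂ := by
  rw [mem_unitaryGroup_iff, dg, star_eq_conjTranspose, diagonal_conjTranspose,
    diagonal_mul_diagonal, ← diagonal_one]
  refine congrArg _ (funext fun y => ?_)
  rw [Pi.star_apply, Complex.star_def, ← AddChar.map_neg_eq_conj, ← AddChar.map_add_eq_mul,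
    add_neg_cancel, AddChar.map_zero_eq_one]

theorem e_pow (a : ZMod p) : ZMod.stdAddChar a ^ p = 1 := by
  rw [← AddChar.map_nsmul_eq_pow, nsmul_eq_mul, CharP.cast_eq_zero, zero_mul,
    AddChar.map_zero_eq_one]

omit [Fintype J] in
theorem dg_pow (C : Code p V J) (s : Bool) : dg Ω C s ^ p = 1 := by
  rw [dg, diagonal_pow, ← diagonal_one]
  exact congrArg _ (funext fun y => e_pow _)

open Classical in
theorem energy (K : J → Submodule (ZMod p) (V → ZMod p)) (v : (V → ZMod p) × Ω → ℂ) :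
    ∑ j, qf (dv (K j) ⊗ₖ (1 : Matrix Ω Ω ℂ)) v = ∑ y, (viol K y.1 : ℝ) * ‖v y‖ ^ 2 := by
  simp only [dv, diag_kron, qf_diag]
  rw [sum_comm]
  refine sum_congr rfl fun y _ => ?_
  rw [← sum_mul, viol, card_filter, Nat.cast_sum]
  refine congrArg (· * _) (sum_congr rfl fun j _ => ?_)
  by_cases h : y.1 ∈ K j <;> simp [h]

theorem side (h2 : SideStmt) {C : Code p V J} {k n : ℕ} {γ : ℝ} (hC : C.Good k γ)
    (h0 : 0 < γ * Fintype.card V) (s : Bool) {K : Matrix ((V → ZMod p) × Ω) ((V → ZMod p) × Ω) ℂ}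
    (k1 : K.PosSemidef) (k2 : ∀ u, qf K u ≤ 3 * nsq u) (k3 : K ∈ Bd p V Ω n)
    (hn : (n : ℝ) ≤ γ * Fintype.card V) {v : (V → ZMod p) × Ω → ℂ} (k4 : K *ᵥ v = 0)
    (he : ∑ y, (viol (C.K s) y.1 : ℝ) * ‖v y‖ ^ 2 ≤ γ * Fintype.card V / 144 * nsq v) (t : ℕ) :
    qf K (dg Ω C s ^ t *ᵥ v) ≤ nsq v / 12 := by
  classical
  have := h2 _ K (fun y => ZMod.stdAddChar (C.l s y.1) ^ t)
    (fun y => (viol (C.K s) y.1 : ℝ) ≤ γ * Fintype.card V) v k1 k2 (fun y => by simp)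
    (fun y y' a b c => by rw [hC.l_near s _ _ a b ((Nat.cast_le.2 (k3 y y' c)).trans hn)]) k4
    (le_of_mul_le_mul_left (by
      rw [mul_sum, sum_filter]
      refine le_trans (sum_le_sum fun y _ => ?_) (he.trans_eq (by ring))
      split_ifs with h
      · positivity
      · exact mul_le_mul_of_nonneg_right (not_le.1 h).le (sq_nonneg _)) h0)
  convert this using 2
  funext y
  rw [dg, diagonal_pow, mulVec_diagonal, Pi.pow_apply]

theorem comm {C : Code p V J} {k : ℕ} {γ : ℝ} (hC : C.Good k γ) {x y : V → ZMod p}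
    (h : ((four p V)ᴴ * diagonal (fun ξ => ZMod.stdAddChar (C.l true ξ)) * four p V) x y ≠ 0) :
    C.l false x = 1 + C.l false y := by
  have a : ∀ z, (∀ j, z ∈ C.K true j) → z ⬝ᵥ (x - y) = C.w false ⬝ᵥ z := fun z hz =>
    (four_ok p V).2.2.1 _ z x y _ (fun ξ => by
      rw [hC.l_add true ξ z hz, AddChar.map_add_eq_mul, mul_comm]
      rfl) h
  have b : ∀ j, x - y ∈ C.K false j := fun j => by
    simpa using (C.K false j).add_mem (hC.perp (x - y - C.w false) (fun z hz => by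
      rw [dotProduct_sub, a z hz, dotProduct_comm, sub_self]) j) (hC.w_mem false j)
  have c := hC.l_add false y _ b
  rw [add_sub_cancel, Bool.not_false, a _ (hC.w_mem true), dotProduct_comm, hC.w_dot] at c
  rw [c, add_comm]

end Big

open Big in
theorem big (h1 : ChebStmt) (h2 : SideStmt) (h3 : HeisStmt) : BigStmt := by
  intro p _ V J Ω I _ _ _ _ _ _ C k γ Q T Pr l d hC γ0 V0 q1 q2 pr q3 q4 q5 i0 i1 ld he
  obtain ⟨f1, -, -, f4⟩ := four_ok p V
  obtain ⟨U, hU⟩ : ∃ U, U = four p V ⊗ₖ (1 : Matrix Ω Ω ℂ) := ⟨_, rfl⟩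
  have kr : ∀ A, ((four p V)ᴴ * A * four p V) ⊗ₖ (1 : Matrix Ω Ω ℂ) =
      Uᴴ * (A ⊗ₖ (1 : Matrix Ω Ω ℂ)) * U := fun A => by
    rw [hU, conjTranspose_kronecker, ← mul_kronecker_mul, ← mul_kronecker_mul, conjTranspose_one,
      mul_one, mul_one]
  have u1 : Uᴴ * U = 1 := by
    have := kr 1
    rw [mul_one, one_kronecker_one, mul_one, ← star_eq_conjTranspose,
      mem_unitaryGroup_iff'.1 f1, one_kronecker_one] at this
    exact this.symm
  have uu : U ∈ unitaryGroup _ ℂ := mem_unitaryGroup_iff'.2 u1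
  have u2 : U * Uᴴ = 1 := mem_unitaryGroup_iff.1 uu
  have us : Uᴴ ∈ unitaryGroup _ ℂ := Unitary.star_mem uu
  have b1 : (1 : Matrix _ _ ℂ) ∈ Bd p V Ω (l * 0) := fun y y' h => by
    obtain rfl : y = y' := by_contra fun e => h (one_apply_ne e)
    exact (wt_le (S := ∅) fun _ _ => sub_self _).trans (Nat.zero_le _)
  obtain ⟨K, ⟨k3, k3'⟩, k1, k2, k4, k5⟩ := h1 _ I Q Pr (fun m => Bd p V Ω (l * m) ⊓
      (Bd p V Ω (l * m)).comap (LinearMap.mulLeftRight ℂ (U, Uᴴ))) d q1 q2 pr q3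
    ⟨b1, by
      change U * 1 * Uᴴ ∈ Bd p V Ω (l * 0)
      rwa [mul_one, u2]⟩
    (fun m A hA => ⟨fun y y' h => (hA.1 y y' h).trans (Nat.mul_le_mul_left l m.le_succ),
      fun y y' h => (hA.2 y y' h).trans (Nat.mul_le_mul_left l m.le_succ)⟩)
    (fun m n A hA B hB => ⟨mul_add l m n ▸ bd_mul hA.1 hB.1, by
      change U * (A * B) * Uᴴ ∈ Bd p V Ω (l * (m + n))
      have e : U * (A * B) * Uᴴ = U * A * Uᴴ * (U * B * Uᴴ) := by
        calc _ = U * A * (Uᴴ * U) * B * Uᴴ := by rw [u1]; simp only [mul_assoc, one_mul]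
          _ = _ := by simp only [mul_assoc]
      rw [e, mul_add]
      exact bd_mul hA.2 hB.2⟩)
    (fun i => ⟨fun y y' h => (wt_le fun v hv => sub_eq_zero.2 ((q4 i).1 y y' h v hv)).trans
        ((q5 i).trans (mul_one l).ge), fun y y' h => (wt_le fun v hv =>
      sub_eq_zero.2 (f4 Ω _ _ (q4 i) y y' (hU ▸ h) v hv)).trans ((q5 i).trans (mul_one l).ge)⟩)
    i0 i1
  replace k3' : U * K * Uᴴ ∈ Bd p V Ω (l * d) := k3'
  have h0 : 0 < γ * Fintype.card V := mul_pos γ0 (Nat.cast_pos.2 V0)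
  have en : ∀ v, Pr *ᵥ v = v → ∑ y, (viol (C.K true) y.1 : ℝ) * ‖(U *ᵥ v) y‖ ^ 2 +
      ∑ y, (viol (C.K false) y.1 : ℝ) * ‖v y‖ ^ 2 ≤ γ * Fintype.card V / 144 * nsq v :=
    fun v hv => by
      simpa only [Fintype.sum_bool, Code.hm, kr, qf_conj, energy] using he v hv
  have n0 : ∀ s (v : (V → ZMod p) × Ω → ℂ), 0 ≤ ∑ y, (viol (C.K s) y.1 : ℝ) * ‖v y‖ ^ 2 :=
    fun s v => sum_nonneg fun _ _ => by positivity
  have qc : ∀ u, qf (U * K * Uᴴ) u = qf K (Uᴴ *ᵥ u) := fun u => by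
    rw [← qf_conj, conjTranspose_conjTranspose]
  have xu : Uᴴ * dg Ω C true * U ∈ unitaryGroup _ ℂ := mul_mem (mul_mem us (dg_uni C true)) uu
  refine h3 _ p (ZMod.stdAddChar (1 : ZMod p)) Pr (Uᴴ * dg Ω C true * U) (dg Ω C false)
    (Fact.out : p.Prime).pos ⟨e_pow 1, fun n hn => ?_⟩ pr xu (dg_uni C false)
    (by rw [conj_pow uu, dg_pow, mul_one, u1]) (dg_pow C false) ?_ fun s t v hv => ?_
  · rw [← AddChar.map_nsmul_eq_pow, nsmul_one] at hn
    exact (ZMod.natCast_eq_zero_iff _ _).1 (Four.e_one hn)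
  · ext y y'
    rw [Matrix.smul_apply, dg, diagonal_mul, mul_diagonal, dg,
      ← diag_kron fun ξ => ZMod.stdAddChar (C.l true ξ), ← kr, kroneckerMap_apply]
    by_cases h : ((four p V)ᴴ * diagonal (fun ξ => ZMod.stdAddChar (C.l true ξ)) * four p V)
      y.1 y'.1 = 0
    · simp [h]
    · rw [comm hC h, AddChar.map_add_eq_mul, smul_eq_mul]
      ring
  · obtain ⟨a, ha⟩ : ∃ a, a = dg Ω C false ^ t *ᵥ v := ⟨_, rfl⟩
    obtain ⟨X, hX⟩ : ∃ X, X = (Uᴴ * dg Ω C true * U) ^ s := ⟨_, rfl⟩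
    have hb : Pr *ᵥ (Pr *ᵥ a) = Pr *ᵥ a := by rw [mulVec_mulVec, pr.2]
    have s1 := (k5 _).trans (side h2 hC h0 false k1 k2 k3 ld (k4 v hv)
      ((le_add_of_nonneg_left (n0 _ _)).trans (en v hv)) t)
    have s2 := side h2 hC h0 true (k1.mul_mul_conjTranspose_same U)
      (fun u => by rw [qc, ← nsq_uni us u]; exact k2 _) k3' ld (v := U *ᵥ (Pr *ᵥ a))
      (by rw [← mulVec_mulVec, mulVec_mulVec _ Uᴴ, u1, one_mulVec, ← mulVec_mulVec, k4 _ hb,
        mulVec_zero])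
      (by rw [nsq_uni uu]; exact (le_add_of_nonneg_right (n0 _ _)).trans (en _ hb)) s
    rw [qc, nsq_uni uu, mulVec_mulVec, mulVec_mulVec, ← conj_pow uu, ← hX] at s2
    replace s2 := (k5 _).trans s2
    have e1 := nsq_proj pr a
    have e2 := nsq_proj pr (X *ᵥ (a - Pr *ᵥ a))
    have e3 : nsq a = nsq v := ha ▸ nsq_uni (pow_mem (dg_uni C false) t) v
    have e4 : nsq (X *ᵥ (a - Pr *ᵥ a)) = nsq (a - Pr *ᵥ a) := hX ▸ nsq_uni (pow_mem xu s) _
    have e5 := nsq_add (X *ᵥ (a - Pr *ᵥ a) - Pr *ᵥ (X *ᵥ (a - Pr *ᵥ a)))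
      (X *ᵥ (Pr *ᵥ a) - Pr *ᵥ (X *ᵥ (Pr *ᵥ a)))
    have e6 : X *ᵥ (a - Pr *ᵥ a) - Pr *ᵥ (X *ᵥ (a - Pr *ᵥ a)) +
        (X *ᵥ (Pr *ᵥ a) - Pr *ᵥ (X *ᵥ (Pr *ᵥ a))) = X *ᵥ a - Pr *ᵥ (X *ᵥ a) := by
      rw [mulVec_sub, mulVec_sub]
      abel
    rw [← mulVec_mulVec, ← ha, ← hX, ← e6]
    rw [← ha] at s1
    linarith [nsq_nonneg (a - Pr *ᵥ a), nsq_nonneg (Pr *ᵥ (X *ᵥ (a - Pr *ᵥ a)))]

end Pool.Agent.MP_36f78e_lc.H46
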