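import Pool.Agent.MP_36f78e_lc.H46.Spec

/-! A low-degree approximate projector, and the estimate for one side. -/

namespace Pool.Agent.MP_36f78e_lc.H46

open Matrix Finset Polynomial
open scoped ComplexOrder MatrixOrder

namespace Cheb

variable {Y : Type} [Fintype Y]

theorem qf_nonneg {A : Matrix Y Y ℂ} (h : A.PosSemidef) (v : Y → ℂ) : 0 ≤ qf A v :=
  (Complex.nonneg_iff.1 (h.dotProduct_mulVec_nonneg v)).1

theorem dot_self (v : Y → ℂ) : (star v ⬝ᵥ v).re = nsq v := by
  simp only [dotProduct, nsq, Complex.re_sum, Pi.star_apply]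
  refine sum_congr rfl fun y _ => ?_
  rw [Complex.star_def, Complex.conj_mul', ← Complex.ofReal_pow, Complex.ofReal_re]

theorem qf_zero {A : Matrix Y Y ℂ} {v : Y → ℂ} (h : A *ᵥ v = 0) : qf A v = 0 := by
  simp [qf, h]

theorem qf_add_ker {A : Matrix Y Y ℂ} (hA : Aᴴ = A) {w : Y → ℂ} (h : A *ᵥ w = 0) (u : Y → ℂ) :
    qf A (u + w) = qf A u := by
  have h1 : star w ⬝ᵥ (A *ᵥ u) = 0 := by
    rw [dotProduct_mulVec, ← hA, ← star_mulVec, h, star_zero, zero_dotProduct]
  rw [qf, qf, mulVec_add, h, add_zero, star_add, add_dotProduct, h1, add_zero]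

theorem qf_par (A : Matrix Y Y ℂ) (a b : Y → ℂ) :
    qf A (a + b) + qf A (a - b) = 2 * qf A a + 2 * qf A b := by
  simp only [qf, mulVec_add, mulVec_sub, star_add, star_sub, add_dotProduct, sub_dotProduct,
    dotProduct_add, dotProduct_sub, Complex.add_re, Complex.sub_re]
  ring

theorem proj_psd {A : Matrix Y Y ℂ} (h : Proj A) : A.PosSemidef := by
  have h1 : A = Aᴴ * A := by rw [h.1, h.2]
  rw [h1]
  exact posSemidef_conjTranspose_mul_self A

theorem T_ge (y : ℝ) (hy : 0 ≤ y) (n : ℕ) :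
    1 + (n : ℝ) ^ 2 * y ≤ (Chebyshev.T ℝ n).eval (1 + y) ∧
      (Chebyshev.T ℝ n).eval (1 + y) + (2 * n + 1) * y ≤ (Chebyshev.T ℝ (n + 1)).eval (1 + y) := by
  induction n with
  | zero => simp
  | succ n ih =>
    have h1 : 1 + ((n : ℝ) + 1) ^ 2 * y ≤ (Chebyshev.T ℝ (n + 1)).eval (1 + y) := by
      nlinarith [ih.1, ih.2]
    have h2 := Chebyshev.T_add_two ℝ (n : ℤ)
    push_cast
    refine ⟨h1, ?_⟩
    rw [add_assoc (n : ℤ), one_add_one_eq_two, h2]
    simp only [eval_sub, eval_mul, eval_ofNat, eval_X]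
    have h3 : 1 ≤ (Chebyshev.T ℝ (n + 1)).eval (1 + y) :=
      le_trans (le_add_of_nonneg_right (by positivity)) h1
    nlinarith [ih.2, mul_nonneg hy (sub_nonneg.2 h3)]

theorem exists_poly (M d : ℕ) (hM : 0 < M) (hd : M ≤ 2 * d ^ 2) : ∃ P : ℝ[X], P.natDegree ≤ d ∧
    P.eval 0 = 0 ∧ ∀ x : ℝ, 1 ≤ x → x ≤ M → 1 ≤ P.eval x ∧ P.eval x ≤ 3 := by
  have hM' : (0 : ℝ) < M := by exact_mod_cast hM
  have hd' : (M : ℝ) ≤ 2 * (d : ℝ) ^ 2 := by exact_mod_cast hd
  set t := (Chebyshev.T ℝ d).eval (1 + 2 / (M : ℝ)) with ht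
  have h2 : 2 ≤ t := by
    have h := (T_ge (2 / M) (by positivity) d).1
    have h' : 1 ≤ (d : ℝ) ^ 2 * (2 / M) := by
      rw [← mul_div_assoc, le_div_iff₀ hM']
      linarith
    linarith
  have h0 : 0 < t := by linarith
  refine ⟨C 2 - C (2 / t) * (Chebyshev.T ℝ d).comp (C (-2 / (M : ℝ)) * X + C (1 + 2 / (M : ℝ))),
    ?_, ?_, fun x h1 hx => ?_⟩
  · refine (natDegree_sub_le _ _).trans (max_le (by simp) ((natDegree_C_mul_le _ _).trans ?_))
    refine natDegree_comp_le.trans ?_
    rw [Chebyshev.natDegree_T, Int.natAbs_natCast]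
    exact mul_le_of_le_one_right (Nat.zero_le _) natDegree_linear_le
  · simp only [eval_sub, eval_mul, eval_C, eval_comp, eval_add, eval_X, mul_zero, zero_add, ← ht]
    rw [div_mul_cancel₀ _ h0.ne', sub_self]
  · simp only [eval_sub, eval_mul, eval_C, eval_comp, eval_add, eval_X]
    have h3 : |-2 / (M : ℝ) * x + (1 + 2 / M)| ≤ 1 := by
      have e : -2 / (M : ℝ) * x + (1 + 2 / M) = 1 - 2 * (x - 1) / M := by ring
      have h4 : 0 ≤ 2 * (x - 1) / M := div_nonneg (by linarith) hM'.le
      have h5 : 2 * (x - 1) / M ≤ 2 := by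
        rw [div_le_iff₀ hM']
        linarith
      rw [e, abs_le]
      constructor <;> linarith
    have h4 := abs_le.1 (Chebyshev.abs_eval_T_real_le_one d h3)
    have h5 : 0 ≤ 2 / t := by positivity
    have h6 : 2 / t ≤ 1 := (div_le_one h0).2 h2
    constructor <;> nlinarith [h4.1, h4.2]

end Cheb

open Cheb

theorem cheb : ChebStmt := by
  intro Y I _ _ _ Q Pr B d hQ hc hP hker h1 hm hmul hQB hM hd
  classical
  obtain ⟨P, hPd, hP0, hP1⟩ := exists_poly _ d hM hd
  set G : Matrix Y Y ℂ := ∑ i, Q i with hG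
  have hG0 : G.PosSemidef := posSemidef_sum _ fun i _ => proj_psd (hQ i)
  have hs : IsSelfAdjoint G := hG0.1
  have hcont : ∀ f : ℝ → ℝ, ContinuousOn f (spectrum ℝ G) := fun f =>
    G.finite_real_spectrum.continuousOn f
  have key : ∀ q : ℝ[X], (aeval G q).PosSemidef ↔ ∀ x ∈ spectrum ℝ G, 0 ≤ q.eval x := fun q => by
    rw [← nonneg_iff_posSemidef, ← cfc_polynomial q G hs, cfc_nonneg_iff _ G (hcont _) hs]
  have hsp : ∀ x ∈ spectrum ℝ G, x = 0 ∨ (1 ≤ x ∧ x ≤ Fintype.card I) := by
    intro x hx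
    have a1 := (key X).1 (by simpa using hG0) x hx
    have a2 := (key (C (Fintype.card I : ℝ) - X)).1 (by
      have e : aeval G (C (Fintype.card I : ℝ) - X) = ∑ i, (1 - Q i) := by
        simp [hG, sum_sub_distrib]
      rw [e]
      refine posSemidef_sum _ fun i _ => proj_psd ⟨by simp [(hQ i).1], ?_⟩
      simp [mul_sub, sub_mul, (hQ i).2]) x hx
    have a3 := (key (X * X - X)).1 (by
      have e : aeval G (X * X - X : ℝ[X]) = ∑ i, ∑ j ∈ univ.erase i, Q i * Q j := by
        simp only [map_sub, map_mul, aeval_X, hG, sum_mul_sum, ← sum_sub_distrib]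
        refine sum_congr rfl fun i _ => ?_
        rw [← add_sum_erase _ _ (mem_univ i), (hQ i).2, add_sub_cancel_left]
      rw [e]
      refine posSemidef_sum _ fun i _ => posSemidef_sum _ fun j _ => proj_psd ⟨?_, ?_⟩
      · rw [conjTranspose_mul, (hQ i).1, (hQ j).1, hc]
      · rw [mul_assoc, ← mul_assoc (Q j), ← hc, mul_assoc, (hQ j).2, ← mul_assoc, (hQ i).2]) x hx
    simp only [eval_sub, eval_mul, eval_X, eval_C] at a1 a2 a3
    rcases a1.eq_or_lt with h | h
    · exact Or.inl h.symm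
    · exact Or.inr ⟨by nlinarith, by linarith⟩
  have hpow : ∀ k, G ^ k ∈ B k := by
    intro k
    induction k with
    | zero => simpa using h1
    | succ k ih =>
      rw [pow_succ]
      exact hmul _ _ _ ih _ (Submodule.sum_mem _ fun i _ => hQB i)
  have hK0 : (aeval G P).PosSemidef := (key P).2 fun x hx => by
    rcases hsp x hx with rfl | h
    · exact hP0.ge
    · linarith [(hP1 x h.1 h.2).1]
  have hK3 : (aeval G (C 3 - P)).PosSemidef := (key _).2 fun x hx => by
    rw [eval_sub, eval_C]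
    rcases hsp x hx with rfl | h
    · rw [hP0]; norm_num
    · linarith [(hP1 x h.1 h.2).2]
  have hkill : ∀ v, Pr *ᵥ v = v → aeval G P *ᵥ v = 0 := by
    intro v hv
    obtain ⟨P', rfl⟩ := X_dvd_iff.2 ((coeff_zero_eq_eval_zero P).trans hP0)
    have h : G *ᵥ v = 0 := by
      rw [hG, sum_mulVec]
      exact sum_eq_zero fun i _ => (hker v).1 hv i
    rw [mul_comm, map_mul, aeval_X, ← mulVec_mulVec, h, mulVec_zero]
  refine ⟨aeval G P, ?_, hK0, fun v => ?_, hkill, fun v => ?_⟩
  · rw [aeval_eq_sum_range' (Nat.lt_succ_of_le hPd)]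
    refine Submodule.sum_mem _ fun k hk => ?_
    rw [← Complex.coe_smul]
    exact Submodule.smul_mem _ _
      (monotone_nat_of_le_succ hm (Nat.lt_succ_iff.1 (mem_range.1 hk)) (hpow k))
  · have h := qf_nonneg hK3 v
    rw [map_sub, aeval_C, Algebra.algebraMap_eq_smul_one, qf, sub_mulVec, smul_mulVec, one_mulVec,
      dotProduct_sub, dotProduct_smul, Complex.sub_re, Complex.smul_re, dot_self, smul_eq_mul] at h
    exact sub_nonneg.1 h
  · set E : Matrix Y Y ℂ := cfc (fun x : ℝ => if x = 0 then (1 : ℝ) else 0) G with hE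
    have hEs : Eᴴ = E := (cfc_predicate _ G : IsSelfAdjoint E)
    have hGE : G * E = 0 := by
      have h := cfc_mul (fun x : ℝ => x) (fun x : ℝ => if x = 0 then (1 : ℝ) else 0) G (hcont _)
        (hcont _)
      rw [cfc_id' ℝ G hs] at h
      rw [← h, ← cfc_const_zero ℝ G]
      exact cfc_congr fun x _ => by by_cases hx : x = 0 <;> simp [hx]
    have hPE : Pr * E = E := by
      refine ext_iff_mulVec.2 fun u => ?_
      rw [← mulVec_mulVec]
      refine (hker _).2 fun i => ((proj_psd (hQ i)).dotProduct_mulVec_zero_iff _).1 ?_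
      have h : ∑ i, star (E *ᵥ u) ⬝ᵥ (Q i *ᵥ (E *ᵥ u)) = 0 := by
        rw [← dotProduct_sum, ← sum_mulVec, mulVec_mulVec, hGE, zero_mulVec, dotProduct_zero]
      exact (sum_eq_zero_iff_of_nonneg fun i _ =>
        (proj_psd (hQ i)).dotProduct_mulVec_nonneg _).1 h i (mem_univ i)
    have hEP : E * Pr = E := by
      have h := congrArg conjTranspose hPE
      rwa [conjTranspose_mul, hEs, hP.1] at h
    have hPP : Pr *ᵥ (Pr *ᵥ v) = Pr *ᵥ v := by rw [mulVec_mulVec, hP.2]
    have hEu : E *ᵥ (v - Pr *ᵥ v) = 0 := by rw [mulVec_sub, mulVec_mulVec, hEP, sub_self]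
    have hge : (aeval G (P - C 1) + E).PosSemidef := by
      rw [← nonneg_iff_posSemidef, ← cfc_polynomial _ G hs, hE,
        ← cfc_add G _ _ (hcont _) (hcont _)]
      refine cfc_nonneg fun x hx => ?_
      rw [eval_sub, eval_C]
      rcases hsp x hx with rfl | h
      · simp [hP0]
      · rw [if_neg (by linarith [h.1])]
        linarith [(hP1 x h.1 h.2).1]
    have h := qf_nonneg hge (v - Pr *ᵥ v)
    rw [map_sub, aeval_C, map_one, qf, add_mulVec, hEu, add_zero, sub_mulVec, one_mulVec,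
      dotProduct_sub, Complex.sub_re, dot_self] at h
    have h' := qf_add_ker hK0.1 (hkill _ hPP) (v - Pr *ᵥ v)
    rw [sub_add_cancel] at h'
    rw [h']
    exact sub_nonneg.1 h

theorem side : SideStmt := by
  intro Y _ K φ good v hK h3 hφ hc hv hb
  classical
  set g : Y → ℂ := fun y => if good y then v y else 0 with hg
  set e : Y → ℂ := fun y => if good y then 0 else v y with he
  have hn : nsq e ≤ nsq v / 144 := by
    refine le_trans (le_of_eq ?_) hb
    rw [nsq, sum_filter]
    exact sum_congr rfl fun y _ => by by_cases h : good y <;> simp [he, h]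
  have h1 : qf K g = qf K e := by
    have e1 : g = -e + v := funext fun y => by by_cases h : good y <;> simp [hg, he, h]
    rw [e1, qf_add_ker hK.1 hv]
    simp [qf, mulVec_neg]
  have h2 : qf K (fun y => φ y * g y) = qf K g := by
    unfold qf
    refine congrArg Complex.re ?_
    simp only [dotProduct, mulVec, mul_sum, Pi.star_apply]
    refine sum_congr rfl fun y _ => sum_congr rfl fun y' _ => ?_
    by_cases h : good y
    · by_cases h' : good y'
      · by_cases hk : K y y' = 0
        · simp [hk]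
        · have h4 : star (φ y') * φ y' = 1 := by
            rw [Complex.star_def, Complex.conj_mul', hφ]
            simp
          rw [hc y y' h h' hk, star_mul']
          linear_combination (star (g y) * K y y' * g y') * h4
      · simp [hg, h']
    · simp [hg, h]
  have h4 : nsq (fun y => φ y * e y) = nsq e := by simp [nsq, hφ]
  have h5 : (fun y => φ y * v y) = (fun y => φ y * g y) + fun y => φ y * e y :=
    funext fun y => by by_cases h : good y <;> simp [hg, he, h]
  have h6 := qf_par K (fun y => φ y * g y) fun y => φ y * e y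
  have h7 := qf_nonneg hK ((fun y => φ y * g y) - fun y => φ y * e y)
  have h8 := h3 e
  have h9 := h3 fun y => φ y * e y
  rw [h5]
  linarith

end Pool.Agent.MP_36f78e_lc.H46
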