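import Pool.Agent.MP_36f78e_lc.H46.Spec

/-! A subspace almost preserved by a Heisenberg pair has dimension divisible by `p`. -/

namespace Pool.Agent.MP_36f78e_lc.H46

open Matrix Finset Module
open scoped ComplexOrder MatrixOrder

namespace Heis

variable {Y : Type} [Fintype Y] [DecidableEq Y]

omit [DecidableEq Y] in
theorem nsq_eq (v : Y → ℂ) : nsq v = (star v ⬝ᵥ v).re := by
  simp only [nsq, dotProduct, Complex.re_sum, Pi.star_apply, Complex.star_def, Complex.conj_mul']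
  exact Finset.sum_congr rfl fun y _ => by norm_cast

omit [DecidableEq Y] in
theorem nsq_nonneg (v : Y → ℂ) : 0 ≤ nsq v := Finset.sum_nonneg fun _ _ => sq_nonneg _

omit [DecidableEq Y] in
theorem eq_zero_of_nsq {v : Y → ℂ} (h : nsq v ≤ 0) : v = 0 := by
  funext y
  have := (Finset.sum_eq_zero_iff_of_nonneg fun _ _ => sq_nonneg _).1
    (le_antisymm h (nsq_nonneg v)) y (mem_univ y)
  simpa using this

omit [DecidableEq Y] in
theorem nsq_smul {c : ℂ} (hc : ‖c‖ = 1) (v : Y → ℂ) : nsq (c • v) = nsq v := by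
  simp [nsq, hc]

omit [DecidableEq Y] in
theorem adj (A : Matrix Y Y ℂ) (a b : Y → ℂ) :
    star (A *ᵥ a) ⬝ᵥ b = star a ⬝ᵥ (Aᴴ *ᵥ b) := by
  rw [star_mulVec, dotProduct_mulVec]

omit [DecidableEq Y] in
theorem amgm (a v : Y → ℂ) : 2 * (star a ⬝ᵥ v).re ≤ 3 * nsq a + nsq v / 3 := by
  simp only [nsq, dotProduct, Complex.re_sum, Finset.mul_sum, Finset.sum_div,
    ← Finset.sum_add_distrib]
  refine Finset.sum_le_sum fun y _ => ?_
  have h1 : (star a y * v y).re ≤ ‖a y‖ * ‖v y‖ := by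
    refine (Complex.re_le_norm _).trans ?_
    simp
  nlinarith [sq_nonneg (3 * ‖a y‖ - ‖v y‖)]

omit [DecidableEq Y] in
theorem nsq_proj {Pr : Matrix Y Y ℂ} (hP : Proj Pr) (u : Y → ℂ) :
    nsq (Pr *ᵥ u) = (star u ⬝ᵥ (Pr *ᵥ u)).re := by
  rw [nsq_eq, adj, mulVec_mulVec, hP.1, hP.2]

omit [DecidableEq Y] in
theorem pyth {Pr : Matrix Y Y ℂ} (hP : Proj Pr) (u : Y → ℂ) :
    nsq (u - Pr *ᵥ u) = nsq u - nsq (Pr *ᵥ u) := by
  have h1 : star (Pr *ᵥ u) ⬝ᵥ (u - Pr *ᵥ u) = 0 := by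
    rw [adj, hP.1, mulVec_sub, mulVec_mulVec, hP.2, sub_self, dotProduct_zero]
  rw [nsq_eq, star_sub, sub_dotProduct, h1, sub_zero, dotProduct_sub, Complex.sub_re, ← nsq_eq,
    nsq_proj hP]

theorem nsq_unit {g : Matrix Y Y ℂ} (hg : gᴴ * g = 1) (v : Y → ℂ) : nsq (g *ᵥ v) = nsq v := by
  rw [nsq_eq, adj, mulVec_mulVec, hg, one_mulVec, nsq_eq]

omit [DecidableEq Y] in
theorem qf_conj {Pr : Matrix Y Y ℂ} (hP : Proj Pr) (g : Matrix Y Y ℂ) (v : Y → ℂ) :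
    (star v ⬝ᵥ ((gᴴ * Pr * g) *ᵥ v)).re = nsq (Pr *ᵥ (g *ᵥ v)) := by
  rw [nsq_proj hP, adj, mulVec_mulVec, mulVec_mulVec]

omit [DecidableEq Y] in
theorem low {Pr : Matrix Y Y ℂ} (hP : Proj Pr) (g : Matrix Y Y ℂ)
    (hg : ∀ u, Pr *ᵥ u = u → nsq (gᴴ *ᵥ u - Pr *ᵥ (gᴴ *ᵥ u)) ≤ nsq u / 3) (v : Y → ℂ)
    (hv : Pr *ᵥ v = 0) : nsq (Pr *ᵥ (g *ᵥ v)) ≤ nsq v / 3 := by
  have hu : Pr *ᵥ (Pr *ᵥ (g *ᵥ v)) = Pr *ᵥ (g *ᵥ v) := by rw [mulVec_mulVec, hP.2]
  have h1 := hg _ hu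
  have h2 := amgm (gᴴ *ᵥ (Pr *ᵥ (g *ᵥ v)) - Pr *ᵥ (gᴴ *ᵥ (Pr *ᵥ (g *ᵥ v)))) v
  have h3 : star (gᴴ *ᵥ (Pr *ᵥ (g *ᵥ v)) - Pr *ᵥ (gᴴ *ᵥ (Pr *ᵥ (g *ᵥ v)))) ⬝ᵥ v =
      star (g *ᵥ v) ⬝ᵥ (Pr *ᵥ (g *ᵥ v)) := by
    rw [star_sub, sub_dotProduct, adj Pr (gᴴ *ᵥ _), hP.1, hv, dotProduct_zero, sub_zero, adj gᴴ,
      conjTranspose_conjTranspose, adj Pr, hP.1]
  rw [h3, ← nsq_proj hP] at h2
  linarith

theorem trace_idem {A : Matrix Y Y ℂ} (hA : A * A = A) :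
    A.trace = (finrank ℂ (LinearMap.range (toLin' A)) : ℕ) := by
  have h : IsIdempotentElem (toLin' A) := by
    rw [IsIdempotentElem, Module.End.mul_eq_comp, ← toLin'_mul, hA]
  rw [← Matrix.trace_toLin'_eq, (LinearMap.IsIdempotentElem.isProj_range _ h).trace]

theorem rank_le {A B : Matrix Y Y ℂ} (hA : A * A = A)
    (h : ∀ v, A *ᵥ v = v → B *ᵥ v = 0 → v = 0) :
    finrank ℂ (LinearMap.range (toLin' A)) ≤ finrank ℂ (LinearMap.range (toLin' B)) := by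
  refine LinearMap.finrank_le_finrank_of_injective
    (f := (toLin' B).rangeRestrict ∘ₗ (LinearMap.range (toLin' A)).subtype) ?_
  refine (injective_iff_map_eq_zero _).2 ?_
  rintro ⟨_, u, rfl⟩ hu
  refine Subtype.ext (h _ ?_ (congrArg Subtype.val hu))
  change A *ᵥ (A *ᵥ u) = A *ᵥ u
  rw [mulVec_mulVec, hA]

/-- The spectral projector above a threshold. -/
theorem spec {S : Matrix Y Y ℂ} (hS : S.IsHermitian) (c : ℝ) :
    ∃ R : Matrix Y Y ℂ, R * R = R ∧ (∀ B, Commute S B → Commute R B) ∧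
      (∀ v, R *ᵥ v = v → c * nsq v ≤ (star v ⬝ᵥ (S *ᵥ v)).re) ∧
      ∀ v, R *ᵥ v = 0 → (star v ⬝ᵥ (S *ᵥ v)).re ≤ c * nsq v := by
  have hS' : IsSelfAdjoint S := hS.isSelfAdjoint
  have hc : ∀ f : ℝ → ℝ, ContinuousOn f (spectrum ℝ S) :=
    fun f => S.finite_real_spectrum.continuousOn f
  let f : ℝ → ℝ := fun x => if c < x then 1 else 0
  have hA : cfc (fun x => (x - c) * (f x + f x - 1)) S =
      (S - algebraMap ℝ _ c) * (cfc f S + cfc f S - 1) := by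
    rw [cfc_mul _ _ S (hc _) (hc _), cfc_sub _ _ S (hc _) (hc _), cfc_sub _ _ S (hc _) (hc _),
      cfc_add S _ _ (hc _) (hc _), cfc_id' ℝ S, cfc_const c S, cfc_const_one ℝ S]
  have hpos : ((S - algebraMap ℝ _ c) * (cfc f S + cfc f S - 1)).PosSemidef := by
    rw [← hA, ← Matrix.nonneg_iff_posSemidef]
    refine cfc_nonneg fun x _ => ?_
    simp only [f]
    split_ifs with h
    · nlinarith
    · nlinarith [not_lt.1 h]
  have hq : ∀ v : Y → ℂ, (star v ⬝ᵥ ((S - algebraMap ℝ _ c) *ᵥ v)).re =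
      (star v ⬝ᵥ (S *ᵥ v)).re - c * nsq v := by
    intro v
    rw [sub_mulVec, dotProduct_sub, Complex.sub_re, Algebra.algebraMap_eq_smul_one,
      smul_mulVec, one_mulVec, dotProduct_smul, nsq_eq]
    simp
  refine ⟨cfc f S, ?_, fun B hB => hB.cfc_real f, fun v hv => ?_, fun v hv => ?_⟩
  · rw [← cfc_mul _ _ S (hc _) (hc _)]
    refine cfc_congr fun x _ => ?_
    simp only [f]
    split_ifs <;> simp
  · have h := (Complex.nonneg_iff.1 (hpos.dotProduct_mulVec_nonneg v)).1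
    rw [← mulVec_mulVec, sub_mulVec (cfc f S + cfc f S), add_mulVec, hv, one_mulVec,
      add_sub_cancel_right, hq] at h
    linarith
  · have h := (Complex.nonneg_iff.1 (hpos.dotProduct_mulVec_nonneg v)).1
    rw [← mulVec_mulVec, sub_mulVec (cfc f S + cfc f S), add_mulVec, hv, one_mulVec,
      add_zero, zero_sub, mulVec_neg, dotProduct_neg, Complex.neg_re, hq] at h
    linarith

theorem sum_shift {M : Type} [AddCommGroup M] (p : ℕ) (f : ℕ → M) (h : f p = f 0) :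
    ∑ t ∈ range p, f (t + 1) = ∑ t ∈ range p, f t := by
  have h1 := Finset.sum_range_succ f p
  rw [Finset.sum_range_succ', h] at h1
  exact add_right_cancel h1

theorem pow_comm₁ {ω : ℂ} {X Z : Matrix Y Y ℂ} (h : Z * X = ω • (X * Z)) (a : ℕ) :
    Z ^ a * X = ω ^ a • (X * Z ^ a) := by
  induction a with
  | zero => simp
  | succ a ih =>
    rw [pow_succ, mul_assoc, h, mul_smul_comm, ← mul_assoc, ih, smul_mul_assoc, smul_smul,
      mul_assoc, pow_succ']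

theorem pow_comm₂ {ω : ℂ} {X Z : Matrix Y Y ℂ} (h : Z * X = ω • (X * Z)) (a b : ℕ) :
    Z ^ a * X ^ b = (ω ^ a) ^ b • (X ^ b * Z ^ a) := by
  induction b with
  | zero => simp
  | succ b ih =>
    rw [pow_succ, ← mul_assoc, ih, smul_mul_assoc, mul_assoc, pow_comm₁ h, mul_smul_comm,
      smul_smul, ← mul_assoc, pow_succ]

theorem star_eq_pow {p : ℕ} (hp : 0 < p) {X : Matrix Y Y ℂ} (hX : Xᴴ * X = 1) (h : X ^ p = 1) :
    Xᴴ = X ^ (p - 1) := by
  have h1 : X * X ^ (p - 1) = 1 := by rw [← pow_succ', Nat.sub_add_cancel hp, h]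
  rw [← mul_one Xᴴ, ← h1, ← mul_assoc, hX, one_mul]

theorem trace_dvd {p : ℕ} (hp : 0 < p) {ω : ℂ} (hω : IsPrimitiveRoot ω p) {R X Z : Matrix Y Y ℂ}
    (hR : R * R = R) (hX : Xᴴ * X = 1) (hZ : Z ^ p = 1) (h : Z * X = ω • (X * Z))
    (cX : Commute R X) (cZ : Commute R Z) : ∃ m : ℕ, R.trace = (p * m : ℕ) := by
  have hp' : (p : ℂ) ≠ 0 := Nat.cast_ne_zero.2 hp.ne'
  have h0 : ∀ t, 0 < t → t < p → (R * Z ^ t).trace = 0 := by
    intro t ht htp
    have h1 : (R * Z ^ t).trace = ω ^ t * (R * Z ^ t).trace := by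
      have hX' : X * Xᴴ = 1 := mul_eq_one_comm.1 hX
      calc (R * Z ^ t).trace = (R * Z ^ t * X * Xᴴ).trace := by
            rw [mul_assoc (R * Z ^ t), hX', mul_one]
        _ = (Xᴴ * (R * Z ^ t * X)).trace := trace_mul_comm _ _
        _ = ω ^ t * (R * Z ^ t).trace := by
            rw [mul_assoc R, pow_comm₁ h, mul_smul_comm, mul_smul_comm, trace_smul, smul_eq_mul,
              ← mul_assoc R, cX.eq, mul_assoc X, ← mul_assoc Xᴴ, hX, one_mul]
    have h2 : ω ^ t ≠ 1 := hω.pow_ne_one_of_pos_of_lt ht.ne' htp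
    have h3 : (ω ^ t - 1) * (R * Z ^ t).trace = 0 := by linear_combination -h1
    exact (mul_eq_zero.1 h3).resolve_left (sub_ne_zero.2 h2)
  set T : Matrix Y Y ℂ := ∑ t ∈ range p, Z ^ t with hT
  have h1 : Z * T = T := by
    rw [hT, Finset.mul_sum]
    simp only [← pow_succ']
    exact sum_shift p (fun t => Z ^ t) (by rw [hZ, pow_zero])
  have h2 : ∀ t : ℕ, Z ^ t * T = T := by
    intro t
    induction t with
    | zero => simp
    | succ t ih => rw [pow_succ, mul_assoc, h1, ih]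
  have h3 : T * T = (p : ℂ) • T := by
    conv_lhs => rw [hT, Finset.sum_mul]
    rw [← hT]
    simp only [h2, Finset.sum_const, card_range, Nat.cast_smul_eq_nsmul]
  have h4 : Commute R T := Commute.sum_right _ _ _ fun t _ => cZ.pow_right t
  have h5 : ((p : ℂ)⁻¹ • (R * T)) * ((p : ℂ)⁻¹ • (R * T)) = (p : ℂ)⁻¹ • (R * T) := by
    rw [smul_mul_smul_comm, mul_assoc R, ← mul_assoc T, ← h4.eq, mul_assoc R, h3, ← mul_assoc R,
      hR, mul_smul_comm, smul_smul, mul_assoc, inv_mul_cancel₀ hp', mul_one]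
  have h6 : (R * T).trace = R.trace := by
    rw [hT, Finset.mul_sum, trace_sum, Finset.sum_eq_single 0]
    · simp
    · exact fun t ht h0' => h0 t (Nat.pos_of_ne_zero h0') (mem_range.1 ht)
    · exact fun hn => absurd (mem_range.2 hp) hn
  have h7 := trace_idem h5
  rw [trace_smul, h6, smul_eq_mul, inv_mul_eq_iff_eq_mul₀ hp'] at h7
  exact ⟨_, by rw [h7, Nat.cast_mul]⟩

end Heis

open Heis in
theorem heis : HeisStmt := by
  intro Y _ _ p ω Pr X Z hp hω hP hX hZ hXp hZp h hyp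
  have hX1 : Xᴴ * X = 1 := (mem_unitaryGroup_iff').1 hX
  have hZ1 : Zᴴ * Z = 1 := (mem_unitaryGroup_iff').1 hZ
  have hω1 : ‖ω‖ = 1 := hω.norm'_eq_one hp.ne'
  have hg : ∀ s t : ℕ, (X ^ s * Z ^ t)ᴴ * (X ^ s * Z ^ t) = 1 := fun s t =>
    (mem_unitaryGroup_iff').1 (mul_mem (pow_mem hX s) (pow_mem hZ t))
  have hg' : ∀ (s t : ℕ) (u : Y → ℂ), Pr *ᵥ u = u →
      nsq ((X ^ s * Z ^ t)ᴴ *ᵥ u - Pr *ᵥ ((X ^ s * Z ^ t)ᴴ *ᵥ u)) ≤ nsq u / 3 := by
    intro s t u hu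
    rw [conjTranspose_mul, conjTranspose_pow, conjTranspose_pow, star_eq_pow hp hX1 hXp,
      star_eq_pow hp hZ1 hZp, ← pow_mul, ← pow_mul, pow_comm₂ h, smul_mulVec, mulVec_smul,
      ← smul_sub, nsq_smul (by simp [hω1])]
    exact hyp _ _ u hu
  obtain ⟨T, hT⟩ : ∃ T : ℕ → ℕ → Matrix Y Y ℂ,
      ∀ s t, T s t = (X ^ s * Z ^ t)ᴴ * Pr * (X ^ s * Z ^ t) := ⟨_, fun _ _ => rfl⟩
  have hTZ : ∀ s t, Zᴴ * T s t * Z = T s (t + 1) := by
    intro s t
    rw [hT, hT, pow_succ, ← mul_assoc (X ^ s), conjTranspose_mul _ Z]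
    simp only [mul_assoc]
  have hTX : ∀ s t, Xᴴ * T s t * X = T (s + 1) t := by
    intro s t
    have h1 : X ^ s * Z ^ t * X = ω ^ t • (X ^ (s + 1) * Z ^ t) := by
      rw [mul_assoc, pow_comm₁ h, mul_smul_comm, ← mul_assoc, pow_succ]
    have h2 : Xᴴ * T s t * X = (X ^ s * Z ^ t * X)ᴴ * Pr * (X ^ s * Z ^ t * X) := by
      rw [hT, conjTranspose_mul _ X]
      simp only [mul_assoc]
    have h3 : ω ^ t * star (ω ^ t) = 1 := by
      rw [Complex.star_def, Complex.mul_conj', norm_pow, hω1]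
      simp
    rw [h2, h1, conjTranspose_smul, mul_smul_comm, smul_mul_assoc, smul_mul_assoc, smul_smul, h3,
      one_smul, hT]
  set S : Matrix Y Y ℂ := ∑ s ∈ range p, ∑ t ∈ range p, T s t with hS
  have hSH : S.IsHermitian := by
    rw [IsHermitian, hS, conjTranspose_sum]
    refine Finset.sum_congr rfl fun s _ => ?_
    rw [conjTranspose_sum]
    refine Finset.sum_congr rfl fun t _ => ?_
    rw [hT, conjTranspose_mul, conjTranspose_mul (_ᴴ), conjTranspose_conjTranspose, hP.1, mul_assoc]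
  have comm : ∀ U : Matrix Y Y ℂ, Uᴴ * U = 1 → Uᴴ * S * U = S → Commute S U := by
    intro U h1 h2
    have h3 : U * Uᴴ = 1 := mul_eq_one_comm.1 h1
    change S * U = U * S
    conv_rhs => rw [← h2, ← mul_assoc, ← mul_assoc, h3, one_mul]
  have cZ : Commute S Z := comm Z hZ1 (by
    simp only [hS, Finset.mul_sum, Finset.sum_mul, hTZ]
    exact Finset.sum_congr rfl fun s _ => sum_shift p (T s) (by rw [hT, hT, hZp, pow_zero]))
  have cX : Commute S X := comm X hX1 (by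
    simp only [hS, Finset.mul_sum, Finset.sum_mul, hTX]
    exact sum_shift p (fun s => ∑ t ∈ range p, T s t) (by simp only [hT, hXp, pow_zero]))
  have hq : ∀ v : Y → ℂ, (star v ⬝ᵥ (S *ᵥ v)).re =
      ∑ s ∈ range p, ∑ t ∈ range p, nsq (Pr *ᵥ ((X ^ s * Z ^ t) *ᵥ v)) := by
    intro v
    simp only [hS, sum_mulVec, dotProduct_sum, Complex.re_sum, hT, qf_conj hP]
  have hp2 : (0 : ℝ) < (p : ℝ) * p := by positivity
  obtain ⟨R, hR, hc, hhi, hlo⟩ := spec hSH ((p : ℝ) * p / 2)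
  obtain ⟨m, hm⟩ := trace_dvd hp hω hR hX1 hZp h (hc X cX) (hc Z cZ)
  refine ⟨m, ?_⟩
  rw [← hm, trace_idem hR, trace_idem hP.2]
  refine congrArg _ (le_antisymm (rank_le hP.2 fun v h1 h2 => ?_) (rank_le hR fun v h1 h2 => ?_))
  · have h3 := hlo v h2
    have h4 : ∑ s ∈ range p, ∑ t ∈ range p, 2 / 3 * nsq v ≤ (star v ⬝ᵥ (S *ᵥ v)).re := by
      rw [hq]
      refine Finset.sum_le_sum fun s _ => Finset.sum_le_sum fun t _ => ?_
      have h5 := hyp s t v h1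
      rw [pyth hP, nsq_unit (hg s t)] at h5
      linarith
    simp only [Finset.sum_const, card_range, nsmul_eq_mul] at h4
    refine eq_zero_of_nsq (not_lt.1 fun h5 => ?_)
    nlinarith [mul_pos hp2 h5]
  · have h3 := hhi v h1
    have h4 : (star v ⬝ᵥ (S *ᵥ v)).re ≤ ∑ s ∈ range p, ∑ t ∈ range p, nsq v / 3 := by
      rw [hq]
      exact Finset.sum_le_sum fun s _ => Finset.sum_le_sum fun t _ => low hP _ (hg' s t) v h2
    simp only [Finset.sum_const, card_range, nsmul_eq_mul] at h4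
    refine eq_zero_of_nsq (not_lt.1 fun h5 => ?_)
    nlinarith [mul_pos hp2 h5]

end Pool.Agent.MP_36f78e_lc.H46
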