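import Pool.Agent.MP_36f78e_lc.H46.Spec

/-! The quantum Tanner code with decoded labels. -/

set_option linter.unusedSectionVars false

namespace Pool.Agent.MP_36f78e_lc.H46

open Matrix Finset Module

namespace CodeRow

section Lin

variable {F V : Type} [Field F] [Fintype V] [DecidableEq V]

/-- Two small subspaces leave a pair of dual vectors in the orthogonal complements. -/
theorem exists_pair (X Z : Submodule F (V → F))
    (h : finrank F X + finrank F Z < Fintype.card V) :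
    ∃ w w' : V → F, (∀ g ∈ Z, w ⬝ᵥ g = 0) ∧ (∀ g ∈ X, w' ⬝ᵥ g = 0) ∧ w' ⬝ᵥ w = 1 := by
  let B : LinearMap.BilinForm F (V → F) := dotProductBilin F F
  have h1 := LinearMap.BilinForm.finrank_add_finrank_orthogonal' (B := B) Z
  rw [Module.finrank_fintype_fun_eq_card] at h1
  have h2 : ¬ B.orthogonal Z ≤ X := fun hle => by
    have := Submodule.finrank_mono hle
    omega
  obtain ⟨w, hw, hwX⟩ := SetLike.not_le_iff_exists.1 h2
  obtain ⟨f, hf, hf'⟩ := Submodule.exists_dual_map_eq_bot_of_notMem hwX inferInstance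
  have h3 : ∀ g : V → F, (fun i => f (Pi.single i 1)) ⬝ᵥ g = f g := fun g => by
    conv_rhs => rw [← Finset.univ_sum_single g, map_sum]
    refine sum_congr rfl fun i _ => ?_
    have : (Pi.single i (g i) : V → F) = g i • (Pi.single i 1 : V → F) := by
      rw [← Pi.single_smul, smul_eq_mul, mul_one]
    rw [this, map_smul, smul_eq_mul, mul_comm]
  refine ⟨w, (f w)⁻¹ • fun i => f (Pi.single i 1), fun g hg => ?_, fun g hg => ?_, ?_⟩
  · rw [dotProduct_comm]
    exact hw g hg
  · have : f g = 0 := by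
      have := Submodule.mem_map_of_mem (f := f) hg
      rwa [hf', Submodule.mem_bot] at this
    rw [smul_dotProduct, h3, this, smul_zero]
  · rw [smul_dotProduct, h3, smul_eq_mul, inv_mul_cancel₀ hf]

end Lin

section Tan

variable {F G A κ κ' μ μ' : Type} [Field F] [Fintype G] [DecidableEq G] [Fintype A]
  [DecidableEq A] [Fintype κ] [Fintype κ'] [Fintype μ] [Fintype μ']

/-- Columns of the views agree along a column move. -/
theorem col_move {π π' : A → A → Equiv.Perm G} {ρ : A → Equiv.Perm G}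
    (h : ∀ a b, π' a b = ρ b * π a b) {H : Matrix κ A F} {x : G × A × A → F}
    (hx : ∀ v, H * view π x v = 0) (v : G) : H * view π' x v = 0 := by
  ext i b
  have := congrFun (congrFun (hx ((ρ b).symm v)) i) b
  simp only [Matrix.mul_apply, view, Matrix.of_apply, h] at this ⊢
  exact this

/-- Rows of the views agree along a row move. -/
theorem row_move {π π' : A → A → Equiv.Perm G} {ρ : A → Equiv.Perm G}
    (h : ∀ a b, π' a b = ρ a * π a b) {H : Matrix κ A F} {x : G × A × A → F}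
    (hx : ∀ v, view π x v * Hᵀ = 0) (v : G) : view π' x v * Hᵀ = 0 := by
  ext a i
  have := congrFun (congrFun (hx ((ρ a).symm v)) a) i
  simp only [Matrix.mul_apply, view, Matrix.of_apply, h] at this ⊢
  exact this

theorem gen_le_col {π π' : A → A → Equiv.Perm G} {ρ : A → Equiv.Perm G}
    (h : ∀ a b, π' a b = ρ b * π a b) (H : Matrix κ A F) (H' : Matrix κ' A F) (v : G) :
    gen π H H' ≤ chk π' H H' v := fun x hx => by
  change H * view π' x v * H'ᵀ = 0
  rw [col_move h (fun v => (hx v).1) v, Matrix.zero_mul]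

theorem gen_le_row {π π' : A → A → Equiv.Perm G} {ρ : A → Equiv.Perm G}
    (h : ∀ a b, π' a b = ρ a * π a b) (H : Matrix κ A F) (H' : Matrix κ' A F) (v : G) :
    gen π H H' ≤ chk π' H H' v := fun x hx => by
  change H * view π' x v * H'ᵀ = 0
  rw [Matrix.mul_assoc, row_move h (fun v => (hx v).2) v, Matrix.mul_zero]

/-- A vector orthogonal to the generators of the dual codes passes the checks. -/
theorem mem_chk_of_perp (π : A → A → Equiv.Perm G) {H : Matrix κ A F} {H' : Matrix κ' A F}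
    {D : Matrix μ A F} {D' : Matrix μ' A F} (h : ∀ i j, D i ⬝ᵥ H j = 0)
    (h' : ∀ i j, D' i ⬝ᵥ H' j = 0) {u : G × A × A → F}
    (hu : ∀ g ∈ gen π D D', u ⬝ᵥ g = 0) (v : G) : u ∈ chk π H H' v := by
  change H * view π u v * H'ᵀ = 0
  ext i j
  let g : G × A × A → F := fun q => if π q.2.1 q.2.2 q.1 = v then H i q.2.1 * H' j q.2.2 else 0
  have hg : g ∈ gen π D D' := fun v' => by
    by_cases hv : v' = v
    · subst hv
      constructor
      · ext k b
        have := h k i
        simp only [dotProduct] at this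
        simp only [Matrix.mul_apply, view, Matrix.of_apply, g, Equiv.apply_symm_apply, if_true,
          ← mul_assoc, ← Finset.sum_mul, this, zero_mul, Matrix.zero_apply]
      · ext a k
        have := h' k j
        simp only [dotProduct] at this
        simp only [Matrix.mul_apply, view, Matrix.of_apply, g, Equiv.apply_symm_apply, if_true,
          transpose_apply, Matrix.zero_apply, mul_assoc, ← Finset.mul_sum]
        rw [Finset.sum_congr rfl fun b _ => mul_comm (H' j b) (D' k b), this, mul_zero]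
    · have : view π g v' = 0 := by
        ext a b
        simp [view, g, hv]
      rw [this]
      simp
  have h1 := hu g hg
  rw [dotProduct, Fintype.sum_prod_type_right, Fintype.sum_prod_type_right] at h1
  rw [Matrix.zero_apply, ← h1, Matrix.mul_apply]
  refine sum_congr rfl fun b _ => ?_
  rw [Matrix.mul_apply, Finset.sum_mul]
  refine sum_congr rfl fun a _ => ?_
  rw [sum_eq_single ((π a b).symm v)]
  · simp only [g, view, Matrix.of_apply, Equiv.apply_symm_apply, if_true, transpose_apply]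
    ring
  · intro g0 _ hg0
    have : π a b g0 ≠ v := fun e => hg0 (by rw [← e, Equiv.symm_apply_apply])
    simp [g, this]
  · simp

/-- The dimension of the space of generators. -/
theorem finrank_gen (π : A → A → Equiv.Perm G) {H : Matrix κ A F} {H' : Matrix κ' A F}
    (L : Matrix μ A F) (L' : Matrix μ' A F)
    (h : ∀ y : A → F, H *ᵥ y = 0 → L *ᵥ y = 0 → y = 0)
    (h' : ∀ y : A → F, H' *ᵥ y = 0 → L' *ᵥ y = 0 → y = 0) :
    finrank F (gen π H H') ≤ Fintype.card G * (Fintype.card μ * Fintype.card μ') := by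
  let φ : gen π H H' →ₗ[F] (G × μ × μ' → F) :=
    { toFun := fun x q => (L * view π x.1 q.1 * L'ᵀ) q.2.1 q.2.2
      map_add' := fun x y => by
        funext q
        simp [view_add, Matrix.mul_add, Matrix.add_mul]
      map_smul' := fun c x => by
        funext q
        simp [view_smul] }
  have hφ : Function.Injective φ := by
    rw [injective_iff_map_eq_zero]
    intro x hx
    have h1 : ∀ v, view π x.1 v = 0 := fun v => by
      have h2 : L * (view π x.1 v * L'ᵀ) = 0 := by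
        rw [← Matrix.mul_assoc]
        ext i j
        exact congrFun hx (v, i, j)
      have h3 : H * (view π x.1 v * L'ᵀ) = 0 := by
        rw [← Matrix.mul_assoc, (x.2 v).1, Matrix.zero_mul]
      have h4 : view π x.1 v * L'ᵀ = 0 := by
        ext a j
        exact congrFun (h (fun a => (view π x.1 v * L'ᵀ) a j)
          (funext fun i => congrFun (congrFun h3 i) j)
          (funext fun i => congrFun (congrFun h2 i) j)) a
      ext a b
      refine congrFun (h' (view π x.1 v a) (funext fun i => ?_) (funext fun i => ?_)) b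
      · have := congrFun (congrFun (x.2 v).2 a) i
        rw [mulVec, dotProduct_comm]
        exact this
      · have := congrFun (congrFun h4 a) i
        rw [mulVec, dotProduct_comm]
        exact this
    refine Subtype.ext (funext fun q => ?_)
    have := congrFun (congrFun (h1 (π q.2.1 q.2.2 q.1)) q.2.1) q.2.2
    simpa [view] using this
  have := LinearMap.finrank_le_finrank_of_injective hφ
  rwa [Module.finrank_fintype_fun_eq_card, Fintype.card_prod, Fintype.card_prod] at this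

/-- The squares at a vertex. -/
def sq (π : A → A → Equiv.Perm G) (v : G) : Finset (G × A × A) :=
  univ.filter fun q => π q.2.1 q.2.2 q.1 = v

theorem card_sq (π : A → A → Equiv.Perm G) (v : G) :
    (sq π v).card ≤ Fintype.card A * Fintype.card A := by
  rw [← Fintype.card_prod, ← Finset.card_univ]
  refine Finset.card_le_card_of_injOn (fun q => q.2) (fun _ _ => by simp) ?_
  rintro ⟨g, q⟩ hq ⟨g', q'⟩ hq' e
  simp only [sq, coe_filter, mem_univ, true_and, Set.mem_ofPred_eq] at hq hq' e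
  subst e
  rw [(π q.1 q.2).injective (hq.trans hq'.symm)]

theorem loc_chk (π : A → A → Equiv.Perm G) (H : Matrix κ A F) (H' : Matrix κ' A F) (v : G)
    (u : G × A × A → F) (hu : ∀ q ∈ sq π v, u q = 0) : u ∈ chk π H H' v := by
  change H * view π u v * H'ᵀ = 0
  have : view π u v = 0 := by
    ext a b
    exact hu _ (by simp [sq])
  rw [this, Matrix.mul_zero, Matrix.zero_mul]

theorem deg_sq (π π' : A → A → Equiv.Perm G) (q : G × A × A) :
    (univ.filter fun j : G ⊕ G => q ∈ Sum.elim (sq π) (sq π') j).card ≤ 2 := by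
  refine le_trans (Finset.card_le_card (t := {Sum.inl (π q.2.1 q.2.2 q.1),
    Sum.inr (π' q.2.1 q.2.2 q.1)}) ?_) Finset.card_le_two
  rintro (v | v) hv
  · simp only [sq, Sum.elim_inl, mem_filter, mem_univ, true_and] at hv
    simp [hv]
  · simp only [sq, Sum.elim_inr, mem_filter, mem_univ, true_and] at hv
    simp [hv]

theorem viol_elim {X : Type} [AddCommGroup X] [Module F X] (K K' : G → Submodule F X) (x : X) :
    viol (Sum.elim K K') x = viol K x + viol K' x := by
  classical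
  simp only [viol, Finset.card_filter, Fintype.sum_sum_type, Sum.elim_inl, Sum.elim_inr]
  congr

/-- The generators pass the checks of the two neighbouring vertex types. -/
theorem sup_le_chk {σ τ : A → Equiv.Perm G} {π₀₀ π₁₀ π₀₁ π₁₁ : A → A → Equiv.Perm G}
    (e1 : ∀ a b, π₁₀ a b = σ a * π₀₀ a b) (e2 : ∀ a b, π₀₁ a b = τ b * π₀₀ a b)
    (e3 : ∀ a b, π₁₁ a b = σ a * π₀₁ a b) (e4 : ∀ a b, π₁₁ a b = τ b * π₁₀ a b)
    (H : Matrix κ A F) (H' : Matrix κ' A F) :
    ∀ g ∈ gen π₀₀ H H' ⊔ gen π₁₁ H H', ∀ j, g ∈ Sum.elim (chk π₁₀ H H') (chk π₀₁ H H') j := by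
  intro g hg j
  rcases j with v | v
  · exact (sup_le (gen_le_row e1 H H' v)
      (gen_le_col (ρ := fun b => (τ b)⁻¹) (fun a b => by rw [e4, inv_mul_cancel_left]) H H' v)) hg
  · exact (sup_le (gen_le_col e2 H H' v)
      (gen_le_row (ρ := fun a => (σ a)⁻¹) (fun a b => by rw [e3, inv_mul_cancel_left]) H H' v)) hg

/-- The labels of one side. -/
theorem side (h3 : TanStmt) (h4 : LabStmt) {w : ℕ} {σ τ : A → Equiv.Perm G}
    {π₀₀ π₁₀ π₀₁ π₁₁ : A → A → Equiv.Perm G} {H : Matrix κ A F} {H' : Matrix κ' A F}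
    (hw : 1 ≤ w) (hA : Fintype.card A = 128 * w)
    (e1 : ∀ a b, π₁₀ a b = σ a * π₀₀ a b) (e2 : ∀ a b, π₀₁ a b = τ b * π₀₀ a b)
    (e3 : ∀ a b, π₁₁ a b = σ a * π₀₁ a b) (e4 : ∀ a b, π₁₁ a b = τ b * π₁₀ a b)
    (m1 : Mix σ ((w : ℝ) / 1024)) (m2 : Mix τ ((w : ℝ) / 1024)) (hPE : PE w H H')
    (w' : G × A × A → F) (hw' : ∀ g ∈ gen π₀₀ H H' ⊔ gen π₁₁ H H', w' ⬝ᵥ g = 0) :
    ∃ l : (G × A × A → F) → F,
      (∀ x u, (∀ j, u ∈ Sum.elim (chk π₁₀ H H') (chk π₀₁ H H') j) → l (x + u) = l x + w' ⬝ᵥ u) ∧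
      ∀ x y, (viol (Sum.elim (chk π₁₀ H H') (chk π₀₁ H H')) x : ℝ) ≤
          1 / (2 ^ 85 * (w : ℝ) ^ 4) * Fintype.card (G × A × A) →
        (viol (Sum.elim (chk π₁₀ H H') (chk π₀₁ H H')) y : ℝ) ≤
          1 / (2 ^ 85 * (w : ℝ) ^ 4) * Fintype.card (G × A × A) →
        (wt (x - y) : ℝ) ≤ 1 / (2 ^ 85 * (w : ℝ) ^ 4) * Fintype.card (G × A × A) → l x = l y := by
  have hw1 : (1 : ℝ) ≤ w := by exact_mod_cast hw
  have hG : (0 : ℝ) ≤ Fintype.card G := Nat.cast_nonneg _
  have hb : 1 / (2 ^ 85 * (w : ℝ) ^ 4) * Fintype.card (G × A × A) =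
      Fintype.card G / (2 ^ 71 * (w : ℝ) ^ 2) := by
    rw [Fintype.card_prod, Fintype.card_prod, hA]
    push_cast
    field_simp
    ring
  obtain ⟨l, hl1, hl2⟩ := h4 F (G × A × A) (G ⊕ G) (Sum.elim (chk π₁₀ H H') (chk π₀₁ H H'))
    (gen π₀₀ H H' ⊔ gen π₁₁ H H') w' (2 ^ 41 * w ^ 3) (w * Fintype.card G / 2 ^ 29)
    (Fintype.card G / (2 ^ 71 * (w : ℝ) ^ 2)) (sup_le_chk e1 e2 e3 e4 H H') hw'
    (le_of_eq (by push_cast; field_simp; ring)) (fun x hx => by
      rw [viol_elim]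
      refine h3 F G A κ κ' w σ τ π₀₀ π₁₀ π₀₁ π₁₁ H H' hw hA e1 e2 e3 e4 m1 m2 hPE x ?_
      have : (2 : ℝ) ^ 28 * wt x ≤ w * Fintype.card G := by linarith
      exact_mod_cast this)
  refine ⟨l, hl1, fun x y hx hy hxy => ?_⟩
  rw [hb] at hx hy hxy
  refine hl2 x y hx hy (hxy.trans ?_)
  rw [div_le_div_iff₀ (by positivity) (by positivity)]
  have h5 : (1 : ℝ) ≤ w * w ^ 2 := one_le_mul_of_one_le_of_one_le hw1 (one_le_pow₀ hw1)
  nlinarith [mul_le_mul_of_nonneg_left h5 hG]

end Tan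

section Blocks

variable {F κ κ' : Type} [Field F] [Fintype κ] [Fintype κ'] [DecidableEq κ] [DecidableEq κ']

theorem inj_rows {P P' : Matrix (κ ⊕ κ') (κ ⊕ κ') F} (h : P * P'ᵀ = 1) (y : κ ⊕ κ' → F)
    (h1 : P.toRows₁ *ᵥ y = 0) (h2 : P.toRows₂ *ᵥ y = 0) : y = 0 := by
  have h3 : P *ᵥ y = 0 := by
    funext i
    rcases i with i | i
    · exact congrFun h1 i
    · exact congrFun h2 i
  rw [← Matrix.one_mulVec y, ← mul_eq_one_comm.1 h, ← mulVec_mulVec, h3, mulVec_zero]

theorem swap_one {P P' : Matrix (κ ⊕ κ') (κ ⊕ κ') F} (h : P * P'ᵀ = 1) : P' * Pᵀ = 1 := by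
  simpa using congrArg transpose h

theorem dot12 {P P' : Matrix (κ ⊕ κ') (κ ⊕ κ') F} (h : P * P'ᵀ = 1) (i : κ) (j : κ') :
    P.toRows₁ i ⬝ᵥ P'.toRows₂ j = 0 := by
  have := congrFun (congrFun h (Sum.inl i)) (Sum.inr j)
  rw [Matrix.one_apply_ne (by simp)] at this
  exact this

theorem dot21 {P P' : Matrix (κ ⊕ κ') (κ ⊕ κ') F} (h : P * P'ᵀ = 1) (i : κ') (j : κ) :
    P.toRows₂ i ⬝ᵥ P'.toRows₁ j = 0 := by
  have := congrFun (congrFun h (Sum.inr i)) (Sum.inl j)
  rw [Matrix.one_apply_ne (by simp)] at this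
  exact this

end Blocks

end CodeRow

open CodeRow in
theorem code_of (h1 : ExpStmt) (h2 : PEStmt) (h3 : TanStmt) (h4 : LabStmt) : CodeStmt := by
  obtain ⟨w, hw, hE⟩ := h1
  obtain ⟨p, hp, hp2, P, P', Q, Q', hP, hQ, pe1, pe2⟩ := h2 w hw
  have hw0 : (0 : ℝ) < w := by exact_mod_cast hw
  refine ⟨p, hp, 128 * w * (128 * w), 1 / (2 ^ 85 * (w : ℝ) ^ 4), hp2, by positivity, fun n₀ => ?_⟩
  obtain ⟨G, _, _, hG, σ, τ, hc, m1, m2⟩ := hE (n₀ + 1)
  have hA : Fintype.card (AA w) = 128 * w := by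
    simp only [Fintype.card_sum, Fintype.card_fin]
    omega
  have hk : 2 ≤ 128 * w * (128 * w) := by nlinarith
  have hV : Fintype.card (G × AA w × AA w) = Fintype.card G * (128 * w * (128 * w)) := by
    rw [Fintype.card_prod, Fintype.card_prod, hA]
  let π₀₀ : AA w → AA w → Equiv.Perm G := fun _ _ => 1
  let π₁₀ : AA w → AA w → Equiv.Perm G := fun a _ => σ a
  let π₀₁ : AA w → AA w → Equiv.Perm G := fun _ b => τ b
  let π₁₁ : AA w → AA w → Equiv.Perm G := fun a b => σ a * τ b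
  have e1 : ∀ a b, π₁₀ a b = σ a * π₀₀ a b := fun a b => (mul_one _).symm
  have e2 : ∀ a b, π₀₁ a b = τ b * π₀₀ a b := fun a b => (mul_one _).symm
  have e3 : ∀ a b, π₁₁ a b = σ a * π₀₁ a b := fun a b => rfl
  have e4 : ∀ a b, π₁₁ a b = τ b * π₁₀ a b := fun a b => hc a b
  have f2 : ∀ a b, π₀₀ a b = (τ b)⁻¹ * π₀₁ a b := fun a b => (inv_mul_cancel _).symm
  have f4 : ∀ a b, π₁₀ a b = (τ b)⁻¹ * π₁₁ a b := fun a b => by rw [e4, inv_mul_cancel_left]
  have hP' := swap_one hP
  have hQ' := swap_one hQ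
  have d1 := fun π : AA w → AA w → Equiv.Perm G =>
    finrank_gen π (H := P.toRows₁) (H' := Q.toRows₂) P.toRows₂ Q.toRows₁ (inj_rows hP)
      fun y a b => inj_rows hQ y b a
  have d2 := fun π : AA w → AA w → Equiv.Perm G =>
    finrank_gen π (H := P'.toRows₂) (H' := Q'.toRows₁) P'.toRows₁ Q'.toRows₂
      (fun y a b => inj_rows hP' y b a) (inj_rows hQ')
  simp only [Fintype.card_fin] at d1 d2
  obtain ⟨w₀, w₁, hw₀, hw₁, hdot⟩ := exists_pair
    (gen π₀₀ P.toRows₁ Q.toRows₂ ⊔ gen π₁₁ P.toRows₁ Q.toRows₂)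
    (gen π₀₁ P'.toRows₂ Q'.toRows₁ ⊔ gen π₁₀ P'.toRows₂ Q'.toRows₁) (by
      have s1 := Submodule.finrank_add_le_finrank_add_finrank
        (gen π₀₀ P.toRows₁ Q.toRows₂) (gen π₁₁ P.toRows₁ Q.toRows₂)
      have s2 := Submodule.finrank_add_le_finrank_add_finrank
        (gen π₀₁ P'.toRows₂ Q'.toRows₁) (gen π₁₀ P'.toRows₂ Q'.toRows₁)
      have s3 := d1 π₀₀
      have s4 := d1 π₁₁
      have s5 := d2 π₀₁
      have s6 := d2 π₁₀
      have s7 : 0 < Fintype.card G * (w * w) := Nat.mul_pos (by omega) (Nat.mul_pos hw hw)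
      rw [hV]
      have s8 : Fintype.card G * (128 * w * (128 * w)) = 16384 * (Fintype.card G * (w * w)) := by
        ring
      have s9 : Fintype.card G * (96 * w * (32 * w)) = 3072 * (Fintype.card G * (w * w)) := by
        ring
      have s10 : Fintype.card G * (32 * w * (96 * w)) = 3072 * (Fintype.card G * (w * w)) := by
        ring
      omega)
  obtain ⟨l₀, a₀, n₀'⟩ := side h3 h4 hw hA e1 e2 e3 e4 m1 m2 pe1 w₁ hw₁
  obtain ⟨l₁, a₁, n₁'⟩ := side h3 h4 (τ := fun b => (τ b)⁻¹) hw hA e3 f2 e1 f4 m1 m2.inv pe2 w₀ hw₀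
  have pZ : ∀ u : G × AA w × AA w → ZMod p,
      (∀ g ∈ gen π₀₁ P'.toRows₂ Q'.toRows₁ ⊔ gen π₁₀ P'.toRows₂ Q'.toRows₁, u ⬝ᵥ g = 0) →
      ∀ j, u ∈ Sum.elim (chk π₁₀ P.toRows₁ Q.toRows₂) (chk π₀₁ P.toRows₁ Q.toRows₂) j := by
    rintro u hu (v | v)
    · exact mem_chk_of_perp π₁₀ (dot21 hP') (dot12 hQ')
        (fun g hg => hu g (Submodule.mem_sup_right hg)) v
    · exact mem_chk_of_perp π₀₁ (dot21 hP') (dot12 hQ')
        (fun g hg => hu g (Submodule.mem_sup_left hg)) v
  have pX : ∀ j, w₁ ∈ Sum.elim (chk π₁₁ P'.toRows₂ Q'.toRows₁) (chk π₀₀ P'.toRows₂ Q'.toRows₁) j := by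
    rintro (v | v)
    · exact mem_chk_of_perp π₁₁ (dot12 hP) (dot21 hQ)
        (fun g hg => hw₁ g (Submodule.mem_sup_right hg)) v
    · exact mem_chk_of_perp π₀₀ (dot12 hP) (dot21 hQ)
        (fun g hg => hw₁ g (Submodule.mem_sup_left hg)) v
  refine ⟨G × AA w × AA w, G ⊕ G, inferInstance, inferInstance, inferInstance, ?_, ?_,
    ⟨fun s => match s with
        | false => Sum.elim (chk π₁₀ P.toRows₁ Q.toRows₂) (chk π₀₁ P.toRows₁ Q.toRows₂)
        | true => Sum.elim (chk π₁₁ P'.toRows₂ Q'.toRows₁) (chk π₀₀ P'.toRows₂ Q'.toRows₁),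
      fun s => match s with
        | false => Sum.elim (sq π₁₀) (sq π₀₁)
        | true => Sum.elim (sq π₁₁) (sq π₀₀),
      fun s => match s with
        | false => w₀
        | true => w₁,
      fun s => match s with
        | false => l₀
        | true => l₁⟩, ?_, ?_, ?_, ?_, ?_, hdot, ?_, ?_⟩
  · rw [hV]
    nlinarith
  · rw [hV, Fintype.card_sum]
    nlinarith
  · rintro (_ | _) (v | v) <;> exact (card_sq _ v).trans (by rw [hA])
  · rintro (_ | _) q <;> exact (deg_sq _ _ q).trans hk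
  · rintro (_ | _) (v | v) u hu <;> exact loc_chk _ _ _ v u hu
  · intro u hu
    refine pZ u fun g hg => ?_
    rw [dotProduct_comm]
    exact hu g (sup_le_chk (τ := fun b => (τ b)⁻¹) e3 f2 e1 f4 _ _ g hg)
  · rintro (_ | _)
    · exact pZ w₀ hw₀
    · exact pX
  · rintro (_ | _)
    · exact a₀
    · exact a₁
  · rintro (_ | _)
    · exact n₀'
    · exact n₁'

end Pool.Agent.MP_36f78e_lc.H46
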