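import Pool.Agent.MP_36f78e_lc.H46.Spec

/-! The Fourier matrix. -/

namespace Pool.Agent.MP_36f78e_lc.H46

open Matrix Finset
open scoped Kronecker

namespace Four

theorem shift {Y : Type} [Fintype Y] (σ : Y ≃ Y) (g : Y → ℂ) {c : ℂ} (h : ∀ x, g (σ x) = c * g x)
    (h0 : ∑ x, g x ≠ 0) : c = 1 := by
  have := σ.sum_comp g
  simp only [h, ← mul_sum] at this
  exact mul_right_cancel₀ h0 (this.trans (one_mul _).symm)

variable {p : ℕ} [Fact p.Prime] {V : Type} [Fintype V] [DecidableEq V]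

theorem e_one {a : ZMod p} (h : ZMod.stdAddChar a = 1) : a = 0 :=
  ZMod.injective_stdAddChar (h.trans (AddChar.map_zero_eq_one _).symm)

omit [DecidableEq V] in
theorem four_add (ξ x u : V → ZMod p) :
    four p V ξ (x + u) = ZMod.stdAddChar (ξ ⬝ᵥ u) * four p V ξ x := by
  simp only [four, of_apply, dotProduct_add, AddChar.map_add_eq_mul]
  ring

omit [DecidableEq V] in
theorem ent (ξ x η y : V → ZMod p) : star (four p V ξ x) * four p V η y =
    ZMod.stdAddChar (η ⬝ᵥ y - ξ ⬝ᵥ x) / (p : ℂ) ^ Fintype.card V := by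
  have h : ((√((p : ℝ) ^ Fintype.card V) : ℝ) : ℂ) * ((√((p : ℝ) ^ Fintype.card V) : ℝ) : ℂ) =
      (p : ℂ) ^ Fintype.card V := by
    rw [← Complex.ofReal_mul, Real.mul_self_sqrt (by positivity)]
    push_cast
    rfl
  simp only [four, of_apply, star_div₀, Complex.star_def, Complex.conj_ofReal,
    ← AddChar.map_neg_eq_conj]
  rw [div_mul_div_comm, h, ← AddChar.map_add_eq_mul, neg_add_eq_sub]

theorem mult (g : (V → ZMod p) → ℂ) (x y : V → ZMod p) :
    ((four p V)ᴴ * diagonal g * four p V) x y =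
      ∑ ξ, g ξ * (ZMod.stdAddChar (ξ ⬝ᵥ (y - x)) / (p : ℂ) ^ Fintype.card V) := by
  rw [mul_apply]
  refine sum_congr rfl fun ξ _ => ?_
  rw [mul_diagonal, conjTranspose_apply, mul_right_comm, ent, dotProduct_sub, mul_comm]

end Four

open Four in
theorem four_ok : FourStmt := by
  intro p _ V _ _
  have h3 : ∀ (g : (V → ZMod p) → ℂ) (z x y : V → ZMod p) (c : ZMod p),
      (∀ ξ, g (ξ + z) = ZMod.stdAddChar c * g ξ) →
      ((four p V)ᴴ * diagonal g * four p V) x y ≠ 0 → z ⬝ᵥ (x - y) = c := fun g z x y c hg h => by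
    rw [mult] at h
    refine (sub_eq_zero.1 (e_one (shift (Equiv.addRight z) _ (fun ξ => ?_) h))).symm
    rw [Equiv.coe_addRight, hg, add_dotProduct, ← neg_sub x y, dotProduct_neg z, sub_eq_add_neg c,
      AddChar.map_add_eq_mul, AddChar.map_add_eq_mul]
    ring
  refine ⟨mem_unitaryGroup_iff'.2 ?_, fun g x y u => by rw [mult, mult, add_sub_add_right_eq_sub],
    h3, fun Ω _ _ S A hA y y' h v hv => ?_⟩
  · ext x y
    have e : star (four p V) * four p V = (four p V)ᴴ * diagonal (fun _ => 1) * four p V := by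
      rw [diagonal_one, mul_one, star_eq_conjTranspose]
    rw [e]
    by_cases h : x = y
    · subst h
      have : (p : ℂ) ^ Fintype.card V ≠ 0 :=
        pow_ne_zero _ (Nat.cast_ne_zero.2 (Fact.out : p.Prime).ne_zero)
      rw [mult]
      simp [this]
    · rw [one_apply_ne h]
      by_contra k
      refine h (funext fun v => sub_eq_zero.1 ?_)
      simpa using h3 _ (Pi.single v 1) x y 0 (fun _ => by simp) k
  · obtain ⟨σ, hσ⟩ : ∃ σ : ((V → ZMod p) × Ω) ≃ ((V → ZMod p) × Ω),
        ∀ a, σ a = (a.1 + Pi.single v 1, a.2) :=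
      ⟨(Equiv.addRight (Pi.single v 1)).prodCongr (Equiv.refl Ω), fun _ => rfl⟩
    have U : ∀ y a, (four p V ⊗ₖ (1 : Matrix Ω Ω ℂ)) y (σ a) =
        ZMod.stdAddChar (y.1 v) * (four p V ⊗ₖ (1 : Matrix Ω Ω ℂ)) y a := fun y a => by
      rw [hσ, kroneckerMap_apply, kroneckerMap_apply, four_add, dotProduct_single, mul_one,
        mul_assoc]
    have hA' : ∀ a b, A (σ a) (σ b) = A a b := fun a b => by
      rw [hσ, hσ,
        hA.2 (Pi.single v 1) fun w hw => Pi.single_eq_of_ne (by rintro rfl; exact hv hw) _]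
    rw [mul_apply] at h
    refine sub_eq_zero.1 (e_one (shift σ _ (fun a => ?_) h))
    rw [conjTranspose_apply, conjTranspose_apply, U, mul_apply, mul_apply, ← σ.sum_comp]
    simp only [U, hA', mul_assoc, ← mul_sum]
    rw [star_mul', Complex.star_def, ← AddChar.map_neg_eq_conj, sub_eq_add_neg,
      AddChar.map_add_eq_mul]
    ring

end Pool.Agent.MP_36f78e_lc.H46
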