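import Pool.Agent.MP_36f78e_lc.H46.Spec

/-! Sparse matrices of given rank are few; bad pairs of codes are rare. -/

namespace Pool.Agent.MP_36f78e_lc.H46

open Matrix Finset Module

namespace Bad

theorem ub {X ι : Type} [Finite X] (P : X → Prop) (T : Finset ι) (Q : ι → X → Prop) (c B : ℕ)
    (hP : ∀ x, P x → ∃ i ∈ T, Q i x) (hQ : ∀ i ∈ T, Nat.card {x // Q i x} * c ≤ B) :
    Nat.card {x // P x} * c ≤ T.card * B := by
  classical
  have := Fintype.ofFinite X
  have h1 : (univ.filter P).card ≤ ∑ i ∈ T, (univ.filter (Q i)).card := by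
    refine le_trans (card_le_card fun x hx => ?_) card_biUnion_le
    obtain ⟨i, hi, h⟩ := hP x (mem_filter.1 hx).2
    exact mem_biUnion.2 ⟨i, hi, mem_filter.2 ⟨mem_univ _, h⟩⟩
  rw [Nat.card_eq_fintype_card, Fintype.card_subtype]
  refine (Nat.mul_le_mul_right c h1).trans ?_
  rw [sum_mul, ← smul_eq_mul]
  refine sum_le_card_nsmul _ _ _ fun i hi => ?_
  have h2 := hQ i hi
  rwa [Nat.card_eq_fintype_card, Fintype.card_subtype] at h2

theorem mono {X : Type} [Finite X] {P Q : X → Prop} (h : ∀ x, P x → Q x) :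
    Nat.card {x // P x} ≤ Nat.card {x // Q x} :=
  Nat.card_le_card_of_injective _ (Subtype.map_injective (f := id) h Function.injective_id)

theorem fib {X Y : Type} [Finite X] [Finite Y] (P : X → Prop) (R : X → Y → Prop) (c B : ℕ)
    (h : ∀ x, P x → Nat.card {y // R x y} * c ≤ B) :
    Nat.card {p : X × Y // P p.1 ∧ R p.1 p.2} * c ≤ Nat.card {x // P x} * B := by
  classical
  have := Fintype.ofFinite X
  rw [Nat.card_eq_fintype_card (α := {x // P x}), Fintype.card_subtype]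
  refine ub _ _ (fun x p => p.1 = x ∧ R x p.2) c B
    (fun p hp => ⟨p.1, mem_filter.2 ⟨mem_univ _, hp.1⟩, rfl, hp.2⟩) fun x hx => ?_
  refine le_trans (Nat.mul_le_mul_right c ?_) (h x (mem_filter.1 hx).2)
  refine Nat.card_le_card_of_injective (fun p => ⟨p.1.2, p.2.2⟩) fun p p' e => ?_
  exact Subtype.ext (Prod.ext (p.2.1.trans p'.2.1.symm) (congrArg Subtype.val e))

variable {F A : Type} [Field F] [Fintype F] [Fintype A]

theorem light (w : ℕ) :
    Nat.card {v : A → F // wt v ≤ w} ≤ 2 ^ Fintype.card A * Fintype.card F ^ w := by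
  classical
  have h := ub (fun v : A → F => wt v ≤ w) (univ : Finset (Finset A))
    (fun S v => S.card ≤ w ∧ ∀ a, a ∉ S → v a = 0) 1 (Fintype.card F ^ w)
    (fun v hv => ⟨univ.filter fun a => v a ≠ 0, mem_univ _, by
      unfold wt at hv; convert hv, fun a ha => by simpa using ha⟩) fun S _ => ?_
  · rwa [mul_one, card_univ, Fintype.card_finset] at h
  rw [mul_one]
  by_cases hS : S.card ≤ w
  · refine le_trans (Nat.card_le_card_of_injective (β := S → F) (fun v a => v.1 a) ?_) ?_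
    · intro v v' e
      refine Subtype.ext (funext fun a => ?_)
      by_cases ha : a ∈ S
      · exact congrFun e ⟨a, ha⟩
      · rw [v.2.2 a ha, v'.2.2 a ha]
    · rw [Nat.card_eq_fintype_card, Fintype.card_fun, Fintype.card_coe]
      exact Nat.pow_le_pow_right Fintype.card_pos hS
  · have : IsEmpty {v : A → F // S.card ≤ w ∧ ∀ a, a ∉ S → v a = 0} := ⟨fun v => hS v.2.1⟩
    simp

omit [Fintype F] in
theorem rows (x : Matrix A A F) {s : ℕ} (h : x.rank = s) : ∃ ρ : Fin s → A,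
    ∀ a, x a ∈ Submodule.span F (Set.range fun i => x (ρ i)) := by
  rw [rank_eq_finrank_span_row] at h
  subst h
  obtain ⟨f, h1, h2, -⟩ := Submodule.exists_fun_fin_finrank_span_eq F (Set.range x.row)
  choose ρ hρ using h1
  refine ⟨ρ, fun a => ?_⟩
  have e : (fun i => x (ρ i)) = f := funext hρ
  rw [e, h2]
  exact Submodule.subset_span ⟨a, rfl⟩

omit [Fintype F] [Fintype A] in
theorem det {s : ℕ} {x y : Matrix A A F} {ρ γ : Fin s → A}
    (h1 : ∀ a, x a ∈ Submodule.span F (Set.range fun i => x (ρ i)))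
    (h2 : ∀ a, y a ∈ Submodule.span F (Set.range fun i => y (ρ i)))
    (h3 : ∀ b, xᵀ b ∈ Submodule.span F (Set.range fun i => xᵀ (γ i)))
    (h4 : ∀ i, x (ρ i) = y (ρ i)) (h5 : ∀ i, xᵀ (γ i) = yᵀ (γ i)) : x = y := by
  ext a b
  have e : (fun i => y (ρ i)) = fun i => x (ρ i) := funext fun i => (h4 i).symm
  have h6 := Submodule.sub_mem _ (h1 a) (e ▸ h2 a)
  obtain ⟨β, hβ⟩ := (Submodule.mem_span_range_iff_exists_fun F).1 h6
  obtain ⟨c, hc⟩ := (Submodule.mem_span_range_iff_exists_fun F).1 (h3 b)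
  have k1 : ∀ b', ∑ i, β i * x (ρ i) b' = x a b' - y a b' := fun b' => by
    simpa [Finset.sum_apply] using congrFun hβ b'
  have k2 : ∀ a', ∑ j, c j * x a' (γ j) = x a' b := fun a' => by
    simpa [Finset.sum_apply] using congrFun hc a'
  rw [← sub_eq_zero, ← k1]
  simp only [← k2, mul_sum]
  rw [sum_comm]
  refine sum_eq_zero fun j _ => ?_
  have k3 : x a (γ j) - y a (γ j) = 0 := sub_eq_zero.2 (congrFun (h5 j) a)
  rw [← k1] at k3
  calc ∑ i, β i * (c j * x (ρ i) (γ j)) = c j * ∑ i, β i * x (ρ i) (γ j) := by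
        rw [mul_sum]; exact sum_congr rfl fun i _ => by ring
    _ = 0 := by rw [k3, mul_zero]

theorem expo {w s y a b : ℕ} (hs : s ≤ 128 * w) (ha : 31 * w ≤ a) (hb : 31 * w ≤ b) :
    3 * w * s ≤ (s - y) * (a - y) + y * b := by
  have h1 : y * (31 * w) ≤ y * b := Nat.mul_le_mul_left y hb
  by_cases h : y ≤ 28 * w
  · have h2 : (s - y) * (3 * w) ≤ (s - y) * (a - y) := Nat.mul_le_mul_left _ (by omega)
    have h3 : s * (3 * w) ≤ (s - y + y) * (3 * w) := Nat.mul_le_mul_right _ (by omega)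
    nlinarith
  · have h2 : 28 * w * (31 * w) ≤ y * (31 * w) := Nat.mul_le_mul_right _ (by omega)
    have h3 : 3 * w * s ≤ 3 * w * (128 * w) := Nat.mul_le_mul_left _ hs
    nlinarith [Nat.zero_le ((s - y) * (a - y)), Nat.zero_le (w * w)]

variable {κ κ' : Type} [Fintype κ] [Fintype κ']

theorem second (h : TailStmt) (Y : Submodule F (A → F)) (J : Finset A)
    (hJ : ∀ z ∈ Y, ∀ j ∈ J, z j = 0) :
    Nat.card {n : Matrix κ' A F // ∀ z ∈ Y, ∀ ν ∈ rowsp n ⊓ off F J, z ⬝ᵥ ν = 0} *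
      Fintype.card F ^ (finrank F Y * (Fintype.card κ' - J.card)) ≤
      2 ^ Fintype.card κ' * Nat.card (Matrix κ' A F) := by
  classical
  have h1 := h F A κ' (Dual F Y) (Y.dualRestrict ∘ₗ (dotProductEquiv F A).toLinearMap) J 0
    fun j hj => by
      ext z
      simpa using hJ z z.2 j hj
  have hs : Function.Surjective (Y.dualRestrict ∘ₗ (dotProductEquiv F A).toLinearMap) := by
    rw [LinearMap.coe_comp]
    exact Subspace.dualRestrict_surjective.comp (dotProductEquiv F A).surjective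
  rw [LinearMap.range_eq_top.2 hs, finrank_top, Subspace.dual_finrank_eq, Nat.sub_zero,
    Nat.sub_zero] at h1
  refine le_trans (Nat.mul_le_mul_right _ (mono fun n hn => ?_)) h1
  have e : (rowsp n ⊓ off F J).map (Y.dualRestrict ∘ₗ (dotProductEquiv F A).toLinearMap) = ⊥ := by
    rw [Submodule.eq_bot_iff]
    rintro _ ⟨ν, hν, rfl⟩
    ext z
    simpa [dotProduct_comm ν] using hn z z.2 ν hν
  rw [e, finrank_bot]

theorem fixed (h : TailStmt) {w : ℕ} (hA : Fintype.card A = 128 * w)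
    (h1 : 32 * w ≤ Fintype.card κ) (h2 : Fintype.card κ ≤ 128 * w)
    (h3 : 32 * w ≤ Fintype.card κ') (h4 : Fintype.card κ' ≤ 128 * w) {I J : Finset A}
    {x : Matrix A A F} (hI : I.card ≤ w) (hJ : J.card ≤ w) (hx : ∀ a ∈ I, ∀ b, x a b = 0)
    (hx' : ∀ b ∈ J, ∀ a, x a b = 0) :
    Nat.card {mn : Matrix κ A F × Matrix κ' A F // ∀ μ ∈ rowsp mn.1 ⊓ off F I,
        ∀ ν ∈ rowsp mn.2 ⊓ off F J, μ ⬝ᵥ (x *ᵥ ν) = 0} * Fintype.card F ^ (3 * w * x.rank) ≤
      (128 * w + 1) * (2 ^ (256 * w) * Nat.card (Matrix κ A F × Matrix κ' A F)) := by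
  classical
  have hq : 0 < Fintype.card F := Fintype.card_pos
  rw [← card_range (128 * w + 1)]
  refine ub _ _ (fun y mn => finrank F ((rowsp mn.1 ⊓ off F I).map x.vecMulLinear) = y ∧
    ∀ z ∈ (rowsp mn.1 ⊓ off F I).map x.vecMulLinear, ∀ ν ∈ rowsp mn.2 ⊓ off F J, z ⬝ᵥ ν = 0) _ _
    (fun mn hmn => ⟨_, mem_range.2 (Nat.lt_succ_of_le ?_), rfl, ?_⟩) fun y _ => ?_
  · refine (Submodule.finrank_le _).trans ?_
    rw [finrank_fintype_fun_eq_card, hA]
  · rintro _ ⟨μ, hμ, rfl⟩ ν hν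
    rw [vecMulLinear_apply, ← dotProduct_mulVec]
    exact hmn μ hμ ν hν
  have k1 := fib (X := Matrix κ A F) (Y := Matrix κ' A F)
    (fun m => finrank F ((rowsp m ⊓ off F I).map x.vecMulLinear) = y)
    (fun m n => ∀ z ∈ (rowsp m ⊓ off F I).map x.vecMulLinear, ∀ ν ∈ rowsp n ⊓ off F J, z ⬝ᵥ ν = 0)
    (Fintype.card F ^ (y * (Fintype.card κ' - J.card))) _ fun m hm => by
      rw [← hm]
      refine second h _ J ?_
      rintro _ ⟨μ, -, rfl⟩ j hj
      simp [vecMul, dotProduct, hx' j hj]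
  have k2 := h F A κ (A → F) x.vecMulLinear I y fun i hi => by
    ext b
    simpa using hx i hi b
  rw [range_vecMulLinear, ← rank_eq_finrank_span_row] at k2
  have k3 := le_trans (Nat.mul_le_mul_right _ (mono (X := Matrix κ A F)
    (P := fun m => finrank F ((rowsp m ⊓ off F I).map x.vecMulLinear) = y) fun m hm => hm.le)) k2
  have k4 := Nat.pow_le_pow_right hq (expo (w := w) (s := x.rank) (y := y)
    (a := Fintype.card κ - I.card) (b := Fintype.card κ' - J.card)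
    (hA ▸ rank_le_card_width x) (by omega) (by omega))
  have k5 : 2 ^ Fintype.card κ * 2 ^ Fintype.card κ' ≤ 2 ^ (256 * w) := by
    rw [← pow_add]; exact Nat.pow_le_pow_right two_pos (by omega)
  rw [Nat.card_prod]
  refine (Nat.mul_le_mul_left _ k4).trans ?_
  rw [pow_add, mul_comm (_ ^ _), ← mul_assoc]
  refine (Nat.mul_le_mul_right _ k1).trans ?_
  rw [mul_right_comm]
  refine (Nat.mul_le_mul_right _ k3).trans ?_
  rw [mul_mul_mul_comm]
  exact Nat.mul_le_mul_right _ k5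

end Bad

theorem sparse : SparseStmt := by
  intro F A _ _ _ w s
  choose ρ hρ using fun x : {x : Matrix A A F // Sparse w x ∧ x.rank = s} => Bad.rows x.1 x.2.2
  choose γ hγ using fun x : {x : Matrix A A F // Sparse w x ∧ x.rank = s} =>
    Bad.rows x.1ᵀ ((rank_transpose x.1).trans x.2.2)
  refine le_trans (Nat.card_le_card_of_injective
    (β := (Fin s → A × {v : A → F // wt v ≤ w}) × (Fin s → A × {v : A → F // wt v ≤ w}))
    (fun x => (fun i => (ρ x i, ⟨x.1 (ρ x i), x.2.1.1 _⟩),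
      fun i => (γ x i, ⟨x.1ᵀ (γ x i), x.2.1.2 _⟩))) fun x y e => ?_) ?_
  · have e1 := fun i => congrFun (congrArg Prod.fst e) i
    have e2 := fun i => congrFun (congrArg Prod.snd e) i
    have e3 : ρ y = ρ x := funext fun i => (congrArg Prod.fst (e1 i)).symm
    have e4 : γ y = γ x := funext fun i => (congrArg Prod.fst (e2 i)).symm
    refine Subtype.ext (Bad.det (hρ x) (e3 ▸ hρ y) (hγ x) (fun i => ?_) fun i => ?_)
    · have h : x.1 (ρ x i) = y.1 (ρ y i) := congrArg (fun p => p.2.1) (e1 i)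
      rwa [e3] at h
    · have h : x.1ᵀ (γ x i) = y.1ᵀ (γ y i) := congrArg (fun p => p.2.1) (e2 i)
      rwa [e4] at h
  · rw [Nat.card_prod, Nat.card_fun, Nat.card_prod, Nat.card_eq_fintype_card (α := Fin s),
      Fintype.card_fin, ← pow_add, ← two_mul, Nat.card_eq_fintype_card (α := A), mul_assoc]
    exact Nat.pow_le_pow_left (Nat.mul_le_mul_left _ (Bad.light w)) _

theorem bad (h : TailStmt) : BadStmt := by
  classical
  intro w hw
  refine ⟨2 ^ (128 * w) * 2 ^ (128 * w) * (128 * w + 1) *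
    ((128 * w * 2 ^ (128 * w)) ^ (256 * w) * ((128 * w + 1) * 2 ^ (256 * w))), ?_⟩
  intro F A κ κ' _ _ _ _ _ hA h1 h2 h3 h4
  have hq : 0 < Fintype.card F := Fintype.card_pos
  have key := Bad.ub (fun mn : Matrix κ A F × Matrix κ' A F => Bad w mn.1 mn.2)
    ((univ : Finset (Finset A)) ×ˢ (univ : Finset (Finset A)) ×ˢ range (128 * w + 1))
    (fun t mn => ∃ x ∈ univ.filter fun x : Matrix A A F => (Sparse w x ∧ x.rank = t.2.2) ∧
        1 ≤ t.2.2 ∧ t.1.card ≤ w ∧ t.2.1.card ≤ w ∧ (∀ a ∈ t.1, ∀ b, x a b = 0) ∧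
        ∀ b ∈ t.2.1, ∀ a, x a b = 0,
      ∀ μ ∈ rowsp mn.1 ⊓ off F t.1, ∀ ν ∈ rowsp mn.2 ⊓ off F t.2.1, μ ⬝ᵥ (x *ᵥ ν) = 0)
    (Fintype.card F) ((128 * w * 2 ^ (128 * w)) ^ (256 * w) *
      ((128 * w + 1) * (2 ^ (256 * w) * Nat.card (Matrix κ A F × Matrix κ' A F)))) ?_ ?_
  · rw [card_product, card_product, card_univ, Fintype.card_finset, hA, card_range] at key
    exact key.trans (le_of_eq (by ring))
  · rintro mn ⟨I, J, x, hI, hJ, h0, hs, hx, hx', hb⟩
    refine ⟨(I, J, x.rank), mem_product.2 ⟨mem_univ _, mem_product.2 ⟨mem_univ _,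
      mem_range.2 (Nat.lt_succ_of_le (hA ▸ rank_le_card_width x))⟩⟩, x,
      mem_filter.2 ⟨mem_univ _, ⟨hs, rfl⟩, ?_, hI, hJ, hx, hx'⟩, hb⟩
    by_contra h5
    obtain ⟨ρ, hρ⟩ := Bad.rows x (show x.rank = 0 by simpa using h5)
    refine h0 (Matrix.ext fun a b => ?_)
    have h6 := hρ a
    rw [Set.range_eq_empty, Submodule.span_empty, Submodule.mem_bot] at h6
    exact congrFun h6 b
  rintro ⟨I, J, s⟩ ht
  have hs : s ≤ 128 * w := Nat.lt_succ_iff.1 (mem_range.1 (mem_product.1 (mem_product.1 ht).2).2)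
  by_cases hs1 : 1 ≤ s
  swap
  · rw [Nat.card_eq_zero.2 (Or.inl ⟨fun ⟨_, x, hx, _⟩ => hs1 (mem_filter.1 hx).2.2.1⟩), zero_mul]
    exact Nat.zero_le _
  have k1 := Bad.ub _ (univ.filter fun x : Matrix A A F => (Sparse w x ∧ x.rank = s) ∧
        1 ≤ s ∧ I.card ≤ w ∧ J.card ≤ w ∧ (∀ a ∈ I, ∀ b, x a b = 0) ∧ ∀ b ∈ J, ∀ a, x a b = 0)
    (fun x (mn : Matrix κ A F × Matrix κ' A F) => ∀ μ ∈ rowsp mn.1 ⊓ off F I,
      ∀ ν ∈ rowsp mn.2 ⊓ off F J, μ ⬝ᵥ (x *ᵥ ν) = 0) (Fintype.card F ^ (3 * w * s)) _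
    (fun _ hx => hx) fun x hx => by
      obtain ⟨⟨-, rfl⟩, -, hI, hJ, hx1, hx2⟩ := (mem_filter.1 hx).2
      exact Bad.fixed h hA h1 h2 h3 h4 hI hJ hx1 hx2
  have k2 := sparse F A w s
  rw [Nat.card_eq_fintype_card, Fintype.card_subtype, hA, mul_pow, ← pow_mul] at k2
  have k3 := (card_le_card (monotone_filter_right univ fun (x : Matrix A A F) _
    (hx : (Sparse w x ∧ x.rank = s) ∧ 1 ≤ s ∧ I.card ≤ w ∧ J.card ≤ w ∧
      (∀ a ∈ I, ∀ b, x a b = 0) ∧ ∀ b ∈ J, ∀ a, x a b = 0) => hx.1)).trans k2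
  have k4 : (128 * w * 2 ^ (128 * w)) ^ (2 * s) ≤ (128 * w * 2 ^ (128 * w)) ^ (256 * w) :=
    Nat.pow_le_pow_right (by positivity) (by omega)
  have k5 : Fintype.card F * Fintype.card F ^ (w * (2 * s)) ≤ Fintype.card F ^ (3 * w * s) := by
    rw [← pow_succ']
    exact Nat.pow_le_pow_right hq (by nlinarith [Nat.mul_le_mul hw hs1])
  refine Nat.le_of_mul_le_mul_right ?_ (pow_pos hq (w * (2 * s)))
  rw [mul_assoc]
  refine (Nat.mul_le_mul_left _ k5).trans (k1.trans ?_)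
  rw [mul_right_comm]
  exact Nat.mul_le_mul_right _ (k3.trans (Nat.mul_le_mul_right _ k4))

end Pool.Agent.MP_36f78e_lc.H46
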