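import Pool.Agent.MP_36f78e_lc.H46.Basic

/-! Light cones of shallow circuits and the stabiliser group of a prepared state. -/

namespace Pool.Agent.MP_36f78e_lc.H46

open Matrix Finset

namespace Cone

variable {ι : Type} [Fintype ι] [DecidableEq ι]

theorem mul_ct {U : Op ι} (h : U ∈ unitaryGroup (ι → ZMod 2) ℂ) : U * Uᴴ = 1 :=
  mem_unitaryGroup_iff.1 h

theorem ct_mul {U : Op ι} (h : U ∈ unitaryGroup (ι → ZMod 2) ℂ) : Uᴴ * U = 1 :=
  mem_unitaryGroup_iff'.1 h

/-- Conjugation by `U` spreads supports along `B`. -/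
def Cj (B : ι → Finset ι) (U : Op ι) : Prop :=
  ∀ (S : Finset ι) (A : Op ι), Loc S A → Loc (S.biUnion B) (U * A * Uᴴ)

/-- Both degrees of the relation `B` are at most `m`. -/
def Deg (B : ι → Finset ι) (m : ℕ) : Prop :=
  (∀ q, (B q).card ≤ m) ∧ ∀ r, (univ.filter fun q => r ∈ B q).card ≤ m

theorem Cj.mul {B B' : ι → Finset ι} {U U' : Op ι} (h : Cj B U) (h' : Cj B' U') :
    Cj (fun q => (B' q).biUnion B) (U * U') := by
  intro S A hA
  have h1 := h _ _ (h' S A hA)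
  rw [biUnion_biUnion] at h1
  rw [conjTranspose_mul]
  simpa only [Matrix.mul_assoc] using h1

theorem Deg.comp {B B' : ι → Finset ι} {m m' : ℕ} (h : Deg B m) (h' : Deg B' m') :
    Deg (fun q => (B' q).biUnion B) (m * m') := by
  refine ⟨fun q => ?_, fun r => ?_⟩
  · refine (card_biUnion_le_card_mul _ _ m fun x _ => h.1 x).trans ?_
    rw [mul_comm]
    exact Nat.mul_le_mul_left _ (h'.1 q)
  · have hs : (univ.filter fun q => r ∈ (B' q).biUnion B) ⊆
        (univ.filter fun x => r ∈ B x).biUnion fun x => univ.filter fun q => x ∈ B' q := by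
      intro q hq
      simp only [mem_filter, mem_univ, true_and, mem_biUnion] at hq ⊢
      obtain ⟨x, hx, hr⟩ := hq
      exact ⟨x, hr, hx⟩
    refine (card_le_card hs).trans
      ((card_biUnion_le_card_mul _ _ m' fun x _ => h'.2 x).trans ?_)
    exact Nat.mul_le_mul_right _ (h.2 r)

theorem layer_unitary (l : List (Finset ι × Op ι))
    (h : ∀ g ∈ l, g.2 ∈ unitaryGroup (ι → ZMod 2) ℂ) :
    (l.map Prod.snd).prod ∈ unitaryGroup (ι → ZMod 2) ℂ := by
  refine Submonoid.list_prod_mem _ fun x hx => ?_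
  obtain ⟨g, hg, rfl⟩ := List.mem_map.1 hx
  exact h g hg

theorem layer_loc (l : List (Finset ι × Op ι))
    (h : ∀ g ∈ l, g.2 ∈ unitaryGroup (ι → ZMod 2) ℂ ∧ Loc g.1 g.2)
    (hp : l.Pairwise fun g g' => Disjoint g.1 g'.1) (S T : Finset ι) (A : Op ι) (hA : Loc S A)
    (hST : S ⊆ T) (hT : ∀ g ∈ l, ¬ Disjoint g.1 S → g.1 ⊆ T) :
    Loc T ((l.map Prod.snd).prod * A * ((l.map Prod.snd).prod)ᴴ) := by
  induction l generalizing T with
  | nil => simpa using hA.mono hST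
  | cons g l ih =>
    rw [List.pairwise_cons] at hp
    have hg := h g List.mem_cons_self
    have hl : ∀ g' ∈ l, g'.2 ∈ unitaryGroup (ι → ZMod 2) ℂ ∧ Loc g'.1 g'.2 :=
      fun g' hg' => h g' (List.mem_cons_of_mem _ hg')
    have e : ((g :: l).map Prod.snd).prod * A * (((g :: l).map Prod.snd).prod)ᴴ =
        g.2 * ((l.map Prod.snd).prod * A * ((l.map Prod.snd).prod)ᴴ) * g.2ᴴ := by
      simp only [List.map_cons, List.prod_cons, conjTranspose_mul, Matrix.mul_assoc]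
    rw [e]
    by_cases hd : Disjoint g.1 S
    · have h1 := ih hl hp.2 (T \ g.1) (subset_sdiff.2 ⟨hST, hd.symm⟩) fun g' hg' hm =>
        subset_sdiff.2 ⟨hT g' (List.mem_cons_of_mem _ hg') hm, (hp.1 g' hg').symm⟩
      rw [hg.2.comm h1 disjoint_sdiff, Matrix.mul_assoc, mul_ct hg.1, Matrix.mul_one]
      exact h1.mono sdiff_subset
    · have h1 := ih hl hp.2 T hST fun g' hg' hm => hT g' (List.mem_cons_of_mem _ hg') hm
      have h2 := hg.2.mono (hT g List.mem_cons_self hd)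
      exact (h2.mul h1).mul h2.conjTranspose

theorem layer_loc' (l : List (Finset ι × Op ι))
    (h : ∀ g ∈ l, g.2 ∈ unitaryGroup (ι → ZMod 2) ℂ ∧ Loc g.1 g.2)
    (hp : l.Pairwise fun g g' => Disjoint g.1 g'.1) (S T : Finset ι) (A : Op ι) (hA : Loc S A)
    (hST : S ⊆ T) (hT : ∀ g ∈ l, ¬ Disjoint g.1 S → g.1 ⊆ T) :
    Loc T (((l.map Prod.snd).prod)ᴴ * A * (l.map Prod.snd).prod) := by
  induction l generalizing S A with
  | nil => simpa using hA.mono hST
  | cons g l ih =>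
    rw [List.pairwise_cons] at hp
    have hg := h g List.mem_cons_self
    have hl : ∀ g' ∈ l, g'.2 ∈ unitaryGroup (ι → ZMod 2) ℂ ∧ Loc g'.1 g'.2 :=
      fun g' hg' => h g' (List.mem_cons_of_mem _ hg')
    have e : (((g :: l).map Prod.snd).prod)ᴴ * A * ((g :: l).map Prod.snd).prod =
        ((l.map Prod.snd).prod)ᴴ * (g.2ᴴ * A * g.2) * (l.map Prod.snd).prod := by
      simp only [List.map_cons, List.prod_cons, conjTranspose_mul, Matrix.mul_assoc]
    rw [e]
    by_cases hd : Disjoint g.1 S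
    · rw [hg.2.conjTranspose.comm hA hd, Matrix.mul_assoc A, ct_mul hg.1, Matrix.mul_one]
      exact ih hl hp.2 S A hA hST fun g' hg' hm => hT g' (List.mem_cons_of_mem _ hg') hm
    · have h2 := hg.2.mono (subset_union_right (s₁ := S))
      refine ih hl hp.2 (S ∪ g.1) _
        ((h2.conjTranspose.mul (hA.mono subset_union_left)).mul h2)
        (union_subset hST (hT g List.mem_cons_self hd)) fun g' hg' hm =>
        hT g' (List.mem_cons_of_mem _ hg') fun hd' => hm ?_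
      exact disjoint_union_right.2 ⟨hd', (hp.1 g' hg').symm⟩

open Classical in
/-- A qubit together with its partner in the layer. -/
noncomputable def nb (l : List (Finset ι × Op ι)) (q : ι) : Finset ι :=
  univ.filter fun r => r = q ∨ ∃ g ∈ l, q ∈ g.1 ∧ r ∈ g.1

theorem mem_nb {l : List (Finset ι × Op ι)} {q r : ι} :
    r ∈ nb l q ↔ r = q ∨ ∃ g ∈ l, q ∈ g.1 ∧ r ∈ g.1 := by
  simp only [nb, mem_filter, mem_univ, true_and]

theorem nb_symm {l : List (Finset ι × Op ι)} {q r : ι} (h : r ∈ nb l q) : q ∈ nb l r := by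
  rw [mem_nb] at h ⊢
  rcases h with h | ⟨g, hg, h1, h2⟩
  · exact Or.inl h.symm
  · exact Or.inr ⟨g, hg, h2, h1⟩

theorem card_nb {l : List (Finset ι × Op ι)} (h : ∀ g ∈ l, g.1.card ≤ 2)
    (hp : l.Pairwise fun g g' => Disjoint g.1 g'.1) (q : ι) : (nb l q).card ≤ 2 := by
  by_cases hq : ∃ g ∈ l, q ∈ g.1
  · obtain ⟨g, hg, hqg⟩ := hq
    refine (card_le_card fun r hr => ?_).trans (h g hg)
    rcases mem_nb.1 hr with rfl | ⟨g', hg', h1, h2⟩
    · exact hqg
    · by_cases e : g = g'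
      · exact e ▸ h2
      · have hd : Disjoint g.1 g'.1 := by
          have : Std.Symm fun g g' : Finset ι × Op ι => Disjoint g.1 g'.1 := ⟨fun _ _ h => h.symm⟩
          exact hp.forall hg hg' e
        exact (disjoint_left.1 hd hqg h1).elim
  · refine (card_le_card (t := {q}) fun r hr => ?_).trans (by simp)
    rcases mem_nb.1 hr with rfl | ⟨g', hg', h1, -⟩
    · exact mem_singleton_self _
    · exact (hq ⟨g', hg', h1⟩).elim

theorem layer {U : Op ι} (hU : IsLayer U) :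
    U ∈ unitaryGroup (ι → ZMod 2) ℂ ∧ ∃ B : ι → Finset ι, Deg B 2 ∧ Cj B U ∧ Cj B Uᴴ := by
  obtain ⟨l, h, hp, rfl⟩ := hU
  have hl : ∀ g ∈ l, g.2 ∈ unitaryGroup (ι → ZMod 2) ℂ ∧ Loc g.1 g.2 :=
    fun g hg => ⟨(h g hg).2.1, (h g hg).2.2.loc⟩
  have hc := card_nb (fun g hg => (h g hg).1) hp
  have h1 : ∀ S : Finset ι, S ⊆ S.biUnion (nb l) := fun S q hq =>
    mem_biUnion.2 ⟨q, hq, mem_nb.2 (Or.inl rfl)⟩
  have h2 : ∀ S : Finset ι, ∀ g ∈ l, ¬ Disjoint g.1 S → g.1 ⊆ S.biUnion (nb l) := by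
    intro S g hg hd r hr
    obtain ⟨q, hq, hqS⟩ := not_disjoint_iff.1 hd
    exact mem_biUnion.2 ⟨q, hqS, mem_nb.2 (Or.inr ⟨g, hg, hq, hr⟩)⟩
  refine ⟨layer_unitary l fun g hg => (hl g hg).1, nb l, ⟨hc, fun r => ?_⟩,
    fun S A hA => layer_loc l hl hp S _ A hA (h1 S) (h2 S), fun S A hA => ?_⟩
  · exact (card_le_card fun q hq => nb_symm (mem_filter.1 hq).2).trans (hc r)
  · rw [conjTranspose_conjTranspose]
    exact layer_loc' l hl hp S _ A hA (h1 S) (h2 S)

theorem layers (L : List (Op ι)) (h : ∀ V ∈ L, IsLayer V) :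
    L.prod ∈ unitaryGroup (ι → ZMod 2) ℂ ∧ ∃ B B' : ι → Finset ι, Deg B (2 ^ L.length) ∧
      Deg B' (2 ^ L.length) ∧ Cj B L.prod ∧ Cj B' (L.prod)ᴴ := by
  induction L with
  | nil =>
    have hd : Deg (fun q : ι => ({q} : Finset ι)) 1 := by
      refine ⟨fun q => by simp, fun r => ?_⟩
      exact (card_le_card (t := {r}) fun q hq =>
        mem_singleton.2 (mem_singleton.1 (mem_filter.1 hq).2).symm).trans (by simp)
    have hc : Cj (fun q : ι => ({q} : Finset ι)) 1 := fun S A hA => by simpa using hA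
    exact ⟨by simp, _, _, hd, hd, by simpa using hc, by simpa using hc⟩
  | cons V L ih =>
    obtain ⟨hV, B₀, hd₀, hc₀, hc₀'⟩ := layer (h V List.mem_cons_self)
    obtain ⟨hL, B, B', hd, hd', hc, hc'⟩ := ih fun V' hV' => h V' (List.mem_cons_of_mem _ hV')
    rw [List.prod_cons, List.length_cons, conjTranspose_mul]
    refine ⟨mul_mem hV hL, _, _, ?_, ?_, hc₀.mul hc, hc'.mul hc₀'⟩
    · rw [pow_succ']
      exact hd₀.comp hd
    · rw [pow_succ]
      exact hd'.comp hd₀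

theorem W_inj {v v' : PL ι} {c c' : ℂ} (hc : c' ≠ 0) (h : c • W v = c' • W v') : v = v' := by
  have h1 : (c • W v * W v').trace = (c' • W v' * W v').trace := by rw [h]
  rw [Matrix.smul_mul, Matrix.smul_mul, W_mul_self, W_mul, trace_smul, trace_smul, trace_smul,
    trace_smul, trace_W, trace_one] at h1
  by_contra hne
  have h2 : v + v' ≠ 0 := fun e => hne (by rw [← add_zero v, ← pl_add_self v', ← add_assoc, e,
    zero_add])
  rw [if_neg h2, smul_zero, smul_zero] at h1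
  have h3 : sg (v'.2 ⬝ᵥ v'.1) ≠ 0 := fun e => by simpa [e] using norm_sg (v'.2 ⬝ᵥ v'.1)
  have h4 : ((Fintype.card (ι → ZMod 2) : ℕ) : ℂ) ≠ 0 := Nat.cast_ne_zero.2 Fintype.card_ne_zero
  exact smul_ne_zero hc (smul_ne_zero h3 h4) h1.symm

theorem W_ne_zero (v : PL ι) : W v ≠ 0 := fun e => by
  have h := W_star_mul v
  rw [e, Matrix.mul_zero] at h
  exact zero_ne_one h

theorem card_cliff {U : Op ι} (hU : IsClifford U) (ψ : St ι) :
    (Lam ψ).card ≤ (Lam (U *ᵥ ψ)).card := by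
  have h0 : ∀ v : PL ι, ∃ (v' : PL ι) (c : ℂ), U * W v * Uᴴ = c • W v' := fun v => by
    obtain ⟨a, b, c, h⟩ := hU.2 v.1 v.2
    exact ⟨(a, b), c, h⟩
  choose f c hf using h0
  have hb : ∀ v, W v = c v • (Uᴴ * W (f v) * U) := fun v => by
    rw [← Matrix.smul_mul, ← Matrix.mul_smul, ← hf]
    simp only [Matrix.mul_assoc, ct_mul hU.1, Matrix.mul_one]
    rw [← Matrix.mul_assoc, ct_mul hU.1, Matrix.one_mul]
  have hc : ∀ v, c v ≠ 0 := fun v e => W_ne_zero v (by rw [hb v, e, zero_smul])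
  refine card_le_card_of_injOn f (fun v hv => ?_) fun v _ v' _ e => ?_
  · obtain ⟨a, ha⟩ := mem_Lam.1 (mem_coe.1 hv)
    refine mem_coe.2 (mem_Lam.2 ⟨(c v)⁻¹ * a, ?_⟩)
    have h1 : (U * W v * Uᴴ) *ᵥ (U *ᵥ ψ) = a • (U *ᵥ ψ) := by
      rw [mulVec_mulVec, Matrix.mul_assoc, ct_mul hU.1, Matrix.mul_one, ← mulVec_mulVec, ha,
        mulVec_smul]
    rw [hf, smul_mulVec] at h1
    rw [mul_smul, ← h1, smul_smul, inv_mul_cancel₀ (hc v), one_smul]
  · refine W_inj (c := c v') (hc v) ?_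
    rw [hb v, hb v', e, smul_comm]

theorem card_gate {S : Finset ι} {U : Op ι} (hS : Loc S U) (ψ : St ι) :
    (Lam ψ).card ≤ (Lam (U *ᵥ ψ)).card * 2 ^ (2 * S.card) := by
  have ht : (univ : Finset ((S → ZMod 2) × (S → ZMod 2))).card = 2 ^ (2 * S.card) := by
    simp [two_mul, pow_add]
  rw [← ht]
  refine card_le_mul_card_image_of_maps_to
    (f := fun v : PL ι => ((fun i : S => v.1 i, fun i : S => v.2 i) :
      (S → ZMod 2) × (S → ZMod 2))) (fun _ _ => mem_univ _) _ fun b _ => ?_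
  rcases (filter (fun v : PL ι => ((fun i : S => v.1 i, fun i : S => v.2 i) :
      (S → ZMod 2) × (S → ZMod 2)) = b) (Lam ψ)).eq_empty_or_nonempty with he | ⟨v₀, hv₀⟩
  · rw [he]
    exact Nat.zero_le _
  refine card_le_card_of_injOn (fun v => v + v₀) (fun v hv => ?_) fun v _ v' _ e =>
    add_right_cancel e
  obtain ⟨h1, h2⟩ := mem_filter.1 (mem_coe.1 hv)
  obtain ⟨h3, h4⟩ := mem_filter.1 hv₀
  have h5 := h2.trans h4.symm
  have hin : InS Sᶜ (v + v₀) := fun i hi => by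
    have hi' : i ∈ S := by simpa using hi
    have e1 : v.1 i = v₀.1 i := congrFun (congrArg Prod.fst h5) ⟨i, hi'⟩
    have e2 : v.2 i = v₀.2 i := congrFun (congrArg Prod.snd h5) ⟨i, hi'⟩
    simp only [Prod.fst_add, Prod.snd_add, Pi.add_apply, e1, e2, z2_add_self, and_self]
  obtain ⟨a, ha⟩ := mem_Lam.1 (add_mem_Lam h1 h3)
  refine mem_coe.2 (mem_Lam.2 ⟨a, ?_⟩)
  rw [mulVec_mulVec, hin.loc.comm hS disjoint_compl_left, ← mulVec_mulVec, ha, mulVec_smul]

theorem card_zero :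
    2 ^ Fintype.card ι ≤ (Lam (Pi.single 0 1 : St ι)).card := by
  have ht : (univ : Finset (ι → ZMod 2)).card = 2 ^ Fintype.card ι := by simp
  rw [← ht]
  refine card_le_card_of_injOn (fun b => ((0, b) : PL ι)) (fun b _ => ?_) fun b _ b' _ e =>
    congrArg Prod.snd e
  refine mem_coe.2 (mem_Lam.2 ⟨1, ?_⟩)
  funext x
  rw [W_mulVec, one_smul]
  by_cases hx : x = 0
  · simp [hx]
  · simp [hx]

end Cone

open Cone

theorem cone : ConeStmt := by
  rintro ι _ _ d U ⟨L, rfl, h, rfl⟩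
  obtain ⟨hL, B, B', hd, hd', hc, hc'⟩ := layers L h
  refine ⟨hL, B, B', hd.1, hd'.1, hd'.2, fun S A hA => ⟨hc S A hA, ?_⟩⟩
  simpa only [conjTranspose_conjTranspose] using hc' S A hA

theorem prep : PrepStmt := by
  intro ι _ _ t ψ h
  induction h with
  | zero =>
    refine ⟨?_, by simpa using Cone.card_zero (ι := ι)⟩
    rw [nsq, sum_eq_single 0]
    · simp
    · intro y _ hy
      simp [hy]
    · simp
  | cliff U hU _ ih =>
    exact ⟨(nsq_unitary hU.1 _).trans ih.1,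
      ih.2.trans (Nat.mul_le_mul_left _ (card_cliff hU _))⟩
  | gate S U hU hS _ ih =>
    refine ⟨(nsq_unitary hU _).trans ih.1,
      ih.2.trans ((Nat.mul_le_mul_left _ (card_gate hS.loc _)).trans (le_of_eq ?_))⟩
    ring

end Pool.Agent.MP_36f78e_lc.H46
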