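import Pool.Agent.MP_36f78e_lc.H46.Spec

/-! Two commuting mixing families from a Cayley graph with a gap. -/

namespace Pool.Agent.MP_36f78e_lc.H46

open Finset

namespace Exp

/-- A contraction bound on functions of mean zero gives the mixing inequality. -/
theorem mix_of {G A : Type} [Fintype G] [Nonempty G] [Fintype A] (σ : A → Equiv.Perm G)
    (lam : ℝ) (hl : 0 < lam)
    (h : ∀ f : G → ℝ, ∑ g, f g = 0 → ∑ g, (∑ a, f (σ a g)) ^ 2 ≤ lam ^ 2 * ∑ g, f g ^ 2) :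
    Mix σ lam := by
  intro f k
  have hN : (0 : ℝ) < Fintype.card G := by exact_mod_cast Fintype.card_pos
  set m : ℝ := (∑ g, k g) / Fintype.card G with hm
  have hs : ∑ g, k g = Fintype.card G * m := by rw [hm]; field_simp
  have h0 : ∑ g, (k g - m) = 0 := by
    rw [Finset.sum_sub_distrib, hs]; simp
  have h1 := h (fun g => k g - m) h0
  have h2 : ∑ g, (k g - m) ^ 2 ≤ ∑ g, k g ^ 2 := by
    have e : ∑ g, (k g - m) ^ 2 = ∑ g, k g ^ 2 - 2 * m * ∑ g, k g + Fintype.card G * m ^ 2 := by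
      rw [Finset.mul_sum, ← Finset.sum_sub_distrib]
      have : (Fintype.card G : ℝ) * m ^ 2 = ∑ _g : G, m ^ 2 := by simp
      rw [this, ← Finset.sum_add_distrib]
      exact Finset.sum_congr rfl fun g _ => by ring
    rw [e, hs]
    nlinarith [mul_nonneg hN.le (sq_nonneg m)]
  have h3 : ∑ g, ∑ a, f g * k (σ a g) =
      ∑ g, f g * (∑ a, (k (σ a g) - m)) + Fintype.card A * m * ∑ g, f g := by
    rw [Finset.mul_sum, ← Finset.sum_add_distrib]
    refine Finset.sum_congr rfl fun g _ => ?_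
    rw [Finset.sum_sub_distrib, ← Finset.mul_sum]
    simp only [Finset.sum_const, Finset.card_univ, nsmul_eq_mul]
    ring
  have h4 : ∑ g, f g * (∑ a, (k (σ a g) - m)) ≤
      lam / 2 * ∑ g, f g ^ 2 + 1 / (2 * lam) * ∑ g, (∑ a, (k (σ a g) - m)) ^ 2 := by
    rw [Finset.mul_sum, Finset.mul_sum, ← Finset.sum_add_distrib]
    refine Finset.sum_le_sum fun g _ => ?_
    set y := ∑ a, (k (σ a g) - m)
    have e : lam / 2 * f g ^ 2 + 1 / (2 * lam) * y ^ 2 - f g * y =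
        1 / (2 * lam) * (lam * f g - y) ^ 2 := by
      field_simp; ring
    have : 0 ≤ 1 / (2 * lam) * (lam * f g - y) ^ 2 := by positivity
    linarith
  have h5 : 1 / (2 * lam) * ∑ g, (∑ a, (k (σ a g) - m)) ^ 2 ≤ lam / 2 * ∑ g, k g ^ 2 := by
    have e : lam / 2 * ∑ g, k g ^ 2 = 1 / (2 * lam) * (lam ^ 2 * ∑ g, k g ^ 2) := by
      field_simp
    rw [e]
    refine mul_le_mul_of_nonneg_left (h1.trans ?_) (by positivity)
    exact mul_le_mul_of_nonneg_left h2 (by positivity)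
  have h6 : (Fintype.card A : ℝ) * ((∑ g, f g) * ∑ g, k g) / Fintype.card G =
      Fintype.card A * m * ∑ g, f g := by
    rw [hm]; field_simp
  rw [h3, h6]
  linarith

/-- Words of length `j`, each repeated 128 times. -/
theorem words {G : Type} [Group G] [Fintype G] (a : Fin 3 × Fin 5 → G)
    (ha : ∀ f : G → ℝ, ∑ g, f g = 0 →
      ∑ g, ((1 / 15 : ℝ) * ∑ i, f (a i * g)) ^ 2 ≤ 29 / 30 * ∑ g, f g ^ 2) (j : ℕ) :
    ∃ (B : Type) (_ : Fintype B), Fintype.card B = 128 * 15 ^ j ∧ ∃ β : B → G,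
      ∀ f : G → ℝ, ∑ g, f g = 0 →
        ∑ g, (∑ b, f (β b * g)) ^ 2 ≤ (128 * 15 ^ j) ^ 2 * (29 / 30) ^ j * ∑ g, f g ^ 2 := by
  induction j with
  | zero =>
    refine ⟨Fin 128, inferInstance, by simp, fun _ => 1, fun f _ => ?_⟩
    rw [Finset.mul_sum]
    refine le_of_eq (Finset.sum_congr rfl fun g _ => ?_)
    simp only [one_mul, Finset.sum_const, Finset.card_univ, Fintype.card_fin, nsmul_eq_mul]
    push_cast
    ring
  | succ j ih =>
    obtain ⟨B, _, hB, β, hβ⟩ := ih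
    refine ⟨(Fin 3 × Fin 5) × B, inferInstance, ?_, fun p => β p.2 * a p.1, fun f hf => ?_⟩
    · simp only [Fintype.card_prod, Fintype.card_fin, hB]; ring
    · have h0 : ∑ g, ∑ b, f (β b * g) = 0 := by
        rw [Finset.sum_comm]
        refine Finset.sum_eq_zero fun b _ => ?_
        rw [← hf]
        exact Equiv.sum_comp (Equiv.mulLeft (β b)) f
      have h1 := ha (fun g => ∑ b, f (β b * g)) h0
      have h2 := hβ f hf
      have e : ∑ g, (∑ p : (Fin 3 × Fin 5) × B, f (β p.2 * a p.1 * g)) ^ 2 =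
          225 * ∑ g, ((1 / 15 : ℝ) * ∑ i, ∑ b, f (β b * (a i * g))) ^ 2 := by
        rw [Finset.mul_sum]
        refine Finset.sum_congr rfl fun g _ => ?_
        rw [Fintype.sum_prod_type]
        simp only [mul_assoc]
        ring
      rw [e]
      calc 225 * ∑ g, ((1 / 15 : ℝ) * ∑ i, ∑ b, f (β b * (a i * g))) ^ 2
          ≤ 225 * (29 / 30 * ∑ g, (∑ b, f (β b * g)) ^ 2) := by linarith
        _ ≤ 225 * (29 / 30 * ((128 * 15 ^ j) ^ 2 * (29 / 30) ^ j * ∑ g, f g ^ 2)) := by linarith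
        _ = (128 * 15 ^ (j + 1)) ^ 2 * (29 / 30) ^ (j + 1) * ∑ g, f g ^ 2 := by ring

end Exp

theorem exp_of (h : GapStmt) : ExpStmt := by
  classical
  obtain ⟨j, hj⟩ := exists_pow_lt_of_lt_one (show (0 : ℝ) < 1 / 2 ^ 34 by positivity)
    (show (29 / 30 : ℝ) < 1 by norm_num)
  refine ⟨15 ^ j, Nat.one_le_pow _ _ (by norm_num), fun n₀ => ?_⟩
  obtain ⟨G, _, _, hn, a, ha⟩ := h n₀
  obtain ⟨B, _, hB, β, hβ⟩ := Exp.words a ha j
  have hc : Fintype.card (AA (15 ^ j)) = Fintype.card B := by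
    rw [hB]; simp only [Fintype.card_sum, Fintype.card_fin]; ring
  let e : AA (15 ^ j) ≃ B := Fintype.equivOfCardEq hc
  have hl : (0 : ℝ) < ((15 ^ j : ℕ) : ℝ) / 1024 := by positivity
  have key : ∀ f : G → ℝ, ∑ g, f g = 0 →
      ∑ g, (∑ b, f (β (e b) * g)) ^ 2 ≤ (((15 ^ j : ℕ) : ℝ) / 1024) ^ 2 * ∑ g, f g ^ 2 := by
    intro f hf
    have e1 : ∑ g, (∑ b, f (β (e b) * g)) ^ 2 = ∑ g, (∑ b, f (β b * g)) ^ 2 :=
      Finset.sum_congr rfl fun g _ => by rw [Equiv.sum_comp e (fun b => f (β b * g))]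
    rw [e1]
    refine (hβ f hf).trans (mul_le_mul_of_nonneg_right ?_ (by positivity))
    push_cast
    have hp : (0 : ℝ) ≤ (128 * 15 ^ j) ^ 2 := by positivity
    calc ((128 : ℝ) * 15 ^ j) ^ 2 * (29 / 30) ^ j ≤ (128 * 15 ^ j) ^ 2 * (1 / 2 ^ 34) :=
          mul_le_mul_of_nonneg_left hj.le hp
      _ = (15 ^ j / 1024) ^ 2 := by ring
  refine ⟨G, inferInstance, inferInstance, hn, fun b => Equiv.mulLeft (β (e b)),
    fun b => Equiv.mulRight (β (e b))⁻¹, fun b b' => ?_, ?_, ?_⟩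
  · ext g
    simp [mul_assoc]
  · exact Exp.mix_of _ _ hl fun f hf => by simpa using key f hf
  · refine Exp.mix_of _ _ hl fun f hf => ?_
    have hf' : ∑ g, f g⁻¹ = 0 := by rw [← hf]; exact Equiv.sum_comp (Equiv.inv G) f
    have h1 := key (fun g => f g⁻¹) hf'
    have e2 : ∑ g, f g⁻¹ ^ 2 = ∑ g, f g ^ 2 := Equiv.sum_comp (Equiv.inv G) fun g => f g ^ 2
    have e3 : ∑ g, (∑ b, f (β (e b) * g)⁻¹) ^ 2 =
        ∑ g, (∑ b, f (Equiv.mulRight (β (e b))⁻¹ g)) ^ 2 := by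
      rw [← Equiv.sum_comp (Equiv.inv G)]
      simp
    rw [e2, e3] at h1
    exact h1

end Pool.Agent.MP_36f78e_lc.H46
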