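import Pool.Agent.MP_36f78e_lc.H46.Spec

/-! Labels of clusters. -/

namespace Pool.Agent.MP_36f78e_lc.H46

open Matrix Finset

namespace Lab

/-- A valued equivalence relation without holonomy has a potential. -/
theorem potential {X F : Type} [AddCommGroup F] (S : X → X → F → Prop) (h0 : ∀ x, S x x 0)
    (hs : ∀ x y t, S x y t → S y x (-t))
    (ht : ∀ x y z t t', S x y t → S y z t' → S x z (t + t')) (hu : ∀ x t, S x x t → t = 0) :
    ∃ l : X → F, ∀ x y t, S x y t → l x = l y + t := by
  let E : Setoid X := ⟨fun x y => ∃ t, S x y t, fun x => ⟨0, h0 x⟩,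
    fun ⟨t, h⟩ => ⟨-t, hs _ _ _ h⟩, fun ⟨t, h⟩ ⟨t', h'⟩ => ⟨t + t', ht _ _ _ _ _ h h'⟩⟩
  have hx : ∀ x, ∃ t, S (Quotient.mk E x).out x t := fun x => Quotient.mk_out (s := E) x
  choose m hm using hx
  refine ⟨fun x => -m x, fun x y t h => ?_⟩
  have e : Quotient.mk E x = Quotient.mk E y := Quotient.sound ⟨t, h⟩
  have h1 := hm x
  rw [e] at h1
  have h2 := hu _ _ (ht _ _ _ _ _ (ht _ _ _ _ _ h1 h) (hs _ _ _ (hm y)))
  have h3 : -m x = -m y + t - (m x + t + -m y) := by abel
  show -m x = -m y + t
  rw [h3, h2, sub_zero]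

variable {F V J : Type} [Field F] [Fintype V] [Fintype J]

theorem wt_add_le (x y : V → F) : wt (x + y) ≤ wt x + wt y := by
  classical
  unfold wt
  refine le_trans (Finset.card_le_card ?_) (Finset.card_union_le _ _)
  intro v hv
  simp only [Finset.mem_filter, Finset.mem_univ, true_and, Finset.mem_union, Pi.add_apply] at hv ⊢
  by_contra hc
  push Not at hc
  exact hv (by rw [hc.1, hc.2, add_zero])

theorem wt_neg (x : V → F) : wt (-x) = wt x := by
  unfold wt
  congr 1
  ext v
  simp

theorem eq_zero_of_wt {x : V → F} (h : wt x = 0) : x = 0 := by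
  classical
  unfold wt at h
  rw [Finset.card_eq_zero, Finset.filter_eq_empty_iff] at h
  ext v
  simpa using h (Finset.mem_univ v)

omit [Fintype V] in
theorem viol_add (K : J → Submodule F (V → F)) (x : V → F) {u : V → F} (hu : ∀ j, u ∈ K j) :
    viol K (x + u) = viol K x := by
  unfold viol
  congr 1
  ext j
  simp [(K j).add_mem_iff_left (hu j)]

omit [Fintype V] in
theorem viol_sub_le (K : J → Submodule F (V → F)) (x y : V → F) :
    viol K (x - y) ≤ viol K x + viol K y := by
  classical
  unfold viol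
  refine le_trans (Finset.card_le_card ?_) (Finset.card_union_le _ _)
  intro j hj
  simp only [Finset.mem_filter, Finset.mem_univ, true_and, Finset.mem_union] at hj ⊢
  by_contra hc
  push Not at hc
  exact hj ((K j).sub_mem hc.1 hc.2)

omit [Fintype V] in
theorem viol_eq_zero (K : J → Submodule F (V → F)) {u : V → F} (hu : ∀ j, u ∈ K j) :
    viol K u = 0 := by
  unfold viol
  simp [hu]

end Lab

theorem lab : LabStmt := by
  intro F V J _ _ _ K Γ w' c T b hK hw hT hd
  let S : (V → F) → (V → F) → F → Prop := fun x y t => ∃ u, (∀ j, u ∈ K j) ∧ w' ⬝ᵥ u = t ∧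
    (x = y + u ∨ ((viol K x : ℝ) ≤ b ∧ (viol K y : ℝ) ≤ b ∧ (wt (x - y - u) : ℝ) ≤ T))
  have h0 : ∀ x, S x x 0 := fun x => ⟨0, fun j => (K j).zero_mem, by simp, Or.inl (by simp)⟩
  have hs : ∀ x y t, S x y t → S y x (-t) := by
    rintro x y t ⟨u, hu, rfl, h⟩
    refine ⟨-u, fun j => (K j).neg_mem (hu j), by simp, ?_⟩
    rcases h with h | ⟨h1, h2, h3⟩
    · exact Or.inl (by simp [h])
    · refine Or.inr ⟨h2, h1, ?_⟩
      have e : y - x - -u = -(x - y - u) := by abel
      rw [e, Lab.wt_neg]
      exact h3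
  have ht : ∀ x y z t t', S x y t → S y z t' → S x z (t + t') := by
    rintro x y z t t' ⟨u, hu, rfl, h⟩ ⟨u', hu', rfl, h'⟩
    have huu : ∀ j, u + u' ∈ K j := fun j => (K j).add_mem (hu j) (hu' j)
    rcases h with h | ⟨h1, h2, h3⟩
    · refine ⟨u + u', huu, by simp, ?_⟩
      rcases h' with h' | ⟨h1', h2', h3'⟩
      · exact Or.inl (by rw [h, h']; abel)
      · refine Or.inr ⟨by rw [h, Lab.viol_add K y hu]; exact h1', h2', ?_⟩
        have e : x - z - (u + u') = y - z - u' := by rw [h]; abel
        rw [e]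
        exact h3'
    · rcases h' with h' | ⟨_, h2', h3'⟩
      · refine ⟨u + u', huu, by simp, Or.inr ⟨h1, ?_, ?_⟩⟩
        · rw [h', Lab.viol_add K z hu'] at h2
          exact h2
        · have e : x - z - (u + u') = x - y - u := by rw [h']; abel
          rw [e]
          exact h3
      · have e : x - z - (u + u') = (x - y - u) + (y - z - u') := by abel
        have h4 : (wt (x - z - (u + u')) : ℝ) ≤ 2 * T := by
          have := Lab.wt_add_le (x - y - u) (y - z - u')
          rw [← e] at this
          have : (wt (x - z - (u + u')) : ℝ) ≤ wt (x - y - u) + wt (y - z - u') := by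
            exact_mod_cast this
          linarith
        obtain ⟨g, hg, h5⟩ := hd _ h4
        refine ⟨u + u' - g, fun j => (K j).sub_mem (huu j) (hK g hg j), by simp [hw g hg],
          Or.inr ⟨h1, h2', ?_⟩⟩
        have e' : x - z - (u + u' - g) = x - z - (u + u') + g := by abel
        have h6 : viol K (x - z - (u + u')) ≤ viol K x + viol K z := by
          rw [sub_eq_add_neg (x - z), Lab.viol_add K _ fun j => (K j).neg_mem (huu j)]
          exact Lab.viol_sub_le K x z
        have h7 : (viol K (x - z - (u + u')) : ℝ) ≤ viol K x + viol K z := by exact_mod_cast h6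
        have h8 : (wt (x - z - (u + u') + g) : ℝ) ≤ c * viol K (x - z - (u + u')) := by
          exact_mod_cast h5
        have h9 : (c : ℝ) * viol K (x - z - (u + u')) ≤ c * (2 * b) :=
          mul_le_mul_of_nonneg_left (by linarith) (Nat.cast_nonneg c)
        rw [e']
        linarith
  have hu : ∀ x t, S x x t → t = 0 := by
    rintro x t ⟨u, hu, rfl, h⟩
    rcases h with h | ⟨_, _, h3⟩
    · have : u = 0 := by simpa using h
      simp [this]
    · have h4 : (wt (x - x - u) : ℝ) ≤ 2 * T := by
        have : (0 : ℝ) ≤ wt (x - x - u) := Nat.cast_nonneg _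
        linarith
      obtain ⟨g, hg, h5⟩ := hd _ h4
      have hv : viol K (x - x - u) = 0 :=
        Lab.viol_eq_zero K fun j => by simpa using hu j
      rw [hv, mul_zero, Nat.le_zero] at h5
      have h6 := Lab.eq_zero_of_wt h5
      have h7 : u = g := by
        have e : u = g - (x - x - u + g) := by abel
        rw [e, h6, sub_zero]
      rw [h7]
      exact hw g hg
  obtain ⟨l, hl⟩ := Lab.potential S h0 hs ht hu
  refine ⟨l, fun x u hu => hl _ _ _ ⟨u, hu, rfl, Or.inl rfl⟩, fun x y hx hy hxy => ?_⟩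
  have := hl x y 0 ⟨0, fun j => (K j).zero_mem, by simp, Or.inr ⟨hx, hy, by simpa using hxy⟩⟩
  simpa using this

end Pool.Agent.MP_36f78e_lc.H46
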