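import Pool.Agent.MP_36f78e_lc.H46.Spec

/-! Product expansion of good pairs and existence of a good pair. -/

namespace Pool.Agent.MP_36f78e_lc.H46

open Matrix Finset Module

namespace PE

section Det

variable {F A κ κ' : Type} [Field F] [Fintype A] [Fintype κ] [Fintype κ']

theorem wt_le_card {Y β : Type} [Fintype Y] [Zero β] (x : Y → β) : wt x ≤ Fintype.card Y := by
  classical
  unfold wt
  exact Finset.card_le_univ _

theorem wt_le_of {Y β : Type} [Fintype Y] [Zero β] (x : Y → β) (I : Finset Y)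
    (h : ∀ y, y ∉ I → x y = 0) : wt x ≤ I.card := by
  classical
  unfold wt
  refine Finset.card_le_card fun y hy => ?_
  by_contra h1
  exact (Finset.mem_filter.1 hy).2 (h y h1)

theorem wt_mono {Y β : Type} [Fintype Y] [Zero β] (x y : Y → β) (h : ∀ i, y i = 0 → x i = 0) :
    wt x ≤ wt y := by
  classical
  unfold wt
  refine Finset.card_le_card fun i hi => ?_
  simp only [Finset.mem_filter, Finset.mem_univ, true_and] at hi ⊢
  exact fun h1 => hi (h i h1)

theorem wt_rows (x : Matrix A A F) : wt (fun q : A × A => x q.1 q.2) = ∑ a, wt (x a) := by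
  classical
  unfold wt
  simp only [Finset.card_filter]
  rw [Fintype.sum_prod_type]

theorem wt_cols (x : Matrix A A F) : wt (fun q : A × A => x q.1 q.2) = ∑ b, wt (xᵀ b) := by
  classical
  unfold wt
  simp only [Finset.card_filter]
  rw [Fintype.sum_prod_type_right]
  rfl

theorem heavy (f : A → ℕ) (w : ℕ) :
    w * (univ.filter fun a => w < f a).card ≤ ∑ a, f a := by
  classical
  calc w * (univ.filter fun a => w < f a).card = ∑ _a ∈ univ.filter fun a => w < f a, w := by
        rw [Finset.sum_const, smul_eq_mul, mul_comm]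
    _ ≤ ∑ a ∈ univ.filter fun a => w < f a, f a :=
        Finset.sum_le_sum fun a ha => (Finset.mem_filter.1 ha).2.le
    _ ≤ ∑ a, f a := Finset.sum_le_sum_of_subset (Finset.filter_subset _ _)

omit [Fintype A] [Fintype κ] in
theorem row_mem (H : Matrix κ A F) (i : κ) : H i ∈ rowsp H := Submodule.subset_span ⟨i, rfl⟩

omit [Fintype κ] [Fintype κ'] in
theorem form_zero {H : Matrix κ A F} {H' : Matrix κ' A F} {x : Matrix A A F}
    (hx : H * x * H'ᵀ = 0) {μ ν : A → F} (hμ : μ ∈ rowsp H) (hν : ν ∈ rowsp H') :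
    μ ⬝ᵥ (x *ᵥ ν) = 0 := by
  induction hμ using Submodule.span_induction with
  | zero => simp
  | add a b _ _ ha hb => rw [add_dotProduct, ha, hb, add_zero]
  | smul c a _ ha => rw [smul_dotProduct, ha, smul_zero]
  | mem a ha =>
    obtain ⟨i, rfl⟩ := ha
    induction hν using Submodule.span_induction with
    | zero => simp
    | add a b _ _ ha hb => rw [mulVec_add, dotProduct_add, ha, hb, add_zero]
    | smul c a _ ha => rw [mulVec_smul, dotProduct_smul, ha, smul_zero]
    | mem b hb =>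
      obtain ⟨j, rfl⟩ := hb
      have h1 := congrFun (congrFun hx i) j
      rw [Matrix.mul_assoc] at h1
      exact h1

omit [Fintype κ] [Fintype κ'] in
theorem mul_zero_of {α α' : Type} {H : Matrix κ A F} {H' : Matrix κ' A F} {x : Matrix A A F}
    (hx : H * x * H'ᵀ = 0) {N : Matrix α A F} {N' : Matrix α' A F} (hN : ∀ i, N i ∈ rowsp H)
    (hN' : ∀ j, N' j ∈ rowsp H') : N * x * N'ᵀ = 0 := by
  ext i j
  rw [Matrix.mul_assoc]
  exact form_zero hx (hN i) (hN' j)

omit [Fintype κ] in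
theorem exists_sect {w : ℕ} {H : Matrix κ A F} (h : Surj w H) (I : Finset A) (hI : I.card ≤ w) :
    ∃ M : Matrix A A F, (∀ a, M a ∈ rowsp H) ∧ (∀ a, a ∉ I → M a = 0) ∧
      ∀ y : Matrix A A F, (∀ a, a ∉ I → y a = 0) → M * y = y := by
  classical
  choose μ h1 h2 using fun a : A => h I hI (Pi.single a 1)
  refine ⟨Matrix.of fun a => if a ∈ I then μ a else 0, fun a => ?_, fun a ha => ?_, ?_⟩
  · change (if a ∈ I then μ a else 0) ∈ _
    split_ifs
    · exact h1 a
    · exact Submodule.zero_mem _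
  · exact if_neg ha
  · intro y hy
    ext a b
    rw [Matrix.mul_apply]
    by_cases ha : a ∈ I
    · rw [Finset.sum_eq_single a]
      · simp [ha, h2 a a ha]
      · intro i _ hi
        by_cases hiI : i ∈ I
        · simp [ha, h2 a i hiI, hi]
        · simp [hy i hiI]
      · simp
    · simp [ha, hy a ha]

end Det

end PE

open PE in
theorem det : DetStmt := by
  intro F A κ κ' _ _ _ _ _ w H H' K hA hK hS hS' hB x hx
  classical
  by_cases hn : w * w ≤ wt (fun q : A × A => x q.1 q.2)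
  · refine ⟨x - K * H * x, K * H * x, by simp, ?_, ?_, ?_⟩
    · rw [Matrix.mul_sub, ← Matrix.mul_assoc, ← Matrix.mul_assoc, hK, Matrix.one_mul, sub_self]
    · rw [Matrix.mul_assoc K, Matrix.mul_assoc K, hx, Matrix.mul_zero]
    · have h1 := wt_le_card (fun b => (x - K * H * x)ᵀ b)
      have h2 := wt_le_card (fun a => (K * H * x) a)
      rw [hA] at h1 h2
      calc _ ≤ w * (128 * w + 128 * w) := Nat.mul_le_mul_left _ (add_le_add h1 h2)
        _ = 256 * (w * w) := by ring
        _ ≤ _ := Nat.mul_le_mul_left _ hn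
  · set I := univ.filter fun a => w < wt (x a) with hI
    set J := univ.filter fun b => w < wt (xᵀ b) with hJ
    have hI1 : w * I.card ≤ wt (fun q : A × A => x q.1 q.2) := by
      rw [wt_rows]; exact heavy _ w
    have hJ1 : w * J.card ≤ wt (fun q : A × A => x q.1 q.2) := by
      rw [wt_cols]; exact heavy _ w
    have hI2 : I.card ≤ w := (Nat.lt_of_mul_lt_mul_left (hI1.trans_lt (not_le.1 hn))).le
    have hJ2 : J.card ≤ w := (Nat.lt_of_mul_lt_mul_left (hJ1.trans_lt (not_le.1 hn))).le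
    have hz : ∀ a, a ∉ I → ∀ b, b ∉ J → x a b = 0 := by
      intro a ha b hb
      by_contra h0
      refine hB ⟨I, J, Matrix.of fun a b => if a ∈ I ∨ b ∈ J then 0 else x a b, hI2, hJ2, ?_,
        ⟨fun a => ?_, fun b => ?_⟩, fun a ha b => by simp [ha], fun b hb a => by simp [hb], ?_⟩
      · intro h1
        have h2 := congrFun (congrFun h1 a) b
        simp [ha, hb, h0] at h2
      · by_cases ha : a ∈ I
        · exact (wt_le_of _ ∅ fun b _ => by simp [ha]).trans (by simp)
        · have h1 : wt (x a) ≤ w := by simpa [hI] using ha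
          refine le_trans (wt_mono _ (x a) fun b hb => ?_) h1
          simp [hb]
      · by_cases hb : b ∈ J
        · exact (wt_le_of _ ∅ fun a _ => by simp [hb]).trans (by simp)
        · have h1 : wt (xᵀ b) ≤ w := by simpa [hJ] using hb
          refine le_trans (wt_mono _ (xᵀ b) fun a ha => ?_) h1
          have h2 : x a b = 0 := ha
          simp [h2]
      · intro μ hμ ν hν
        rw [← form_zero hx hμ.1 hν.1]
        simp only [dotProduct, mulVec, Matrix.of_apply]
        refine Finset.sum_congr rfl fun a _ => ?_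
        by_cases ha : a ∈ I
        · rw [hμ.2 a ha, zero_mul, zero_mul]
        · congr 1
          refine Finset.sum_congr rfl fun b _ => ?_
          by_cases hb : b ∈ J
          · rw [hν.2 b hb, mul_zero, mul_zero]
          · simp [ha, hb]
    obtain ⟨M, hM1, -, hM3⟩ := exists_sect hS I hI2
    obtain ⟨M', hM1', hM2', hM3'⟩ := exists_sect hS' J hJ2
    set x1 : Matrix A A F := Matrix.of fun a => if a ∈ I then x a else 0 with hx1
    have e1 : ∀ a, a ∉ I → x1 a = 0 := fun a ha => if_neg ha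
    have e2 : ∀ b, b ∉ J → (x - x1)ᵀ b = 0 := by
      intro b hb
      ext a
      by_cases ha : a ∈ I
      · simp [hx1, ha]
      · simp [hx1, ha, hz a ha b hb]
    have e3 : M * x1 = x1 := hM3 x1 e1
    have e4 : (x - x1) * M'ᵀ = x - x1 := by
      have h1 := congrArg Matrix.transpose (hM3' _ e2)
      rwa [Matrix.transpose_mul, Matrix.transpose_transpose] at h1
    have e5 : M * x * M'ᵀ = 0 := mul_zero_of hx hM1 hM1'
    have e6 : M * x * H'ᵀ = 0 := mul_zero_of hx hM1 (row_mem H')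
    have e7 : H * x * M'ᵀ = 0 := mul_zero_of hx (row_mem H) hM1'
    have e8 : x1 - x1 * M'ᵀ = M * x := by
      have h1 : M * ((x - x1) * M'ᵀ) = M * (x - x1) := by rw [e4]
      rw [← Matrix.mul_assoc, Matrix.mul_sub, Matrix.sub_mul, e5, e3] at h1
      rw [sub_eq_add_neg, ← zero_sub, h1]
      abel
    have e9 : x - x1 + x1 * M'ᵀ = x * M'ᵀ := by
      rw [← e4, Matrix.sub_mul]
      abel
    refine ⟨x - x1 + x1 * M'ᵀ, x1 - x1 * M'ᵀ, by abel, ?_, ?_, ?_⟩
    · rw [e9, ← Matrix.mul_assoc, e7]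
    · rw [e8, e6]
    · have h1 : wt (fun b => (x - x1 + x1 * M'ᵀ)ᵀ b) ≤ J.card := by
        refine wt_le_of _ _ fun b hb => ?_
        rw [e9]
        ext a
        simp [Matrix.mul_apply, hM2' b hb]
      have h2 : wt (fun a => (x1 - x1 * M'ᵀ) a) ≤ I.card := by
        refine wt_le_of _ _ fun a ha => ?_
        ext b
        simp [Matrix.mul_apply, e1 a ha]
      have h3 := Nat.mul_le_mul_left w (add_le_add h1 h2)
      rw [mul_add w J.card] at h3
      omega

namespace PE

/-- An event of probability at most `C / q`. -/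
def Rare (q C : ℕ) {X : Type} (E : X → Prop) : Prop :=
  Nat.card {x // E x} * q ≤ C * Nat.card X

theorem Rare.or {q C C' : ℕ} {X : Type} [Finite X] {E E' : X → Prop} (h : Rare q C E)
    (h' : Rare q C' E') : Rare q (C + C') fun x => E x ∨ E' x := by
  have h1 : Nat.card {x // E x ∨ E' x} ≤ Nat.card {x // E x} + Nat.card {x // E' x} :=
    Set.ncard_union_le {x | E x} {x | E' x}
  unfold Rare at h h' ⊢
  calc _ ≤ (Nat.card {x // E x} + Nat.card {x // E' x}) * q := Nat.mul_le_mul_right _ h1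
    _ ≤ _ := by rw [add_mul, add_mul]; exact add_le_add h h'

theorem Rare.pull {q C : ℕ} {X Y Z : Type} (e : X ≃ Y × Z) {E : Y → Prop} (h : Rare q C E) :
    Rare q C fun x => E (e x).1 := by
  have h1 : Nat.card {x // E (e x).1} = Nat.card {y // E y} * Nat.card Z := by
    rw [← Nat.card_prod]
    exact Nat.card_congr ((e.subtypeEquiv (q := fun s => E s.1) fun _ => Iff.rfl).trans
      Equiv.prodSubtypeFstEquivSubtypeProd)
  unfold Rare at h ⊢
  rw [h1, Nat.card_congr e, Nat.card_prod, mul_right_comm, ← mul_assoc]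
  exact Nat.mul_le_mul_right _ h

theorem Rare.inj {q C : ℕ} {X : Type} [Finite X] {E E' : X → Prop} (f : X → X)
    (h1 : ∀ x, E' x → E (f x)) (h2 : ∀ x y, E' x → E' y → f x = f y → x = y) (h : Rare q C E) :
    Rare q C E' := by
  refine le_trans (Nat.mul_le_mul_right _ ?_) h
  refine Nat.card_le_card_of_injective (fun x => ⟨f x.1, h1 _ x.2⟩) fun x y hxy => ?_
  exact Subtype.ext (h2 _ _ x.2 y.2 (congrArg Subtype.val hxy))

theorem Rare.exists_not {q C : ℕ} {X : Type} [Finite X] [Nonempty X] {E : X → Prop}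
    (h : Rare q C E) (hq : C < q) : ∃ x, ¬ E x := by
  by_contra h1
  have h2 : ∀ x, E x := fun x => by_contra fun h3 => h1 ⟨x, h3⟩
  unfold Rare at h
  rw [Nat.card_congr (Equiv.subtypeUnivEquiv h2), mul_comm] at h
  exact absurd (Nat.le_of_mul_le_mul_right h Nat.card_pos) (not_le.2 hq)

/-- The pair is not good. -/
def NG {F A κ κ' : Type} [Field F] [Fintype A] (w : ℕ)
    (mn : Matrix κ A F × Matrix κ' A F) : Prop :=
  (¬ Surj w mn.1 ∨ ¬ Surj w mn.2) ∨ Bad w mn.1 mn.2

theorem rare_NG (h1 : SurjStmt) (h2 : BadStmt) (w : ℕ) (hw : 1 ≤ w) (A κ κ' : Type) [Fintype A]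
    [Fintype κ] [Fintype κ'] (hA : Fintype.card A = 128 * w) (k1 : 32 * w ≤ Fintype.card κ)
    (k2 : Fintype.card κ ≤ 128 * w) (k1' : 32 * w ≤ Fintype.card κ')
    (k2' : Fintype.card κ' ≤ 128 * w) :
    ∃ C : ℕ, ∀ (F : Type) [Field F] [Fintype F],
      Rare (Fintype.card F) C (NG (F := F) (A := A) (κ := κ) (κ' := κ') w) := by
  obtain ⟨C, hC⟩ := h2 w hw
  refine ⟨2 ^ Fintype.card A * 2 ^ Fintype.card κ + 2 ^ Fintype.card A * 2 ^ Fintype.card κ' + C,
    fun F _ _ => Rare.or (Rare.or ?_ ?_) (hC F A κ κ' hA k1 k2 k1' k2')⟩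
  · exact Rare.pull (Equiv.refl _) (E := fun m => ¬ Surj w m) (h1 F A κ w (by omega))
  · exact Rare.pull (Equiv.prodComm _ _) (E := fun m => ¬ Surj w m) (h1 F A κ' w (by omega))

theorem unit_of_surj {F A : Type} [Field F] [Fintype A] [DecidableEq A] {P : Matrix A A F}
    (h : Surj (Fintype.card A) P) : IsUnit P.det := by
  have h1 : ∀ a : A, ∃ c : A → F, ∑ i, c i • P i = Pi.single a 1 := by
    intro a
    obtain ⟨μ, h2, h3⟩ := h univ le_rfl (Pi.single a 1)
    obtain ⟨c, hc⟩ := (Submodule.mem_span_range_iff_exists_fun F).1 h2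
    exact ⟨c, hc.trans (funext fun i => h3 i (mem_univ i))⟩
  choose c hc using h1
  refine Matrix.isUnit_det_of_left_inverse (B := Matrix.of c) ?_
  ext a b
  have h2 := congrFun (hc a) b
  rw [Finset.sum_apply] at h2
  rw [Matrix.mul_apply, Matrix.one_apply]
  refine h2.trans ?_
  rw [Pi.single_apply]
  exact if_congr eq_comm rfl rfl

/-- Splitting a pair of matrices into blocks of rows. -/
def split (F A κ κ' : Type) : Matrix (κ ⊕ κ') A F × Matrix (κ ⊕ κ') A F ≃
    (Matrix κ A F × Matrix κ' A F) × (Matrix κ' A F × Matrix κ A F) where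
  toFun s := ((s.1.toRows₁, s.2.toRows₂), (s.1.toRows₂, s.2.toRows₁))
  invFun t := (fromRows t.1.1 t.2.1, fromRows t.2.2 t.1.2)
  left_inv s := by simp
  right_inv t := by simp

end PE

open PE in
theorem pe_of (h1 : SurjStmt) (h2 : BadStmt) : PEStmt := by
  intro w hw
  have hA : Fintype.card (AA w) = 128 * w := by simp; ring
  obtain ⟨C1, hC1⟩ := rare_NG h1 h2 w hw (AA w) (Fin (32 * w)) (Fin (96 * w)) hA (by simp)
    (by simp; omega) (by simp; omega) (by simp; omega)
  obtain ⟨C2, hC2⟩ := rare_NG h1 h2 w hw (AA w) (Fin (96 * w)) (Fin (32 * w)) hA (by simp; omega)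
    (by simp; omega) (by simp) (by simp; omega)
  set C0 := 2 ^ Fintype.card (AA w) * 2 ^ Fintype.card (AA w)
  obtain ⟨p, hp1, hp⟩ := Nat.exists_infinite_primes (C0 + C0 + C1 + C2 + 3)
  have : Fact p.Prime := ⟨hp⟩
  have r0 : Rare (Fintype.card (ZMod p)) C0
      fun m : Matrix (AA w) (AA w) (ZMod p) => ¬ Surj (Fintype.card (AA w)) m :=
    h1 (ZMod p) (AA w) (AA w) _ le_rfl
  have r1 := Rare.pull (Equiv.refl (_ × Matrix (AA w) (AA w) (ZMod p))) r0
  have r2 := Rare.pull (Equiv.prodComm (Matrix (AA w) (AA w) (ZMod p)) _) r0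
  have r3 := Rare.pull (split (ZMod p) (AA w) _ _) (hC1 (ZMod p))
  have r4 := Rare.pull ((split (ZMod p) (AA w) _ _).trans (Equiv.prodComm _ _)) (hC2 (ZMod p))
  have r5 := Rare.inj (E' := fun s => (IsUnit s.1.det ∧ IsUnit s.2.det) ∧
      NG w ((s.1⁻¹ᵀ).toRows₂, (s.2⁻¹ᵀ).toRows₁)) (fun s => (s.1⁻¹ᵀ, s.2⁻¹ᵀ)) (fun s hs => hs.2)
    (fun s t hs _ e => Prod.ext
      (Matrix.inv_inj (Matrix.transpose_injective (congrArg Prod.fst e)) hs.1.1)
      (Matrix.inv_inj (Matrix.transpose_injective (congrArg Prod.snd e)) hs.1.2)) r4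
  obtain ⟨⟨P, Q⟩, hs⟩ := (((r1.or r2).or r3).or r5).exists_not (by rw [ZMod.card]; omega)
  simp only [not_or, not_not] at hs
  obtain ⟨⟨⟨s1, s2⟩, s3⟩, s4⟩ := hs
  have u1 : IsUnit P.det := unit_of_surj s1
  have u2 : IsUnit Q.det := unit_of_surj s2
  have s5 : ¬ NG w ((P⁻¹ᵀ).toRows₂, (Q⁻¹ᵀ).toRows₁) := fun h => s4 ⟨⟨u1, u2⟩, h⟩
  have s6 : ¬ NG w (P.toRows₁, Q.toRows₂) := s3
  simp only [NG, not_or, not_not] at s5 s6
  have v1 : P * P⁻¹ᵀᵀ = 1 := Matrix.mul_nonsing_inv P u1
  have v2 : Q * Q⁻¹ᵀᵀ = 1 := Matrix.mul_nonsing_inv Q u2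
  have v3 : P⁻¹ᵀ * Pᵀ = 1 := by
    rw [← Matrix.transpose_mul, Matrix.mul_nonsing_inv P u1, Matrix.transpose_one]
  refine ⟨p, inferInstance, by omega, P, P⁻¹ᵀ, Q, Q⁻¹ᵀ, v1, v2, ?_, ?_⟩
  · refine det _ _ _ _ w _ _ (P⁻¹ᵀ).toRows₁ᵀ hA ?_ s6.1.1 s6.1.2 s6.2
    ext i j
    have h := congrFun (congrFun v1 (Sum.inl i)) (Sum.inl j)
    refine Eq.trans h ?_
    simp [Matrix.one_apply]
  · refine det _ _ _ _ w _ _ P.toRows₂ᵀ hA ?_ s5.1.1 s5.1.2 s5.2
    ext i j
    have h := congrFun (congrFun v3 (Sum.inr i)) (Sum.inr j)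
    refine Eq.trans h ?_
    simp [Matrix.one_apply]

end Pool.Agent.MP_36f78e_lc.H46
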