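import Pool.Agent.MP_36f78e_lc.H46.Basic

/-! The code of the local stabilisers of a locally complete state. -/

set_option linter.unusedSectionVars false

namespace Pool.Agent.MP_36f78e_lc.H46

open Matrix Finset

namespace Stab

variable {ι : Type} [Fintype ι] [DecidableEq ι]

open Classical in
/-- The eigenvalue of a Pauli operator. -/
noncomputable def chi (φ : St ι) (v : PL ι) : ℂ :=
  if h : ∃ c : ℂ, W v *ᵥ φ = c • φ then h.choose else 1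

theorem chi_spec {φ : St ι} {v : PL ι} (h : v ∈ Lam φ) : W v *ᵥ φ = chi φ v • φ := by
  have h' := mem_Lam.1 h
  rw [chi, dif_pos h']
  exact h'.choose_spec

theorem chi_ne {φ : St ι} (hφ : φ ≠ 0) {v : PL ι} (h : v ∈ Lam φ) : chi φ v ≠ 0 := fun h0 => by
  simpa [h0] using norm_eigen hφ (chi_spec h)

/-- The Pauli operator normalised to fix `φ`. -/
noncomputable def Wt (φ : St ι) (v : PL ι) : Op ι := (chi φ v)⁻¹ • W v

theorem Wt_fix_iff {φ : St ι} (hφ : φ ≠ 0) {v : PL ι} (h : v ∈ Lam φ) (x : St ι) :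
    Wt φ v *ᵥ x = x ↔ W v *ᵥ x = chi φ v • x := by
  rw [Wt, smul_mulVec, inv_smul_eq_iff₀ (chi_ne hφ h)]

theorem Wt_fix {φ : St ι} (hφ : φ ≠ 0) {v : PL ι} (h : v ∈ Lam φ) : Wt φ v *ᵥ φ = φ :=
  (Wt_fix_iff hφ h φ).2 (chi_spec h)

theorem uniq {φ : St ι} (hφ : φ ≠ 0) {v : PL ι} (h : v ∈ Lam φ) {a : ℂ}
    (ha : (a • W v) *ᵥ φ = φ) : a • W v = Wt φ v := by
  rw [smul_mulVec, chi_spec h, smul_smul] at ha
  have h1 : a * chi φ v = 1 := smul_left_injective ℂ hφ (by simpa using ha)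
  rw [Wt, eq_inv_of_mul_eq_one_left h1]

theorem Wt_zero {φ : St ι} (hφ : φ ≠ 0) : Wt φ 0 = 1 := by
  rw [← uniq hφ (zero_mem_Lam φ) (a := 1) (by rw [one_smul, W_zero, one_mulVec]), one_smul, W_zero]

theorem Wt_mul {φ : St ι} (hφ : φ ≠ 0) {u v : PL ι} (hu : u ∈ Lam φ) (hv : v ∈ Lam φ) :
    Wt φ u * Wt φ v = Wt φ (u + v) := by
  have h1 : Wt φ u * Wt φ v = ((chi φ u)⁻¹ * (chi φ v)⁻¹ * sg (u.2 ⬝ᵥ v.1)) • W (u + v) := by
    rw [Wt, Wt, Matrix.smul_mul, Matrix.mul_smul, W_mul, smul_smul, smul_smul]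
  rw [h1]
  refine uniq hφ (add_mem_Lam hu hv) ?_
  rw [← h1, ← mulVec_mulVec, Wt_fix hφ hv, Wt_fix hφ hu]

theorem Wt_herm {φ : St ι} (hφ : φ ≠ 0) {v : PL ι} (h : v ∈ Lam φ) : (Wt φ v)ᴴ = Wt φ v := by
  have h1 : (Wt φ v)ᴴ * Wt φ v = 1 := by
    rw [Wt, conjTranspose_smul, Matrix.smul_mul, Matrix.mul_smul, W_star_mul, smul_smul,
      Complex.star_def, Complex.conj_mul', norm_inv, norm_eigen hφ (chi_spec h)]
    simp
  have h2 : Wt φ v * Wt φ v = 1 := by rw [Wt_mul hφ h h, pl_add_self, Wt_zero hφ]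
  rw [← Matrix.mul_one (Wt φ v)ᴴ, ← h2, ← Matrix.mul_assoc, h1, Matrix.one_mul]

/-- A group of stabilisers of `φ`. -/
structure Grp (φ : St ι) (Γ : Finset (PL ι)) : Prop where
  sub : ∀ v ∈ Γ, v ∈ Lam φ
  zero : 0 ∈ Γ
  add : ∀ u ∈ Γ, ∀ v ∈ Γ, u + v ∈ Γ

/-- The average over a group of stabilisers. -/
noncomputable def avg (φ : St ι) (Γ : Finset (PL ι)) : Op ι := (Γ.card : ℂ)⁻¹ • ∑ v ∈ Γ, Wt φ v

theorem Grp.card_ne {φ : St ι} {Γ : Finset (PL ι)} (h : Grp φ Γ) : (Γ.card : ℂ) ≠ 0 :=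
  Nat.cast_ne_zero.2 (card_ne_zero.2 ⟨0, h.zero⟩)

theorem Grp.mul_avg {φ : St ι} (hφ : φ ≠ 0) {Γ : Finset (PL ι)} (h : Grp φ Γ) {u : PL ι}
    (hu : u ∈ Γ) : Wt φ u * avg φ Γ = avg φ Γ := by
  rw [avg, Matrix.mul_smul, Matrix.mul_sum]
  congr 1
  have hc : ∀ v : PL ι, u + (u + v) = v := fun v => by rw [← add_assoc, pl_add_self, zero_add]
  refine sum_bij' (fun v _ => u + v) (fun v _ => u + v) (fun v hv => h.add u hu v hv)
    (fun v hv => h.add u hu v hv) (fun v _ => hc v) (fun v _ => hc v) fun v hv => ?_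
  exact Wt_mul hφ (h.sub u hu) (h.sub v hv)

theorem Grp.proj {φ : St ι} (hφ : φ ≠ 0) {Γ : Finset (PL ι)} (h : Grp φ Γ) : Proj (avg φ Γ) := by
  constructor
  · rw [avg, conjTranspose_smul, conjTranspose_sum,
      sum_congr rfl fun v hv => Wt_herm hφ (h.sub v hv)]
    simp
  · conv_lhs => rw [avg]
    rw [Matrix.smul_mul, Matrix.sum_mul]
    change (Γ.card : ℂ)⁻¹ • ∑ v ∈ Γ, Wt φ v * avg φ Γ = _
    rw [sum_congr rfl fun v hv => h.mul_avg hφ hv, sum_const, ← Nat.cast_smul_eq_nsmul ℂ,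
      smul_smul, inv_mul_cancel₀ h.card_ne, one_smul]

theorem Grp.fix_iff {φ : St ι} (hφ : φ ≠ 0) {Γ : Finset (PL ι)} (h : Grp φ Γ) (x : St ι) :
    avg φ Γ *ᵥ x = x ↔ ∀ u ∈ Γ, Wt φ u *ᵥ x = x := by
  constructor
  · intro hx u hu
    rw [← hx, mulVec_mulVec, h.mul_avg hφ hu]
  · intro hx
    rw [avg, smul_mulVec, sum_mulVec, sum_congr rfl hx, sum_const, ← Nat.cast_smul_eq_nsmul ℂ,
      smul_smul, inv_mul_cancel₀ h.card_ne, one_smul]

theorem Grp.trace_avg {φ : St ι} (hφ : φ ≠ 0) {Γ : Finset (PL ι)} (h : Grp φ Γ) :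
    (avg φ Γ).trace * Γ.card = 2 ^ Fintype.card ι := by
  rw [avg, trace_smul, trace_sum, sum_eq_single_of_mem 0 h.zero, Wt_zero hφ, ← W_zero, trace_W,
    if_pos rfl, smul_eq_mul, mul_right_comm, inv_mul_cancel₀ h.card_ne, one_mul]
  intro v _ hv
  rw [Wt, trace_smul, trace_W, if_neg hv, smul_zero]

theorem Grp.comm {φ : St ι} (hφ : φ ≠ 0) {Γ Γ' : Finset (PL ι)} (h : Grp φ Γ) (h' : Grp φ Γ') :
    avg φ Γ * avg φ Γ' = avg φ Γ' * avg φ Γ := by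
  refine (Commute.smul_left (Commute.smul_right ?_ _) _).eq
  refine Commute.sum_left _ _ _ fun u hu => Commute.sum_right _ _ _ fun v hv => ?_
  change _ * _ = _ * _
  rw [Wt_mul hφ (h.sub u hu) (h'.sub v hv), Wt_mul hφ (h'.sub v hv) (h.sub u hu), add_comm]

end Stab

open Stab in
theorem stab : StabStmt := by
  classical
  intro ι J _ _ _ S φ hφ hS
  let G : J → Finset (PL ι) := fun j => (Lam φ).filter (InS (S j))
  have hG : ∀ j, Grp φ (G j) := fun j =>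
    ⟨fun v hv => (mem_filter.1 hv).1, mem_filter.2 ⟨zero_mem_Lam φ, InS.zero _⟩,
      fun u hu v hv => mem_filter.2 ⟨add_mem_Lam (mem_filter.1 hu).1 (mem_filter.1 hv).1,
        (mem_filter.1 hu).2.add (mem_filter.1 hv).2⟩⟩
  let Γ : Finset (PL ι) :=
    (Lam φ).filter fun u => ∀ x : St ι, (∀ j, avg φ (G j) *ᵥ x = x) → Wt φ u *ᵥ x = x
  have hΓ : Grp φ Γ :=
    ⟨fun v hv => (mem_filter.1 hv).1,
      mem_filter.2 ⟨zero_mem_Lam φ, fun x _ => by rw [Wt_zero hφ, one_mulVec]⟩,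
      fun u hu v hv => mem_filter.2 ⟨add_mem_Lam (mem_filter.1 hu).1 (mem_filter.1 hv).1,
        fun x hx => by
          rw [← Wt_mul hφ (mem_filter.1 hu).1 (mem_filter.1 hv).1, ← mulVec_mulVec,
            (mem_filter.1 hv).2 x hx, (mem_filter.1 hu).2 x hx]⟩⟩
  have hfix : ∀ x : St ι, avg φ Γ *ᵥ x = x ↔ ∀ j, avg φ (G j) *ᵥ x = x := fun x => by
    rw [hΓ.fix_iff hφ]
    constructor
    · intro hx j
      refine ((hG j).fix_iff hφ x).2 fun u hu => hx u (mem_filter.2 ⟨(hG j).sub u hu, ?_⟩)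
      exact fun y hy => ((hG j).fix_iff hφ y).1 (hy j) u hu
    · exact fun hx u hu => (mem_filter.1 hu).2 x hx
  refine ⟨fun j => avg φ (G j), avg φ Γ, Γ.card, fun j => (hG j).proj hφ, fun j => ?_,
    fun i j => (hG i).comm hφ (hG j), hΓ.proj hφ, hfix, hΓ.trace_avg hφ, fun j A hA v hv => ?_⟩
  · exact (Loc.sum _ fun v hv => (mem_filter.1 hv).2.loc.smul _).smul _
  have hW : ∀ i u, InS (S i) u → u ∈ Lam φ → W u *ᵥ v = chi φ u • v := fun i u h1 h2 =>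
    (Wt_fix_iff hφ h2 v).1 (((hG i).fix_iff hφ v).1 ((hfix v).1 hv i) u (mem_filter.2 ⟨h2, h1⟩))
  have key : ∀ z, InS (S j) z →
      star v ⬝ᵥ (W z *ᵥ v) * (nsq φ : ℂ) = star φ ⬝ᵥ (W z *ᵥ φ) * (nsq v : ℂ) := fun z hz => by
    rcases hS j z hz with h | ⟨i, u, h1, h2, h3⟩
    · rw [hW j z hz h, chi_spec h, dotProduct_smul, dotProduct_smul, nsq_eq, nsq_eq, smul_eq_mul,
        smul_eq_mul]
      ring
    · rw [expect_zero h2 h3, expect_zero (mem_Lam.2 ⟨_, hW i u h1 h2⟩) h3, zero_mul, zero_mul]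
  obtain ⟨c, rfl, hc⟩ := hA.expand
  rw [qf, qf, ← Complex.re_mul_ofReal, ← Complex.re_mul_ofReal, sum_mulVec, sum_mulVec,
    dotProduct_sum, dotProduct_sum, sum_mul, sum_mul]
  congr 1
  refine sum_congr rfl fun z _ => ?_
  rw [smul_mulVec, smul_mulVec, dotProduct_smul, dotProduct_smul, smul_eq_mul, smul_eq_mul]
  by_cases h0 : c z = 0
  · simp [h0]
  · rw [mul_assoc, mul_assoc, key z (hc z h0)]

end Pool.Agent.MP_36f78e_lc.H46
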