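import Pool.Agent.MP_36f78e_lc.H46.Spec

/-! The rank tail of random rows. -/

namespace Pool.Agent.MP_36f78e_lc.H46

open Matrix Finset Module

namespace Tail

variable {F V W : Type} [Field F] [Fintype F] [AddCommGroup V] [Module F V] [Finite V]
  [AddCommGroup W] [Module F W] [FiniteDimensional F W]

theorem card_comap {φ : V →ₗ[F] W} (hφ : Function.Surjective φ) (U : Submodule F W) {e : ℕ}
    (he : e + finrank F U ≤ finrank F W) :
    Nat.card {v // φ v ∈ U} * Fintype.card F ^ e ≤ Nat.card V := by
  have h1 := LinearMap.finrank_range_add_finrank_ker (U.mkQ.comp φ)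
  have h0 : Function.Surjective (U.mkQ.comp φ) := U.mkQ_surjective.comp hφ
  have := Module.Finite.of_finite (R := F) (M := V)
  rw [LinearMap.range_eq_top.2 h0, finrank_top, LinearMap.ker_comp, Submodule.ker_mkQ] at h1
  have h2 := U.finrank_quotient_add_finrank
  have h3 : Nat.card {v // φ v ∈ U} = Nat.card (U.comap φ) := rfl
  rw [h3, natCard_eq_pow_finrank (K := F), natCard_eq_pow_finrank (K := F) (V := V),
    Nat.card_eq_fintype_card, ← pow_add]
  exact Nat.pow_le_pow_right Fintype.card_pos (by omega)

theorem card_cons {r : ℕ} [Fintype V] (P : (Fin (r + 1) → V) → Prop) :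
    Nat.card {m // P m} = ∑ v, Nat.card {m : Fin r → V // P (Fin.cons v m)} := by
  rw [← Nat.card_sigma]
  exact Nat.card_congr (((Fin.consEquiv fun _ => V).subtypeEquiv fun _ => Iff.rfl).symm.trans
    (Equiv.subtypeProdEquivSigmaSubtype fun v m => P (Fin.cons v m)))

theorem fin_tail {φ : V →ₗ[F] W} (hφ : Function.Surjective φ) (e r : ℕ) :
    ∀ (U : Submodule F W) (d : ℕ), e + finrank F U + d ≤ finrank F W →
      Nat.card {m : Fin r → V // finrank F (U ⊔ Submodule.span F (Set.range fun i => φ (m i)) :
        Submodule F W) ≤ finrank F U + d} * Fintype.card F ^ (e * (r - d)) ≤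
        2 ^ r * Nat.card V ^ r := by
  classical
  have := Fintype.ofFinite V
  induction r with
  | zero =>
    intro U d _
    rw [Nat.zero_sub, mul_zero, pow_zero, mul_one, pow_zero, pow_zero]
    exact Finite.card_le_one_iff_subsingleton.2 inferInstance
  | succ r ih =>
    intro U d hd
    have hc : ∀ (v : V) (m : Fin r → V), U ⊔ Submodule.span F
        (Set.range fun i => φ (Fin.cons (α := fun _ => V) v m i)) =
        (U ⊔ F ∙ φ v) ⊔ Submodule.span F (Set.range fun i => φ (m i)) := fun v m => by
      rw [Fin.range_fin_succ, Submodule.span_insert, sup_assoc]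
      rfl
    have hk := card_cons fun m : Fin (r + 1) → V => finrank F
      (U ⊔ Submodule.span F (Set.range fun i => φ (m i)) : Submodule F W) ≤ finrank F U + d
    have hk' := hk.trans (sum_congr rfl fun v _ => Nat.card_congr (Equiv.subtypeEquivRight
      (q := fun m : Fin r → V => finrank F ((U ⊔ F ∙ φ v) ⊔
        Submodule.span F (Set.range fun i => φ (m i)) : Submodule F W) ≤ finrank F U + d)
      fun m => by rw [← hc]))
    rw [hk', sum_mul, ← sum_filter_add_sum_filter_not univ fun v => φ v ∈ U]
    have h1 : ∀ v ∈ univ.filter fun v => φ v ∈ U, Nat.card {m : Fin r → V // finrank F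
        ((U ⊔ F ∙ φ v) ⊔ Submodule.span F (Set.range fun i => φ (m i)) : Submodule F W) ≤
        finrank F U + d} * Fintype.card F ^ (e * (r + 1 - d)) ≤
        Fintype.card F ^ e * (2 ^ r * Nat.card V ^ r) := fun v hv => by
      rw [sup_eq_left.2 ((Submodule.span_singleton_le_iff_mem _ _).2 (mem_filter.1 hv).2)]
      refine le_trans ?_ (Nat.mul_le_mul_left _ (ih U d hd))
      rw [mul_left_comm, ← pow_add, ← mul_one_add]
      exact Nat.mul_le_mul_left _ (Nat.pow_le_pow_right Fintype.card_pos
        (Nat.mul_le_mul_left _ (by omega)))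
    have h2 : ∀ v ∈ univ.filter fun v => ¬ φ v ∈ U, Nat.card {m : Fin r → V // finrank F
        ((U ⊔ F ∙ φ v) ⊔ Submodule.span F (Set.range fun i => φ (m i)) : Submodule F W) ≤
        finrank F U + d} * Fintype.card F ^ (e * (r + 1 - d)) ≤ 2 ^ r * Nat.card V ^ r :=
      fun v hv => by
        have h3 : finrank F (U ⊔ F ∙ φ v : Submodule F W) = finrank F U + 1 :=
          Submodule.finrank_sup_span_singleton (mem_filter.1 hv).2
        cases d with
        | zero =>
          have : IsEmpty {m : Fin r → V // finrank F ((U ⊔ F ∙ φ v) ⊔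
              Submodule.span F (Set.range fun i => φ (m i)) : Submodule F W) ≤ finrank F U + 0} :=
            ⟨fun m => by
              have := (Submodule.finrank_mono le_sup_left).trans m.2
              omega⟩
          rw [Nat.card_of_isEmpty, zero_mul]
          exact Nat.zero_le _
        | succ d =>
          have := ih (U ⊔ F ∙ φ v) d (by omega)
          rw [h3, add_assoc, add_comm 1 d] at this
          rwa [Nat.add_sub_add_right]
    refine (add_le_add (sum_le_card_nsmul _ _ _ h1) (sum_le_card_nsmul _ _ _ h2)).trans ?_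
    have h4 := card_comap hφ U (e := e) (by omega)
    rw [Nat.card_eq_fintype_card, Fintype.card_subtype] at h4
    have h5 : (univ.filter fun v => ¬ φ v ∈ U).card ≤ Nat.card V := by
      rw [Nat.card_eq_fintype_card]
      exact card_le_univ _
    rw [smul_eq_mul, smul_eq_mul, ← mul_assoc]
    refine (add_le_add (Nat.mul_le_mul_right _ h4) (Nat.mul_le_mul_right _ h5)).trans_eq ?_
    ring

/-- the rank tail for a surjective map -/
theorem rank_tail {κ : Type} [Fintype κ] {φ : V →ₗ[F] W} (hφ : Function.Surjective φ) {e d : ℕ}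
    (h : e + d ≤ finrank F W) :
    Nat.card {m : κ → V // finrank F ((Submodule.span F (Set.range fun i => m i)).map φ) ≤ d} *
      Fintype.card F ^ (e * (Fintype.card κ - d)) ≤ 2 ^ Fintype.card κ * Nat.card (κ → V) := by
  have h1 := fin_tail hφ e (Fintype.card κ) ⊥ d (by simpa using h)
  rw [Nat.card_fun, Nat.card_eq_fintype_card (α := κ)]
  refine le_trans (le_of_eq ?_) h1
  congr 1
  refine Nat.card_congr (((Fintype.equivFin κ).arrowCongr (Equiv.refl V)).subtypeEquiv fun m => ?_)
  have : (Set.range fun i => φ (((Fintype.equivFin κ).arrowCongr (Equiv.refl V)) m i)) =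
      Set.range fun i => φ (m i) :=
    (Fintype.equivFin κ).symm.surjective.range_comp fun i => φ (m i)
  rw [bot_sup_eq, finrank_bot, zero_add, this, Submodule.map_span, ← Set.range_comp]
  rfl

omit [Fintype F] in
/-- the restriction to a set of coordinates -/
def res (F : Type) [Field F] {A : Type} (I : Finset A) : (A → F) →ₗ[F] (I → F) :=
  LinearMap.funLeft F F Subtype.val

theorem card_mono {α : Type} [Finite α] {P Q : α → Prop} (h : ∀ a, P a → Q a) :
    Nat.card {a // P a} ≤ Nat.card {a // Q a} :=
  Nat.card_le_card_of_injective _ (Subtype.impEmbedding P Q h).injective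

end Tail

open Tail

theorem tail : TailStmt := by
  intro F A κ W _ _ _ _ _ _ _ θ I y hθ
  by_cases hy : finrank F (LinearMap.range θ) ≤ y
  · rw [Nat.sub_eq_zero_of_le hy, zero_mul, pow_zero, mul_one]
    exact (Finite.card_subtype_le _).trans (Nat.le_mul_of_pos_left _ (by positivity))
  let φ : (A → F) →ₗ[F] (I → F) × LinearMap.range θ := (res F I).prod θ.rangeRestrict
  have hφ : Function.Surjective φ := by
    rintro ⟨u, _, μ, rfl⟩
    refine ⟨fun a => if h : a ∈ I then u ⟨a, h⟩ else μ a, Prod.ext (funext fun i => dif_pos i.2)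
      (Subtype.ext ?_)⟩
    change θ _ = θ μ
    rw [← sub_eq_zero, ← map_sub, ← univ_sum_single (_ - μ), map_sum]
    refine sum_eq_zero fun a _ => ?_
    by_cases h : a ∈ I
    · rw [← mul_one ((_ - μ) a), ← smul_eq_mul, Pi.single_smul, map_smul, hθ a h, smul_zero]
    · rw [Pi.sub_apply, dif_neg h, sub_self, Pi.single_zero, map_zero]
  have h := rank_tail (κ := κ) hφ (e := finrank F (LinearMap.range θ) - y) (d := I.card + y) (by
    rw [finrank_prod, finrank_fintype_fun_eq_card, Fintype.card_coe]
    omega)
  rw [Nat.sub_sub]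
  refine le_trans (Nat.mul_le_mul_right _ (card_mono fun m hm => ?_)) h
  change finrank F ((rowsp m).map φ) ≤ _
  let f := (LinearMap.fst F (I → F) (LinearMap.range θ)).domRestrict ((rowsp m).map φ)
  have h1 := LinearMap.finrank_range_add_finrank_ker f
  have h2 : finrank F (LinearMap.range f) ≤ I.card := (Submodule.finrank_le _).trans_eq (by
    rw [finrank_fintype_fun_eq_card, Fintype.card_coe])
  let g : LinearMap.ker f →ₗ[F] W := (LinearMap.range θ).subtype ∘ₗ LinearMap.snd F _ _ ∘ₗ
    ((rowsp m).map φ).subtype ∘ₗ (LinearMap.ker f).subtype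
  have h3 : ∀ x, g x ∈ (rowsp m ⊓ off F I).map θ := by
    rintro ⟨⟨_, μ, hμ, rfl⟩, hx⟩
    exact ⟨μ, ⟨hμ, fun i hi => congrFun hx ⟨i, hi⟩⟩, rfl⟩
  have h4 : finrank F (LinearMap.ker f) ≤ finrank F ((rowsp m ⊓ off F I).map θ) :=
    LinearMap.finrank_le_finrank_of_injective (f := g.codRestrict _ h3) fun x x' e => by
      have e0 := congrArg Subtype.val e
      have e' : g x = g x' := e0
      exact Subtype.ext (Subtype.ext (Prod.ext (x.2.trans x'.2.symm) (Subtype.ext e')))
  omega

theorem surj : SurjStmt := by
  intro F A κ _ _ _ _ w hw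
  classical
  have h1 : Nat.card {m : Matrix κ A F // ¬ Surj w m} ≤ ∑ I : Finset A, Nat.card
      {m : Matrix κ A F // I.card ≤ w ∧ finrank F ((rowsp m).map (res F I)) < I.card} := by
    have h : ∀ m : {m : Matrix κ A F // ¬ Surj w m}, ∃ I : Finset A,
        I.card ≤ w ∧ finrank F ((rowsp m.1).map (res F I)) < I.card := fun m => by
      by_contra hn
      refine m.2 fun I hI u => ?_
      have h2 : (rowsp m.1).map (res F I) = ⊤ := by
        by_contra h3
        have := Submodule.finrank_lt h3
        rw [finrank_fintype_fun_eq_card, Fintype.card_coe] at this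
        exact hn ⟨I, hI, this⟩
      obtain ⟨μ, h4, h5⟩ := h2.ge (Submodule.mem_top : res F I u ∈ ⊤)
      exact ⟨μ, h4, fun i hi => congrFun h5 ⟨i, hi⟩⟩
    choose f hf using h
    rw [← Nat.card_sigma]
    refine Nat.card_le_card_of_injective (fun m => ⟨f m, m.1, hf m⟩) fun m m' e => Subtype.ext ?_
    exact congrArg (fun s : Σ I : Finset A, {m : Matrix κ A F //
      I.card ≤ w ∧ finrank F ((rowsp m).map (res F I)) < I.card} => s.2.1) e
  refine (Nat.mul_le_mul_right _ h1).trans ?_
  rw [sum_mul, mul_assoc, ← Fintype.card_finset, ← smul_eq_mul, ← card_univ]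
  refine sum_le_card_nsmul _ _ _ fun I _ => ?_
  by_cases hI : I.card ≤ w ∧ 0 < I.card
  · have h := rank_tail (κ := κ) (φ := res F I)
      (LinearMap.funLeft_surjective_of_injective F F _ Subtype.val_injective) (e := 1)
      (d := I.card - 1) (by rw [finrank_fintype_fun_eq_card, Fintype.card_coe]; omega)
    refine le_trans (Nat.mul_le_mul (card_mono fun m hm => Nat.le_sub_one_of_lt hm.2) ?_) h
    exact Nat.le_self_pow (by omega) _
  · have : IsEmpty {m : Matrix κ A F //
        I.card ≤ w ∧ finrank F ((rowsp m).map (res F I)) < I.card} :=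
      ⟨fun m => hI ⟨m.2.1, Nat.zero_lt_of_lt m.2.2⟩⟩
    rw [Nat.card_of_isEmpty, zero_mul]
    exact Nat.zero_le _

end Pool.Agent.MP_36f78e_lc.H46
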