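import Pool.Agent.MP_36f78e_lc.H46.Tan1

/-! Small-set expansion of the quantum Tanner complex. -/

set_option autoImplicit false
set_option linter.unusedSectionVars false

namespace Pool.Agent.MP_36f78e_lc.H46

open Matrix Finset

namespace Tan

variable {F G A κ κ' : Type} [Field F] [Fintype G] [Fintype A] [Fintype κ] [Fintype κ']
  {π π' : A → A → Equiv.Perm G}

theorem start {w : ℕ} {H : Matrix κ A F} {H' : Matrix κ' A F} (hP : PE w H H')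
    (π : A → A → Equiv.Perm G) (x : G × A × A → F) :
    ∃ c r z : G × A × A → F, x = c + r + z ∧ c ∈ colS π H ∧ r ∈ rowS π H' ∧
      w * (∑ v, nc π c v + ∑ v, nr π r v) ≤ 256 * wt x ∧
      wt z ≤ Fintype.card A ^ 2 * viol (chk π H H') x := by
  classical
  have k : ∀ v, ∃ c r z : Matrix A A F, view π x v = c + r + z ∧ H * c = 0 ∧ r * H'ᵀ = 0 ∧
      w * (wt (fun b => cᵀ b) + wt fun a => r a) ≤ 256 * ne π x v ∧
      wt (fun q : A × A => z q.1 q.2) ≤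
        Fintype.card A ^ 2 * if x ∉ chk π H H' v then 1 else 0 := by
    intro v
    by_cases h : x ∈ chk π H H' v
    · obtain ⟨c, r, e, h1, h2, h3⟩ := hP _ h
      exact ⟨c, r, 0, by rw [e, add_zero], h1, h2, h3, (wt_zero (Y := A × A)).trans_le (by simp)⟩
    · refine ⟨0, 0, view π x v, by simp, by simp, by simp, ?_, ?_⟩
      · have : wt (fun a => (0 : Matrix A A F) a) = 0 := wt_zero (Y := A) (β := A → F)
        rw [transpose_zero, this]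
        exact Nat.zero_le _
      simpa [h, sq] using wt_le_card fun q : A × A => view π x v q.1 q.2
  choose c r z e h1 h2 h3 h4 using k
  refine ⟨glue π c, glue π r, glue π z, view_inj π fun v => ?_, fun v => ?_, fun v => ?_, ?_, ?_⟩
  · rw [view_add, view_add, view_glue, view_glue, view_glue, e]
  · rw [view_glue, h1]
  · rw [view_glue, h2]
  · rw [← sum_add_distrib, ← sum_ne π, mul_sum, mul_sum]
    refine sum_le_sum fun v _ => ?_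
    simpa only [nc, nr, view_glue] using h3 v
  · rw [← sum_ne π, viol, card_filter, mul_sum]
    refine sum_le_sum fun v _ => ?_
    simpa only [ne, view_glue] using h4 v

theorem vertex' {w : ℕ} {H : Matrix κ A F} {H' : Matrix κ' A F} (hP : PE w H H') (hw : 1 ≤ w)
    (hA : Fintype.card A = 128 * w) {πc πr : A → A → Equiv.Perm G} {σ τ : A → Equiv.Perm G}
    (h1 : ∀ a b, πc a b = σ a * π a b) (h2 : ∀ a b, πr a b = τ b * π a b)
    (hσ : Mix σ ((w : ℝ) / 1024)) (hτ : Mix τ ((w : ℝ) / 1024)) {c r c₂ r₂ z : G × A × A → F}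
    (hc : c ∈ colS π H) (hr : r ∈ rowS π H') (hm : GMin π H H' c r) (e : c + r = c₂ + r₂ + z)
    {T : ℕ} (hT : ∑ v, nc π c v + ∑ v, nr π r v + (∑ v, nc πc c₂ v + ∑ v, nr πr r₂ v) = T)
    (hN : 2 ^ 19 * T ≤ Fintype.card G) :
    ∑ v, ((nc π c v : ℝ) + nr π r v) ^ 2 ≤ T / 64 +
      (2 * ∑ v, ((nc π c v : ℝ) + nr π r v) ^ 2 + ∑ v, (nc πc c₂ v : ℝ) ^ 2 +
        ∑ v, (nr πr r₂ v : ℝ) ^ 2) / 8 + 2 ^ 16 * wt z := by
  have h := vertex hP hA h1 h2 hσ hτ hc hr hm e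
  have hT' : ∑ v, (nc π c v : ℝ) + ∑ v, (nr π r v : ℝ) +
      (∑ v, (nc πc c₂ v : ℝ) + ∑ v, (nr πr r₂ v : ℝ)) = T := by exact_mod_cast hT
  have hN' : (2 : ℝ) ^ 19 * T ≤ Fintype.card G := by exact_mod_cast hN
  have hw' : (0 : ℝ) < w := by exact_mod_cast hw
  have T0 : (0 : ℝ) ≤ T := Nat.cast_nonneg T
  generalize ∑ v, (nc π c v : ℝ) + ∑ v, (nr π r v : ℝ) = p at h hT'
  generalize ∑ v, (nc πc c₂ v : ℝ) + ∑ v, (nr πr r₂ v : ℝ) = q at h hT'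
  have k : p * q / Fintype.card G ≤ T / 2 ^ 21 := by
    refine div_le_of_le_mul₀ (Nat.cast_nonneg _) (by positivity) ?_
    have := mul_le_mul_of_nonneg_left hN' T0
    have e2 : (T : ℝ) * T = (p + q) ^ 2 := by rw [hT', sq]
    nlinarith [sq_nonneg (p - q)]
  have k' := mul_le_mul_of_nonneg_left k hw'.le
  refine le_of_mul_le_mul_left (h.trans ?_) hw'
  linarith

theorem sq_le (f g : G → ℕ) :
    ∑ v, (f v : ℝ) ^ 2 + ∑ v, (g v : ℝ) ^ 2 ≤ ∑ v, ((f v : ℝ) + g v) ^ 2 ∧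
      ((∑ v, f v + ∑ v, g v : ℕ) : ℝ) ≤ ∑ v, ((f v : ℝ) + g v) ^ 2 := by
  constructor
  · rw [← sum_add_distrib]
    refine sum_le_sum fun v _ => ?_
    have : (0 : ℝ) ≤ f v * g v := by positivity
    nlinarith
  · rw [← sum_add_distrib]
    have : ∑ v, (f v + g v) ≤ ∑ v, (f v + g v) ^ 2 :=
      sum_le_sum fun v _ => Nat.le_self_pow two_ne_zero _
    exact_mod_cast this

theorem gen_col {H : Matrix κ A F} {H' : Matrix κ' A F} {y : G × A × A → F}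
    (h : y ∈ gen π H H') : y ∈ colS π H := fun v => (h v).1

theorem gen_row {H : Matrix κ A F} {H' : Matrix κ' A F} {y : G × A × A → F}
    (h : y ∈ gen π H H') : y ∈ rowS π H' := fun v => (h v).2

end Tan

open Tan in
theorem tan : TanStmt := by
  intro F G A κ κ' _ _ _ _ _ w σ τ π₀₀ π₁₀ π₀₁ π₁₁ H H' hw hA h10 h01 h11 h11' hσ hτ hP x hx
  have i10 : ∀ a b, π₀₀ a b = (σ a)⁻¹ * π₁₀ a b := fun a b => by rw [h10, inv_mul_cancel_left]
  have i01 : ∀ a b, π₀₀ a b = (τ b)⁻¹ * π₀₁ a b := fun a b => by rw [h01, inv_mul_cancel_left]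
  have i11 : ∀ a b, π₀₁ a b = (σ a)⁻¹ * π₁₁ a b := fun a b => by rw [h11, inv_mul_cancel_left]
  have i11' : ∀ a b, π₁₀ a b = (τ b)⁻¹ * π₁₁ a b := fun a b => by rw [h11', inv_mul_cancel_left]
  obtain ⟨c₀, r₀, Z₀, e₀, a₀, b₀, s₀, z₀⟩ := start hP π₁₀ x
  obtain ⟨c₁, r₁, Z₁, e₁, a₁, b₁, s₁, z₁⟩ := start hP π₀₁ x
  let cost : (G × A × A → F) × (G × A × A → F) × (G × A × A → F) × (G × A × A → F) → ℕ :=
    fun p => ∑ v, nc π₁₀ p.1 v + ∑ v, nr π₁₀ p.2.1 v +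
      (∑ v, nc π₀₁ p.2.2.1 v + ∑ v, nr π₀₁ p.2.2.2 v)
  let ok : Set ((G × A × A → F) × (G × A × A → F) × (G × A × A → F) × (G × A × A → F)) :=
    {p | p.1 ∈ colS π₁₀ H ∧ p.2.1 ∈ rowS π₁₀ H' ∧ p.2.2.1 ∈ colS π₀₁ H ∧ p.2.2.2 ∈ rowS π₀₁ H' ∧
      p.1 + p.2.1 + Z₀ = p.2.2.1 + p.2.2.2 + Z₁ ∧
      p.1 + p.2.1 + Z₀ - x ∈ gen π₀₀ H H' ⊔ gen π₁₁ H H'}
  have ok0 : (c₀, r₀, c₁, r₁) ∈ ok :=
    ⟨a₀, b₀, a₁, b₁, e₀.symm.trans e₁, by rw [← e₀, sub_self]; exact zero_mem _⟩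
  obtain ⟨⟨C₀, R₀, C₁, R₁⟩, ⟨p1, p2, p3, p4, p5, p6⟩, hmin⟩ :=
    (InvImage.wf cost wellFounded_lt).has_min ok ⟨_, ok0⟩
  have hm : ∀ q ∈ ok, cost (C₀, R₀, C₁, R₁) ≤ cost q := fun q hq => not_lt.1 (hmin q hq)
  dsimp only at p1 p2 p3 p4 p5 p6
  obtain ⟨T, hT⟩ : ∃ T, ∑ v, nc π₁₀ C₀ v + ∑ v, nr π₁₀ R₀ v +
      (∑ v, nc π₀₁ C₁ v + ∑ v, nr π₀₁ R₁ v) = T := ⟨_, rfl⟩
  have hN : 2 ^ 19 * T ≤ Fintype.card G := by
    have h0 := hm _ ok0
    dsimp only [cost] at h0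
    rw [hT] at h0
    have h1 := Nat.mul_le_mul_left w h0
    rw [mul_add w (_ + _)] at h1
    refine Nat.le_of_mul_le_mul_left (c := w) ?_ hw
    rw [mul_left_comm]
    omega
  have n1 := fun y : G × A × A → F => sum_nc h01 y
  have n2 := fun y : G × A × A → F => sum_nr h10 y
  have n3 := fun y : G × A × A → F => sum_nc h11' y
  have n4 := fun y : G × A × A → F => sum_nr h11 y
  have m10 : GMin π₁₀ H H' C₀ R₀ := fun y hy => by
    have e : C₀ + y + (R₀ - y) = C₀ + R₀ := by abel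
    have := hm (C₀ + y, R₀ - y, C₁, R₁) ⟨add_mem p1 (gen_col hy), sub_mem p2 (gen_row hy), p3, p4,
      by dsimp only; rw [e, p5], by dsimp only; rw [e]; exact p6⟩
    dsimp only [cost] at this
    omega
  have m01 : GMin π₀₁ H H' C₁ R₁ := fun y hy => by
    have e : C₁ + y + (R₁ - y) = C₁ + R₁ := by abel
    have := hm (C₀, R₀, C₁ + y, R₁ - y) ⟨p1, p2, add_mem p3 (gen_col hy), sub_mem p4 (gen_row hy),
      by dsimp only; rw [e, p5], p6⟩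
    dsimp only [cost] at this
    omega
  have m00 : GMin π₀₀ H H' C₁ (-R₀) := fun y hy => by
    have := hm (C₀, R₀ + y, C₁ + y, R₁) ⟨p1, add_mem p2 (row_shift h10 (gen_row hy)),
      add_mem p3 (col_shift h01 (gen_col hy)), p4, by dsimp only; linear_combination p5, by
        have e : C₀ + (R₀ + y) + Z₀ - x = C₀ + R₀ + Z₀ - x + y := by abel
        dsimp only
        rw [e]
        exact add_mem p6 (Submodule.mem_sup_left hy)⟩
    dsimp only [cost] at this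
    rw [← neg_add', nr_neg, nr_neg, ← n1, ← n1, ← n2, ← n2]
    omega
  have m11 : GMin π₁₁ H H' C₀ (-R₁) := fun y hy => by
    have := hm (C₀ + y, R₀, C₁, R₁ + y) ⟨add_mem p1 (col_shift i11' (gen_col hy)), p2, p3,
      add_mem p4 (row_shift i11 (gen_row hy)), by dsimp only; linear_combination p5, by
        have e : C₀ + y + R₀ + Z₀ - x = C₀ + R₀ + Z₀ - x + y := by abel
        dsimp only
        rw [e]
        exact add_mem p6 (Submodule.mem_sup_right hy)⟩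
    dsimp only [cost] at this
    rw [← neg_add', nr_neg, nr_neg, n3, n3, n4, n4]
    omega
  have v10 := vertex' hP hw hA i10 h11' hσ.inv hτ p1 p2 m10
    (c₂ := C₁) (r₂ := R₁) (z := -(Z₀ - Z₁)) (by linear_combination p5) (T := T)
    (by rw [← n1, n4, hT]) hN
  have v01 := vertex' hP hw hA h11 i01 hσ hτ.inv p3 p4 m01
    (c₂ := C₀) (r₂ := R₀) (z := Z₀ - Z₁) (by linear_combination -p5) (T := T)
    (by rw [n3, ← n2, ← hT, add_comm]) hN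
  have v00 := vertex' hP hw hA h10 h01 hσ hτ (col_shift i01 p3) (neg_mem (row_shift i10 p2)) m00
    (c₂ := C₀) (r₂ := -R₁) (z := Z₀ - Z₁) (by linear_combination -p5) (T := T)
    (by rw [nr_neg, nr_neg, ← n1, ← n2]; omega) hN
  have v11 := vertex' hP hw hA i11 i11' hσ.inv hτ.inv (col_shift h11' p1)
    (neg_mem (row_shift h11 p4)) m11
    (c₂ := C₁) (r₂ := -R₀) (z := -(Z₀ - Z₁)) (by linear_combination p5) (T := T)
    (by rw [nr_neg, nr_neg, n3, n4]; omega) hN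
  simp only [nr_neg, wt_neg] at v10 v01 v00 v11
  obtain ⟨q1, t1⟩ := sq_le (nc π₁₀ C₀) (nr π₁₀ R₀)
  obtain ⟨q2, t2⟩ := sq_le (nc π₀₁ C₁) (nr π₀₁ R₁)
  obtain ⟨q3, -⟩ := sq_le (nc π₀₀ C₁) (nr π₀₀ R₀)
  obtain ⟨q4, -⟩ := sq_le (nc π₁₁ C₀) (nr π₁₁ R₁)
  have hT' : ((∑ v, nc π₁₀ C₀ v + ∑ v, nr π₁₀ R₀ v : ℕ) : ℝ) +
      ((∑ v, nc π₀₁ C₁ v + ∑ v, nr π₀₁ R₁ v : ℕ) : ℝ) = T := by rw [← Nat.cast_add, hT]
  have s3 : (0 : ℝ) ≤ ∑ v, ((nc π₀₀ C₁ v : ℝ) + nr π₀₀ R₀ v) ^ 2 := by positivity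
  have s4 : (0 : ℝ) ≤ ∑ v, ((nc π₁₁ C₀ v : ℝ) + nr π₁₁ R₁ v) ^ 2 := by positivity
  have key : (T : ℝ) ≤ 2 ^ 19 * wt (Z₀ - Z₁) := by linarith
  have key' : T ≤ 2 ^ 19 * wt (Z₀ - Z₁) := by exact_mod_cast key
  have hz : wt (Z₀ - Z₁) ≤ wt Z₀ + wt Z₁ := by
    rw [sub_eq_add_neg, ← wt_neg Z₁]
    exact wt_add _ _
  refine ⟨_, p6, ?_⟩
  rw [add_sub_cancel]
  have w1 := (wt_add (C₀ + R₀) Z₀).trans (Nat.add_le_add_right ((wt_add C₀ R₀).trans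
    (Nat.add_le_add (wt_le_nc π₁₀ C₀) (wt_le_nr π₁₀ R₀))) _)
  rw [← mul_add, hA] at w1
  rw [hA] at z₀ z₁
  generalize viol (chk π₁₀ H H') x = u₀ at z₀ ⊢
  generalize viol (chk π₀₁ H H') x = u₁ at z₁ ⊢
  have f1 : ∑ v, nc π₁₀ C₀ v + ∑ v, nr π₁₀ R₀ v ≤ 2 ^ 19 * ((128 * w) ^ 2 * (u₀ + u₁)) := by
    rw [mul_add ((128 * w) ^ 2)]
    omega
  have f2 : (128 * w) ^ 2 * u₀ ≤ 2 ^ 40 * w ^ 3 * (u₀ + u₁) := by
    refine Nat.mul_le_mul ?_ (Nat.le_add_right _ _)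
    rw [mul_pow]
    exact Nat.mul_le_mul (by norm_num) (Nat.pow_le_pow_right hw (by norm_num))
  calc wt (C₀ + R₀ + Z₀) ≤ 128 * w * (2 ^ 19 * ((128 * w) ^ 2 * (u₀ + u₁))) +
        2 ^ 40 * w ^ 3 * (u₀ + u₁) :=
        w1.trans (Nat.add_le_add (Nat.mul_le_mul_left _ f1) (z₀.trans f2))
    _ = 2 ^ 41 * w ^ 3 * (u₀ + u₁) := by ring

end Pool.Agent.MP_36f78e_lc.H46
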