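import Pool.Agent.MP_36f78e_lc.H46.Emb

/-! The assembly of the quantum argument. -/

set_option linter.unusedSectionVars false

namespace Pool.Agent.MP_36f78e_lc.H46

open Matrix Finset
open scoped ComplexOrder Kronecker

section Hm

variable {p : ℕ} [Fact p.Prime] {V J : Type} [Fintype V] [DecidableEq V] [Fintype J]
  {C : Code p V J} {k : ℕ} {γ : ℝ}

theorem hm_proj (hF : FourStmt) (C : Code p V J) (s : Bool) (j : J) : Proj (C.hm s j) := by
  classical
  have h0 : ∀ K : Submodule (ZMod p) (V → ZMod p), Proj (dv K) := fun K => Proj.ind _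
  cases s
  · exact h0 _
  · have h1 := (h0 (C.K true j)).conj (U := (four p V)ᴴ) (by
      rw [conjTranspose_conjTranspose]
      exact mem_unitaryGroup_iff.1 (hF p V).1)
    rwa [conjTranspose_conjTranspose] at h1

theorem hm_loc (hF : FourStmt) (hC : C.Good k γ) (s : Bool) (j : J) :
    (∀ x y, C.hm s j x y ≠ 0 → ∀ v, v ∉ C.S s j → x v = y v) ∧
      ∀ u : V → ZMod p, (∀ v ∈ C.S s j, u v = 0) → ∀ x y,
        C.hm s j (x + u) (y + u) = C.hm s j x y := by
  classical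
  cases s
  · refine ⟨fun x y hxy v _ => ?_, fun u hu x y => ?_⟩
    · by_contra h
      exact hxy (diagonal_apply_ne _ fun h' => h (congrFun h' v))
    · simp only [Code.hm, dv, diagonal_apply, add_left_inj,
        (C.K false j).add_mem_iff_left (hC.loc false j u hu)]
  · refine ⟨fun x y hxy v hv => ?_, fun u _ x y => (hF p V).2.1 _ x y u⟩
    have hz : (Pi.single v 1 : V → ZMod p) ∈ C.K true j :=
      hC.loc true j _ fun v' hv' => Pi.single_eq_of_ne (fun e : v' = v => hv (e ▸ hv')) _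
    have h1 := (hF p V).2.2.1 _ (Pi.single v 1) x y 0 (fun ξ => by
      simp only [(C.K true j).add_mem_iff_left hz, AddChar.map_zero_eq_one, one_mul]) hxy
    rwa [single_dotProduct, one_mul, Pi.sub_apply, sub_eq_zero] at h1

theorem hm_ground (hF : FourStmt) (hC : C.Good k γ) :
    ∃ g : (V → ZMod p) → ℂ, g ≠ 0 ∧ ∀ s j, C.hm s j *ᵥ g = 0 := by
  classical
  obtain ⟨χ, hχ⟩ : ∃ χ : (V → ZMod p) → ℂ, ∀ ξ, χ ξ = if ∀ j, ξ ∈ C.K true j then 1 else 0 :=
    ⟨_, fun _ => rfl⟩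
  obtain ⟨h1, h2, h3, -⟩ := hF p V
  have hU : four p V * (four p V)ᴴ = 1 := mem_unitaryGroup_iff.1 h1
  refine ⟨fun x => ((four p V)ᴴ * diagonal χ * four p V) x 0, fun h => ?_, fun s j => ?_⟩
  · have h4 : (four p V)ᴴ * diagonal χ * four p V = 0 := by
      ext x y
      have := h2 χ (x - y) 0 y
      rw [sub_add_cancel, zero_add] at this
      rw [this]
      exact congrFun h (x - y)
    have h5 : diagonal χ = four p V * ((four p V)ᴴ * diagonal χ * four p V) * (four p V)ᴴ := by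
      simp only [← Matrix.mul_assoc, hU, Matrix.one_mul]
      rw [Matrix.mul_assoc, hU, Matrix.mul_one]
    rw [h4, Matrix.mul_zero, Matrix.zero_mul] at h5
    have h6 := congrFun (congrFun h5 0) 0
    simp [hχ] at h6
  · cases s
    · funext x
      rw [Code.hm, dv, mulVec_diagonal, Pi.zero_apply]
      split_ifs with hx
      · rw [zero_mul]
      · rw [one_mul]
        by_contra h
        refine hx (hC.perp x (fun z hz => ?_) j)
        have := h3 χ z x 0 0 (fun ξ => by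
          rw [hχ, hχ, AddChar.map_zero_eq_one, one_mul]
          exact if_congr (forall_congr' fun j => (C.K true j).add_mem_iff_left (hz j)) rfl rfl) h
        rwa [sub_zero] at this
    · have h4 : C.hm true j * ((four p V)ᴴ * diagonal χ * four p V) = 0 := by
        have h5 : dv (C.K true j) * diagonal χ = 0 := by
          rw [dv, diagonal_mul_diagonal, ← diagonal_zero]
          congr 1
          funext ξ
          rw [hχ]
          by_cases h : ξ ∈ C.K true j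
          · rw [if_pos h, zero_mul]
          · rw [if_neg (fun h' : ∀ j, ξ ∈ C.K true j => h (h' j)), mul_zero]
        rw [Code.hm, Matrix.mul_assoc, ← Matrix.mul_assoc (four p V), ← Matrix.mul_assoc (four p V),
          hU, Matrix.one_mul, Matrix.mul_assoc, ← Matrix.mul_assoc (dv _), h5, Matrix.zero_mul,
          Matrix.mul_zero]
      funext x
      exact congrFun (congrFun h4 x) 0

/-- A locally defined low-energy code of qubits has dimension divisible by `p`. -/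
theorem core (hB : BigStmt) (hC : C.Good k γ) (hγ : 0 < γ) (hV : 0 < Fintype.card V)
    {ι I : Type} [Fintype ι] [DecidableEq ι] [Fintype I] {m : ℕ} (E : Enc p V ι m)
    (P : I → Op ι) (T : I → Finset ι) (Pr : Op ι) (l d : ℕ) (hP : ∀ i, Proj (P i))
    (hL : ∀ i, Loc (T i) (P i)) (hc : ∀ i j, P i * P j = P j * P i) (hPr : Proj Pr)
    (hfix : ∀ v, Pr *ᵥ v = v ↔ ∀ i, P i *ᵥ v = v) (hT : ∀ i, (T i).card ≤ l) (hl : 1 ≤ l)
    (hd : Fintype.card V + Fintype.card I ≤ 2 * d ^ 2)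
    (hld : ((l * d : ℕ) : ℝ) ≤ γ * Fintype.card V)
    (hE : ∀ v, Pr *ᵥ v = v →
      ∑ s, ∑ j, qf (E.hq (C.hm s j)) v ≤ γ * Fintype.card V / 144 * nsq v) :
    ∃ m' : ℕ, Pr.trace = (p * m' : ℕ) := by
  classical
  obtain ⟨a, ha⟩ : ∃ a : V ⊕ I → (V → ZMod p) → ℂ, (∀ v x, a (.inl v) x = if x v = 0 then 0 else 1) ∧
      ∀ i x, a (.inr i) x = 1 :=
    ⟨Sum.elim (fun v x => if x v = 0 then 0 else 1) fun _ _ => 1, fun _ _ => rfl, fun _ _ => rfl⟩
  obtain ⟨R, hR⟩ : ∃ R : V ⊕ I → Op ι, (∀ v, R (.inl v) = 1) ∧ ∀ i, R (.inr i) = 1 - P i :=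
    ⟨Sum.elim (fun _ => 1) fun i => 1 - P i, fun _ => rfl, fun _ => rfl⟩
  obtain ⟨a₀, ha₀⟩ : ∃ a₀ : (V → ZMod p) → ℂ, ∀ x, a₀ x = if x ≠ 0 then 0 else 1 :=
    ⟨_, fun _ => rfl⟩
  have ha1 : ∀ v, a (.inl v) = fun x => if x v = 0 then 0 else 1 := fun v => funext (ha.1 v)
  have ha2 : ∀ i, diagonal (a (.inr i)) = 1 := fun i => by
    rw [show a (.inr i) = fun _ => 1 from funext (ha.2 i), diagonal_one]
  have hfix0 : ∀ w : (V → ZMod p) × (ι → ZMod 2) → ℂ, (diagonal a₀ ⊗ₖ Pr) *ᵥ w = w ↔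
      (∀ x σ, x ≠ 0 → w (x, σ) = 0) ∧ Pr *ᵥ (fun σ => w (0, σ)) = fun σ => w (0, σ) := fun w => by
    constructor
    · intro h
      refine ⟨fun x σ hx => ?_, funext fun σ => ?_⟩
      · rw [← h, dk_mulVec, ha₀, if_pos hx, zero_mul]
      · have := congrFun h (0, σ)
        rwa [dk_mulVec, ha₀, if_neg (by simp), one_mul] at this
    · rintro ⟨h1, h2⟩
      funext ⟨x, σ⟩
      rw [dk_mulVec, ha₀]
      by_cases hx : x = 0
      · rw [if_neg (by simpa using hx), one_mul, hx, h2]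
      · rw [if_pos hx, zero_mul, h1 x σ hx]
  have hker : ∀ w : (V → ZMod p) × (ι → ZMod 2) → ℂ, (∀ i, (diagonal (a i) ⊗ₖ R i) *ᵥ w = 0) ↔
      (∀ x σ, x ≠ 0 → w (x, σ) = 0) ∧ Pr *ᵥ (fun σ => w (0, σ)) = fun σ => w (0, σ) := fun w => by
    constructor
    · intro h
      refine ⟨fun x σ hx => ?_, (hfix _).2 fun i => funext fun σ => ?_⟩
      · obtain ⟨v, hv⟩ := Function.ne_iff.1 hx
        have := congrFun (h (.inl v)) (x, σ)
        rwa [dk_mulVec, ha.1, if_neg (show ¬ x v = 0 from hv), one_mul, hR.1, one_mulVec] at this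
      · have := congrFun (h (.inr i)) (0, σ)
        rw [dk_mulVec, ha.2, one_mul, hR.2, sub_mulVec, one_mulVec, Pi.sub_apply, Pi.zero_apply,
          sub_eq_zero] at this
        exact this.symm
    · rintro ⟨h1, h2⟩ i
      funext ⟨x, σ⟩
      rw [dk_mulVec, Pi.zero_apply]
      by_cases hx : x = 0
      · subst hx
        rcases i with v | i
        · rw [ha.1, if_pos (Pi.zero_apply v), zero_mul]
        · rw [hR.2, sub_mulVec, one_mulVec, (hfix _).1 h2 i, sub_self, Pi.zero_apply, mul_zero]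
      · rw [show (fun y' => w (x, y')) = 0 from funext fun σ => h1 x σ hx, mulVec_zero,
          Pi.zero_apply, mul_zero]
  have hsub : ∀ (M : Matrix ((V → ZMod p) × (ι → ZMod 2)) ((V → ZMod p) × (ι → ZMod 2)) ℂ)
      (v : (V → ZMod p) × (ι → ZMod 2) → ℂ),
      M.submatrix E.tau E.tau *ᵥ v = (M *ᵥ (v ∘ E.tau)) ∘ E.tau := fun M v => by
    rw [submatrix_mulVec_equiv, E.tau_symm]
  have hfix1 : ∀ v : (V → ZMod p) × (ι → ZMod 2) → ℂ,
      (diagonal a₀ ⊗ₖ Pr).submatrix E.tau E.tau *ᵥ v = v ↔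
        (diagonal a₀ ⊗ₖ Pr) *ᵥ (v ∘ E.tau) = v ∘ E.tau := fun v => by
    rw [hsub]
    refine ⟨fun h => funext fun y => ?_, fun h => funext fun y => ?_⟩
    · have := congrFun h (E.tau y)
      rwa [Function.comp_apply, E.tau_apply, E.tau_apply, E.sw_sw] at this
    · rw [h, Function.comp_apply, Function.comp_apply, E.tau_apply, E.tau_apply, E.sw_sw]
  have hRp : ∀ i, Proj (R i) := by
    rintro (v | i)
    · rw [hR.1]; exact Proj.one
    · rw [hR.2]; exact (hP i).one_sub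
  have hap : ∀ i, Proj (diagonal (a i)) := by
    rintro (v | i)
    · rw [ha1]; exact Proj.ind _
    · rw [ha2]; exact Proj.one
  have hRc : ∀ i j, R i * R j = R j * R i := by
    rintro (v | i) (v' | j)
    · rw [hR.1, hR.1]
    · rw [hR.1, Matrix.one_mul, Matrix.mul_one]
    · rw [hR.1, Matrix.one_mul, Matrix.mul_one]
    · simp only [hR.2, Matrix.mul_sub, Matrix.sub_mul, Matrix.one_mul, Matrix.mul_one, hc i j]
      abel
  obtain ⟨m', hm'⟩ := hB p V J (ι → ZMod 2) (V ⊕ I) C k γ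
    (fun i => (diagonal (a i) ⊗ₖ R i).submatrix E.tau E.tau)
    (Sum.elim (fun v => {v}) fun i => E.sites (T i))
    ((diagonal a₀ ⊗ₖ Pr).submatrix E.tau E.tau) l d hC hγ hV
    (fun i => ((hap i).kron (hRp i)).submatrix _)
    (fun i j => by
      rw [submatrix_mul_equiv, submatrix_mul_equiv, ← mul_kronecker_mul, ← mul_kronecker_mul,
        hRc i j, diagonal_mul_diagonal, diagonal_mul_diagonal]
      simp only [mul_comm])
    (by
      rw [show a₀ = fun x => if x ≠ 0 then 0 else 1 from funext ha₀]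
      exact ((Proj.ind _).kron hPr).submatrix _)
    (fun v => by
      rw [hfix1, hfix0, ← hker]
      refine forall_congr' fun i => ?_
      rw [hsub]
      exact ⟨fun h => by rw [h]; rfl, fun h => funext fun y => by
        have := congrFun h (E.tau y)
        rwa [Function.comp_apply, E.tau_apply, E.tau_apply, E.sw_sw] at this⟩)
    (by
      rintro (v | i)
      · rw [hR.1, ha1]
        refine (Enc.sl_left (E := E) (fun x y hxy v' _ => ?_) fun u hu x y => ?_).tau.bl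
        · by_contra h
          exact hxy (diagonal_apply_ne _ fun h' => h (congrFun h' v'))
        · simp only [diagonal_apply, add_left_inj, Pi.add_apply, hu v (mem_singleton_self v),
            add_zero]
      · rw [hR.2, ha2]
        exact (Enc.sl_right ((Loc.one _).sub (hL i))).tau.bl)
    (by
      rintro (v | i)
      · simpa using hl
      · exact (Enc.card_sites _).trans (hT i))
    (by rw [Fintype.card_sum]; omega) (by rw [Fintype.card_sum]; exact hd) hld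
    (fun v hv => by
      obtain ⟨h1, h2⟩ := (hfix0 _).1 ((hfix1 v).1 hv)
      have h3 : ∀ y, y ∉ Set.range E.emb → v y = 0 := fun y hy => by
        have := h1 (E.sw y).1 (E.sw y).2 fun h => hy (Enc.mem_range_emb h)
        rwa [Function.comp_apply, E.tau_apply, Prod.mk.eta, E.sw_sw] at this
      have h4 := hE (v ∘ E.emb) h2
      rw [nsq_sub' Enc.emb_inj h3] at h4
      simpa only [Enc.hq, qf_sub' Enc.emb_inj _ h3] using h4)
  refine ⟨m', ?_⟩
  have htr : ∀ M : Matrix ((V → ZMod p) × (ι → ZMod 2)) ((V → ZMod p) × (ι → ZMod 2)) ℂ,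
      (M.submatrix E.tau E.tau).trace = M.trace := fun M => Equiv.sum_comp E.tau fun y => M y y
  rw [← hm', htr, trace_kronecker, trace_diagonal, sum_eq_single 0]
  · rw [ha₀, if_neg (by simp), one_mul]
  · intro x _ hx
    rw [ha₀, if_pos hx]
  · simp

end Hm

theorem overlap {ι J : Type} [Fintype ι] [DecidableEq ι] [Fintype J] (S : J → Finset ι)
    (B : ι → Finset ι) (K D : ℕ) (hS : ∀ j, (S j).card ≤ K)
    (hdeg : ∀ q, (univ.filter fun j => q ∈ S j).card ≤ K) (hB : ∀ q, (B q).card ≤ D)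
    (hB' : ∀ r, (univ.filter fun q => r ∈ B q).card ≤ D) (j : J) :
    (univ.filter fun i => ¬ Disjoint ((S i).biUnion B) ((S j).biUnion B)).card ≤
      K * D * (D * K) := by
  classical
  have h1 : (univ.filter fun i => ¬ Disjoint ((S i).biUnion B) ((S j).biUnion B)) ⊆
      ((S j).biUnion B).biUnion fun r => (univ.filter fun q => r ∈ B q).biUnion fun q =>
        univ.filter fun i => q ∈ S i := by
    intro i hi
    obtain ⟨r, hr, hr'⟩ := not_disjoint_iff.1 (mem_filter.1 hi).2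
    obtain ⟨q, hq, hq'⟩ := mem_biUnion.1 hr
    exact mem_biUnion.2 ⟨r, hr', mem_biUnion.2 ⟨q, by simpa using hq', by simpa using hq⟩⟩
  refine (card_le_card h1).trans ((card_biUnion_le_card_mul _ _ (D * K) fun r _ => ?_).trans ?_)
  · exact (card_biUnion_le_card_mul _ _ K fun q _ => hdeg q).trans
      (Nat.mul_le_mul_right _ (hB' r))
  · exact Nat.mul_le_mul_right _ ((card_biUnion_le_card_mul _ _ D fun q _ => hB q).trans
      (Nat.mul_le_mul_right _ (hS j)))

/-- The lower bound on the energy. -/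
theorem energy (hB : BigStmt) (hPrep : PrepStmt) (hCone : ConeStmt) (hComp : CompStmt)
    (hStab : StabStmt) {p : ℕ} [Fact p.Prime] (hp : 2 < p) {V J : Type} [Fintype V]
    [DecidableEq V] [Fintype J] {C : Code p V J} {k : ℕ} {γ : ℝ} (hC : C.Good k γ) (hγ : 0 < γ)
    (hV : 0 < Fintype.card V) (hJ : Fintype.card J ≤ Fintype.card V) {ι : Type} [Fintype ι]
    [DecidableEq ι] {m : ℕ} (E : Enc p V ι m) (S : Bool × J → Finset ι) (K : ℕ) (hK : 1 ≤ K)
    (hS : ∀ j, (S j).card ≤ K) (hdeg : ∀ q, (univ.filter fun j => q ∈ S j).card ≤ K)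
    (hL : ∀ j : Bool × J, Loc (S j) (E.hq (C.hm j.1 j.2)))
    (hpsd : ∀ j : Bool × J,
      (E.hq (C.hm j.1 j.2)).PosSemidef ∧ (1 - E.hq (C.hm j.1 j.2)).PosSemidef)
    {t d : ℕ} {ψ : St ι} {U : Op ι} (hψ : Prep t ψ) (hU : HasDepth d U)
    (h1 : 16 * (K : ℝ) ^ 2 * 16 ^ d ≤ γ ^ 2 * Fintype.card V)
    (h2 : 2 * (K : ℝ) ^ 2 * (4 ^ d * t) ≤ γ * Fintype.card V / 288) :
    γ * Fintype.card V / 288 ≤ ∑ j : Bool × J, qf (E.hq (C.hm j.1 j.2)) (U *ᵥ ψ) := by
  classical
  by_contra hlt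
  rw [not_le] at hlt
  obtain ⟨hn, hLam⟩ := hPrep ι t ψ hψ
  obtain ⟨hUu, B, B', hB1, hB2, hB3, hB4⟩ := hCone ι d U hU
  have hU1 : U * Uᴴ = 1 := mem_unitaryGroup_iff.1 hUu
  have hU2 : Uᴴ * U = 1 := mem_unitaryGroup_iff'.1 hUu
  have h4 : (4 : ℕ) ^ d = 2 ^ d * 2 ^ d := by rw [← mul_pow]; norm_num
  obtain ⟨φ, hφ, hφE, hφc⟩ := hComp ι (Bool × J) (fun j => (S j).biUnion B')
    (fun j => Uᴴ * E.hq (C.hm j.1 j.2) * U) (K * 2 ^ d * (2 ^ d * K)) (2 * t)
    (γ * Fintype.card V / 288) ψ (fun j => (hB4 _ _ (hL j)).2)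
    (fun j => (hpsd j).1.conjTranspose_mul_mul_same U)
    (fun j => by
      have := (hpsd j).2.conjTranspose_mul_mul_same U
      rwa [Matrix.mul_sub, Matrix.sub_mul, Matrix.mul_one, hU2] at this)
    (overlap S B' K _ hS hdeg hB2 hB3) (fun h => by simp [h, nsq] at hn) hLam
    (by simpa only [qf_conj, hn, mul_one] using hlt.le)
  obtain ⟨P, Pr, r, hP, hPL, hPc, hPr, hfix, htr, hen⟩ := hStab ι (Bool × J) _ φ hφ hφc
  have hUU : ∀ v : St ι, U *ᵥ (Uᴴ *ᵥ v) = v := fun v => by rw [mulVec_mulVec, hU1, one_mulVec]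
  have hconj : ∀ (A : Op ι) (v : St ι), (U * A * Uᴴ) *ᵥ v = v ↔ A *ᵥ (Uᴴ *ᵥ v) = Uᴴ *ᵥ v :=
    fun A v => by
      rw [← mulVec_mulVec, ← mulVec_mulVec]
      refine ⟨fun h => ?_, fun h => by rw [h, hUU]⟩
      conv_rhs => rw [← h, mulVec_mulVec, hU2, one_mulVec]
  obtain ⟨s, hs⟩ : ∃ s, s = Nat.sqrt (Fintype.card V) := ⟨_, rfl⟩
  have hs1 : s * s ≤ Fintype.card V := hs ▸ Nat.sqrt_le _
  have hs2 : Fintype.card V < (s + 1) * (s + 1) := hs ▸ Nat.lt_succ_sqrt _
  have hs3 : 1 ≤ s := hs ▸ Nat.sqrt_pos.2 hV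
  obtain ⟨m', hm'⟩ := core hB hC hγ hV E (fun j => U * P j * Uᴴ)
    (fun j => ((S j).biUnion B').biUnion B) (U * Pr * Uᴴ) (K * 4 ^ d) (2 * (s + 1))
    (fun j => (hP j).conj hU2) (fun j => (hB4 _ _ (hPL j)).1)
    (fun i j => by
      have : ∀ A A' : Op ι, U * A * Uᴴ * (U * A' * Uᴴ) = U * (A * A') * Uᴴ := fun A A' => by
        simp only [Matrix.mul_assoc]
        rw [← Matrix.mul_assoc Uᴴ, hU2, Matrix.one_mul]
      rw [this, this, hPc])
    (hPr.conj hU2) (fun v => by simp only [hconj, hfix])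
    (fun j => by
      refine (card_biUnion_le_card_mul _ _ _ fun q _ => hB1 q).trans ?_
      rw [h4, ← mul_assoc]
      exact Nat.mul_le_mul_right _ ((card_biUnion_le_card_mul _ _ _ fun q _ => hB2 q).trans
        (Nat.mul_le_mul_right _ (hS j))))
    (Nat.mul_pos hK (by positivity))
    (by
      rw [Fintype.card_prod, Fintype.card_bool]
      nlinarith)
    (by
      refine (abs_le_of_sq_le_sq' ?_ (by positivity)).2
      have h5 : ((s : ℝ) + 1) ^ 2 ≤ 4 * Fintype.card V := by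
        have h6 : (s : ℝ) * s ≤ Fintype.card V := by exact_mod_cast hs1
        have h7 : (1 : ℝ) ≤ s := by exact_mod_cast hs3
        nlinarith
      have h8 : ((4 : ℝ) ^ d) ^ 2 = 16 ^ d := by rw [← pow_mul, mul_comm, pow_mul]; norm_num
      have h9 : (0 : ℝ) ≤ Fintype.card V := by positivity
      push_cast
      calc ((K : ℝ) * 4 ^ d * (2 * (s + 1))) ^ 2 = 4 * (K : ℝ) ^ 2 * 16 ^ d * (s + 1) ^ 2 := by
            rw [mul_pow, mul_pow, mul_pow, h8]; ring
        _ ≤ 4 * (K : ℝ) ^ 2 * 16 ^ d * (4 * Fintype.card V) := by gcongr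
        _ = 16 * (K : ℝ) ^ 2 * 16 ^ d * Fintype.card V := by ring
        _ ≤ γ ^ 2 * Fintype.card V * Fintype.card V := by gcongr
        _ = _ := by ring)
    (fun v hv => by
      have h5 := fun j => hen j _ (hB4 _ _ (hL j)).2 _ ((hconj _ _).1 hv)
      simp only [qf_conj, hUU] at h5 hφE
      have h6 : nsq (Uᴴ *ᵥ v) = nsq v := by rw [← nsq_unitary hUu, hUU]
      have h7 : (∑ j : Bool × J, qf (E.hq (C.hm j.1 j.2)) v) * nsq φ =
          (∑ j : Bool × J, qf (E.hq (C.hm j.1 j.2)) (U *ᵥ φ)) * nsq v := by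
        rw [sum_mul, sum_mul]
        exact sum_congr rfl fun j _ => by rw [h5 j, h6]
      rw [← Fintype.sum_prod_type']
      refine le_of_mul_le_mul_right ?_ (nsq_pos hφ)
      rw [h7, mul_right_comm]
      refine mul_le_mul_of_nonneg_right (hφE.trans ?_) (nsq_nonneg v)
      refine mul_le_mul_of_nonneg_right ?_ (nsq_nonneg φ)
      have h8 : (4 : ℝ) ^ d = 2 ^ d * 2 ^ d := by exact_mod_cast h4
      rw [h8] at h2
      push_cast
      linarith)
  rw [trace_mul_comm, ← Matrix.mul_assoc, hU2, Matrix.one_mul] at hm'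
  rw [hm'] at htr
  have h9 : p * m' * r = 2 ^ Fintype.card ι := by exact_mod_cast htr
  have h10 : p ∣ 2 := (Fact.out : p.Prime).dvd_of_dvd_pow ⟨m' * r, by rw [← h9, mul_assoc]⟩
  exact absurd (Nat.le_of_dvd two_pos h10) (by omega)

/-- The main statement from the steps. -/
theorem main (hCode : CodeStmt) (hF : FourStmt) (hB : BigStmt) (hPrep : PrepStmt)
    (hCone : ConeStmt) (hComp : CompStmt) (hStab : StabStmt) :
    ∃ (k : ℕ) (ε c : ℝ), 0 < ε ∧ 0 < c ∧ ∀ n₀ : ℕ, ∃ n : ℕ, n₀ ≤ n ∧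
      ∃ (M : ℕ) (h : Fin M → Op (Fin n)) (S : Fin M → Finset (Fin n)), M ≤ n ∧
        (∀ j, (S j).card ≤ k ∧ ActsOn (S j) (h j) ∧ (h j).PosSemidef ∧ (1 - h j).PosSemidef) ∧
        (∀ q, (Finset.univ.filter fun j => q ∈ S j).card ≤ k) ∧
        (∃ ψ₀ : St (Fin n), ψ₀ ≠ 0 ∧ ∀ j, h j *ᵥ ψ₀ = 0) ∧
        ∀ (a t d : ℕ) (ψ : St (Fin n ⊕ Fin a)) (U : Op (Fin n ⊕ Fin a)), Prep t ψ →
          HasDepth d U → (16 : ℝ) ^ d ≤ c * n → (4 : ℝ) ^ d * t ≤ c * n →
          ε * n ≤ ∑ j, (star (U *ᵥ ψ) ⬝ᵥ (withAnc (Fin a) (h j) *ᵥ (U *ᵥ ψ))).re := by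
  classical
  obtain ⟨p, _, k, γ, hp, hγ, hCode⟩ := hCode
  obtain ⟨K, hK⟩ : ∃ K, K = 2 * k * p + 1 := ⟨_, rfl⟩
  have hp0 : (0 : ℝ) < p := by exact_mod_cast (by omega : 0 < p)
  have hK0 : (0 : ℝ) < K := by exact_mod_cast (by omega : 0 < K)
  refine ⟨K, γ / (288 * p), min γ (γ ^ 2) / (576 * p * K ^ 2), by positivity, by positivity,
    fun n₀ => ?_⟩
  obtain ⟨V, J, _, _, _, hn, hJ, C, hC⟩ := hCode (n₀ + 1)
  obtain ⟨enc⟩ : Nonempty (ZMod p ↪ (Fin p → ZMod 2)) :=
    Function.Embedding.nonempty_of_card_le (by simpa using Nat.lt_two_pow_self.le)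
  obtain ⟨e⟩ : Nonempty (V × Fin p ≃ Fin (Fintype.card V * p)) :=
    ⟨Fintype.equivFinOfCardEq (by simp)⟩
  obtain ⟨f⟩ : Nonempty (Fin (2 * Fintype.card J) ≃ Bool × J) :=
    ⟨(Fintype.equivFinOfCardEq (by simp)).symm⟩
  obtain ⟨E, hE⟩ : ∃ E : Enc p V (Fin (Fintype.card V * p)) p, E.e = e :=
    ⟨⟨enc, Function.invFun enc, e, Function.leftInverse_invFun enc.injective, e.injective⟩, rfl⟩
  have hs : Function.Surjective E.e := hE ▸ e.surjective
  have hL : ∀ j : Bool × J, Loc (E.blocks (C.S j.1 j.2)) (E.hq (C.hm j.1 j.2)) := fun j =>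
    Enc.hq_loc hs (hm_loc hF hC j.1 j.2).1 (hm_loc hF hC j.1 j.2).2
  have hS : ∀ j : Bool × J, (E.blocks (C.S j.1 j.2)).card ≤ K := fun j =>
    (Enc.card_blocks _).trans (by have := hC.card_S j.1 j.2; rw [hK]; nlinarith)
  have hdeg : ∀ q, (univ.filter fun j : Bool × J => q ∈ E.blocks (C.S j.1 j.2)).card ≤ K := by
    intro q
    obtain ⟨⟨v, i⟩, rfl⟩ := hs q
    have h1 : (univ.filter fun j : Bool × J => E.e (v, i) ∈ E.blocks (C.S j.1 j.2)) ⊆
        (univ : Finset Bool).biUnion fun s => (univ.filter fun j => v ∈ C.S s j).image (s, ·) := by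
      intro j hj
      exact mem_biUnion.2 ⟨j.1, mem_univ _, mem_image.2 ⟨j.2,
        mem_filter.2 ⟨mem_univ _, Enc.mem_blocks.1 (mem_filter.1 hj).2⟩, rfl⟩⟩
    refine (card_le_card h1).trans ((card_biUnion_le_card_mul _ _ k fun s _ =>
      card_image_le.trans (hC.deg s v)).trans ?_)
    rw [card_univ, Fintype.card_bool, hK]
    nlinarith
  refine ⟨Fintype.card V * p, by nlinarith, 2 * Fintype.card J,
    fun j => E.hq (C.hm (f j).1 (f j).2), fun j => E.blocks (C.S (f j).1 (f j).2), by nlinarith,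
    fun j => ⟨hS _, (hL _).actsOn, Enc.hq_psd (hm_proj hF C _ _)⟩, fun q => ?_, ?_, ?_⟩
  · refine le_trans (card_le_card_of_injOn f (fun j hj => ?_) f.injective.injOn) (hdeg q)
    simpa using hj
  · obtain ⟨g, hg, hg'⟩ := hm_ground hF hC
    obtain ⟨ψ, hψ, hψ'⟩ := Enc.hq_ground (E := E) hg
    exact ⟨ψ, hψ, fun j => hψ' _ (hg' _ _)⟩
  · intro a t d ψ U hψ hU h1 h2
    have hc1 : min γ (γ ^ 2) ≤ γ := min_le_left _ _
    have hc2 : min γ (γ ^ 2) ≤ γ ^ 2 := min_le_right _ _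
    have hV0 : (0 : ℝ) ≤ Fintype.card V := by positivity
    have hcn : 576 * (K : ℝ) ^ 2 * (min γ (γ ^ 2) / (576 * p * K ^ 2) *
        ((Fintype.card V * p : ℕ) : ℝ)) = min γ (γ ^ 2) * Fintype.card V := by
      push_cast
      field_simp
    have h3 := mul_le_mul_of_nonneg_left h1 (by positivity : (0 : ℝ) ≤ 576 * (K : ℝ) ^ 2)
    have h4 := mul_le_mul_of_nonneg_left h2 (by positivity : (0 : ℝ) ≤ 576 * (K : ℝ) ^ 2)
    rw [hcn] at h3 h4
    have h5 := mul_le_mul_of_nonneg_right hc1 hV0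
    have h6 := mul_le_mul_of_nonneg_right hc2 hV0
    have h7 : (0 : ℝ) ≤ (K : ℝ) ^ 2 * 16 ^ d := by positivity
    have h := energy hB hPrep hCone hComp hStab hp hC hγ (by omega) hJ (E.anc (Fin a))
      (fun j => (E.blocks (C.S j.1 j.2)).image Sum.inl) K (by omega)
      (fun j => card_image_le.trans (hS j))
      (by
        rintro (q | q)
        · simpa using hdeg q
        · simp)
      (fun j => Enc.withAnc_hq (E := E) (Fin a) _ ▸ (hL j).withAnc)
      (fun j => Enc.hq_psd (hm_proj hF C _ _)) hψ hU (by linarith) (by linarith)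
    rw [← Equiv.sum_comp f] at h
    simp only [Enc.withAnc_hq]
    refine le_trans (le_of_eq ?_) h
    push_cast
    field_simp

end Pool.Agent.MP_36f78e_lc.H46
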