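import Pool.Agent.MP_36f78e_lc.H46.Basic

/-! Qudits inside blocks of qubits. -/

set_option linter.unusedSectionVars false

namespace Pool.Agent.MP_36f78e_lc.H46

open Matrix Finset
open scoped ComplexOrder Kronecker

section Sub

variable {X Y : Type} [Fintype X] [Fintype Y]

theorem sub_mulVec' {f : X → Y} (hf : Function.Injective f) (A : Matrix Y Y ℂ) {v : Y → ℂ}
    (hv : ∀ y, y ∉ Set.range f → v y = 0) : A.submatrix f f *ᵥ (v ∘ f) = (A *ᵥ v) ∘ f := by
  funext x
  exact Fintype.sum_of_injective f hf _ (fun y => A (f x) y * v y)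
    (fun y hy => by rw [hv y hy, mul_zero]) fun _ => rfl

theorem qf_sub' {f : X → Y} (hf : Function.Injective f) (A : Matrix Y Y ℂ) {v : Y → ℂ}
    (hv : ∀ y, y ∉ Set.range f → v y = 0) : qf (A.submatrix f f) (v ∘ f) = qf A v := by
  rw [qf, qf, sub_mulVec' hf A hv]
  congr 1
  exact Fintype.sum_of_injective f hf _ (fun y => star v y * (A *ᵥ v) y)
    (fun y hy => by simp [hv y hy]) fun _ => rfl

theorem nsq_sub' {f : X → Y} (hf : Function.Injective f) {v : Y → ℂ}
    (hv : ∀ y, y ∉ Set.range f → v y = 0) : nsq (v ∘ f) = nsq v :=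
  Fintype.sum_of_injective f hf _ (fun y => ‖v y‖ ^ 2) (fun y hy => by simp [hv y hy]) fun _ => rfl

theorem Proj.submatrix {A : Matrix Y Y ℂ} (h : Proj A) (f : X ≃ Y) : Proj (A.submatrix f f) :=
  ⟨by rw [conjTranspose_submatrix, h.1], by rw [submatrix_mul_equiv, h.2]⟩

theorem Proj.kron {A : Matrix X X ℂ} {B : Matrix Y Y ℂ} (hA : Proj A) (hB : Proj B) :
    Proj (A ⊗ₖ B) :=
  ⟨by rw [conjTranspose_kronecker, hA.1, hB.1], by rw [← mul_kronecker_mul, hA.2, hB.2]⟩

theorem Proj.one [DecidableEq X] : Proj (1 : Matrix X X ℂ) := ⟨by simp, by simp⟩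

theorem Proj.ind [DecidableEq X] (P : X → Prop) [DecidablePred P] :
    Proj (diagonal fun x => if P x then (0 : ℂ) else 1) := by
  refine ⟨?_, ?_⟩
  · rw [diagonal_conjTranspose]
    congr 1
    funext x
    by_cases h : P x <;> simp [h]
  · rw [diagonal_mul_diagonal]
    congr 1
    funext x
    by_cases h : P x <;> simp [h]

theorem dk_mulVec [DecidableEq X] (a : X → ℂ) (B : Matrix Y Y ℂ) (v : X × Y → ℂ) (x : X) (y : Y) :
    ((diagonal a ⊗ₖ B) *ᵥ v) (x, y) = a x * (B *ᵥ fun y' => v (x, y')) y := by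
  rw [mulVec, dotProduct, Fintype.sum_prod_type, sum_eq_single x]
  · simp [mulVec, dotProduct, mul_sum, mul_assoc]
  · intro x' _ hx
    simp [diagonal_apply_ne' _ hx]
  · simp

end Sub

/-- An encoding of qudits in blocks of qubits. -/
structure Enc (p : ℕ) (V ι : Type) (m : ℕ) : Type where
  /-- the encoding of a symbol -/
  enc : ZMod p → Fin m → ZMod 2
  /-- the decoding of a block -/
  dec : (Fin m → ZMod 2) → ZMod p
  /-- the positions of the blocks -/
  e : V × Fin m → ι
  dec_enc : ∀ x, dec (enc x) = x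
  inj : Function.Injective e

namespace Enc

variable {p m : ℕ} {V ι : Type} (E : Enc p V ι m)

/-- The swap of a qudit with the encoded part of a block. -/
def s0 (a : ZMod p × (Fin m → ZMod 2)) : ZMod p × (Fin m → ZMod 2) :=
  if E.enc (E.dec a.2) = a.2 then (E.dec a.2, E.enc a.1) else a

theorem s0_s0 (a : ZMod p × (Fin m → ZMod 2)) : E.s0 (E.s0 a) = a := by
  by_cases h : E.enc (E.dec a.2) = a.2
  · have h1 : E.s0 a = (E.dec a.2, E.enc a.1) := if_pos h
    rw [h1, s0, if_pos (by rw [E.dec_enc]), E.dec_enc, h]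
  · have h1 : E.s0 a = a := if_neg h
    rw [h1, h1]

theorem s0_inj : Function.Injective E.s0 := Function.Involutive.injective E.s0_s0

/-- The part of a configuration at a site. -/
def site (y : (V → ZMod p) × (ι → ZMod 2)) (v : V) : ZMod p × (Fin m → ZMod 2) :=
  (y.1 v, fun i => y.2 (E.e (v, i)))

/-- The swap at all sites. -/
noncomputable def sw (y : (V → ZMod p) × (ι → ZMod 2)) : (V → ZMod p) × (ι → ZMod 2) :=
  (fun v => (E.s0 (E.site y v)).1,
    Function.extend E.e (fun q => (E.s0 (E.site y q.1)).2 q.2) y.2)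

theorem site_sw (y : (V → ZMod p) × (ι → ZMod 2)) (v : V) :
    E.site (E.sw y) v = E.s0 (E.site y v) :=
  Prod.ext rfl (funext fun i =>
    E.inj.extend_apply (fun q => (E.s0 (E.site y q.1)).2 q.2) y.2 (v, i))

theorem sw_off (y : (V → ZMod p) × (ι → ZMod 2)) {q : ι} (hq : q ∉ Set.range E.e) :
    (E.sw y).2 q = y.2 q :=
  Function.extend_apply' (fun q : V × Fin m => (E.s0 (E.site y q.1)).2 q.2) y.2 q hq

theorem ext_site {y y' : (V → ZMod p) × (ι → ZMod 2)} (h : ∀ v, E.site y v = E.site y' v)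
    (h' : ∀ q, q ∉ Set.range E.e → y.2 q = y'.2 q) : y = y' := by
  refine Prod.ext (funext fun v => congrArg Prod.fst (h v)) (funext fun q => ?_)
  by_cases hq : q ∈ Set.range E.e
  · obtain ⟨⟨v, i⟩, rfl⟩ := hq
    exact congrFun (congrArg Prod.snd (h v)) i
  · exact h' q hq

theorem sw_sw (y : (V → ZMod p) × (ι → ZMod 2)) : E.sw (E.sw y) = y :=
  E.ext_site (fun v => by rw [site_sw, site_sw, s0_s0]) fun q hq => by
    rw [E.sw_off _ hq, E.sw_off _ hq]

/-- The swap as a permutation. -/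
noncomputable def tau : (V → ZMod p) × (ι → ZMod 2) ≃ (V → ZMod p) × (ι → ZMod 2) :=
  Function.Involutive.toPerm E.sw E.sw_sw

theorem tau_apply (y : (V → ZMod p) × (ι → ZMod 2)) : E.tau y = E.sw y := rfl

theorem tau_symm : E.tau.symm = E.tau := rfl

theorem site_add (y δ : (V → ZMod p) × (ι → ZMod 2)) (v : V) :
    E.site (y + δ) v = E.site y v + E.site δ v := rfl

theorem site_sub (y δ : (V → ZMod p) × (ι → ZMod 2)) (v : V) :
    E.site (y - δ) v = E.site y v - E.site δ v := rfl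

/-- Operators that touch only the sites in `T` and the qubits outside the blocks. -/
def SL (T : Finset V)
    (M : Matrix ((V → ZMod p) × (ι → ZMod 2)) ((V → ZMod p) × (ι → ZMod 2)) ℂ) : Prop :=
  (∀ y y', M y y' ≠ 0 → ∀ v, v ∉ T → E.site y v = E.site y' v) ∧
    ∀ δ, (∀ v ∈ T, E.site δ v = 0) → (∀ q, q ∉ Set.range E.e → δ.2 q = 0) →
      ∀ y y', M (y + δ) (y' + δ) = M y y'

variable {E}

theorem SL.tau {T : Finset V}
    {M : Matrix ((V → ZMod p) × (ι → ZMod 2)) ((V → ZMod p) × (ι → ZMod 2)) ℂ} (h : E.SL T M) :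
    E.SL T (M.submatrix E.tau E.tau) := by
  have h1 : ∀ y y', M (E.sw y) (E.sw y') ≠ 0 → ∀ v, v ∉ T → E.site y v = E.site y' v :=
    fun y y' hy v hv => E.s0_inj (by rw [← site_sw, ← site_sw]; exact h.1 _ _ hy v hv)
  refine ⟨h1, fun δ hδ hδ' y y' => ?_⟩
  show M (E.sw (y + δ)) (E.sw (y' + δ)) = M (E.sw y) (E.sw y')
  by_cases hA : ∀ v, v ∉ T → E.site y v = E.site y' v
  · rw [← h.2 (E.sw (y + δ) - E.sw y) (fun v hv => by
      rw [site_sub, site_sw, site_sw, site_add, hδ v hv, add_zero, sub_self]) (fun q hq => by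
      show (E.sw (y + δ)).2 q - (E.sw y).2 q = 0
      rw [E.sw_off _ hq, E.sw_off _ hq]
      simp [hδ' q hq]) (E.sw y) (E.sw y'), add_sub_cancel]
    congr 1
    refine E.ext_site (fun v => ?_) fun q hq => ?_
    · rw [site_add, site_sub, site_sw, site_sw, site_sw, site_sw, site_add, site_add]
      by_cases hv : v ∈ T
      · rw [hδ v hv, add_zero, add_zero, sub_self, add_zero]
      · rw [hA v hv, add_sub_cancel]
    · show (E.sw (y' + δ)).2 q = (E.sw y').2 q + ((E.sw (y + δ)).2 q - (E.sw y).2 q)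
      rw [E.sw_off _ hq, E.sw_off _ hq, E.sw_off _ hq, E.sw_off _ hq]
      simp
  · have h2 : M (E.sw y) (E.sw y') = 0 := by
      by_contra h'
      exact hA (h1 _ _ h')
    rw [h2]
    by_contra h'
    refine hA fun v hv => ?_
    have h3 := h1 _ _ h' v hv
    rwa [site_add, site_add, add_left_inj] at h3

theorem SL.bl [Fact p.Prime] [Fintype V] [DecidableEq V] {T : Finset V}
    {M : Matrix ((V → ZMod p) × (ι → ZMod 2)) ((V → ZMod p) × (ι → ZMod 2)) ℂ} (h : E.SL T M) :
    BL T M :=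
  ⟨fun y y' hy v hv => congrArg Prod.fst (h.1 y y' hy v hv), fun u hu y y' => by
    have := h.2 (u, 0) (fun v hv => Prod.ext (hu v hv) rfl) (fun _ _ => rfl) y y'
    rw [← this]
    congr 1 <;> exact Prod.ext rfl (add_zero _).symm⟩

variable [Fintype V] [DecidableEq V] [Fintype ι] [DecidableEq ι] [NeZero p]

theorem sl_left {T : Finset V} {A : Matrix (V → ZMod p) (V → ZMod p) ℂ}
    (h1 : ∀ x y, A x y ≠ 0 → ∀ v, v ∉ T → x v = y v)
    (h2 : ∀ u : V → ZMod p, (∀ v ∈ T, u v = 0) → ∀ x y, A (x + u) (y + u) = A x y) :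
    E.SL T (A ⊗ₖ (1 : Op ι)) := by
  refine ⟨fun y y' hy v hv => ?_, fun δ hδ _ y y' => ?_⟩
  · rw [kroneckerMap_apply] at hy
    have h3 : y.2 = y'.2 := by
      by_contra h'
      exact right_ne_zero_of_mul hy (one_apply_ne h')
    exact Prod.ext (h1 _ _ (left_ne_zero_of_mul hy) v hv) (by simp [site, h3])
  · simp only [kroneckerMap_apply, Prod.fst_add, Prod.snd_add, one_apply, add_left_inj,
      h2 δ.1 fun v hv => congrArg Prod.fst (hδ v hv)]

variable (E) in
/-- The sites whose blocks meet a set of qubits. -/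
def sites (S : Finset ι) : Finset V := univ.filter fun v => ∃ i, E.e (v, i) ∈ S

theorem card_sites (S : Finset ι) : (E.sites S).card ≤ S.card := by
  have h : ∀ v ∈ E.sites S, ∃ i, E.e (v, i) ∈ S := fun v hv => (mem_filter.1 hv).2
  choose f hf using h
  rw [← card_attach]
  refine card_le_card_of_injOn (fun v => E.e (v.1, f v.1 v.2)) (fun v _ => hf v.1 v.2) ?_
  intro v _ v' _ hv
  exact Subtype.ext (congrArg Prod.fst (E.inj hv))

theorem sl_right {S : Finset ι} {R : Op ι} (h : Loc S R) :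
    E.SL (E.sites S) ((1 : Matrix (V → ZMod p) (V → ZMod p) ℂ) ⊗ₖ R) := by
  refine ⟨fun y y' hy v hv => ?_, fun δ hδ hδ' y y' => ?_⟩
  · rw [kroneckerMap_apply] at hy
    have h3 : y.1 = y'.1 := by
      by_contra h'
      exact left_ne_zero_of_mul hy (one_apply_ne h')
    refine Prod.ext (congrFun h3 v) (funext fun i => ?_)
    exact h.1 _ _ (right_ne_zero_of_mul hy) _ fun hi => hv (mem_filter.2 ⟨mem_univ _, i, hi⟩)
  · have h4 : ∀ q ∈ S, δ.2 q = 0 := fun q hq => by
      by_cases hr : q ∈ Set.range E.e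
      · obtain ⟨⟨v, i⟩, rfl⟩ := hr
        exact congrFun (congrArg Prod.snd (hδ v (mem_filter.2 ⟨mem_univ _, i, hq⟩))) i
      · exact hδ' q hr
    simp only [kroneckerMap_apply, Prod.fst_add, Prod.snd_add, one_apply, add_left_inj,
      h.2 δ.2 h4]

variable (E) in
/-- The isometric embedding of the qubit configurations. -/
noncomputable def emb (σ : ι → ZMod 2) : (V → ZMod p) × (ι → ZMod 2) := E.sw (0, σ)

theorem emb_inj : Function.Injective E.emb := fun _ _ h =>
  congrArg Prod.snd (E.tau.injective h)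

theorem mem_range_emb {y : (V → ZMod p) × (ι → ZMod 2)} (h : (E.sw y).1 = 0) :
    y ∈ Set.range E.emb :=
  ⟨(E.sw y).2, by rw [emb, ← h]; exact E.sw_sw y⟩

variable (E) in
/-- The qubit operator of a qudit operator. -/
noncomputable def hq (A : Matrix (V → ZMod p) (V → ZMod p) ℂ) : Op ι :=
  (A ⊗ₖ (1 : Op ι)).submatrix E.emb E.emb

variable (E) in
/-- The qubits in the blocks of a set of sites. -/
def blocks (T : Finset V) : Finset ι := (T ×ˢ (univ : Finset (Fin m))).image E.e

theorem card_blocks (T : Finset V) : (E.blocks T).card ≤ T.card * m :=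
  card_image_le.trans (by simp)

theorem mem_blocks {T : Finset V} {v : V} {i : Fin m} : E.e (v, i) ∈ E.blocks T ↔ v ∈ T := by
  simp [blocks, E.inj.eq_iff]

theorem hq_loc (hs : Function.Surjective E.e) {T : Finset V}
    {A : Matrix (V → ZMod p) (V → ZMod p) ℂ} (h1 : ∀ x y, A x y ≠ 0 → ∀ v, v ∉ T → x v = y v)
    (h2 : ∀ u : V → ZMod p, (∀ v ∈ T, u v = 0) → ∀ x y, A (x + u) (y + u) = A x y) :
    Loc (E.blocks T) (E.hq A) := by
  have h := (sl_left (E := E) h1 h2).tau
  refine ⟨fun x y hxy q hq => ?_, fun u hu x y => ?_⟩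
  · obtain ⟨⟨v, i⟩, rfl⟩ := hs q
    exact congrFun (congrArg Prod.snd (h.1 (0, x) (0, y) hxy v fun hv => hq (mem_blocks.2 hv))) i
  · have := h.2 (0, u) (fun v hv => Prod.ext rfl (funext fun i => hu _ (mem_blocks.2 hv)))
      (fun q hq => (hq (hs q)).elim) (0, x) (0, y)
    rw [Prod.mk_add_mk, Prod.mk_add_mk, add_zero] at this
    exact this

theorem hq_psd {A : Matrix (V → ZMod p) (V → ZMod p) ℂ} (h : Proj A) :
    (E.hq A).PosSemidef ∧ (1 - E.hq A).PosSemidef := by
  have h1 := h.kron (Proj.one (X := ι → ZMod 2))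
  refine ⟨h1.posSemidef.submatrix _, ?_⟩
  have h2 := h1.one_sub.posSemidef.submatrix E.emb
  rwa [submatrix_sub, Pi.sub_apply, Pi.sub_apply, submatrix_one _ emb_inj] at h2

theorem hq_ground {g : (V → ZMod p) → ℂ} (hg : g ≠ 0) : ∃ ψ : St ι, ψ ≠ 0 ∧
    ∀ A : Matrix (V → ZMod p) (V → ZMod p) ℂ, A *ᵥ g = 0 → E.hq A *ᵥ ψ = 0 := by
  obtain ⟨β, hβ⟩ : ∃ β : ι → ZMod 2, ∀ v i, β (E.e (v, i)) = E.enc 0 i :=
    ⟨Function.extend E.e (fun q => E.enc 0 q.2) 0, fun v i => E.inj.extend_apply _ _ (v, i)⟩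
  obtain ⟨w, hw⟩ : ∃ w : (V → ZMod p) × (ι → ZMod 2) → ℂ,
      ∀ y, w y = if y.2 = β then g y.1 else 0 := ⟨_, fun _ => rfl⟩
  have h1 : ∀ y, y ∉ Set.range E.emb → w y = 0 := fun y hy => by
    rw [hw, if_neg]
    intro h
    refine hy (mem_range_emb (funext fun v => ?_))
    have h2 : (E.site y v).2 = E.enc 0 := funext fun i => by simp [site, h, hβ]
    show (E.s0 (E.site y v)).1 = 0
    rw [s0, h2, E.dec_enc, if_pos rfl]
  refine ⟨w ∘ E.emb, fun h => hg (funext fun x => ?_), fun A hA => ?_⟩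
  · have h2 : w = 0 := nsq_eq_zero.1 (by rw [← nsq_sub' emb_inj h1, h]; exact nsq_eq_zero.2 rfl)
    simpa [hw] using congrFun h2 (x, β)
  · rw [hq, sub_mulVec' emb_inj _ h1]
    funext σ
    generalize hy : E.emb σ = y
    rw [Function.comp_apply, hy, mulVec, dotProduct, Fintype.sum_prod_type, sum_comm,
      sum_eq_single β]
    · have h2 := congrFun hA y.1
      simp only [mulVec, dotProduct, Pi.zero_apply] at h2
      simp only [kroneckerMap_apply, hw, if_true, mul_right_comm _ _ (g _), Pi.zero_apply]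
      exact (sum_mul _ _ ((1 : Op ι) y.2 β)).symm.trans (by rw [h2, zero_mul])
    · intro b _ hb
      simp [hw, hb]
    · simp

variable (E) in
/-- The same encoding in the presence of ancillas. -/
def anc (α : Type) : Enc p V (ι ⊕ α) m where
  enc := E.enc
  dec := E.dec
  e := fun q => Sum.inl (E.e q)
  dec_enc := E.dec_enc
  inj := Sum.inl_injective.comp E.inj

theorem withAnc_hq (α : Type) [Fintype α] [DecidableEq α]
    (A : Matrix (V → ZMod p) (V → ZMod p) ℂ) : withAnc α (E.hq A) = (E.anc α).hq A := by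
  have h1 : ∀ σ : ι ⊕ α → ZMod 2, (E.anc α).emb σ =
      ((E.emb fun i => σ (Sum.inl i)).1,
        Sum.elim (E.emb fun i => σ (Sum.inl i)).2 fun j => σ (Sum.inr j)) := fun σ => by
    refine (E.anc α).ext_site (fun v => ?_) fun q hq => ?_
    · rw [emb, site_sw]
      exact (E.site_sw (0, fun i => σ (Sum.inl i)) v).symm
    · rw [emb, (E.anc α).sw_off _ hq]
      rcases q with q | q
      · exact (E.sw_off (0, fun i => σ (Sum.inl i)) fun ⟨a, ha⟩ => hq ⟨a, congrArg Sum.inl ha⟩).symm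
      · rfl
  ext x y
  simp only [withAnc, hq, of_apply, submatrix_apply, kroneckerMap_apply, h1, one_apply,
    funext_iff, Sum.forall, Sum.elim_inl, Sum.elim_inr]
  by_cases h : ∀ j, x (Sum.inr j) = y (Sum.inr j) <;> simp [h]

end Enc

section Anc

variable {ι α : Type} [Fintype ι] [DecidableEq ι] [Fintype α] [DecidableEq α]

theorem Loc.withAnc {S : Finset ι} {A : Op ι} (h : Loc S A) :
    Loc (S.image Sum.inl) (withAnc α A) := by
  refine ⟨fun x y hxy q hq => ?_, fun u hu x y => ?_⟩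
  · have h1 : ∀ j, x (Sum.inr j) = y (Sum.inr j) := by
      by_contra h'
      exact hxy (if_neg h')
    rcases q with q | q
    · exact h.1 _ _ (fun h' => hxy ((if_pos h1).trans h')) q fun hi => hq (mem_image_of_mem _ hi)
    · exact h1 q
  · have h1 := h.2 (fun i => u (Sum.inl i)) (fun i hi => hu _ (mem_image_of_mem _ hi))
      (fun i => x (Sum.inl i)) fun i => y (Sum.inl i)
    simp only [H46.withAnc, of_apply, Pi.add_apply, add_left_inj]
    exact if_congr Iff.rfl h1 rfl

end Anc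

end Pool.Agent.MP_36f78e_lc.H46
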