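import Pool.Agent.MP_36f78e_lc.H46.Basic

/-! Completion of the local stabilisers by measurements. -/

set_option linter.unusedSectionVars false

namespace Pool.Agent.MP_36f78e_lc.H46

open Matrix Finset
open scoped ComplexOrder

namespace Comp

variable {ι : Type} [Fintype ι] [DecidableEq ι]

theorem sum_sp (u : PL ι) :
    ∑ v : PL ι, sg (sp u v) = if u = 0 then ((2 : ℂ) ^ Fintype.card ι) ^ 2 else 0 := by
  have h : ∑ v : PL ι, sg (sp u v) = (∑ a : ι → ZMod 2, sg (u.2 ⬝ᵥ a)) * ∑ b : ι → ZMod 2, sg (u.1 ⬝ᵥ b) := by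
    rw [Fintype.sum_prod_type, sum_mul_sum]
    refine sum_congr rfl fun a _ => sum_congr rfl fun b _ => ?_
    rw [sp, sg_add, mul_comm]
  rw [h, sum_sg, sum_sg]
  by_cases h1 : u.1 = 0 <;> by_cases h2 : u.2 = 0 <;> simp [h1, h2, Prod.ext_iff, sq]

theorem card_Lam {φ : St ι} (hφ : φ ≠ 0) : (Lam φ).card ≤ 2 ^ Fintype.card ι := by
  classical
  have h1 : ∑ u ∈ Lam φ, ∑ v : PL ι, sg (sp u v) = ((2 : ℂ) ^ Fintype.card ι) ^ 2 := by
    simp only [sum_sp]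
    rw [sum_ite_eq' (Lam φ) 0, if_pos (zero_mem_Lam φ)]
  have h2 : ∀ v : PL ι, ∑ u ∈ Lam φ, sg (sp u v) =
      if ∀ u ∈ Lam φ, sp u v = 0 then ((Lam φ).card : ℂ) else 0 := by
    intro v
    split_ifs with h
    · rw [sum_congr rfl fun u hu => by rw [h u hu, sg_zero]]
      simp
    · push Not at h
      obtain ⟨w, hw, h⟩ := h
      have h3 : sp w v = 1 := (z2_cases _).resolve_left h
      have h4 : ∑ u ∈ Lam φ, sg (sp (u + w) v) = ∑ u ∈ Lam φ, sg (sp u v) := by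
        refine sum_nbij' (fun u => u + w) (fun u => u + w) (fun u hu => add_mem_Lam hu hw)
          (fun u hu => add_mem_Lam hu hw) (fun u _ => ?_) (fun u _ => ?_) fun _ _ => rfl <;>
        rw [add_assoc, pl_add_self, add_zero]
      simp only [sp_add_left, sg_add, h3, sg_one, mul_neg, mul_one, sum_neg_distrib] at h4
      linear_combination (-1 / 2 : ℂ) * h4
  rw [sum_comm] at h1
  simp only [h2] at h1
  rw [← sum_filter, sum_const, nsmul_eq_mul] at h1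
  have h5 : (univ.filter fun v : PL ι => ∀ u ∈ Lam φ, sp u v = 0).card * (Lam φ).card =
      (2 ^ Fintype.card ι) ^ 2 := by exact_mod_cast h1
  have h6 : (Lam φ).card ≤ (univ.filter fun v : PL ι => ∀ u ∈ Lam φ, sp u v = 0).card :=
    card_le_card fun v hv => mem_filter.2 ⟨mem_univ _, fun u hu => sp_Lam hφ hu hv⟩
  refine (Nat.pow_le_pow_iff_left two_ne_zero).1 ?_
  rw [← h5, sq]
  exact Nat.mul_le_mul_right _ h6

theorem measure {J : Type} [Fintype J] (h : J → Op ι) {φ : St ι} (hφ : φ ≠ 0) (y : PL ι) {B : ℝ}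
    (hB : ∑ j, qf (h j) φ + ∑ j, qf (h j) (W y *ᵥ φ) ≤ 2 * B * nsq φ) :
    ∃ φ' : St ι, φ' ≠ 0 ∧ ∑ j, qf (h j) φ' ≤ B * nsq φ' ∧ y ∈ Lam φ' ∧
      ∀ u ∈ Lam φ, sp u y = 0 → u ∈ Lam φ' := by
  obtain ⟨c, c1, c2⟩ : ∃ c : ℂ, ‖c‖ = 1 ∧ c * c * sg (y.2 ⬝ᵥ y.1) = 1 := by
    rcases z2_cases (y.2 ⬝ᵥ y.1) with e | e
    · exact ⟨1, by simp, by simp [e]⟩
    · exact ⟨Complex.I, by simp, by simp [e]⟩
  have c0 : c ≠ 0 := fun e => by simp [e] at c1
  set x : St ι := c • (W y *ᵥ φ) with hx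
  have a1 : W y *ᵥ φ = c⁻¹ • x := by rw [hx, smul_smul, inv_mul_cancel₀ c0, one_smul]
  have a2 : W y *ᵥ x = c⁻¹ • φ := by
    rw [hx, mulVec_smul, mulVec_mulVec, W_mul_self, smul_mulVec, one_mulVec, smul_smul]
    congr 1
    field_simp
    linear_combination c2
  have a3 : ∀ u (d : ℂ), W u *ᵥ φ = d • φ → sp u y = 0 → W u *ᵥ x = d • x := by
    intro u d hu e
    rw [hx, mulVec_smul, mulVec_mulVec, W_comm u y, e, sg_zero, one_smul, ← mulVec_mulVec, hu,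
      mulVec_smul, smul_comm]
  have p1 : y ∈ Lam (φ + x) ∧ ∀ u ∈ Lam φ, sp u y = 0 → u ∈ Lam (φ + x) := by
    refine ⟨mem_Lam.2 ⟨c⁻¹, by rw [mulVec_add, a1, a2, smul_add, add_comm]⟩, fun u hu e => ?_⟩
    obtain ⟨d, hd⟩ := mem_Lam.1 hu
    exact mem_Lam.2 ⟨d, by rw [mulVec_add, hd, a3 u d hd e, smul_add]⟩
  have p2 : y ∈ Lam (φ - x) ∧ ∀ u ∈ Lam φ, sp u y = 0 → u ∈ Lam (φ - x) := by
    refine ⟨mem_Lam.2 ⟨-c⁻¹, by rw [mulVec_sub, a1, a2, neg_smul, smul_sub, neg_sub]⟩,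
      fun u hu e => ?_⟩
    obtain ⟨d, hd⟩ := mem_Lam.1 hu
    exact mem_Lam.2 ⟨d, by rw [mulVec_sub, hd, a3 u d hd e, smul_sub]⟩
  have n1 : nsq (φ + x) + nsq (φ - x) = 4 * nsq φ := by
    rw [nsq_par, hx, nsq_smul, c1, nsq_unitary (W_unitary y)]; ring
  have n2 : ∑ j, qf (h j) (φ + x) + ∑ j, qf (h j) (φ - x) =
      2 * ∑ j, qf (h j) φ + 2 * ∑ j, qf (h j) (W y *ᵥ φ) := by
    rw [← sum_add_distrib, mul_sum, mul_sum, ← sum_add_distrib]
    refine sum_congr rfl fun j _ => ?_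
    rw [qf_par, hx, qf_smul_vec, c1]; ring
  have n3 : ∑ j, qf (h j) (φ + x) + ∑ j, qf (h j) (φ - x) ≤ B * nsq (φ + x) + B * nsq (φ - x) := by
    rw [n2, ← mul_add B, n1]; linarith
  have n4 := nsq_pos hφ
  have z : ∀ v : St ι, v = 0 → ∑ j, qf (h j) v = 0 ∧ nsq v = 0 := by
    rintro _ rfl
    exact ⟨by simp [qf_zero_vec], nsq_eq_zero.2 rfl⟩
  by_cases e1 : φ + x = 0
  · obtain ⟨z1, z2⟩ := z _ e1
    refine ⟨φ - x, fun e2 => ?_, by rw [z1, z2] at n3; linarith, p2⟩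
    rw [z2, (z _ e2).2] at n1
    linarith
  · by_cases e2 : φ - x = 0
    · obtain ⟨z1, z2⟩ := z _ e2
      exact ⟨φ + x, e1, by rw [z1, z2] at n3; linarith, p1⟩
    · by_cases e3 : ∑ j, qf (h j) (φ + x) ≤ B * nsq (φ + x)
      · exact ⟨φ + x, e1, e3, p1⟩
      · exact ⟨φ - x, e2, by linarith [not_le.1 e3], p2⟩

theorem energy1 {J : Type} [Fintype J] {S : J → Finset ι} {h : J → Op ι} {κ : ℕ}
    (h1 : ∀ j, Loc (S j) (h j)) (h2 : ∀ j, (h j).PosSemidef) (h3 : ∀ j, (1 - h j).PosSemidef)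
    (h4 : ∀ j, (univ.filter fun i => ¬ Disjoint (S i) (S j)).card ≤ κ) {j : J} {y : PL ι}
    (hy : InS (S j) y) (φ : St ι) :
    ∑ i, qf (h i) (W y *ᵥ φ) ≤ ∑ i, qf (h i) φ + κ * nsq φ := by
  have a1 : ∀ i, qf (h i) (W y *ᵥ φ) ≤
      qf (h i) φ + if ¬ Disjoint (S i) (S j) then nsq φ else 0 := by
    intro i
    split_ifs with e
    · rw [← qf_conj, Matrix.mul_assoc, (h1 i).comm hy.loc e, ← Matrix.mul_assoc, W_star_mul,
        Matrix.one_mul, add_zero]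
    · have b1 := qf_le_nsq (h3 i) (W y *ᵥ φ)
      rw [nsq_unitary (W_unitary y)] at b1
      linarith [qf_nonneg (h2 i) φ]
  refine (sum_le_sum fun i _ => a1 i).trans ?_
  rw [sum_add_distrib, ← sum_filter, sum_const, nsmul_eq_mul]
  have a2 : ((univ.filter fun i => ¬ Disjoint (S i) (S j)).card : ℝ) ≤ κ := by exact_mod_cast h4 j
  linarith [mul_le_mul_of_nonneg_right a2 (nsq_nonneg φ)]

theorem energy2 {S : Finset ι} {A : Op ι} (hA : Loc S A) {φ : St ι} {y : PL ι}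
    (h : ∀ z, InS S z → sp z y = 1 → ∃ u ∈ Lam φ, sp z u = 1) : qf A (W y *ᵥ φ) = qf A φ := by
  obtain ⟨c, rfl, hc⟩ := hA.expand
  rw [← qf_conj, Matrix.mul_sum, Matrix.sum_mul, qf_sum, qf_sum]
  refine sum_congr rfl fun v _ => ?_
  rw [Matrix.mul_smul, Matrix.smul_mul, W_conj]
  rcases z2_cases (sp v y) with e | e
  · rw [e, sg_zero, one_smul]
  · by_cases e0 : c v = 0
    · rw [e0, zero_smul, zero_smul]
    · obtain ⟨u, hu, e1⟩ := h v (hc v e0) e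
      simp only [qf, smul_mulVec, dotProduct_smul, expect_zero hu e1, smul_zero]

open Classical in
/-- the number of local stabilisers -/
noncomputable def pot {J : Type} [Fintype J] (S : J → Finset ι) (φ : St ι) : ℕ :=
  ∑ j, ((Lam φ).filter (InS (S j))).card

theorem pot_le {J : Type} [Fintype J] (S : J → Finset ι) (φ : St ι) :
    pot S φ ≤ ∑ _j : J, Fintype.card (PL ι) :=
  sum_le_sum fun _ _ => card_le_univ _

theorem pot_lt {J : Type} [Fintype J] {S : J → Finset ι} {φ φ' : St ι} {j : J} {y : PL ι}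
    (h1 : ∀ i u, InS (S i) u → u ∈ Lam φ → u ∈ Lam φ') (h2 : InS (S j) y) (h3 : y ∉ Lam φ)
    (h4 : y ∈ Lam φ') : pot S φ < pot S φ' := by
  classical
  have a1 : ∀ i, (Lam φ).filter (InS (S i)) ⊆ (Lam φ').filter (InS (S i)) := fun i u hu =>
    mem_filter.2 ⟨h1 i u (mem_filter.1 hu).2 (mem_filter.1 hu).1, (mem_filter.1 hu).2⟩
  refine sum_lt_sum (fun i _ => by convert card_le_card (a1 i)) ⟨j, mem_univ _, ?_⟩
  convert card_lt_card ((ssubset_iff_of_subset (a1 j)).2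
    ⟨y, mem_filter.2 ⟨h4, h2⟩, fun e => h3 (mem_filter.1 e).1⟩)

theorem double {φ φ' : St ι} {y : PL ι} (h1 : ∀ u ∈ Lam φ, u ∈ Lam φ') (h3 : y ∉ Lam φ)
    (h4 : y ∈ Lam φ') : 2 * (Lam φ).card ≤ (Lam φ').card := by
  classical
  have a1 : Disjoint (Lam φ) ((Lam φ).image fun u => u + y) := by
    refine disjoint_left.2 fun v hv e => ?_
    obtain ⟨u, hu, rfl⟩ := mem_image.1 e
    have := add_mem_Lam hu hv
    rw [← add_assoc, pl_add_self, zero_add] at this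
    exact h3 this
  have a2 : Lam φ ∪ ((Lam φ).image fun u => u + y) ⊆ Lam φ' := by
    refine union_subset h1 fun v e => ?_
    obtain ⟨u, hu, rfl⟩ := mem_image.1 e
    exact add_mem_Lam (h1 u hu) h4
  have a3 := card_le_card a2
  rw [card_union_of_disjoint a1, card_image_of_injective _ (add_left_injective y)] at a3
  omega

theorem keep {φ φ' : St ι} {y w : PL ι} (h1 : ∀ u ∈ Lam φ, sp u y = 0 → u ∈ Lam φ')
    (h3 : y ∉ Lam φ) (h4 : y ∈ Lam φ') (hw : w ∈ Lam φ) (e : sp w y = 1) :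
    (Lam φ).card ≤ (Lam φ').card := by
  have a1 : ∀ u ∈ Lam φ, ∀ v ∈ Lam φ, u ≠ v + w + y := by
    intro u hu v hv e1
    have := add_mem_Lam (add_mem_Lam hv hw) hu
    rw [e1, ← add_assoc, pl_add_self, zero_add] at this
    exact h3 this
  refine card_le_card_of_injOn (fun v => if sp v y = 0 then v else v + w + y) (fun v hv => ?_) ?_
  · have hv' : v ∈ Lam φ := hv
    show (if sp v y = 0 then v else v + w + y) ∈ Lam φ'
    split_ifs with e1
    · exact h1 v hv' e1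
    · refine add_mem_Lam (h1 _ (add_mem_Lam hv' hw) ?_) h4
      rw [sp_add_left, e, (z2_cases _).resolve_left e1, z2_add_self]
  · intro u hu v hv e1
    simp only at e1
    split_ifs at e1
    · exact e1
    · exact absurd e1 (a1 u hu v hv)
    · exact absurd e1.symm (a1 v hv u hu)
    · exact add_right_cancel (add_right_cancel e1)

end Comp

open _root_.Pool.Agent.MP_36f78e_lc.H46.Comp in
theorem comp : CompStmt := by
  intro ι J _ _ _ S h κ ν e ψ h1 h2 h3 h4 hψ h5 h6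
  let Good : St ι → Prop := fun φ => φ ≠ 0 ∧ ∃ μ : ℕ, μ ≤ ν ∧
    2 ^ Fintype.card ι ≤ 2 ^ μ * (Lam φ).card ∧ ∑ j, qf (h j) φ ≤ (e + κ * (ν - μ)) * nsq φ
  have g0 : Good ψ := ⟨hψ, ν, le_rfl, h5, by simpa using h6⟩
  have hb : BddAbove {n | ∃ φ, Good φ ∧ pot S φ = n} :=
    ⟨_, by rintro _ ⟨φ, -, rfl⟩; exact pot_le S φ⟩
  obtain ⟨φ, ⟨hφ, μ, m1, m2, m3⟩, hm⟩ :=
    Nat.sSup_mem (s := {n | ∃ φ, Good φ ∧ pot S φ = n}) ⟨_, ψ, g0, rfl⟩ hb
  have hmax : ∀ φ', Good φ' → ¬ pot S φ < pot S φ' := fun φ' g =>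
    not_lt.2 (hm ▸ le_csSup hb ⟨φ', g, rfl⟩)
  have n0 := nsq_pos hφ
  have k0 : (0 : ℝ) ≤ κ := Nat.cast_nonneg κ
  have type1 : ∀ j z, InS (S j) z → z ∉ Lam φ → ∃ u ∈ Lam φ, sp z u = 1 := by
    intro j z a1 a2
    by_contra hn
    push Not at hn
    obtain ⟨φ', b1, b2, b3, b4⟩ := measure h hφ z (B := e + κ * (ν - μ) + κ) (by
      have := energy1 h1 h2 h3 h4 a1 φ
      nlinarith [mul_nonneg k0 n0.le])
    have b5 : ∀ u ∈ Lam φ, u ∈ Lam φ' := fun u hu =>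
      b4 u hu (by rw [sp_comm]; exact (z2_cases _).resolve_right (hn u hu))
    have b6 := double b5 a2 b3
    have b7 := card_Lam b1
    obtain ⟨μ, rfl⟩ : ∃ μ', μ = μ' + 1 := by
      rcases μ with _ | μ
      · have : 0 < 2 ^ Fintype.card ι := by positivity
        rw [pow_zero, one_mul] at m2
        omega
      · exact ⟨μ, rfl⟩
    refine hmax φ' ⟨b1, μ, by omega, m2.trans ?_, b2.trans_eq ?_⟩
      (pot_lt (fun _ u _ hu => b5 u hu) a1 a2 b3)
    · rw [pow_succ, mul_assoc]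
      exact Nat.mul_le_mul_left _ b6
    · push_cast; ring
  refine ⟨φ, hφ, m3.trans ?_, fun j y a1 => ?_⟩
  · have : (0 : ℝ) ≤ κ * μ := by positivity
    nlinarith
  · by_contra hn
    push Not at hn
    obtain ⟨a2, a3⟩ := hn
    have a4 : ∀ i u, InS (S i) u → u ∈ Lam φ → sp u y = 0 := fun i u b1 b2 => by
      rw [sp_comm]; exact (z2_cases _).resolve_right (a3 i u b1 b2)
    obtain ⟨w, hw, a5⟩ := type1 j y a1 a2
    have a6 : ∑ i, qf (h i) (W y *ᵥ φ) = ∑ i, qf (h i) φ :=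
      sum_congr rfl fun i _ => energy2 (h1 i) fun z b1 b2 => type1 i z b1 fun b3 => by
        rw [a4 i z b1 b3] at b2
        exact zero_ne_one b2
    obtain ⟨φ', b1, b2, b3, b4⟩ := measure h hφ y (B := e + κ * (ν - μ)) (by rw [a6]; linarith)
    exact hmax φ' ⟨b1, μ, m1, m2.trans (Nat.mul_le_mul_left _
      (keep b4 a2 b3 hw (by rw [sp_comm]; exact a5))), b2⟩
      (pot_lt (fun i u c1 c2 => b4 u c2 (a4 i u c1 c2)) a1 a2 b3)

end Pool.Agent.MP_36f78e_lc.H46
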