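import Mathlib

/-! Qubit operators, Pauli and Clifford operators, preparations and shallow circuits. -/

namespace Pool.Agent.MP_36f78e_lc.H46

open Matrix

/-- Operators on the qubits indexed by `ι`: matrices indexed by bit strings. -/
abbrev Op (ι : Type) : Type := Matrix (ι → ZMod 2) (ι → ZMod 2) ℂ

/-- State vectors of the qubits indexed by `ι`. -/
abbrev St (ι : Type) : Type := (ι → ZMod 2) → ℂ

variable {ι : Type} [Fintype ι] [DecidableEq ι]

/-- `A = B ⊗ 1` with `B` an operator on the qubits in `S`. -/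
def ActsOn (S : Finset ι) (A : Op ι) : Prop :=
  ∃ B : Matrix (S → ZMod 2) (S → ZMod 2) ℂ, ∀ x y : ι → ZMod 2,
    A x y = if ∀ i, i ∉ S → x i = y i then B (fun i => x i) (fun i => y i) else 0

/-- The Pauli operator `X^a Z^b`. -/
def pauli (a b : ι → ZMod 2) : Op ι :=
  Matrix.of fun x y => if x = y + a then (-1) ^ (b ⬝ᵥ y).val else 0

/-- A unitary that normalises the Pauli group. -/
def IsClifford (U : Op ι) : Prop :=
  U ∈ Matrix.unitaryGroup (ι → ZMod 2) ℂ ∧
    ∀ a b : ι → ZMod 2, ∃ (a' b' : ι → ZMod 2) (c : ℂ), U * pauli a b * Uᴴ = c • pauli a' b'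

/-- States obtained from `|0…0⟩` by Clifford unitaries (free) and arbitrary unitaries on a set `S`
of qubits (cost `|S|`), with total cost `t`. -/
inductive Prep : ℕ → St ι → Prop
  | zero : Prep 0 (Pi.single 0 1)
  | cliff {t : ℕ} {ψ : St ι} (U : Op ι) : IsClifford U → Prep t ψ → Prep t (U *ᵥ ψ)
  | gate {t : ℕ} {ψ : St ι} (S : Finset ι) (U : Op ι) :
      U ∈ Matrix.unitaryGroup (ι → ZMod 2) ℂ → ActsOn S U → Prep t ψ → Prep (t + S.card) (U *ᵥ ψ)

/-- A product of unitaries on pairwise disjoint sets of at most two qubits. -/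
def IsLayer (U : Op ι) : Prop :=
  ∃ l : List (Finset ι × Op ι),
    (∀ g ∈ l, g.1.card ≤ 2 ∧ g.2 ∈ Matrix.unitaryGroup (ι → ZMod 2) ℂ ∧ ActsOn g.1 g.2) ∧
      l.Pairwise (fun g g' => Disjoint g.1 g'.1) ∧ U = (l.map Prod.snd).prod

/-- A product of `d` layers. -/
def HasDepth (d : ℕ) (U : Op ι) : Prop :=
  ∃ L : List (Op ι), L.length = d ∧ (∀ V ∈ L, IsLayer V) ∧ U = L.prod

/-- `h ⊗ 1`: the operator `h` on the qubits `ι`, the identity on the ancilla qubits `α`. -/
def withAnc (α : Type) [Fintype α] (h : Op ι) : Op (ι ⊕ α) :=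
  Matrix.of fun x y => if ∀ j, x (Sum.inr j) = y (Sum.inr j) then
    h (fun i => x (Sum.inl i)) (fun i => y (Sum.inl i)) else 0

end Pool.Agent.MP_36f78e_lc.H46
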