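import Pool.Agent.MP_36f78e_lc.H46.Spec

/-! Cayley graphs with a uniform gap, from a sum of squares. -/

namespace Pool.Agent.MP_36f78e_lc.H46

namespace Gap

/-- The group commutator of unitaries. -/
def cm {A : Type} [Mul A] [Star A] (x y : A) : A := x * y * star x * star y

/-- One minus the average of the powers. -/
noncomputable def qq {A : Type} [Ring A] [SMul ℝ A] (u : A) : A :=
  1 - (1 / 5 : ℝ) • (1 + u + u * u + u * u * u + u * u * u * u)

section Sos

variable {Q : Type} [Ring Q] [Algebra ℝ Q]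

/-- The average of the first five powers. -/
noncomputable def pr (u : Q) : Q := (1 / 5 : ℝ) • ∑ k ∈ Finset.range 5, u ^ k

theorem qq_eq (u : Q) : qq u = 1 - pr u := by
  simp [qq, pr, Finset.sum_range_succ, pow_succ]

theorem mul_pr {u : Q} (h : u ^ 5 = 1) : u * pr u = pr u := by
  rw [pr, mul_smul_comm, Finset.mul_sum]
  simp only [← pow_succ', Finset.sum_range_succ, Finset.sum_range_zero, Nat.reduceAdd, h, pow_zero]
  congr 1
  abel

theorem comm_pr {x u : Q} (h : Commute x u) : Commute x (pr u) :=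
  (Commute.sum_right _ _ _ fun k _ => h.pow_right k).smul_right _

theorem pr_mul' {u : Q} (h : u ^ 5 = 1) : pr u * u = pr u :=
  (comm_pr (Commute.refl u)).eq.symm.trans (mul_pr h)

omit [Algebra ℝ Q] in
theorem pow_fix {u X : Q} (h : u * X = X) (k : ℕ) : u ^ k * X = X := by
  induction k with
  | zero => simp
  | succ k ih => rw [pow_succ, mul_assoc, h, ih]

theorem pr_fix {u X : Q} (h : u * X = X) : pr u * X = X := by
  rw [pr, smul_mul_assoc, Finset.sum_mul]
  simp only [pow_fix h, Finset.sum_const, Finset.card_range]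
  module

theorem pr_pr {u : Q} (h : u ^ 5 = 1) : pr u * pr u = pr u := pr_fix (mul_pr h)

omit [Algebra ℝ Q] in
theorem pow_comm {a b c : Q} (h : a * b = c * b * a) (ha : Commute c a) (k : ℕ) :
    a ^ k * b = c ^ k * b * a ^ k := by
  induction k with
  | zero => simp
  | succ k ih =>
    rw [pow_succ a, mul_assoc, h, mul_assoc c, ← mul_assoc, ← (ha.pow_right k).eq, mul_assoc c,
      ← mul_assoc _ b, ih, pow_succ' c]
    simp only [mul_assoc]

theorem ang {a b c z : Q} (h : a * b = c * b * a) (ha : Commute c a) (hb : Commute c b)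
    (hc5 : c ^ 5 = 1) (hb5 : b ^ 5 = 1) (hz : ∀ X, c * X = X → z * X = X) :
    (1 - z) * (pr b * pr a * pr b) = (1 / 5 : ℝ) • ((1 - z) * pr b) := by
  have h1 : ∀ k, c ^ k * (pr b * a ^ k * pr b) = pr b * a ^ k * pr b := fun k => by
    conv_rhs => rw [← mul_pr hb5, ← mul_assoc _ b, mul_assoc _ _ b, pow_comm h ha, mul_pr hb5]
    rw [← mul_assoc (pr b), ← mul_assoc (pr b), ← (comm_pr (hb.pow_left k)).eq,
      mul_assoc _ _ b, pr_mul' hb5]
    simp only [mul_assoc]
  have h2 : ∀ k, k ^ 4 % 5 = 1 → (1 - z) * (pr b * a ^ k * pr b) = 0 := fun k hk => by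
    have h3 := pow_fix (h1 k) (k ^ 3)
    rw [← pow_mul, ← pow_succ', pow_eq_pow_mod _ hc5, hk, pow_one] at h3
    rw [sub_mul, one_mul, hz _ h3, sub_self]
  rw [pr.eq_1 a, mul_smul_comm, smul_mul_assoc, mul_smul_comm, Finset.mul_sum, Finset.sum_mul,
    Finset.mul_sum]
  simp only [Finset.sum_range_succ, Finset.sum_range_zero, h2 1 rfl, h2 2 rfl, h2 3 rfl, h2 4 rfl,
    pow_zero, mul_one, pr_pr hb5, add_zero, zero_add]

variable [StarRing Q] [StarModule ℝ Q]

theorem star_pr {u : Q} (h : u ^ 5 = 1) (hu : star u * u = 1) : star (pr u) = pr u := by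
  have h1 : star (pr u) = pr (star u) := by simp [pr, star_sum]
  have h2 : star (pr u) * pr u = pr u := by
    rw [h1]
    refine pr_fix ?_
    conv_lhs => rw [← mul_pr h, ← mul_assoc, hu, one_mul]
  rw [← h2, star_mul, star_star]

/-- The sums of squares. -/
abbrev SS (Q : Type) [Ring Q] [StarRing Q] : AddSubmonoid Q :=
  AddSubmonoid.closure (Set.range fun y : Q => star y * y)

theorem sq_mem {y : Q} (hy : star y = y) (c : ℝ) (hc : 0 ≤ c) : c • (y * y) ∈ SS Q := by
  refine AddSubmonoid.subset_closure ⟨(√c : ℝ) • y, ?_⟩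
  simp only [star_smul, hy, smul_mul_smul_comm, star_trivial]
  rw [Real.mul_self_sqrt hc]

theorem pj_mem {y : Q} (hy : star y = y) (h : y * y = y) (c : ℝ) (hc : 0 ≤ c) :
    c • y ∈ SS Q := by
  simpa only [h] using sq_mem hy c hc

theorem cornerA {w P R : Q} (sw : star w = w) (sP : star P = P) (sR : star R = R)
    (ww : w * w = w) (PP : P * P = P) (RR : R * R = R) (wP : w * P = P) (wR : w * R = R)
    (Pw : P * w = P) (Rw : R * w = R) (h1 : P * (R * P) = (1 / 5 : ℝ) • P)
    (h2 : R * (P * R) = (1 / 5 : ℝ) • R) :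
    (w - P + (w - R)) * (w - P + (w - R)) - (11 / 20 : ℝ) • (w - P + (w - R)) ∈ SS Q := by
  obtain ⟨r, hr⟩ : ∃ r, r = P + R := ⟨_, rfl⟩
  have sr : star r = r := by rw [hr, star_add, sP, sR]
  have wr : w * r = r := by rw [hr, mul_add, wP, wR]
  have rw' : r * w = r := by rw [hr, add_mul, Pw, Rw]
  have r3 : r * (r * r) = (2 : ℝ) • (r * r) - (4 / 5 : ℝ) • r := by
    simp only [hr, mul_add, add_mul, PP, RR, h1, h2, ← mul_assoc P P, ← mul_assoc R R]
    module
  have hs : w - P + (w - R) = (2 : ℝ) • w - r := by rw [hr]; module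
  obtain ⟨E, hE⟩ : ∃ E, E = (5 / 4 : ℝ) • ((2 : ℝ) • r - r * r) := ⟨_, rfl⟩
  have sE : star E = E := by simp [hE, sr]
  have rE : r * E = r := by
    simp only [hE, mul_smul_comm, mul_sub, r3]
    module
  have Er : E * r = r := by simpa only [star_mul, sr, sE] using congrArg star rE
  have EE : E * E = E := by
    conv_lhs => rw [hE, smul_mul_assoc, ← hE, sub_mul, smul_mul_assoc, mul_assoc, rE]
    exact hE.symm
  have wE : w * E = E := by simp only [hE, mul_smul_comm, mul_sub, wr, ← mul_assoc]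
  have Ew : E * w = E := by simpa only [star_mul, sw, sE] using congrArg star wE
  have k1 := pj_mem (y := w - E) (by rw [star_sub, sw, sE])
    (by simp [mul_sub, sub_mul, ww, wE, Ew, EE]) (29 / 10) (by norm_num)
  have k2 := sq_mem (y := (29 / 20 : ℝ) • E - r) (by simp [sE, sr]) (29 / 18) (by norm_num)
  have k3 := pj_mem sE EE (11 / 7200) (by norm_num)
  have hr2 : r * r = (2 : ℝ) • r - (4 / 5 : ℝ) • E := by rw [hE]; module
  refine (congrArg (· ∈ SS Q) ?_).mp (add_mem (add_mem k1 k2) k3)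
  simp only [hs, mul_sub, sub_mul, smul_mul_assoc, mul_smul_comm, ww, wr, rw', EE, rE, Er, hr2]
  module

theorem cornerB {w P R : Q} (sw : star w = w) (sP : star P = P) (sR : star R = R)
    (ww : w * w = w) (PP : P * P = P) (RR : R * R = R) (wP : w * P = P) (wR : w * R = R)
    (Pw : P * w = P) (Rw : R * w = R) (h : Commute P R) :
    (w - P + (w - R)) * (w - P + (w - R)) - (11 / 20 : ℝ) • (w - P + (w - R)) ∈ SS Q := by
  have h1 : (w - P) * (w - P) = w - P := by simp [mul_sub, sub_mul, ww, wP, Pw, PP]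
  have h2 : (w - R) * (w - R) = w - R := by simp [mul_sub, sub_mul, ww, wR, Rw, RR]
  have h3 : Commute (w - P) (w - R) := by
    simp only [Commute, SemiconjBy, mul_sub, sub_mul, ww, wP, wR, Pw, Rw, h.eq]
    abel
  have s1 : star (w - P) = w - P := by rw [star_sub, sw, sP]
  have s2 : star (w - R) = w - R := by rw [star_sub, sw, sR]
  generalize w - P = x at *
  generalize w - R = y at *
  have k1 := pj_mem (y := x * y) (by rw [star_mul, s1, s2, h3.eq])
    (by rw [h3.symm.mul_mul_mul_comm, h1, h2]) 2 (by norm_num)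
  refine (congrArg (· ∈ SS Q) ?_).mp (add_mem (add_mem k1 (pj_mem s1 h1 (9 / 20) (by norm_num)))
    (pj_mem s2 h2 (9 / 20) (by norm_num)))
  simp only [mul_add, add_mul, h1, h2, ← h3.eq]
  module

theorem pair {a b : Q} (a1 : star a * a = 1) (a2 : a * star a = 1) (b1 : star b * b = 1)
    (b2 : b * star b = 1) (a5 : a ^ 5 = 1) (b5 : b ^ 5 = 1) (ha : Commute (cm a b) a)
    (hb : Commute (cm a b) b) :
    (qq a + qq b) * (qq a + qq b) - (11 / 20 : ℝ) • (qq a + qq b) ∈ SS Q := by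
  have h : a * b = cm a b * b * a := by
    simp only [cm, mul_assoc, b1, a1, mul_one]
  have c1 : star (cm a b) * cm a b = 1 := by
    simp only [cm, star_mul, star_star, mul_assoc, ← mul_assoc (star a) a, a1, one_mul,
      ← mul_assoc (star b) b, b1, ← mul_assoc a (star a), a2, b2]
  generalize cm a b = c at *
  have c5 : c ^ 5 = 1 := by
    have h1 := pow_comm h ha 5
    rw [a5, one_mul, mul_one] at h1
    rw [← mul_one (c ^ 5), ← b2, ← mul_assoc, ← h1]
  have h' : b * a = c ^ 4 * a * b := by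
    rw [mul_assoc, h, ← mul_assoc, ← mul_assoc, ← pow_succ, c5, one_mul]
  have k1 := ang h ha hb c5 b5 (z := pr c) fun X => pr_fix
  have k2 := ang h' (hb.pow_left 4) (ha.pow_left 4)
    (by rw [← pow_mul, mul_comm, pow_mul, c5, one_pow]) a5 (z := pr c) fun X hX =>
      pr_fix (by rw [← hX, ← mul_assoc, ← pow_succ', c5, one_mul, hX])
  have zb : Commute b (pr c) := comm_pr hb.symm
  have k3 : Commute (pr c * pr a) (pr b) := by
    refine comm_pr (Commute.symm ?_)
    rw [pr.eq_1 a, mul_smul_comm, Finset.mul_sum]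
    refine (Commute.sum_right _ _ _ fun k _ => ?_).smul_right _
    rw [Commute, SemiconjBy, mul_assoc, pow_comm h ha, ← mul_assoc, zb.eq, ← mul_assoc, ← mul_assoc,
      ← (comm_pr ((Commute.refl c).pow_left k)).eq, pow_fix (mul_pr c5)]
  have zP : Commute (pr c) (pr a) := comm_pr (comm_pr ha.symm).symm
  have zR : Commute (pr c) (pr b) := comm_pr zb.symm
  have sz := star_pr c5 c1
  have sP := star_pr a5 a1
  have sR := star_pr b5 b1
  have zz := pr_pr c5
  have PP := pr_pr a5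
  have RR := pr_pr b5
  rw [qq_eq, qq_eq]
  generalize pr a = P at *
  generalize pr b = R at *
  generalize pr c = z at *
  have key : ∀ w : Q, star w = w → w * w = w → ∀ {X : Q}, star X = X → X * X = X → Commute w X →
      star (w * X) = w * X ∧ w * X * (w * X) = w * X ∧ w * (w * X) = w * X ∧ w * X * w = w * X :=
    fun w sw ww X sX XX hc => ⟨by rw [star_mul, sw, sX, hc.eq],
      by rw [hc.symm.mul_mul_mul_comm, ww, XX], by rw [← mul_assoc, ww],
      by rw [mul_assoc, ← hc.eq, ← mul_assoc, ww]⟩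
  have sw : star (1 - z) = 1 - z := by simp [sz]
  have ww : (1 - z) * (1 - z) = 1 - z := by simp [mul_sub, sub_mul, zz]
  have wP : Commute (1 - z) P := (Commute.one_left _).sub_left zP
  have wR : Commute (1 - z) R := (Commute.one_left _).sub_left zR
  obtain ⟨p1, p2, p3, p4⟩ := key z sz zz sP PP zP
  obtain ⟨q1, q2, q3, q4⟩ := key z sz zz sR RR zR
  obtain ⟨r1, r2, r3, r4⟩ := key _ sw ww sP PP wP
  obtain ⟨t1, t2, t3, t4⟩ := key _ sw ww sR RR wR
  have tri : ∀ {w X Y : Q}, w * w = w → Commute w X → Commute w Y →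
      w * X * (w * Y * (w * X)) = w * (X * Y * X) := fun {w X Y} ww hX hY => by
    rw [hY.symm.mul_mul_mul_comm, ww, hX.symm.mul_mul_mul_comm, ww, mul_assoc]
  have m1 := cornerA sw r1 t1 ww r2 t2 r3 t3 r4 t4 ((tri ww wP wR).trans k2)
    ((tri ww wR wP).trans k1)
  have m2 := cornerB sz p1 q1 zz p2 q2 p3 q3 p4 q4
    (Commute.mul_right (p4.trans p3.symm) k3)
  have sp : ∀ w : Q, w * w = w → Commute w P → Commute w R →
      (w - w * P + (w - w * R)) * (w - w * P + (w - w * R)) -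
        (11 / 20 : ℝ) • (w - w * P + (w - w * R)) =
      w * ((1 - P + (1 - R)) * (1 - P + (1 - R)) - (11 / 20 : ℝ) • (1 - P + (1 - R))) :=
    fun w ww hP hR => by
      have h1 : w - w * P + (w - w * R) = w * (1 - P + (1 - R)) := by
        simp only [mul_add, mul_sub, mul_one]
      have h2 : Commute w (1 - P + (1 - R)) :=
        ((Commute.one_right _).sub_right hP).add_right ((Commute.one_right _).sub_right hR)
      rw [h1, h2.symm.mul_mul_mul_comm, ww, mul_sub, mul_smul_comm]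
  rw [sp _ ww wP wR] at m1
  rw [sp _ zz zP zR] at m2
  have m3 := add_mem m1 m2
  rwa [← add_mul, sub_add_cancel, one_mul] at m3

theorem sos (a : Fin 3 → Q) (h1 : ∀ i, star (a i) * a i = 1) (h2 : ∀ i, a i * star (a i) = 1)
    (a5 : ∀ i, a i ^ 5 = 1) (h3 : ∀ i, Commute (cm (a i) (a (i + 1))) (a i))
    (h4 : ∀ i, Commute (cm (a i) (a (i + 1))) (a (i + 1))) :
    (∑ i, (1 - pr (a i))) * (∑ i, (1 - pr (a i))) - (1 / 10 : ℝ) • (∑ i, (1 - pr (a i))) ∈ SS Q := by
  have hp := fun i => pair (h1 i) (h2 i) (h1 (i + 1)) (h2 (i + 1)) (a5 i) (a5 (i + 1)) (h3 i) (h4 i)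
  have hq : ∀ i, qq (a i) * qq (a i) = qq (a i) := fun i => by
    simp [qq_eq, mul_sub, sub_mul, pr_pr (a5 i)]
  refine (congrArg (· ∈ SS Q) ?_).mp (add_mem (add_mem (hp 0) (hp 1)) (hp 2))
  simp only [← qq_eq, Fin.sum_univ_three, hq, mul_add, add_mul, Fin.reduceAdd]
  module

end Sos

open Matrix Finset

section Rep

variable {G : Type} [Group G] [Fintype G] [DecidableEq G]

/-- The left regular representation. -/
def rho (a : G) : Matrix G G ℝ := Matrix.of fun g h => if a * h = g then 1 else 0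

theorem rho_mulVec (a : G) (f : G → ℝ) (g : G) : (rho a *ᵥ f) g = f (a⁻¹ * g) := by
  simp only [rho, mulVec, dotProduct, of_apply, ite_mul, one_mul, zero_mul]
  rw [Finset.sum_eq_single (a⁻¹ * g)]
  · simp
  · intro h _ hh
    rw [if_neg]
    rintro rfl
    exact hh (by simp)
  · simp

omit [Fintype G] in
theorem rho_one : rho (1 : G) = 1 := by
  ext g h
  simp [rho, one_apply, eq_comm]

theorem rho_mul (a b : G) : rho (a * b) = rho a * rho b := by
  refine Matrix.ext_of_mulVec_single fun h => ?_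
  ext g
  rw [← mulVec_mulVec, rho_mulVec, rho_mulVec, rho_mulVec, _root_.mul_inv_rev, mul_assoc]

theorem rho_pow (a : G) (k : ℕ) : rho (a ^ k) = rho a ^ k := by
  induction k with
  | zero => simp [rho_one]
  | succ k ih => rw [pow_succ, rho_mul, ih, pow_succ]

omit [Fintype G] in
theorem star_rho (a : G) : star (rho a) = rho a⁻¹ := by
  ext g h
  simp only [rho, star_apply, of_apply, star_trivial, inv_mul_eq_iff_eq_mul]
  exact if_congr eq_comm rfl rfl

omit [Group G] [DecidableEq G] in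
theorem dot_star (X : Matrix G G ℝ) (u v : G → ℝ) : u ⬝ᵥ (star X *ᵥ v) = (X *ᵥ u) ⬝ᵥ v := by
  have : star X = Xᵀ := by ext i j; simp
  rw [this, mulVec_transpose, dotProduct_comm, ← dotProduct_mulVec, dotProduct_comm]

omit [Group G] [DecidableEq G] in
theorem dot_nonneg (v : G → ℝ) : 0 ≤ v ⬝ᵥ v := Finset.sum_nonneg fun _ _ => mul_self_nonneg _

omit [Group G] in
theorem ss_nonneg {X : Matrix G G ℝ} (h : X ∈ SS (Matrix G G ℝ)) (v : G → ℝ) :
    0 ≤ v ⬝ᵥ (X *ᵥ v) := by
  induction h using AddSubmonoid.closure_induction with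
  | mem x hx =>
    obtain ⟨y, rfl⟩ := hx
    simp only
    rw [← mulVec_mulVec, dot_star]
    exact dot_nonneg _
  | zero => simp
  | add x y _ _ hx hy =>
    rw [add_mulVec, dotProduct_add]
    exact add_nonneg hx hy

omit [Group G] [DecidableEq G] in
theorem proj_dot {P : Matrix G G ℝ} (h1 : star P = P) (h2 : P * P = P) (v : G → ℝ) :
    v ⬝ᵥ (P *ᵥ v) = (P *ᵥ v) ⬝ᵥ (P *ᵥ v) := by
  rw [← dot_star, h1, mulVec_mulVec, h2]

theorem pr_apply (a : G) (f : G → ℝ) (g : G) :
    (pr (rho a) *ᵥ f) g = 1 / 5 * ∑ k : Fin 5, f ((a ^ (k : ℕ))⁻¹ * g) := by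
  simp only [pr, smul_mulVec, sum_mulVec, ← rho_pow, Pi.smul_apply, Finset.sum_apply, rho_mulVec,
    smul_eq_mul]
  rw [Finset.sum_range fun k => f ((a ^ k)⁻¹ * g)]

theorem sum_pr (a : G) (f : G → ℝ) : ∑ g, (pr (rho a) *ᵥ f) g = ∑ g, f g := by
  simp only [pr_apply]
  rw [← Finset.mul_sum, Finset.sum_comm]
  have : ∀ k : Fin 5, ∑ g, f ((a ^ (k : ℕ))⁻¹ * g) = ∑ g, f g := fun k =>
    Equiv.sum_comp (Equiv.mulLeft _) f
  simp only [this, Finset.sum_const, Finset.card_univ, Fintype.card_fin]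
  ring

theorem abstract (a : Fin 3 → G) (a5 : ∀ i, a i ^ 5 = 1)
    (h3 : ∀ i, Commute (a i * a (i + 1) * (a i)⁻¹ * (a (i + 1))⁻¹) (a i))
    (h4 : ∀ i, Commute (a i * a (i + 1) * (a i)⁻¹ * (a (i + 1))⁻¹) (a (i + 1)))
    (hgen : Subgroup.closure (Set.range a) = ⊤) (f : G → ℝ) (hf : ∑ g, f g = 0) :
    ∑ g, ((1 / 15 : ℝ) * ∑ i : Fin 3 × Fin 5, f ((a i.1 ^ (i.2 : ℕ))⁻¹ * g)) ^ 2 ≤
      29 / 30 * ∑ g, f g ^ 2 := by
  have u1 : ∀ i, star (rho (a i)) * rho (a i) = 1 := fun i => by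
    rw [star_rho, ← rho_mul, inv_mul_cancel, rho_one]
  have u2 : ∀ i, rho (a i) * star (rho (a i)) = 1 := fun i => by
    rw [star_rho, ← rho_mul, mul_inv_cancel, rho_one]
  have u5 : ∀ i, rho (a i) ^ 5 = 1 := fun i => by rw [← rho_pow, a5, rho_one]
  have hc : ∀ {x y z : G}, Commute (x * y * x⁻¹ * y⁻¹) z →
      Commute (cm (rho x) (rho y)) (rho z) := fun {x y z} h => by
    have := congrArg rho h.eq
    simpa only [Commute, SemiconjBy, cm, star_rho, rho_mul] using this
  have hs := sos (fun i => rho (a i)) u1 u2 u5 (fun i => hc (h3 i)) (fun i => hc (h4 i))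
  obtain ⟨P, hP⟩ : ∃ P : Fin 3 → Matrix G G ℝ, P = fun i => pr (rho (a i)) := ⟨_, rfl⟩
  have sP : ∀ i, star (P i) = P i := fun i => by rw [hP]; exact star_pr (u5 i) (u1 i)
  have PP : ∀ i, P i * P i = P i := fun i => by rw [hP]; exact pr_pr (u5 i)
  have sq : ∀ i, star (1 - P i) = 1 - P i := fun i => by rw [star_sub, star_one, sP]
  have qq' : ∀ i, (1 - P i) * (1 - P i) = 1 - P i := fun i => by simp [mul_sub, sub_mul, PP]
  obtain ⟨L, hL⟩ : ∃ L : Matrix G G ℝ, L = ∑ i, (1 - P i) := ⟨_, rfl⟩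
  have hs' : L * L - (1 / 10 : ℝ) • L ∈ SS (Matrix G G ℝ) := by rw [hL, hP]; exact hs
  have sL : star L = L := by simp only [hL, star_sum, sq]
  have eL : ∀ v : G → ℝ, v ⬝ᵥ (L *ᵥ v) = ∑ i, ((1 - P i) *ᵥ v) ⬝ᵥ ((1 - P i) *ᵥ v) := fun v => by
    rw [hL, sum_mulVec, dotProduct_sum]
    exact Finset.sum_congr rfl fun i _ => proj_dot (sq i) (qq' i) v
  have pL : ∀ v : G → ℝ, 0 ≤ v ⬝ᵥ (L *ᵥ v) := fun v => by
    rw [eL]; exact Finset.sum_nonneg fun i _ => dot_nonneg _
  have gL : ∀ v : G → ℝ, v ⬝ᵥ (L *ᵥ v) ≤ 10 * ((L *ᵥ v) ⬝ᵥ (L *ᵥ v)) := fun v => by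
    have := ss_nonneg hs' v
    rw [sub_mulVec, dotProduct_sub, smul_mulVec, dotProduct_smul, ← mulVec_mulVec,
      ← dot_star L v, sL] at *
    simp only [smul_eq_mul] at this
    linarith
  have ker : ∀ v : G → ℝ, L *ᵥ v = 0 → ∑ g, v g = 0 → v = 0 := fun v hv h0 => by
    have e := eL v
    rw [hv, dotProduct_zero] at e
    have e1 := (Finset.sum_eq_zero_iff_of_nonneg fun i _ => dot_nonneg _).1 e.symm
    have e2 : ∀ i, rho (a i) *ᵥ v = v := fun i => by
      have e3 := dotProduct_self_eq_zero.1 (e1 i (Finset.mem_univ i))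
      rw [sub_mulVec, one_mulVec, sub_eq_zero, hP] at e3
      conv_lhs => rw [e3, mulVec_mulVec, mul_pr (u5 i)]
      exact e3.symm
    have e4 : ∀ x : G, rho x *ᵥ v = v := fun x => by
      have hx : x ∈ Subgroup.closure (Set.range a) := hgen ▸ Subgroup.mem_top x
      induction hx using Subgroup.closure_induction with
      | mem x hx => obtain ⟨i, rfl⟩ := hx; exact e2 i
      | one => rw [rho_one, one_mulVec]
      | mul x y _ _ hx hy => rw [rho_mul, ← mulVec_mulVec, hy, hx]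
      | inv x _ hx =>
        conv_lhs => rw [← hx, mulVec_mulVec, ← rho_mul, inv_mul_cancel, rho_one, one_mulVec]
    have e5 : ∀ x, v x = v 1 := fun x => by
      have := congrFun (e4 x) x
      rw [rho_mulVec, inv_mul_cancel] at this
      exact this.symm
    have e6 : ∑ g, v g = Fintype.card G * v 1 := by
      rw [Finset.sum_congr rfl fun x _ => e5 x]; simp
    have e7 : (Fintype.card G : ℝ) ≠ 0 := by exact_mod_cast Fintype.card_ne_zero
    ext x
    rw [e5, Pi.zero_apply]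
    exact (mul_eq_zero.1 (e6 ▸ h0)).resolve_left e7
  have sumL : ∀ v : G → ℝ, ∑ g, (L *ᵥ v) g = 0 := fun v => by
    simp only [hL, hP, sum_mulVec, sub_mulVec, one_mulVec, Finset.sum_apply, Pi.sub_apply]
    rw [Finset.sum_comm]
    simp only [Finset.sum_sub_distrib, sum_pr, sub_self, Finset.sum_const_zero]
  let W : Submodule ℝ (G → ℝ) :=
    { carrier := {v | ∑ g, v g = 0}
      add_mem' := fun {x y} hx hy => by
        simp only [Set.mem_ofPred_eq, Pi.add_apply, Finset.sum_add_distrib] at *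
        rw [hx, hy, add_zero]
      zero_mem' := by simp
      smul_mem' := fun c x hx => by
        simp only [Set.mem_ofPred_eq, Pi.smul_apply, smul_eq_mul, ← Finset.mul_sum] at *
        rw [hx, mul_zero] }
  let T : W →ₗ[ℝ] W := (Matrix.mulVecLin L).restrict fun v _ => sumL v
  have inj : Function.Injective T := by
    rw [injective_iff_map_eq_zero]
    intro v hv
    exact Subtype.ext (ker v (congrArg Subtype.val hv) v.2)
  obtain ⟨g, hg⟩ := (LinearMap.injective_iff_surjective.1 inj) ⟨f, hf⟩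
  have hg' : L *ᵥ (g : G → ℝ) = f := congrArg Subtype.val hg
  have key : f ⬝ᵥ f ≤ 10 * (f ⬝ᵥ (L *ᵥ f)) := by
    have k1 := pL (f - (1 / 10 : ℝ) • (g : G → ℝ))
    have k2 := gL g
    have k3 : (g : G → ℝ) ⬝ᵥ (L *ᵥ f) = f ⬝ᵥ f := by
      rw [← sL, dot_star, hg']
    simp only [mulVec_sub, mulVec_smul, sub_dotProduct, dotProduct_sub, smul_dotProduct,
      dotProduct_smul, smul_eq_mul, k3, hg'] at k1 k2
    linarith
  have e1 : f ⬝ᵥ (L *ᵥ f) = 3 * (f ⬝ᵥ f) - ∑ i, (P i *ᵥ f) ⬝ᵥ (P i *ᵥ f) := by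
    simp only [hL, Fin.sum_univ_three, add_mulVec, sub_mulVec, one_mulVec, dotProduct_add,
      dotProduct_sub, proj_dot (sP _) (PP _)]
    ring
  have e2 : ∑ g, f g ^ 2 = f ⬝ᵥ f := by simp [dotProduct, pow_two]
  have e3 : ∀ x, ((1 / 15 : ℝ) * ∑ i : Fin 3 × Fin 5, f ((a i.1 ^ (i.2 : ℕ))⁻¹ * x)) ^ 2 ≤
      1 / 3 * ∑ i, (P i *ᵥ f) x * (P i *ᵥ f) x := fun x => by
    have : (1 / 15 : ℝ) * ∑ i : Fin 3 × Fin 5, f ((a i.1 ^ (i.2 : ℕ))⁻¹ * x) =
        1 / 3 * ∑ i, (P i *ᵥ f) x := by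
      simp only [hP, pr_apply, Fintype.sum_prod_type, ← Finset.mul_sum]
      ring
    rw [this]
    simp only [Fin.sum_univ_three]
    nlinarith [sq_nonneg ((P 0 *ᵥ f) x - (P 1 *ᵥ f) x), sq_nonneg ((P 0 *ᵥ f) x - (P 2 *ᵥ f) x),
      sq_nonneg ((P 1 *ᵥ f) x - (P 2 *ᵥ f) x)]
  refine (Finset.sum_le_sum fun x _ => e3 x).trans ?_
  rw [← Finset.mul_sum, Finset.sum_comm, e2]
  change 1 / 3 * ∑ i, (P i *ᵥ f) ⬝ᵥ (P i *ᵥ f) ≤ _
  linarith

end Rep

section Grp

open Matrix.SpecialLinearGroup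

variable {R : Type} [CommRing R]

theorem tv_comm {i j k l : Fin 3} (hij : i ≠ j) (hkl : k ≠ l) (h1 : j ≠ k) (h2 : l ≠ i) (r s : R) :
    Commute (SpecialLinearGroup.transvection hij r) (SpecialLinearGroup.transvection hkl s) := by
  refine Subtype.ext ?_
  change (1 + single i j r) * (1 + single k l s) = (1 + single k l s) * (1 + single i j r)
  simp only [mul_add, add_mul, one_mul, mul_one,
    single_mul_single_of_ne _ _ _ _ h1, single_mul_single_of_ne _ _ _ _ h2]
  abel

theorem tv_cm {i j k : Fin 3} (hij : i ≠ j) (hjk : j ≠ k) (hik : i ≠ k) (r s : R) :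
    SpecialLinearGroup.transvection hij r * SpecialLinearGroup.transvection hjk s *
      (SpecialLinearGroup.transvection hij r)⁻¹ * (SpecialLinearGroup.transvection hjk s)⁻¹ =
      SpecialLinearGroup.transvection hik (r * s) := by
  rw [mul_inv_eq_iff_eq_mul, mul_inv_eq_iff_eq_mul]
  refine Subtype.ext ?_
  change (1 + single i j r) * (1 + single j k s) =
    (1 + single i k (r * s)) * (1 + single j k s) * (1 + single i j r)
  simp only [mul_add, add_mul, one_mul, mul_one, zero_mul,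
    single_mul_single_same, single_mul_single_of_ne _ _ _ _ hjk.symm,
    single_mul_single_of_ne _ _ _ _ hik.symm]
  abel

theorem tv_pow {i j : Fin 3} (hij : i ≠ j) (r : R) (n : ℕ) :
    SpecialLinearGroup.transvection hij r ^ n = SpecialLinearGroup.transvection hij (n * r) := by
  induction n with
  | zero => simp
  | succ n ih => rw [pow_succ, ih, ← transvection_add, Nat.cast_succ, add_mul, one_mul]

theorem tv_inj {i j : Fin 3} (hij : i ≠ j) {r s : R}
    (h : SpecialLinearGroup.transvection hij r = SpecialLinearGroup.transvection hij s) : r = s := by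
  have := congrFun (congrFun (congrArg Subtype.val h) i) j
  simpa [transvection_coe] using this

theorem n01 : (0 : Fin 3) ≠ 1 := by decide
theorem n12 : (1 : Fin 3) ≠ 2 := by decide
theorem n20 : (2 : Fin 3) ≠ 0 := by decide

/-- The three generators. -/
def gn (t : R) : Fin 3 → SpecialLinearGroup (Fin 3) R :=
  ![SpecialLinearGroup.transvection n01 1, SpecialLinearGroup.transvection n12 1,
    SpecialLinearGroup.transvection n20 t]

theorem gn_mem (t : R) (k : ℕ) :
    SpecialLinearGroup.transvection n20 (t ^ (k + 1)) ∈ Subgroup.closure (Set.range (gn t)) := by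
  have m : ∀ i, gn t i ∈ Subgroup.closure (Set.range (gn t)) := fun i =>
    Subgroup.subset_closure ⟨i, rfl⟩
  have c : ∀ {x y}, x ∈ Subgroup.closure (Set.range (gn t)) →
      y ∈ Subgroup.closure (Set.range (gn t)) →
      x * y * x⁻¹ * y⁻¹ ∈ Subgroup.closure (Set.range (gn t)) := fun hx hy =>
    mul_mem (mul_mem (mul_mem hx hy) (inv_mem hx)) (inv_mem hy)
  induction k with
  | zero => simpa [gn] using m 2
  | succ k ih =>
    have h1 := c ih (show SpecialLinearGroup.transvection n01 1 ∈ _ from m 0)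
    rw [tv_cm n20 n01 n12.symm] at h1
    have h2 := c (show SpecialLinearGroup.transvection n12 1 ∈ _ from m 1)
      (show SpecialLinearGroup.transvection n20 t ∈ _ from m 2)
    rw [tv_cm n12 n20 n01.symm] at h2
    have h3 := c h1 h2
    rwa [tv_cm n12.symm n01.symm n20, mul_one, one_mul, ← pow_succ] at h3

theorem gn_rel (t : R) (i : Fin 3) :
    Commute (gn t i * gn t (i + 1) * (gn t i)⁻¹ * (gn t (i + 1))⁻¹) (gn t i) ∧
      Commute (gn t i * gn t (i + 1) * (gn t i)⁻¹ * (gn t (i + 1))⁻¹) (gn t (i + 1)) := by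
  have e0 : gn t 0 * gn t 1 * (gn t 0)⁻¹ * (gn t 1)⁻¹ = _ := tv_cm n01 n12 n20.symm (1 : R) 1
  have e1 : gn t 1 * gn t 2 * (gn t 1)⁻¹ * (gn t 2)⁻¹ = _ := tv_cm n12 n20 n01.symm (1 : R) t
  have e2 : gn t 2 * gn t 0 * (gn t 2)⁻¹ * (gn t 0)⁻¹ = _ := tv_cm n20 n01 n12.symm t (1 : R)
  fin_cases i
  · exact ⟨e0 ▸ tv_comm n20.symm n01 n20 n01.symm _ _, e0 ▸ tv_comm n20.symm n12 n12.symm n20 _ _⟩
  · exact ⟨e1 ▸ tv_comm n01.symm n12 n01 n12.symm _ _, e1 ▸ tv_comm n01.symm n20 n20.symm n01 _ _⟩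
  · exact ⟨e2 ▸ tv_comm n12.symm n20 n12 n20.symm _ _, e2 ▸ tv_comm n12.symm n01 n01.symm n12 _ _⟩

theorem gn_pow (h5 : (5 : R) = 0) (t : R) (i : Fin 3) : gn t i ^ 5 = 1 := by
  have : ∀ {i j : Fin 3} (hij : i ≠ j) (r : R), SpecialLinearGroup.transvection hij r ^ 5 = 1 :=
    fun hij r => by rw [tv_pow, Nat.cast_ofNat, h5, zero_mul, transvection_coeff_zero]
  fin_cases i
  · exact this n01 1
  · exact this n12 1
  · exact this n20 t

end Grp

theorem ring_ex (n : ℕ) : ∃ (R : Type) (_ : CommRing R) (_ : Finite R) (t : R), (5 : R) = 0 ∧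
    Function.Injective fun k : Fin n => t ^ ((k : ℕ) + 1) := by
  have : Fact (Nat.Prime 5) := ⟨by norm_num⟩
  obtain ⟨u, hu⟩ := IsCyclic.exists_generator (α := (GaloisField 5 (n + 1))ˣ)
  have ho : orderOf u = 5 ^ (n + 1) - 1 := by
    rw [orderOf_eq_card_of_forall_mem_zpowers hu, Nat.card_units, GaloisField.card 5 _ (by omega)]
  have hlt : n + 1 < 5 ^ (n + 1) := Nat.lt_pow_self (by norm_num)
  refine ⟨GaloisField 5 (n + 1), inferInstance, inferInstance, u, ?_, fun k l h => ?_⟩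
  · exact_mod_cast CharP.cast_eq_zero (GaloisField 5 (n + 1)) 5
  · have h1 : u ^ (k : ℕ) = u ^ (l : ℕ) := by
      have h2 : u ^ ((k : ℕ) + 1) = u ^ ((l : ℕ) + 1) := Units.ext (by simpa using h)
      rwa [pow_succ, pow_succ, mul_left_inj] at h2
    have hk := k.2
    have hl := l.2
    exact Fin.ext (pow_injOn_Iio_orderOf (by simp only [Set.mem_Iio]; omega)
      (by simp only [Set.mem_Iio]; omega) h1)

end Gap

open Gap in
theorem gap : GapStmt := by
  classical
  intro n
  obtain ⟨R, _, _, t, h5, ht⟩ := ring_ex n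
  have : Finite (Matrix.SpecialLinearGroup (Fin 3) R) := Subtype.finite
  let H := Subgroup.closure (Set.range (gn t))
  let _ : Fintype H := Fintype.ofFinite H
  let a : Fin 3 → H := fun i => ⟨gn t i, Subgroup.subset_closure ⟨i, rfl⟩⟩
  refine ⟨H, inferInstance, inferInstance, ?_, fun i => (a i.1 ^ (i.2 : ℕ))⁻¹, fun f hf =>
    abstract a (fun i => Subtype.ext (gn_pow h5 t i)) (fun i => Subtype.ext (gn_rel t i).1.eq)
      (fun i => Subtype.ext (gn_rel t i).2.eq) ?_ f hf⟩
  · have := Fintype.card_le_of_injective (fun k : Fin n => (⟨_, gn_mem t k⟩ : H))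
      fun k l h => ht (tv_inj n20 (congrArg Subtype.val h))
    simpa using this
  · rw [← Subgroup.closure_closure_coe_preimage]
    congr 1
    ext x
    constructor
    · rintro ⟨i, rfl⟩
      exact ⟨i, rfl⟩
    · rintro ⟨i, hi⟩
      exact ⟨i, Subtype.ext hi⟩

end Pool.Agent.MP_36f78e_lc.H46
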