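import Pool.Agent.MP_36f78e_lc.H46.Defs

/-! The internal definitions and the statements of the steps. -/

namespace Pool.Agent.MP_36f78e_lc.H46

open Matrix Finset Module
open scoped ComplexOrder Kronecker

/-! ### Weights, expansion, local codes -/

open Classical in
/-- The number of nonzero entries. -/
noncomputable def wt {Y β : Type} [Fintype Y] [Zero β] (x : Y → β) : ℕ :=
  (univ.filter fun y => x y ≠ 0).card

/-- The mixing inequality of a family of permutations. -/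
def Mix {G A : Type} [Fintype G] [Fintype A] (σ : A → Equiv.Perm G) (lam : ℝ) : Prop :=
  ∀ f h : G → ℝ, ∑ g, ∑ a, f g * h (σ a g) ≤
    (Fintype.card A : ℝ) * ((∑ g, f g) * ∑ g, h g) / Fintype.card G +
      lam / 2 * (∑ g, f g ^ 2 + ∑ g, h g ^ 2)

theorem Mix.inv {G A : Type} [Fintype G] [Fintype A] {σ : A → Equiv.Perm G} {lam : ℝ}
    (h : Mix σ lam) : Mix (fun a => (σ a)⁻¹) lam := by
  intro f f'
  have h1 : ∑ g, ∑ a, f g * f' ((σ a)⁻¹ g) = ∑ g, ∑ a, f' g * f (σ a g) := by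
    rw [Finset.sum_comm, Finset.sum_comm (f := fun g a => f' g * f (σ a g))]
    refine Finset.sum_congr rfl fun a _ => ?_
    rw [← Equiv.sum_comp (σ a)]
    simp [mul_comm]
  rw [h1, mul_comm (∑ g, f g), add_comm (∑ g, f g ^ 2)]
  exact h f' f

/-- The index set of a local view, of size `128 w`. -/
abbrev AA (w : ℕ) : Type := Fin (32 * w) ⊕ Fin (96 * w)

/-- Row Gap: Cayley graphs of degree 15 with a uniform gap. -/
def GapStmt : Prop :=
  ∀ n₀ : ℕ, ∃ (G : Type) (_ : Group G) (_ : Fintype G), n₀ ≤ Fintype.card G ∧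
    ∃ a : Fin 3 × Fin 5 → G, ∀ f : G → ℝ, ∑ g, f g = 0 →
      ∑ g, ((1 / 15 : ℝ) * ∑ i, f (a i * g)) ^ 2 ≤ 29 / 30 * ∑ g, f g ^ 2

/-- Row Exp: two commuting families of permutations, both mixing. -/
def ExpStmt : Prop :=
  ∃ w : ℕ, 1 ≤ w ∧ ∀ n₀ : ℕ, ∃ (G : Type) (_ : Fintype G) (_ : DecidableEq G),
    n₀ ≤ Fintype.card G ∧ ∃ σ τ : AA w → Equiv.Perm G, (∀ a b, σ a * τ b = τ b * σ a) ∧
      Mix σ ((w : ℝ) / 1024) ∧ Mix τ ((w : ℝ) / 1024)

section Local

variable {F A κ κ' : Type} [Field F] [Fintype A] [Fintype κ] [Fintype κ']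

/-- The row space. -/
def rowsp (m : Matrix κ A F) : Submodule F (A → F) := Submodule.span F (Set.range fun i => m i)

/-- The vectors that vanish on `I`. -/
def off (F : Type) [Field F] (I : Finset A) : Submodule F (A → F) where
  carrier := {μ | ∀ i ∈ I, μ i = 0}
  add_mem' := fun {a b} ha hb i hi => by simp [ha i hi, hb i hi]
  zero_mem' := fun i _ => rfl
  smul_mem' := fun c a ha i hi => by simp [ha i hi]

/-- The row space surjects onto the coordinates of every set of size at most `w`. -/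
def Surj (w : ℕ) (m : Matrix κ A F) : Prop :=
  ∀ I : Finset A, I.card ≤ w → ∀ u : A → F, ∃ μ ∈ rowsp m, ∀ i ∈ I, μ i = u i

/-- All rows and columns have weight at most `w`. -/
def Sparse (w : ℕ) (x : Matrix A A F) : Prop := (∀ a, wt (x a) ≤ w) ∧ ∀ b, wt (xᵀ b) ≤ w

/-- A punctured sum code has a sparse word. -/
def Bad (w : ℕ) (m : Matrix κ A F) (n : Matrix κ' A F) : Prop :=
  ∃ (I J : Finset A) (x : Matrix A A F), I.card ≤ w ∧ J.card ≤ w ∧ x ≠ 0 ∧ Sparse w x ∧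
    (∀ a ∈ I, ∀ b, x a b = 0) ∧ (∀ b ∈ J, ∀ a, x a b = 0) ∧
    ∀ μ ∈ rowsp m ⊓ off F I, ∀ ν ∈ rowsp n ⊓ off F J, μ ⬝ᵥ (x *ᵥ ν) = 0

/-- Product expansion of the codes with parity checks `H`, `H'`. -/
def PE (w : ℕ) (H : Matrix κ A F) (H' : Matrix κ' A F) : Prop :=
  ∀ x : Matrix A A F, H * x * H'ᵀ = 0 → ∃ c r : Matrix A A F, x = c + r ∧ H * c = 0 ∧ r * H'ᵀ = 0 ∧
    w * (wt (fun b => cᵀ b) + wt (fun a => r a)) ≤ 256 * wt (fun q : A × A => x q.1 q.2)

end Local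

/-- Row Tail, first part: the rank tail of random rows. -/
def TailStmt : Prop :=
  ∀ (F A κ W : Type) [Field F] [Fintype F] [Fintype A] [DecidableEq A] [Fintype κ]
    [AddCommGroup W] [Module F W] (θ : (A → F) →ₗ[F] W) (I : Finset A) (y : ℕ),
    (∀ i ∈ I, θ (Pi.single i 1) = 0) →
    Nat.card {m : Matrix κ A F // finrank F ((rowsp m ⊓ off F I).map θ) ≤ y} *
        Fintype.card F ^ ((finrank F (LinearMap.range θ) - y) * (Fintype.card κ - I.card - y)) ≤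
      2 ^ Fintype.card κ * Nat.card (Matrix κ A F)

/-- Row Tail, second part: random rows surject onto few coordinates. -/
def SurjStmt : Prop :=
  ∀ (F A κ : Type) [Field F] [Fintype F] [Fintype A] [Fintype κ] (w : ℕ), w ≤ Fintype.card κ →
    Nat.card {m : Matrix κ A F // ¬ Surj w m} * Fintype.card F ≤
      2 ^ Fintype.card A * 2 ^ Fintype.card κ * Nat.card (Matrix κ A F)

/-- Row Bad, first part: the number of sparse matrices of given rank. -/
def SparseStmt : Prop :=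
  ∀ (F A : Type) [Field F] [Fintype F] [Fintype A] (w s : ℕ),
    Nat.card {x : Matrix A A F // Sparse w x ∧ x.rank = s} ≤
      (Fintype.card A * 2 ^ Fintype.card A * Fintype.card F ^ w) ^ (2 * s)

/-- Row Bad, second part: bad pairs are rare over large fields. -/
def BadStmt : Prop :=
  ∀ w : ℕ, 1 ≤ w → ∃ C : ℕ, ∀ (F A κ κ' : Type) [Field F] [Fintype F] [Fintype A] [Fintype κ]
    [Fintype κ'], Fintype.card A = 128 * w → 32 * w ≤ Fintype.card κ → Fintype.card κ ≤ 128 * w →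
    32 * w ≤ Fintype.card κ' → Fintype.card κ' ≤ 128 * w →
    Nat.card {mn : Matrix κ A F × Matrix κ' A F // Bad w mn.1 mn.2} * Fintype.card F ≤
      C * Nat.card (Matrix κ A F × Matrix κ' A F)

/-- Row Det: good pairs are product expanding. -/
def DetStmt : Prop :=
  ∀ (F A κ κ' : Type) [Field F] [Fintype A] [Fintype κ] [DecidableEq κ] [Fintype κ'] (w : ℕ)
    (H : Matrix κ A F) (H' : Matrix κ' A F) (K : Matrix A κ F), Fintype.card A = 128 * w →
    H * K = 1 → Surj w H → Surj w H' → ¬ Bad w H H' → PE w H H'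

/-- Row PE: a pair of codes that is product expanding together with the dual pair. -/
def PEStmt : Prop :=
  ∀ w : ℕ, 1 ≤ w → ∃ (p : ℕ) (_ : Fact p.Prime), 2 < p ∧
    ∃ P P' Q Q' : Matrix (AA w) (AA w) (ZMod p), P * P'ᵀ = 1 ∧ Q * Q'ᵀ = 1 ∧
      PE w P.toRows₁ Q.toRows₂ ∧ PE w P'.toRows₂ Q'.toRows₁

/-! ### The quantum Tanner complex -/

section Tanner

variable {F G A κ κ' : Type} [Field F] [Fintype A] [Fintype κ] [Fintype κ']

/-- The local view at the vertex `v`; the square `(g, a, b)` has the vertex `π a b g`. -/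
def view (π : A → A → Equiv.Perm G) (x : G × A × A → F) (v : G) : Matrix A A F :=
  Matrix.of fun a b => x ((π a b).symm v, a, b)

omit [Fintype A] in
theorem view_add (π : A → A → Equiv.Perm G) (x y : G × A × A → F) (v : G) :
    view π (x + y) v = view π x v + view π y v := rfl

omit [Fintype A] in
theorem view_smul (π : A → A → Equiv.Perm G) (c : F) (x : G × A × A → F) (v : G) :
    view π (c • x) v = c • view π x v := rfl

omit [Fintype A] in
theorem view_zero (π : A → A → Equiv.Perm G) (v : G) :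
    view π (0 : G × A × A → F) v = 0 := rfl

/-- All local views lie in the tensor code. -/
def gen (π : A → A → Equiv.Perm G) (H : Matrix κ A F) (H' : Matrix κ' A F) :
    Submodule F (G × A × A → F) where
  carrier := {x | ∀ v, H * view π x v = 0 ∧ view π x v * H'ᵀ = 0}
  add_mem' := fun {a b} ha hb v => by
    simp [view_add, Matrix.mul_add, Matrix.add_mul, (ha v).1, (ha v).2, (hb v).1, (hb v).2]
  zero_mem' := fun v => by simp [view_zero]
  smul_mem' := fun c a ha v => by simp [view_smul, (ha v).1, (ha v).2]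

/-- The local view at `v` lies in the sum code. -/
def chk (π : A → A → Equiv.Perm G) (H : Matrix κ A F) (H' : Matrix κ' A F) (v : G) :
    Submodule F (G × A × A → F) where
  carrier := {x | H * view π x v * H'ᵀ = 0}
  add_mem' := fun {a b} ha hb => by
    simp only [Set.mem_setOf_eq] at ha hb ⊢
    simp [view_add, Matrix.mul_add, Matrix.add_mul, ha, hb]
  zero_mem' := by simp [view_zero]
  smul_mem' := fun c a ha => by
    simp only [Set.mem_setOf_eq] at ha ⊢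
    simp [view_smul, ha]

end Tanner

open Classical in
/-- The number of violated checks. -/
noncomputable def viol {F X J : Type} [Field F] [AddCommGroup X] [Module F X] [Fintype J]
    (K : J → Submodule F X) (x : X) : ℕ :=
  (univ.filter fun j => x ∉ K j).card

/-- Row Tan: small-set expansion of the quantum Tanner complex. -/
def TanStmt : Prop :=
  ∀ (F G A κ κ' : Type) [Field F] [Fintype G] [Fintype A] [Fintype κ] [Fintype κ'] (w : ℕ)
    (σ τ : A → Equiv.Perm G) (π₀₀ π₁₀ π₀₁ π₁₁ : A → A → Equiv.Perm G)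
    (H : Matrix κ A F) (H' : Matrix κ' A F), 1 ≤ w → Fintype.card A = 128 * w →
    (∀ a b, π₁₀ a b = σ a * π₀₀ a b) → (∀ a b, π₀₁ a b = τ b * π₀₀ a b) →
    (∀ a b, π₁₁ a b = σ a * π₀₁ a b) → (∀ a b, π₁₁ a b = τ b * π₁₀ a b) →
    Mix σ ((w : ℝ) / 1024) → Mix τ ((w : ℝ) / 1024) → PE w H H' →
    ∀ x : G × A × A → F, 2 ^ 28 * wt x ≤ w * Fintype.card G →
      ∃ g ∈ gen π₀₀ H H' ⊔ gen π₁₁ H H',
        wt (x + g) ≤ 2 ^ 41 * w ^ 3 * (viol (chk π₁₀ H H') x + viol (chk π₀₁ H H') x)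

/-- Row Lab: labels of clusters. -/
def LabStmt : Prop :=
  ∀ (F V J : Type) [Field F] [Fintype V] [Fintype J] (K : J → Submodule F (V → F))
    (Γ : Submodule F (V → F)) (w' : V → F) (c : ℕ) (T b : ℝ), (∀ g ∈ Γ, ∀ j, g ∈ K j) →
    (∀ g ∈ Γ, w' ⬝ᵥ g = 0) → 2 * b * c ≤ T →
    (∀ x, (wt x : ℝ) ≤ 2 * T → ∃ g ∈ Γ, wt (x + g) ≤ c * viol K x) →
    ∃ l : (V → F) → F, (∀ x u, (∀ j, u ∈ K j) → l (x + u) = l x + w' ⬝ᵥ u) ∧
      ∀ x y, (viol K x : ℝ) ≤ b → (viol K y : ℝ) ≤ b → (wt (x - y) : ℝ) ≤ T → l x = l y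

/-- The data of a CSS code with decoded labels; `false` is the computational side, `true` the
Fourier side. -/
structure Code (p : ℕ) (V J : Type) : Type where
  /-- the strings that pass a check -/
  K : Bool → J → Submodule (ZMod p) (V → ZMod p)
  /-- the support of a check -/
  S : Bool → J → Finset V
  /-- the logical operators -/
  w : Bool → V → ZMod p
  /-- the labels -/
  l : Bool → (V → ZMod p) → ZMod p

/-- The properties of the code. -/
structure Code.Good {p : ℕ} [Fact p.Prime] {V J : Type} [Fintype V] [DecidableEq V] [Fintype J]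
    (C : Code p V J) (k : ℕ) (γ : ℝ) : Prop where
  card_S : ∀ s j, (C.S s j).card ≤ k
  deg : ∀ s v, (univ.filter fun j => v ∈ C.S s j).card ≤ k
  loc : ∀ s j u, (∀ v ∈ C.S s j, u v = 0) → u ∈ C.K s j
  perp : ∀ u, (∀ z, (∀ j, z ∈ C.K true j) → z ⬝ᵥ u = 0) → ∀ j, u ∈ C.K false j
  w_mem : ∀ s j, C.w s ∈ C.K s j
  w_dot : C.w true ⬝ᵥ C.w false = 1
  l_add : ∀ s x u, (∀ j, u ∈ C.K s j) → C.l s (x + u) = C.l s x + C.w (!s) ⬝ᵥ u
  l_near : ∀ s x y, (viol (C.K s) x : ℝ) ≤ γ * Fintype.card V →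
    (viol (C.K s) y : ℝ) ≤ γ * Fintype.card V → (wt (x - y) : ℝ) ≤ γ * Fintype.card V →
    C.l s x = C.l s y

/-- Row Code: good codes over an odd prime field. -/
def CodeStmt : Prop :=
  ∃ (p : ℕ) (_ : Fact p.Prime) (k : ℕ) (γ : ℝ), 2 < p ∧ 0 < γ ∧ ∀ n₀ : ℕ,
    ∃ (V J : Type) (_ : Fintype V) (_ : DecidableEq V) (_ : Fintype J),
      n₀ ≤ Fintype.card V ∧ Fintype.card J ≤ Fintype.card V ∧ ∃ C : Code p V J, C.Good k γ

/-! ### Quadratic forms and projectors -/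

section QF

variable {Y Y' : Type} [Fintype Y] [Fintype Y']

/-- The quadratic form of a matrix. -/
noncomputable def qf (A : Matrix Y Y ℂ) (v : Y → ℂ) : ℝ := (star v ⬝ᵥ (A *ᵥ v)).re

/-- The squared norm. -/
noncomputable def nsq (v : Y → ℂ) : ℝ := ∑ y, ‖v y‖ ^ 2

/-- An orthogonal projector. -/
def Proj (A : Matrix Y Y ℂ) : Prop := Aᴴ = A ∧ A * A = A

end QF

/-- Row Cheb, first part: a low-degree approximate projector. -/
def ChebStmt : Prop :=
  ∀ (Y I : Type) [Fintype Y] [DecidableEq Y] [Fintype I] (Q : I → Matrix Y Y ℂ)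
    (Pr : Matrix Y Y ℂ) (B : ℕ → Submodule ℂ (Matrix Y Y ℂ)) (d : ℕ),
    (∀ i, Proj (Q i)) → (∀ i j, Q i * Q j = Q j * Q i) → Proj Pr →
    (∀ v, Pr *ᵥ v = v ↔ ∀ i, Q i *ᵥ v = 0) → 1 ∈ B 0 → (∀ m, B m ≤ B (m + 1)) →
    (∀ m n, ∀ X ∈ B m, ∀ X' ∈ B n, X * X' ∈ B (m + n)) → (∀ i, Q i ∈ B 1) →
    0 < Fintype.card I → Fintype.card I ≤ 2 * d ^ 2 →
    ∃ K ∈ B d, K.PosSemidef ∧ (∀ v, qf K v ≤ 3 * nsq v) ∧ (∀ v, Pr *ᵥ v = v → K *ᵥ v = 0) ∧
      ∀ v, nsq (v - Pr *ᵥ v) ≤ qf K v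

open Classical in
/-- Row Cheb, second part: a diagonal unitary that is constant along `K` on the good set. -/
def SideStmt : Prop :=
  ∀ (Y : Type) [Fintype Y] (K : Matrix Y Y ℂ) (φ : Y → ℂ) (good : Y → Prop) (v : Y → ℂ),
    K.PosSemidef → (∀ u, qf K u ≤ 3 * nsq u) → (∀ y, ‖φ y‖ = 1) →
    (∀ y y', good y → good y' → K y y' ≠ 0 → φ y = φ y') → K *ᵥ v = 0 →
    ∑ y ∈ univ.filter (fun y => ¬ good y), ‖v y‖ ^ 2 ≤ nsq v / 144 →
    qf K (fun y => φ y * v y) ≤ nsq v / 12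

/-- Row Heis: a subspace almost preserved by a Heisenberg pair has dimension divisible by `p`. -/
def HeisStmt : Prop :=
  ∀ (Y : Type) [Fintype Y] [DecidableEq Y] (p : ℕ) (ω : ℂ) (Pr X Z : Matrix Y Y ℂ), 0 < p →
    IsPrimitiveRoot ω p → Proj Pr → X ∈ unitaryGroup Y ℂ → Z ∈ unitaryGroup Y ℂ → X ^ p = 1 →
    Z ^ p = 1 → Z * X = ω • (X * Z) →
    (∀ (s t : ℕ) (v : Y → ℂ), Pr *ᵥ v = v →
      nsq ((X ^ s * Z ^ t) *ᵥ v - Pr *ᵥ ((X ^ s * Z ^ t) *ᵥ v)) ≤ nsq v / 3) →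
    ∃ m : ℕ, Pr.trace = (p * m : ℕ)

/-! ### Qudits -/

section Qudit

variable (p : ℕ) [Fact p.Prime] (V : Type) [Fintype V] [DecidableEq V]

/-- The Fourier matrix. -/
noncomputable def four : Matrix (V → ZMod p) (V → ZMod p) ℂ :=
  Matrix.of fun ξ x => ZMod.stdAddChar (ξ ⬝ᵥ x) / ((√((p : ℝ) ^ Fintype.card V) : ℝ) : ℂ)

variable {p V}

open Classical in
/-- The projector on the basis strings outside `K`. -/
noncomputable def dv (K : Submodule (ZMod p) (V → ZMod p)) : Matrix (V → ZMod p) (V → ZMod p) ℂ :=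
  diagonal fun x => if x ∈ K then 0 else 1

/-- The terms of the code Hamiltonian. -/
noncomputable def Code.hm {J : Type} (C : Code p V J) (s : Bool) (j : J) :
    Matrix (V → ZMod p) (V → ZMod p) ℂ :=
  match s with
  | false => dv (C.K false j)
  | true => (four p V)ᴴ * dv (C.K true j) * four p V

/-- The operator `A` on qudits and an environment touches only the qudits in `S`. -/
def BL {Ω : Type} (S : Finset V) (A : Matrix ((V → ZMod p) × Ω) ((V → ZMod p) × Ω) ℂ) : Prop :=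
  (∀ y y', A y y' ≠ 0 → ∀ v, v ∉ S → y.1 v = y'.1 v) ∧
    ∀ u : V → ZMod p, (∀ v ∈ S, u v = 0) → ∀ y y', A (y.1 + u, y.2) (y'.1 + u, y'.2) = A y y'

end Qudit

/-- Row Four: the Fourier matrix is unitary; supports of Fourier multipliers; local operators are
banded in the Fourier basis. -/
def FourStmt : Prop :=
  ∀ (p : ℕ) [Fact p.Prime] (V : Type) [Fintype V] [DecidableEq V],
    four p V ∈ unitaryGroup (V → ZMod p) ℂ ∧
    (∀ (g : (V → ZMod p) → ℂ) (x y u : V → ZMod p),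
      ((four p V)ᴴ * diagonal g * four p V) (x + u) (y + u) =
        ((four p V)ᴴ * diagonal g * four p V) x y) ∧
    (∀ (g : (V → ZMod p) → ℂ) (z x y : V → ZMod p) (c : ZMod p),
      (∀ ξ, g (ξ + z) = ZMod.stdAddChar c * g ξ) →
      ((four p V)ᴴ * diagonal g * four p V) x y ≠ 0 → z ⬝ᵥ (x - y) = c) ∧
    ∀ (Ω : Type) [Fintype Ω] [DecidableEq Ω] (S : Finset V)
      (A : Matrix ((V → ZMod p) × Ω) ((V → ZMod p) × Ω) ℂ), BL S A → ∀ y y',
      ((four p V ⊗ₖ (1 : Matrix Ω Ω ℂ)) * A * (four p V ⊗ₖ (1 : Matrix Ω Ω ℂ))ᴴ) y y' ≠ 0 →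
      ∀ v, v ∉ S → y.1 v = y'.1 v

/-- Row Big: a locally defined low-energy subspace has dimension divisible by `p`. -/
def BigStmt : Prop :=
  ∀ (p : ℕ) [Fact p.Prime] (V J Ω I : Type) [Fintype V] [DecidableEq V] [Fintype J] [Fintype Ω]
    [DecidableEq Ω] [Fintype I] (C : Code p V J) (k : ℕ) (γ : ℝ)
    (Q : I → Matrix ((V → ZMod p) × Ω) ((V → ZMod p) × Ω) ℂ) (T : I → Finset V)
    (Pr : Matrix ((V → ZMod p) × Ω) ((V → ZMod p) × Ω) ℂ) (l d : ℕ), C.Good k γ → 0 < γ →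
    0 < Fintype.card V →
    (∀ i, Proj (Q i)) → (∀ i j, Q i * Q j = Q j * Q i) → Proj Pr →
    (∀ v, Pr *ᵥ v = v ↔ ∀ i, Q i *ᵥ v = 0) → (∀ i, BL (T i) (Q i)) → (∀ i, (T i).card ≤ l) →
    0 < Fintype.card I → Fintype.card I ≤ 2 * d ^ 2 → ((l * d : ℕ) : ℝ) ≤ γ * Fintype.card V →
    (∀ v, Pr *ᵥ v = v → ∑ s, ∑ j, qf (C.hm s j ⊗ₖ (1 : Matrix Ω Ω ℂ)) v ≤
      γ * Fintype.card V / 144 * nsq v) →
    ∃ m : ℕ, Pr.trace = (p * m : ℕ)

/-! ### Qubits -/

section Qubit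

variable {ι : Type} [Fintype ι] [DecidableEq ι]

/-- Labels of Pauli operators. -/
abbrev PL (ι : Type) : Type := (ι → ZMod 2) × (ι → ZMod 2)

/-- The Pauli operator of a label. -/
def W (v : PL ι) : Op ι := pauli v.1 v.2

/-- The symplectic form. -/
def sp (v v' : PL ι) : ZMod 2 := v.1 ⬝ᵥ v'.2 + v.2 ⬝ᵥ v'.1

/-- The label is supported in `S`. -/
def InS (S : Finset ι) (v : PL ι) : Prop := ∀ i, i ∉ S → v.1 i = 0 ∧ v.2 i = 0

/-- `A` touches only the qubits in `S`. -/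
def Loc (S : Finset ι) (A : Op ι) : Prop :=
  (∀ x y, A x y ≠ 0 → ∀ i, i ∉ S → x i = y i) ∧
    ∀ u : ι → ZMod 2, (∀ i ∈ S, u i = 0) → ∀ x y, A (x + u) (y + u) = A x y

open Classical in
/-- The labels of the Pauli operators that have `ψ` as an eigenvector. -/
noncomputable def Lam (ψ : St ι) : Finset (PL ι) := univ.filter fun v => ∃ c : ℂ, W v *ᵥ ψ = c • ψ

end Qubit

/-- Row Prep: few non-Clifford gates leave a large stabiliser group. -/
def PrepStmt : Prop :=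
  ∀ (ι : Type) [Fintype ι] [DecidableEq ι] (t : ℕ) (ψ : St ι), Prep t ψ →
    nsq ψ = 1 ∧ 2 ^ Fintype.card ι ≤ 2 ^ (2 * t) * (Lam ψ).card

/-- Row Cone: light cones. -/
def ConeStmt : Prop :=
  ∀ (ι : Type) [Fintype ι] [DecidableEq ι] (d : ℕ) (U : Op ι), HasDepth d U →
    U ∈ unitaryGroup (ι → ZMod 2) ℂ ∧ ∃ B B' : ι → Finset ι, (∀ q, (B q).card ≤ 2 ^ d) ∧
      (∀ q, (B' q).card ≤ 2 ^ d) ∧ (∀ r, (univ.filter fun q => r ∈ B' q).card ≤ 2 ^ d) ∧
      ∀ (S : Finset ι) (A : Op ι), Loc S A →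
        Loc (S.biUnion B) (U * A * Uᴴ) ∧ Loc (S.biUnion B') (Uᴴ * A * U)

/-- Row Comp: completion of the local stabilisers by measurements. -/
def CompStmt : Prop :=
  ∀ (ι J : Type) [Fintype ι] [DecidableEq ι] [Fintype J] (S : J → Finset ι) (h : J → Op ι)
    (κ ν : ℕ) (e : ℝ) (ψ : St ι), (∀ j, Loc (S j) (h j)) → (∀ j, (h j).PosSemidef) →
    (∀ j, (1 - h j).PosSemidef) → (∀ j, (univ.filter fun i => ¬ Disjoint (S i) (S j)).card ≤ κ) →
    ψ ≠ 0 → 2 ^ Fintype.card ι ≤ 2 ^ ν * (Lam ψ).card → ∑ j, qf (h j) ψ ≤ e * nsq ψ →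
    ∃ φ : St ι, φ ≠ 0 ∧ ∑ j, qf (h j) φ ≤ (e + κ * ν) * nsq φ ∧
      ∀ j z, InS (S j) z → z ∈ Lam φ ∨ ∃ i u, InS (S i) u ∧ u ∈ Lam φ ∧ sp z u = 1

/-- Row Stab: the code of the local stabilisers of a locally complete state. -/
def StabStmt : Prop :=
  ∀ (ι J : Type) [Fintype ι] [DecidableEq ι] [Fintype J] (S : J → Finset ι) (φ : St ι), φ ≠ 0 →
    (∀ j z, InS (S j) z → z ∈ Lam φ ∨ ∃ i u, InS (S i) u ∧ u ∈ Lam φ ∧ sp z u = 1) →
    ∃ (P : J → Op ι) (Pr : Op ι) (r : ℕ), (∀ j, Proj (P j)) ∧ (∀ j, Loc (S j) (P j)) ∧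
      (∀ i j, P i * P j = P j * P i) ∧ Proj Pr ∧ (∀ v, Pr *ᵥ v = v ↔ ∀ j, P j *ᵥ v = v) ∧
      Pr.trace * r = 2 ^ Fintype.card ι ∧
      ∀ (j : J) (A : Op ι), Loc (S j) A → ∀ v, Pr *ᵥ v = v → qf A v * nsq φ = qf A φ * nsq v

end Pool.Agent.MP_36f78e_lc.H46
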