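import Pool.Agent.MP_36f78e_lc.H46.Spec

/-! Small-set expansion of the quantum Tanner complex: lines and the inequality at one vertex. -/

set_option autoImplicit false
set_option linter.unusedSectionVars false

namespace Pool.Agent.MP_36f78e_lc.H46.Tan

open Matrix Finset

section wt
variable {Y β γ : Type} [Fintype Y]

open Classical in
theorem wt_eq [Zero β] (x : Y → β) : wt x = ∑ y, if x y ≠ 0 then 1 else 0 := card_filter _ _

theorem wt_le_card [Zero β] (x : Y → β) : wt x ≤ Fintype.card Y := card_le_univ _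

theorem wt_zero [Zero β] : wt (fun _ : Y => (0 : β)) = 0 := by simp [wt]

theorem wt_mono [Zero β] [Zero γ] {x : Y → β} {y : Y → γ} (h : ∀ i, x i ≠ 0 → y i ≠ 0) :
    wt x ≤ wt y := by
  classical
  refine card_le_card fun i hi => ?_
  simp only [mem_filter, mem_univ, true_and] at hi ⊢
  exact h i hi

theorem wt_neg [AddGroup β] (x : Y → β) : wt (-x) = wt x :=
  le_antisymm (wt_mono fun _ h => neg_ne_zero.1 h) (wt_mono fun _ h => neg_ne_zero.2 h)

theorem wt_add [AddMonoid β] (x y : Y → β) : wt (x + y) ≤ wt x + wt y := by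
  classical
  rw [wt_eq, wt_eq, wt_eq, ← sum_add_distrib]
  refine sum_le_sum fun i _ => ?_
  by_cases h1 : x i = 0 <;> by_cases h2 : y i = 0 <;> simp [h1, h2]
  split_ifs <;> omega

end wt

variable {F G A κ κ' : Type} [Field F] [Fintype G] [Fintype A] [Fintype κ] [Fintype κ']

/-- The function on squares with given local views. -/
def glue (π : A → A → Equiv.Perm G) (M : G → Matrix A A F) : G × A × A → F :=
  fun q => M (π q.2.1 q.2.2 q.1) q.2.1 q.2.2

omit [Field F] [Fintype G] [Fintype A] in
theorem view_glue (π : A → A → Equiv.Perm G) (M : G → Matrix A A F) (v : G) :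
    view π (glue π M) v = M v := by
  ext a b
  simp [view, glue]

omit [Field F] [Fintype G] [Fintype A] in
theorem view_inj (π : A → A → Equiv.Perm G) {x y : G × A × A → F}
    (h : ∀ v, view π x v = view π y v) : x = y := by
  funext ⟨g, a, b⟩
  simpa [view] using congrFun (congrFun (h (π a b g)) a) b

omit [Fintype G] [Fintype A] in
theorem view_sub (π : A → A → Equiv.Perm G) (x y : G × A × A → F) (v : G) :
    view π (x - y) v = view π x v - view π y v := rfl

omit [Fintype G] [Fintype A] in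
theorem view_neg (π : A → A → Equiv.Perm G) (x : G × A × A → F) (v : G) :
    view π (-x) v = -view π x v := rfl

omit [Field F] [Fintype G] [Fintype A] in
theorem view_shift {π π' : A → A → Equiv.Perm G} {ρ : Equiv.Perm G} {a b : A}
    (h : π' a b = ρ * π a b) (x : G × A × A → F) (v : G) :
    view π' x (ρ v) a b = view π x v a b := by
  have : (π' a b).symm (ρ v) = (π a b).symm v := by
    rw [Equiv.symm_apply_eq, h]
    simp
  simp [view, this]

/-- All columns are codewords. -/
def colS (π : A → A → Equiv.Perm G) (H : Matrix κ A F) : AddSubgroup (G × A × A → F) where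
  carrier := {x | ∀ v, H * view π x v = 0}
  add_mem' := fun {a b} ha hb v => by rw [view_add, Matrix.mul_add, ha v, hb v, add_zero]
  zero_mem' := fun v => by simp [view_zero]
  neg_mem' := fun {a} ha v => by rw [view_neg, Matrix.mul_neg, ha v, neg_zero]

/-- All rows are codewords. -/
def rowS (π : A → A → Equiv.Perm G) (H' : Matrix κ' A F) : AddSubgroup (G × A × A → F) where
  carrier := {x | ∀ v, view π x v * H'ᵀ = 0}
  add_mem' := fun {a b} ha hb v => by rw [view_add, Matrix.add_mul, ha v, hb v, add_zero]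
  zero_mem' := fun v => by simp [view_zero]
  neg_mem' := fun {a} ha v => by rw [view_neg, Matrix.neg_mul, ha v, neg_zero]

/-- The number of nonzero columns, rows and entries at a vertex. -/
noncomputable def nc (π : A → A → Equiv.Perm G) (x : G × A × A → F) (v : G) : ℕ :=
  wt fun b => (view π x v)ᵀ b

noncomputable def nr (π : A → A → Equiv.Perm G) (x : G × A × A → F) (v : G) : ℕ :=
  wt fun a => view π x v a

noncomputable def ne (π : A → A → Equiv.Perm G) (x : G × A × A → F) (v : G) : ℕ :=
  wt fun q : A × A => view π x v q.1 q.2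

variable {π π' : A → A → Equiv.Perm G} {ρ : A → Equiv.Perm G}

omit [Fintype G] [Fintype κ] in
theorem col_shift (h : ∀ a b, π' a b = ρ b * π a b) {H : Matrix κ A F} {x : G × A × A → F}
    (hx : x ∈ colS π H) : x ∈ colS π' H := fun v => by
  ext i b
  obtain ⟨u, rfl⟩ := (ρ b).surjective v
  have := congrFun (congrFun (hx u) i) b
  simpa only [mul_apply, view_shift (h _ b)] using this

omit [Fintype G] [Fintype κ'] in
theorem row_shift (h : ∀ a b, π' a b = ρ a * π a b) {H' : Matrix κ' A F} {x : G × A × A → F}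
    (hx : x ∈ rowS π H') : x ∈ rowS π' H' := fun v => by
  ext a i
  obtain ⟨u, rfl⟩ := (ρ a).surjective v
  have := congrFun (congrFun (hx u) a) i
  simpa only [mul_apply, view_shift (h a _)] using this

theorem sum_nc (h : ∀ a b, π' a b = ρ b * π a b) (x : G × A × A → F) :
    ∑ v, nc π' x v = ∑ v, nc π x v := by
  simp only [nc, wt_eq]
  rw [sum_comm, sum_comm (s := (univ : Finset G))]
  refine sum_congr rfl fun b _ => ?_
  rw [← Equiv.sum_comp (ρ b)]
  refine sum_congr rfl fun v _ => ?_
  have : (view π' x (ρ b v))ᵀ b = (view π x v)ᵀ b := funext fun a => view_shift (h a b) x v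
  rw [this]

theorem sum_nr (h : ∀ a b, π' a b = ρ a * π a b) (x : G × A × A → F) :
    ∑ v, nr π' x v = ∑ v, nr π x v := by
  simp only [nr, wt_eq]
  rw [sum_comm, sum_comm (s := (univ : Finset G))]
  refine sum_congr rfl fun a _ => ?_
  rw [← Equiv.sum_comp (ρ a)]
  refine sum_congr rfl fun v _ => ?_
  have : view π' x (ρ a v) a = view π x v a := funext fun b => view_shift (h a b) x v
  rw [this]

theorem sum_ne (π : A → A → Equiv.Perm G) (x : G × A × A → F) : ∑ v, ne π x v = wt x := by
  simp only [ne, wt_eq]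
  rw [sum_comm, Fintype.sum_prod_type_right (α₁ := G)]
  refine sum_congr rfl fun q _ => ?_
  rw [← Equiv.sum_comp (π q.1 q.2)]
  refine sum_congr rfl fun g _ => ?_
  have : view π x (π q.1 q.2 g) q.1 q.2 = x (g, q) := by simp [view]
  rw [this]

omit [Fintype G] in
theorem ne_le_nc (h : ∀ a b, π' a b = ρ a * π a b) (x : G × A × A → F) (v : G) :
    ne π x v ≤ ∑ a, nc π' x (ρ a v) := by
  simp only [ne, nc]
  rw [wt_eq, Fintype.sum_prod_type]
  refine sum_le_sum fun a _ => ?_
  refine (wt_eq fun b => view π x v a b).ge.trans (wt_mono fun b hb h0 => hb ?_)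
  rw [← view_shift (h a b)]
  exact congrFun h0 a

omit [Fintype G] in
theorem ne_le_nr (h : ∀ a b, π' a b = ρ b * π a b) (x : G × A × A → F) (v : G) :
    ne π x v ≤ ∑ b, nr π' x (ρ b v) := by
  simp only [ne, nr]
  rw [wt_eq, Fintype.sum_prod_type_right]
  refine sum_le_sum fun b _ => ?_
  refine (wt_eq fun a => view π x v a b).ge.trans (wt_mono fun a ha h0 => ha ?_)
  rw [← view_shift (h a b)]
  exact congrFun h0 b

theorem wt_le_nc (π : A → A → Equiv.Perm G) (x : G × A × A → F) :
    wt x ≤ Fintype.card A * ∑ v, nc π x v := by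
  rw [← sum_ne π, mul_sum]
  refine sum_le_sum fun v _ => ?_
  simpa using ne_le_nc (π := π) (π' := π) (ρ := fun _ => 1) (fun _ _ => (one_mul _).symm) x v

theorem wt_le_nr (π : A → A → Equiv.Perm G) (x : G × A × A → F) :
    wt x ≤ Fintype.card A * ∑ v, nr π x v := by
  rw [← sum_ne π, mul_sum]
  refine sum_le_sum fun v _ => ?_
  simpa using ne_le_nr (π := π) (π' := π) (ρ := fun _ => 1) (fun _ _ => (one_mul _).symm) x v

omit [Fintype G] in
theorem nr_neg (π : A → A → Equiv.Perm G) (x : G × A × A → F) : nr π (-x) = nr π x :=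
  funext fun v => wt_neg fun a => view π x v a

omit [Fintype G] in
theorem ne_add (π : A → A → Equiv.Perm G) (x y : G × A × A → F) (v : G) :
    ne π (x + y) v ≤ ne π x v + ne π y v :=
  wt_add (fun q : A × A => view π x v q.1 q.2) fun q : A × A => view π y v q.1 q.2

/-- No tensor word lowers the number of lines. -/
def GMin (π : A → A → Equiv.Perm G) (H : Matrix κ A F) (H' : Matrix κ' A F)
    (c r : G × A × A → F) : Prop :=
  ∀ y ∈ gen π H H', ∑ v, nc π c v + ∑ v, nr π r v ≤ ∑ v, nc π (c + y) v + ∑ v, nr π (r - y) v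

theorem loc {w : ℕ} {H : Matrix κ A F} {H' : Matrix κ' A F} (hP : PE w H H')
    {c r : G × A × A → F} (hc : c ∈ colS π H) (hr : r ∈ rowS π H') (hm : GMin π H H' c r)
    (v : G) : w * (nc π c v + nr π r v) ≤ 256 * ne π (c + r) v := by
  classical
  obtain ⟨c', r', e, h1, h2, h3⟩ := hP (view π (c + r) v) (by
    rw [view_add, Matrix.mul_add, hc v, zero_add, Matrix.mul_assoc, hr v, Matrix.mul_zero])
  refine le_trans (Nat.mul_le_mul_left w ?_) h3
  have e' : c' - view π c v = view π r v - r' := by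
    rw [view_add] at e
    rw [sub_eq_sub_iff_add_eq_add, ← e, add_comm]
  have hy : glue π (fun u => if u = v then c' - view π c v else 0) ∈ gen π H H' := fun u => by
    rw [view_glue]
    split_ifs
    · refine ⟨by rw [Matrix.mul_sub, h1, hc v, sub_zero], ?_⟩
      rw [e', Matrix.sub_mul, h2, hr v, sub_zero]
    · simp
  have := hm _ hy
  rw [← sum_add_distrib, ← sum_add_distrib, ← add_sum_erase _ _ (mem_univ v),
    ← add_sum_erase _ _ (mem_univ v)] at this
  have e1 : ∀ u ∈ univ.erase v,
      nc π (c + glue π fun u => if u = v then c' - view π c v else 0) u +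
        nr π (r - glue π fun u => if u = v then c' - view π c v else 0) u =
      nc π c u + nr π r u := fun u hu => by
    simp [nc, nr, view_add, view_sub, view_glue, ne_of_mem_erase hu]
  rw [sum_congr rfl e1] at this
  refine (Nat.le_of_add_le_add_right this).trans_eq ?_
  simp only [nc, nr, view_add, view_sub, view_glue, if_true]
  rw [add_sub_cancel, e', sub_sub_cancel]

theorem vertex {w : ℕ} {H : Matrix κ A F} {H' : Matrix κ' A F} (hP : PE w H H')
    (hA : Fintype.card A = 128 * w) {πc πr : A → A → Equiv.Perm G} {σ τ : A → Equiv.Perm G}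
    (h1 : ∀ a b, πc a b = σ a * π a b) (h2 : ∀ a b, πr a b = τ b * π a b) {lam : ℝ}
    (hσ : Mix σ lam) (hτ : Mix τ lam) {c r c₂ r₂ z : G × A × A → F} (hc : c ∈ colS π H)
    (hr : r ∈ rowS π H') (hm : GMin π H H' c r) (e : c + r = c₂ + r₂ + z) :
    w * ∑ v, ((nc π c v : ℝ) + nr π r v) ^ 2 ≤ 256 *
      (128 * w * ((∑ v, (nc π c v : ℝ) + ∑ v, (nr π r v : ℝ)) *
          (∑ v, (nc πc c₂ v : ℝ) + ∑ v, (nr πr r₂ v : ℝ)) / Fintype.card G) +
        lam / 2 * (2 * ∑ v, ((nc π c v : ℝ) + nr π r v) ^ 2 + ∑ v, (nc πc c₂ v : ℝ) ^ 2 +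
          ∑ v, (nr πr r₂ v : ℝ) ^ 2) + 256 * w * wt z) := by
  have k : ∀ v, w * ((nc π c v : ℝ) + nr π r v) ^ 2 ≤ 256 *
      (∑ a, ((nc π c v : ℝ) + nr π r v) * nc πc c₂ (σ a v) +
        ∑ b, ((nc π c v : ℝ) + nr π r v) * nr πr r₂ (τ b v) + 256 * w * ne π z v) := by
    intro v
    have a1 := loc hP hc hr hm v
    have a2 : ne π (c + r) v ≤ ∑ a, nc πc c₂ (σ a v) + ∑ b, nr πr r₂ (τ b v) + ne π z v := by
      rw [e]
      exact (ne_add _ _ _ _).trans (Nat.add_le_add_right ((ne_add _ _ _ _).trans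
        (Nat.add_le_add (ne_le_nc h1 _ _) (ne_le_nr h2 _ _))) _)
    have a3 : nc π c v + nr π r v ≤ 256 * w := by
      have b1 : nc π c v ≤ _ := wt_le_card _
      have b2 : nr π r v ≤ _ := wt_le_card _
      omega
    have a4 : (w : ℝ) * ((nc π c v : ℝ) + nr π r v) ≤ 256 *
        (∑ a, (nc πc c₂ (σ a v) : ℝ) + ∑ b, (nr πr r₂ (τ b v) : ℝ) + ne π z v) := by
      exact_mod_cast a1.trans (Nat.mul_le_mul_left 256 a2)
    have a5 : (nc π c v : ℝ) + nr π r v ≤ 256 * w := by exact_mod_cast a3
    have t0 : (0 : ℝ) ≤ (nc π c v : ℝ) + nr π r v := by positivity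
    have a6 := mul_le_mul_of_nonneg_left a4 t0
    have a7 := mul_le_mul_of_nonneg_right a5 (Nat.cast_nonneg (α := ℝ) (ne π z v))
    rw [← mul_sum, ← mul_sum]
    nlinarith
  have m1 := hσ (fun v => (nc π c v : ℝ) + nr π r v) fun v => nc πc c₂ v
  have m2 := hτ (fun v => (nc π c v : ℝ) + nr π r v) fun v => nr πr r₂ v
  have s := sum_le_sum fun v (_ : v ∈ (univ : Finset G)) => k v
  have z1 : ∑ v, (ne π z v : ℝ) = wt z := by exact_mod_cast sum_ne π z
  rw [← mul_sum, ← mul_sum, sum_add_distrib, sum_add_distrib, ← mul_sum, z1] at s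
  rw [hA, sum_add_distrib, mul_div_assoc] at m1 m2
  push_cast at m1 m2
  rw [mul_add (_ + _), add_div]
  linarith

end Pool.Agent.MP_36f78e_lc.H46.Tan
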